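import Pool.Agent.Helper7.SC.Leak

set_option autoImplicit false

/-! The main inequality. -/

namespace Pool.Agent.Helper7.SC

open Finset

/-- shift invariance of sums over a period -/
lemma sum_shift (x : ℕ) (f : ℤ → ℝ) (hf : ∀ j, f (j + x) = f j) (s : ℤ) :
    ∑ j ∈ range x, f (j + s) = ∑ j ∈ range x, f j := by
  have h1 : ∀ g : ℤ → ℝ, (∀ j, g (j + x) = g j) →
      ∑ j ∈ range x, g ((j : ℤ) + 1) = ∑ j ∈ range x, g j := by
    intro g hg
    have h2 := Finset.sum_range_succ' (fun j : ℕ => g j) x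
    have h3 := Finset.sum_range_succ (fun j : ℕ => g j) x
    rw [h2] at h3
    push_cast at h3
    have h4 := hg 0
    rw [zero_add] at h4
    rw [h4] at h3
    linarith
  have h5 : ∀ s : ℤ, ∑ j ∈ range x, f (j + (s + 1)) = ∑ j ∈ range x, f (j + s) := by
    intro s
    have h6 := h1 (fun j => f (j + s)) (by
      intro j
      have : j + (x : ℤ) + s = j + s + x := by ring
      rw [this, hf])
    rw [← h6]
    refine sum_congr rfl fun j _ => ?_
    congr 1
    ring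
  induction s using Int.induction_on with
  | zero => simp
  | succ n ih =>
    rw [h5, ih]
  | pred n ih =>
    rw [← ih, ← h5 (-(n : ℤ) - 1)]
    refine sum_congr rfl fun j _ => ?_
    congr 1
    ring

lemma sum_Hs_neg {m H : ℕ} (f : (Fin m → ℤ) → ℝ) :
    ∑ h ∈ Hs m H, f (-h) = ∑ h ∈ Hs m H, f h := by
  refine Finset.sum_nbij' (fun h => -h) (fun h => -h) ?_ ?_ ?_ ?_ ?_
  · intro h hh
    rw [Hs, Fintype.mem_piFinset] at hh ⊢
    intro B
    have := hh B
    rw [mem_Icc] at this ⊢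
    rw [Pi.neg_apply]
    omega
  · intro h hh
    rw [Hs, Fintype.mem_piFinset] at hh ⊢
    intro B
    have := hh B
    rw [mem_Icc] at this ⊢
    rw [Pi.neg_apply]
    omega
  · intro h _
    exact neg_neg h
  · intro h _
    exact neg_neg h
  · intro h _
    rfl

lemma rho_neg {m : ℕ} (H : ℕ) (Δ : ℝ) (h : Fin m → ℤ) : rho H Δ (-h) = rho H Δ h := by
  unfold rho
  refine prod_congr rfl fun B _ => ?_
  simp only [Pi.neg_apply, neg_eq_zero]

lemma sh_neg (b q r K : ℕ) {m : ℕ} (h : Fin m → ℤ) : sh b q r K (-h) = - sh b q r K h := by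
  unfold sh
  rw [← Finset.sum_neg_distrib]
  refine sum_congr rfl fun B _ => ?_
  rw [Pi.neg_apply]
  ring

lemma sh_div (b q r K : ℕ) (hb : 2 ≤ b) {m : ℕ} (hK : r + m * q ≤ K) (h : Fin m → ℤ) :
    ((sh b q r K h : ℤ) : ℝ) / (b : ℝ) ^ K = psi b q r h := by
  have hb0 : (b : ℝ) ≠ 0 := by
    have : b ≠ 0 := by omega
    exact_mod_cast this
  unfold sh psi
  push_cast
  rw [Finset.sum_div]
  refine sum_congr rfl fun B _ => ?_
  have h1 : r + ((B : ℕ) + 1) * q ≤ K := by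
    have : ((B : ℕ) + 1) * q ≤ m * q := Nat.mul_le_mul_right q B.isLt
    omega
  rw [div_eq_div_iff (pow_ne_zero _ hb0) (pow_ne_zero _ hb0), mul_assoc, ← pow_add]
  congr 2
  omega

/-- Schur test with the weight `g` -/
theorem schur {m H : ℕ} (x : ℕ) (Δ M : ℝ) (hΔ : 0 ≤ Δ) (s : (Fin m → ℤ) → ℤ)
    (hs : ∀ h, s (-h) = - s h) (N F g : ℤ → ℝ) (hN : ∀ j, 0 ≤ N j) (hg : ∀ j, 0 < g j)
    (hNx : ∀ j, N (j + x) = N j) (hFx : ∀ j, F (j + x) = F j) (hgx : ∀ j, g (j + x) = g j)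
    (h1 : ∀ j, N j * ∑ h ∈ Hs m H, rho H Δ h * g (j + s h) ≤ M * g j)
    (h2 : ∀ j, ∑ h ∈ Hs m H, rho H Δ h * (N (j + s h) * g (j + s h)) ≤ M * g j) :
    ∑ j ∈ range x, N j * ∑ h ∈ Hs m H, rho H Δ h * (F j * F (j + s h)) ≤
      M * ∑ j ∈ range x, F j ^ 2 := by
  have hrho : ∀ h : Fin m → ℤ, 0 ≤ rho H Δ h := by
    intro h
    unfold rho
    refine prod_nonneg fun B _ => ?_
    split_ifs
    · exact zero_le_one
    · positivity
  have h3 : ∀ j : ℤ, ∀ h : Fin m → ℤ, F j * F (j + s h) ≤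
      1 / 2 * (F j ^ 2 * (g (j + s h) / g j)) + 1 / 2 * (F (j + s h) ^ 2 * (g j / g (j + s h))) := by
    intro j h
    have ha := hg j
    have hb := hg (j + s h)
    have h4 : 1 / 2 * (F j ^ 2 * (g (j + s h) / g j)) +
        1 / 2 * (F (j + s h) ^ 2 * (g j / g (j + s h))) - F j * F (j + s h) =
        (F j * g (j + s h) - F (j + s h) * g j) ^ 2 / (2 * g j * g (j + s h)) := by
      field_simp
      ring
    have h5 : 0 ≤ (F j * g (j + s h) - F (j + s h) * g j) ^ 2 / (2 * g j * g (j + s h)) := by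
      positivity
    linarith
  have h6 : ∑ j ∈ range x, N j * ∑ h ∈ Hs m H, rho H Δ h * (F j * F (j + s h)) ≤
      ∑ j ∈ range x, (1 / 2 * (F j ^ 2 / g j * (N j * ∑ h ∈ Hs m H, rho H Δ h * g (j + s h))) +
        1 / 2 * ∑ h ∈ Hs m H, rho H Δ h *
          (F (j + s h) ^ 2 * (N j * g j / g (j + s h)))) := by
    refine sum_le_sum fun j _ => ?_
    have h7 : N j * ∑ h ∈ Hs m H, rho H Δ h * (F j * F (j + s h)) ≤
        N j * ∑ h ∈ Hs m H, rho H Δ h * (1 / 2 * (F j ^ 2 * (g (j + s h) / g j)) +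
          1 / 2 * (F (j + s h) ^ 2 * (g j / g (j + s h)))) :=
      mul_le_mul_of_nonneg_left (sum_le_sum fun h _ =>
        mul_le_mul_of_nonneg_left (h3 j h) (hrho h)) (hN j)
    refine h7.trans (le_of_eq ?_)
    simp only [Finset.mul_sum]
    rw [← Finset.sum_add_distrib]
    refine sum_congr rfl fun h _ => ?_
    ring
  refine h6.trans ?_
  rw [Finset.sum_add_distrib, ← Finset.mul_sum, ← Finset.mul_sum]
  have h8 : ∑ j ∈ range x, F j ^ 2 / g j * (N j * ∑ h ∈ Hs m H, rho H Δ h * g (j + s h)) ≤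
      M * ∑ j ∈ range x, F j ^ 2 := by
    rw [Finset.mul_sum]
    refine sum_le_sum fun j _ => ?_
    have ha := hg j
    calc F j ^ 2 / g j * (N j * ∑ h ∈ Hs m H, rho H Δ h * g (j + s h))
        ≤ F j ^ 2 / g j * (M * g j) := mul_le_mul_of_nonneg_left (h1 j) (by positivity)
      _ = M * F j ^ 2 := by field_simp
  have h9 : ∑ j ∈ range x, ∑ h ∈ Hs m H, rho H Δ h *
      (F (j + s h) ^ 2 * (N j * g j / g (j + s h))) ≤ M * ∑ j ∈ range x, F j ^ 2 := by
    have h10 : ∑ j ∈ range x, ∑ h ∈ Hs m H, rho H Δ h *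
        (F (j + s h) ^ 2 * (N j * g j / g (j + s h))) =
        ∑ j ∈ range x, F j ^ 2 / g j *
          ∑ h ∈ Hs m H, rho H Δ h * (N (j + s h) * g (j + s h)) := by
      rw [Finset.sum_comm]
      have h11 : ∀ h ∈ Hs m H, ∑ j ∈ range x, rho H Δ h *
          (F (j + s h) ^ 2 * (N j * g j / g (j + s h))) =
          ∑ j ∈ range x, rho H Δ h *
            (F j ^ 2 * (N (j - s h) * g (j - s h) / g j)) := by
        intro h _
        have h12 := sum_shift x (fun j => rho H Δ h *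
            (F j ^ 2 * (N (j - s h) * g (j - s h) / g j))) (by
          intro j
          have e1 : j + (x : ℤ) - s h = (j - s h) + x := by ring
          rw [e1, hNx, hgx, hFx, hgx]) (s h)
        rw [← h12]
        refine sum_congr rfl fun j _ => ?_
        simp only [add_sub_cancel_right]
      rw [sum_congr rfl h11, Finset.sum_comm]
      refine sum_congr rfl fun j _ => ?_
      rw [← sum_Hs_neg, Finset.mul_sum]
      refine sum_congr rfl fun h _ => ?_
      rw [rho_neg, hs, sub_neg_eq_add]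
      ring
    rw [h10, Finset.mul_sum]
    refine sum_le_sum fun j _ => ?_
    have ha := hg j
    calc F j ^ 2 / g j * ∑ h ∈ Hs m H, rho H Δ h * (N (j + s h) * g (j + s h))
        ≤ F j ^ 2 / g j * (M * g j) := mul_le_mul_of_nonneg_left (h2 j) (by positivity)
      _ = M * F j ^ 2 := by field_simp
  linarith

lemma F_add (x : ℕ) (hx : 0 < x) (S : Finset ℕ) (j : ℤ) : F x S (j + x) = F x S j := by
  unfold F
  congr 2
  refine sum_congr rfl fun a _ => ?_
  have hx0 : (x : ℝ) ≠ 0 := by exact_mod_cast hx.ne'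
  have h1 : (a : ℝ) * (((j + x : ℤ) : ℝ) / x) = a * (j / x) + ((a : ℤ) : ℝ) := by
    push_cast
    field_simp
  rw [h1, e_add, e_int, mul_one]

theorem stA1 : StA1 := by
  intro b q r m K H p Δ η hb hK hH hQ hΔ hp hp2 hη hη1 hL S
  have hb0 : (0 : ℝ) < b := by
    have : 0 < b := by omega
    exact_mod_cast this
  have hη0 : 0 < η := by
    rw [hη]
    positivity
  have hq : 1 ≤ q := by
    rcases Nat.eq_zero_or_pos q with h | h
    · subst h
      simp at hQ
      omega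
    · exact h
  have hQc : ((b ^ q : ℕ) : ℝ) = (b : ℝ) ^ q := by push_cast; rfl
  have hxc : ((b ^ K : ℕ) : ℝ) = (b : ℝ) ^ K := by push_cast; rfl
  have hx0 : (b : ℝ) ^ K ≠ 0 := pow_ne_zero _ hb0.ne'
  -- phases
  have hph : ∀ (j s : ℤ) (B : Fin m), (b : ℝ) ^ (r + (B : ℕ) * q) * (((j + s : ℤ) : ℝ) / (b : ℝ) ^ K) =
      (b : ℝ) ^ (r + (B : ℕ) * q) * ((j : ℝ) / (b : ℝ) ^ K + (s : ℝ) / (b : ℝ) ^ K) := by
    intro j s B
    push_cast
    ring
  have hper : ∀ (j : ℤ) (B : Fin m), (b : ℝ) ^ (r + (B : ℕ) * q) *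
      (((j + (b ^ K : ℕ) : ℤ) : ℝ) / (b : ℝ) ^ K) =
      (b : ℝ) ^ (r + (B : ℕ) * q) * ((j : ℝ) / (b : ℝ) ^ K) +
        (((b : ℤ) ^ (r + (B : ℕ) * q) : ℤ) : ℝ) := by
    intro j B
    push_cast
    field_simp
  set g : ℤ → ℝ := fun j => ∏ B : Fin m, ga (b ^ q) η ((b : ℝ) ^ (r + (B : ℕ) * q) *
    ((j : ℝ) / (b : ℝ) ^ K)) with hgdef
  have hLf : Real.exp (2 * (4 * Real.pi * ((b ^ q : ℕ) : ℝ) / η) * H / ((b : ℝ) ^ q) ^ 2) ≤ 2 := by
    refine le_trans (le_of_eq ?_) hL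
    congr 1
    rw [hQc]
    field_simp
    ring
  have hL0 : 0 ≤ 4 * Real.pi * ((b ^ q : ℕ) : ℝ) / η := by positivity
  have hM : (1 + 4 * Δ * η) ^ m = ∏ _B : Fin m, (1 + 4 * Δ * η) := by
    rw [Finset.prod_const, card_univ, Fintype.card_fin]
  have hblock : ∀ y : ℝ, v (b ^ q) p y * ga (b ^ q) η y + 2 * (Δ / (2 * H)) *
      ∑ k ∈ Kz H, ga (b ^ q) η (y + k / (b : ℝ) ^ q) ≤ (1 + 4 * Δ * η) * ga (b ^ q) η y := by
    intro y
    have := block hH hQ hΔ hp hη hη1 y
    rw [hQc] at this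
    exact this
  have hga0 : ∀ y, 0 < ga (b ^ q) η y := fun y => hη0.trans_le (le_ga hη1 y)
  have hv0 : ∀ y, 0 ≤ v (b ^ q) p y := fun y => v_nonneg hp.le (by linarith) y
  have hv1 : ∀ y, v (b ^ q) p y ≤ 1 := fun y => v_le_one hp.le y
  have hsum0 : ∀ y, 0 ≤ ∑ k ∈ Kz H, ga (b ^ q) η (y + k / (b : ℝ) ^ q) :=
    fun y => sum_nonneg fun k _ => (hga0 _).le
  have hDH : 0 ≤ 2 * (Δ / (2 * H)) := by positivity
  refine schur (b ^ K) Δ ((1 + 4 * Δ * η) ^ m) hΔ.le (sh b q r K) (sh_neg b q r K)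
    (nuhat b q r m K p) (F (b ^ K) S) g ?_ ?_ ?_ ?_ ?_ ?_ ?_
  · intro j
    exact prod_nonneg fun B _ => hv0 _
  · intro j
    exact prod_pos fun B _ => hga0 _
  · intro j
    unfold nuhat
    refine prod_congr rfl fun B _ => ?_
    rw [hper, v_add_int]
  · intro j
    exact F_add (b ^ K) (pow_pos (by omega) K) S j
  · intro j
    simp only [hgdef]
    refine prod_congr rfl fun B _ => ?_
    rw [hper, ga_add_int]
  · intro j
    have h1 := leak b q r H hb hq hH Δ (4 * Real.pi * ((b ^ q : ℕ) : ℝ) / η) hΔ.le hL0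
      (ga (b ^ q) η) (fun y => (hga0 y).le) (fun y k => ga_add_int _ _ y k)
      (fun y s => ga_shift' hη0 hη1 y s) ((j : ℝ) / (b : ℝ) ^ K) hLf (m := m)
    have h2 : ∑ h ∈ Hs m H, rho H Δ h * g (j + sh b q r K h) =
        ∑ h ∈ Hs m H, rho H Δ h * ∏ B : Fin m, ga (b ^ q) η
          ((b : ℝ) ^ (r + (B : ℕ) * q) * ((j : ℝ) / (b : ℝ) ^ K + psi b q r h)) := by
      refine sum_congr rfl fun h _ => ?_
      simp only [hgdef]
      congr 1
      refine prod_congr rfl fun B _ => ?_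
      rw [hph, sh_div b q r K hb hK]
    rw [h2]
    refine (mul_le_mul_of_nonneg_left h1 (prod_nonneg fun B _ => hv0 _)).trans ?_
    rw [hM]
    simp only [hgdef]
    rw [← Finset.prod_mul_distrib, ← Finset.prod_mul_distrib]
    refine prod_le_prod (fun B _ => mul_nonneg (hv0 _) (add_nonneg (hga0 _).le
      (mul_nonneg hDH (hsum0 _)))) fun B _ => ?_
    refine le_trans ?_ (hblock _)
    rw [mul_add]
    refine add_le_add le_rfl ?_
    exact mul_le_of_le_one_left (mul_nonneg hDH (hsum0 _)) (hv1 _)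
  · intro j
    have h1 := leak b q r H hb hq hH Δ (4 * Real.pi * ((b ^ q : ℕ) : ℝ) / η) hΔ.le hL0
      (fun y => v (b ^ q) p y * ga (b ^ q) η y) (fun y => mul_nonneg (hv0 y) (hga0 y).le)
      (fun y k => by rw [ga_add_int, v_add_int])
      (fun y s => vga_shift hp.le hp2 hη0 hη1 y s) ((j : ℝ) / (b : ℝ) ^ K) hLf (m := m)
    have h2 : ∑ h ∈ Hs m H, rho H Δ h * (nuhat b q r m K p (j + sh b q r K h) *
        g (j + sh b q r K h)) =
        ∑ h ∈ Hs m H, rho H Δ h * ∏ B : Fin m, (fun y => v (b ^ q) p y * ga (b ^ q) η y)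
          ((b : ℝ) ^ (r + (B : ℕ) * q) * ((j : ℝ) / (b : ℝ) ^ K + psi b q r h)) := by
      refine sum_congr rfl fun h _ => ?_
      simp only [hgdef]
      unfold nuhat
      rw [← Finset.prod_mul_distrib]
      congr 1
      refine prod_congr rfl fun B _ => ?_
      rw [hph, sh_div b q r K hb hK]
    rw [h2]
    refine h1.trans ?_
    rw [hM]
    simp only [hgdef]
    rw [← Finset.prod_mul_distrib]
    refine prod_le_prod (fun B _ => add_nonneg (mul_nonneg (hv0 _) (hga0 _).le)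
      (mul_nonneg hDH (sum_nonneg fun k _ => mul_nonneg (hv0 _) (hga0 _).le))) fun B _ => ?_
    refine le_trans ?_ (hblock _)
    refine add_le_add le_rfl (mul_le_mul_of_nonneg_left (sum_le_sum fun k _ => ?_) hDH)
    exact mul_le_of_le_one_left (hga0 _).le (hv1 _)

end Pool.Agent.Helper7.SC
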