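import Pool.Agent.Helper7.SC.Frames

set_option autoImplicit false

/-! Energy modulo `x` against the integers. -/

namespace Pool.Agent.Helper7.SC

open Finset

theorem stA4 : StA4 := by
  intro x S hS
  rcases Nat.eq_zero_or_pos x with hx | hx
  · subst hx
    have h0 : S = ∅ := by simpa using hS
    subst h0
    simp [Ecyc]
  set T := S ×ˢ S with hT
  set φ : ℕ × ℕ → ℕ := fun p => (p.1 + p.2) % x with hφ
  have h1 : Ecyc x S = ∑ p ∈ T, ∑ p' ∈ T, if φ p' = φ p then (1 : ℝ) else 0 := by
    rw [hT, Finset.sum_product]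
    unfold Ecyc
    refine sum_congr rfl fun a _ => sum_congr rfl fun a' _ => ?_
    rw [Finset.sum_product]
    refine sum_congr rfl fun c _ => sum_congr rfl fun c' _ => ?_
    simp only [hφ]
    by_cases h : (a + a') % x = (c + c') % x
    · rw [if_pos ((ZMod.natCast_eq_natCast_iff' _ _ _).2 h), if_pos h.symm]
    · rw [if_neg (fun h2 => h ((ZMod.natCast_eq_natCast_iff' _ _ _).1 h2)),
        if_neg (fun h2 => h h2.symm)]
  have h2 : ∀ t, (#{p ∈ T | φ p = t} : ℝ) = ∑ p' ∈ T, if φ p' = t then (1 : ℝ) else 0 := by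
    intro t
    rw [Finset.card_filter]
    push_cast
    rfl
  have h3 : Ecyc x S = ∑ t ∈ range x, (#{p ∈ T | φ p = t} : ℝ) ^ 2 := by
    rw [h1]
    have h4 : ∀ p ∈ T, φ p ∈ range x := fun p _ => mem_range.2 (Nat.mod_lt _ hx)
    rw [← Finset.sum_fiberwise_of_maps_to h4]
    refine sum_congr rfl fun t _ => ?_
    have h5 : ∀ p ∈ T.filter (fun p => φ p = t), (∑ p' ∈ T, if φ p' = φ p then (1 : ℝ) else 0) =
        (#{p ∈ T | φ p = t} : ℝ) := by
      intro p hp
      rw [h2, (mem_filter.1 hp).2]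
    rw [sum_congr rfl h5, Finset.sum_const, nsmul_eq_mul, sq]
  have h6 : ∀ t ∈ range x, (#{p ∈ T | φ p = t} : ℝ) =
      (#{a ∈ T | a.1 + a.2 = t} : ℝ) + (#{a ∈ T | a.1 + a.2 = t + x} : ℝ) := by
    intro t ht
    rw [mem_range] at ht
    rw [← Nat.cast_add, ← Finset.card_union_of_disjoint]
    · congr 2
      ext p
      rw [mem_union, mem_filter, mem_filter, mem_filter]
      constructor
      · rintro ⟨hp, h7⟩
        have h8 := mem_product.1 hp
        have h9 := mem_range.1 (hS h8.1)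
        have h10 := mem_range.1 (hS h8.2)
        simp only [hφ] at h7
        rcases lt_or_ge (p.1 + p.2) x with h11 | h11
        · left
          rw [Nat.mod_eq_of_lt h11] at h7
          exact ⟨hp, h7⟩
        · right
          refine ⟨hp, ?_⟩
          rw [Nat.mod_eq_sub_mod h11, Nat.mod_eq_of_lt (by omega)] at h7
          omega
      · rintro (⟨hp, h7⟩ | ⟨hp, h7⟩)
        · refine ⟨hp, ?_⟩
          simp only [hφ]
          rw [h7, Nat.mod_eq_of_lt ht]
        · refine ⟨hp, ?_⟩
          simp only [hφ]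
          rw [h7, Nat.add_mod_right, Nat.mod_eq_of_lt ht]
    · rw [Finset.disjoint_filter]
      intro p _ h7 h8
      omega
  rw [h3, two_mul x, Finset.sum_range_add, ← Finset.sum_add_distrib, Finset.mul_sum]
  refine sum_le_sum fun t ht => ?_
  rw [h6 t ht, add_comm x t]
  nlinarith [sq_nonneg ((#{a ∈ T | a.1 + a.2 = t} : ℝ) - (#{a ∈ T | a.1 + a.2 = t + x} : ℝ))]

end Pool.Agent.Helper7.SC
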