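import Mathlib

set_option autoImplicit false

/-!
Sensitivity of choice functions: the objects of the proof.
`b` base, `x = b ^ K`, `Q = b ^ q`, blocks of digits `[r + B q, r + (B + 1) q)`, `B < m`.
-/

namespace Pool.Agent.Helper7.SC

open Finset

/-- `e(t) = exp(2 pi i t)` -/
noncomputable def e (t : ℝ) : ℂ := Complex.exp (2 * Real.pi * t * Complex.I)

/-- Fejer kernel, `w(y) = |Q⁻¹ sum_(τ<Q) e(τ y)|²` -/
noncomputable def w (Q : ℕ) (y : ℝ) : ℝ := ‖(1 / Q : ℂ) * ∑ τ ∈ range Q, e (τ * y)‖ ^ 2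

noncomputable def v (Q : ℕ) (p y : ℝ) : ℝ := 1 - p * (1 - w Q y)

noncomputable def ga (Q : ℕ) (η y : ℝ) : ℝ := η + (1 - η) * w Q y

/-- the nonzero integers of absolute value at most `H` -/
noncomputable def Kz (H : ℕ) : Finset ℤ := (Icc (-(H : ℤ)) H).erase 0

/-- one coordinate of the noise: no jump, or a jump `τ - τ'` -/
abbrev St (Q : ℕ) := Option (Fin Q × Fin Q)

noncomputable def wt (Q : ℕ) (p : ℝ) : St Q → ℝ
  | none => 1 - p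
  | some _ => p / (Q : ℝ) ^ 2

def jump (Q : ℕ) : St Q → ℤ
  | none => 0
  | some t => ((t.1 : ℕ) : ℤ) - ((t.2 : ℕ) : ℤ)

noncomputable def P {Q m : ℕ} (p : ℝ) (ω : Fin m → St Q) : ℝ := ∏ B, wt Q p (ω B)

/-- the noise `z(ω) = sum_B (τ_B - τ'_B) b ^ (r + B q)` -/
def z (b q r : ℕ) {m : ℕ} (ω : Fin m → St (b ^ q)) : ℤ :=
  ∑ B : Fin m, jump (b ^ q) (ω B) * (b : ℤ) ^ (r + B * q)

/-- the law of the noise modulo `b ^ K` -/
noncomputable def law (b q r m K : ℕ) (p : ℝ) (t : ZMod (b ^ K)) : ℝ :=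
  ∑ ω : Fin m → St (b ^ q), if ((z b q r ω : ℤ) : ZMod (b ^ K)) = t then P p ω else 0

/-- `κ(y) = (1/2H) sum_(0<|k|≤H) e(k y)` -/
noncomputable def ka (H : ℕ) (y : ℝ) : ℝ :=
  1 / (2 * H) * ∑ k ∈ Kz H, Real.cos (2 * Real.pi * (k * y))

/-- the twist `R(d) = prod_B (1 + Δ κ(d / b ^ (r + (B + 1) q)))` -/
noncomputable def R (b q r m H : ℕ) (Δ : ℝ) (d : ℤ) : ℝ :=
  ∏ B : Fin m, (1 + Δ * ka H ((d : ℝ) / (b : ℝ) ^ (r + (B + 1) * q)))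

/-- the number of `(a, a', c, c')` in `S^4` with `a + a' = c + c'` modulo `x` -/
noncomputable def Ecyc (x : ℕ) (S : Finset ℕ) : ℝ :=
  ∑ a ∈ S, ∑ a' ∈ S, ∑ c ∈ S, ∑ c' ∈ S,
    if ((a + a' : ℕ) : ZMod x) = ((c + c' : ℕ) : ZMod x) then (1 : ℝ) else 0

/-- the left side of the main inequality -/
noncomputable def X (b q r m K H : ℕ) (p Δ : ℝ) (S : Finset ℕ) : ℝ :=
  ∑ a ∈ S, ∑ a' ∈ S, ∑ c ∈ S, ∑ c' ∈ S,
    law b q r m K p ((c : ZMod (b ^ K)) + c' - a - a') * R b q r m H Δ ((a : ℤ) - c)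

end Pool.Agent.Helper7.SC
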