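import Pool.Agent.Helper7.SC.SharpHidden
import Pool.Agent.Helper45.HD.SetForm

set_option autoImplicit false

/-! Sharpness of the hidden digits theorem, set form. -/

namespace Pool.Agent.Helper7.SC

open Finset
open Pool.Agent.Helper57.U2
open Pool.Agent.Helper45.HD (IsRule hits guessedSet)

/-- a choice whose digits are functions of `v` digits is guessed, for every `n`, when each digit
is hidden with probability `1 / (4 v)` -/
theorem rule_of_few (b K v : ℕ) (hb : 2 ≤ b) (hv : 1 ≤ v) (A : Set ℕ) (f : ℕ → ℕ)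
    (hA : IsChoice A {n | n < b ^ K} f)
    (hf : ∀ i < K, FewDigits b v fun n => digit b i (f n)) :
    ∃ J : Finset ℕ → ℕ → ℕ → ℕ, IsRule b K J ∧
      guessedSet b K (1 / (4 * v)) (1 / 4) A J = range (b ^ K) := by
  classical
  have hb0 : (0 : ℝ) < b := by
    have : 0 < b := by omega
    exact_mod_cast this
  have hv1 : (1 : ℝ) ≤ v := by exact_mod_cast hv
  have hQ : ∀ i, ∃ Q : Finset ℕ, i < K → #Q ≤ v ∧
      ∀ m n, (∀ q ∈ Q, digit b q m = digit b q n) → digit b i (f m) = digit b i (f n) := by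
    intro i
    by_cases hi : i < K
    · obtain ⟨Q, hQ1, hQ2⟩ := hf i hi
      exact ⟨Q, fun _ => ⟨hQ1, hQ2⟩⟩
    · exact ⟨∅, fun h' => absurd h' hi⟩
  choose Q hQ using hQ
  obtain ⟨t, ht⟩ : ∃ t : ℝ, t = 1 / (4 * v) := ⟨_, rfl⟩
  have ht0 : 0 ≤ t := by rw [ht]; positivity
  have ht1 : t ≤ 1 / 4 := by
    rw [ht, div_le_div_iff₀ (by positivity) (by norm_num)]
    linarith
  refine ⟨fun R i n => if i < K ∧ Disjoint (Q i ∩ range K) R then digit b i (f (n % b ^ K))
    else 0, ?_, ?_⟩
  · intro R i m n hmn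
    by_cases h : i < K ∧ Disjoint (Q i ∩ range K) R
    · simp only [if_pos h]
      refine (hQ i h.1).2 _ _ fun q hq => ?_
      by_cases hqK : q < K
      · have h1 := hmn q hqK fun hqR =>
          (Finset.disjoint_left.1 h.2 (mem_inter.2 ⟨hq, mem_range.2 hqK⟩)) hqR
        have h2 : ∀ n, digit b q (n % b ^ K) = digit b q n := by
          intro n
          unfold digit
          have e : b ^ K = b ^ q * b ^ (K - q) := by
            rw [← pow_add]; congr 1; omega
          have h3 : b ∣ b ^ (K - q) := dvd_pow_self b (by omega)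
          rw [e, Nat.mod_mul_right_div_self, Nat.mod_mod_of_dvd _ h3]
        rw [h2, h2]
        exact h1
      · have h2 : ∀ n, digit b q (n % b ^ K) = 0 := by
          intro n
          unfold digit
          have h3 : n % b ^ K < b ^ q :=
            lt_of_lt_of_le (Nat.mod_lt _ (by positivity)) (Nat.pow_le_pow_right (by omega)
              (not_lt.1 hqK))
          rw [Nat.div_eq_of_lt h3, Nat.zero_mod]
        rw [h2, h2]
    · simp only [if_neg h]
  · rw [← ht]
    unfold guessedSet
    refine filter_true_of_mem fun n hn => ?_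
    have hn' := mem_range.1 hn
    obtain ⟨h1, h2, h3⟩ := hA n hn'
    refine ⟨f n, h2, n - f n, h3, by omega, ?_⟩
    unfold hits
    have h4 : ∀ R ∈ (range K).powerset, t ^ #R * (1 - t) ^ (K - #R) *
        ∑ i ∈ range K, (if Disjoint (Q i ∩ range K) R then (1 : ℝ) else 0) ≤
        t ^ #R * (1 - t) ^ (K - #R) * #{i ∈ range K | (if i < K ∧ Disjoint (Q i ∩ range K) R then
          digit b i (f (n % b ^ K)) else 0) = digit b i (f n)} := by
      intro R _
      refine mul_le_mul_of_nonneg_left ?_ (mul_nonneg (pow_nonneg ht0 _)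
        (pow_nonneg (by linarith) _))
      rw [card_filter]
      push_cast
      refine sum_le_sum fun i hi => ?_
      by_cases h : Disjoint (Q i ∩ range K) R
      · have hh : (if i < K ∧ Disjoint (Q i ∩ range K) R then
            digit b i (f (n % b ^ K)) else 0) = digit b i (f n) := by
          rw [if_pos ⟨mem_range.1 hi, h⟩, Nat.mod_eq_of_lt hn']
        rw [if_pos h, if_pos hh]
      · rw [if_neg h]
        split_ifs <;> norm_num
    refine le_trans ?_ (sum_le_sum h4)
    have h5 : ∑ R ∈ (range K).powerset, t ^ #R * (1 - t) ^ (K - #R) *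
        ∑ i ∈ range K, (if Disjoint (Q i ∩ range K) R then (1 : ℝ) else 0) =
        ∑ i ∈ range K, ∑ R ∈ (range K).powerset.filter (fun R => Disjoint (Q i ∩ range K) R),
          t ^ #R * (1 - t) ^ (K - #R) := by
      simp only [mul_sum, sum_filter]
      rw [sum_comm]
      refine sum_congr rfl fun i _ => sum_congr rfl fun R _ => ?_
      rw [mul_ite, mul_one, mul_zero]
    rw [h5]
    have h6 : ∀ i ∈ range K, (3 / 4 : ℝ) ≤
        ∑ R ∈ (range K).powerset.filter (fun R => Disjoint (Q i ∩ range K) R),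
          t ^ #R * (1 - t) ^ (K - #R) := by
      intro i hi
      have hiK := mem_range.1 hi
      rw [sum_visible K t _ inter_subset_right]
      have h6 : #(Q i ∩ range K) ≤ v := (card_le_card inter_subset_left).trans (hQ i hiK).1
      have h7 : (1 - t) ^ v ≤ (1 - t) ^ #(Q i ∩ range K) :=
        pow_le_pow_of_le_one (by linarith) (by linarith) h6
      have h8 := one_add_mul_le_pow (show (-2 : ℝ) ≤ -t by linarith) v
      have h9 : (v : ℝ) * t = 1 / 4 := by rw [ht]; field_simp
      have h10 : 1 + (v : ℝ) * -t = 3 / 4 := by linarith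
      have h11 : (1 + -t) ^ v = (1 - t) ^ v := by rw [← sub_eq_add_neg]
      rw [h10, h11] at h8
      linarith
    refine le_trans ?_ (sum_le_sum h6)
    rw [sum_const, card_range, nsmul_eq_mul, mul_comm]
    have hb2 : 1 / (b : ℝ) ≤ 1 / 2 := by
      have : (2 : ℝ) ≤ b := by exact_mod_cast hb
      exact one_div_le_one_div_of_le (by norm_num) this
    refine mul_le_mul_of_nonneg_left ?_ (Nat.cast_nonneg _)
    linarith

/-- Hidden digits: the bound is sharp for all `t = 1 / (4 v)`, set form. -/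
theorem sharp_set : ∃ C : ℝ, 0 < C ∧ ∀ b v m : ℕ, 2 ≤ b → 1 ≤ v →
    ∃ (A : Set ℕ) (J : Finset ℕ → ℕ → ℕ → ℕ), IsRule b (v * m) J ∧
      guessedSet b (v * m) (1 / (4 * v)) (1 / 4) A J = range (b ^ (v * m)) ∧
      ∑ n ∈ range (2 * b ^ (v * m)), (rep A n : ℝ) ^ 2 ≤ (b : ℝ) ^ (v * m) * Real.exp (C * m) := by
  obtain ⟨C, hC, h⟩ := sharp
  refine ⟨C, hC, fun b v m hb hv => ?_⟩
  obtain ⟨A, f, h1, h2, h3⟩ := h b v m hb
  obtain ⟨J, hJ, hJ2⟩ := rule_of_few b (v * m) v hb hv A f (fun n hn => h1 n hn) h2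
  exact ⟨A, J, hJ, hJ2, h3⟩

end Pool.Agent.Helper7.SC
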