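import Pool.Agent.Helper7.SC.SharpNoise
import Pool.Agent.Helper57.CH.Frames

set_option autoImplicit false

/-! Sharpness of the noisy reading theorem with two-sided noise. -/

namespace Pool.Agent.Helper7.SC

open Finset
open Pool.Agent.Helper57.U2
open Pool.Agent.Helper57.CH (states prob zz)

open Classical in
/-- The `n` below `b ^ K` with a representation `n = a + a'`, `a` and `a'` in `A`, such that
`J (n + z) i` is the digit of `a` at position `i` for at least `(1 / b + ε) K` of the `i < K`. -/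
noncomputable def readSetZ (b K : ℕ) (ε : ℝ) (A : Set ℕ) (J : ℤ → ℕ → ℕ) (z : ℤ) : Finset ℕ :=
  {n ∈ range (b ^ K) | ∃ a ∈ A, ∃ a' ∈ A, a + a' = n ∧
    (1 / b + ε) * K ≤ (#{i ∈ range K | J (n + z) i = digit b i a} : ℝ)}

lemma sum_states (K : ℕ) (s : ℝ) : ∑ ξ ∈ states K, prob s ξ = 1 := by
  have h := Finset.prod_univ_sum (fun _ : Fin K => ({-1, 0, 1} : Finset ℤ))
    (fun _ x => if x = 0 then 1 - s else s / 2)
  unfold states prob
  rw [← h]
  refine prod_eq_one fun i _ => ?_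
  rw [sum_insert (by decide), sum_insert (by decide), sum_singleton]
  norm_num
  ring

lemma sum_states_ne (K : ℕ) (s : ℝ) (i : Fin K) :
    ∑ ξ ∈ states K, prob s ξ * (if ξ i ≠ 0 then 1 else 0) = s := by
  have h := Finset.prod_univ_sum (fun _ : Fin K => ({-1, 0, 1} : Finset ℤ))
    (fun j x => if x = 0 then (if j = i then 0 else 1 - s) else s / 2)
  have h1 : ∀ ξ : Fin K → ℤ, prob s ξ * (if ξ i ≠ 0 then 1 else 0) =
      ∏ j, (if ξ j = 0 then (if j = i then 0 else 1 - s) else s / 2) := by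
    intro ξ
    by_cases hi : ξ i = 0
    · rw [if_neg (not_not.2 hi), mul_zero]
      refine (prod_eq_zero (mem_univ i) ?_).symm
      rw [if_pos hi, if_pos rfl]
    · rw [if_pos hi, mul_one]
      unfold prob
      refine prod_congr rfl fun j _ => ?_
      by_cases hj : ξ j = 0
      · have : j ≠ i := fun h' => hi (h' ▸ hj)
        rw [if_pos hj, if_pos hj, if_neg this]
      · rw [if_neg hj, if_neg hj]
  rw [sum_congr rfl fun ξ _ => h1 ξ]
  unfold states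
  rw [← h]
  have h2 : ∀ j : Fin K, ∑ x ∈ ({-1, 0, 1} : Finset ℤ),
      (if x = 0 then (if j = i then 0 else 1 - s) else s / 2) = if j = i then s else 1 := by
    intro j
    rw [sum_insert (by decide), sum_insert (by decide), sum_singleton]
    by_cases hj : j = i
    · rw [if_pos hj, if_pos hj]
      norm_num
    · rw [if_neg hj, if_neg hj]
      norm_num
      ring
  rw [prod_congr rfl fun j _ => h2 j, Finset.prod_ite_eq' univ i, if_pos (mem_univ i)]

/-- digits of residues -/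
lemma digit_emod (b K q : ℕ) (hb : 2 ≤ b) (hq : q < K) (y : ℤ) :
    (digit b q (y % ((b ^ K : ℕ) : ℤ)).toNat : ℤ) = y / (b : ℤ) ^ q % b := by
  have hb0 : (0 : ℤ) < b := by
    have : 0 < b := by omega
    exact_mod_cast this
  have hK : (0 : ℤ) < ((b ^ K : ℕ) : ℤ) := by push_cast; positivity
  unfold digit
  push_cast
  rw [Int.toNat_of_nonneg (Int.emod_nonneg _ (by positivity))]
  have h1 : y % (b : ℤ) ^ K = y + (b : ℤ) ^ q * (-(b * ((b : ℤ) ^ (K - q - 1) * (y / (b : ℤ) ^ K)))) := by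
    have h2 := Int.emod_add_mul_ediv y ((b : ℤ) ^ K)
    have h3 : (b : ℤ) ^ K = (b : ℤ) ^ q * (b * (b : ℤ) ^ (K - q - 1)) := by
      rw [← pow_succ', ← pow_add]; congr 1; omega
    have h4 : (b : ℤ) ^ K * (y / (b : ℤ) ^ K) =
        (b : ℤ) ^ q * (b * (b : ℤ) ^ (K - q - 1)) * (y / (b : ℤ) ^ K) := by
      congr 1
    linear_combination h2 - h4
  rw [h1, Int.add_mul_ediv_left _ _ (by positivity)]
  rw [show y / (b : ℤ) ^ q + -(b * ((b : ℤ) ^ (K - q - 1) * (y / (b : ℤ) ^ K))) =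
    y / (b : ℤ) ^ q + b * (-((b : ℤ) ^ (K - q - 1) * (y / (b : ℤ) ^ K))) by ring,
    Int.add_mul_emod_self_left]

/-- no carry, no change -/
lemma digit_add2 (b q n : ℕ) (zl k : ℤ) (hb : 2 ≤ b) (h0 : 0 ≤ ((n % b ^ q : ℕ) : ℤ) + zl)
    (h1 : ((n % b ^ q : ℕ) : ℤ) + zl < (b : ℤ) ^ q) :
    ((n : ℤ) + (zl + (b : ℤ) ^ (q + 1) * k)) / (b : ℤ) ^ q % b = (digit b q n : ℤ) := by
  have hb0 : (0 : ℤ) < b := by
    have : 0 < b := by omega
    exact_mod_cast this
  have h2 : (n : ℤ) = ((n % b ^ q : ℕ) : ℤ) + (b : ℤ) ^ q * ((n / b ^ q : ℕ) : ℤ) := by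
    have := Nat.mod_add_div n (b ^ q)
    have h3 : ((n % b ^ q + b ^ q * (n / b ^ q) : ℕ) : ℤ) = (n : ℤ) := by rw [this]
    push_cast at h3 ⊢
    exact h3.symm
  have h3 : (n : ℤ) + (zl + (b : ℤ) ^ (q + 1) * k) =
      (((n % b ^ q : ℕ) : ℤ) + zl) + (b : ℤ) ^ q * (((n / b ^ q : ℕ) : ℤ) + b * k) := by
    rw [pow_succ]
    linear_combination h2
  rw [h3, Int.add_mul_ediv_left _ _ (by positivity), Int.ediv_eq_zero_of_lt h0 h1, zero_add,
    Int.add_mul_emod_self_left]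
  unfold digit
  push_cast
  rfl

/-- the number of borrows -/
lemma count_small (b K q z : ℕ) (hb : 2 ≤ b) (hq : q ≤ K) (hz : z ≤ b ^ q) :
    (#{n ∈ range (b ^ K) | n % b ^ q < z} : ℝ) = (b : ℝ) ^ K / (b : ℝ) ^ q * z := by
  have hb0 : (b : ℝ) ≠ 0 := by
    have : b ≠ 0 := by omega
    exact_mod_cast this
  have h1 := sum_mod_div (b ^ q) (b ^ (K - q)) (fun ρ => if ρ < z then (1 : ℝ) else 0)
    (fun _ => 1)
  have h2 : b ^ q * b ^ (K - q) = b ^ K := by rw [← pow_add]; congr 1; omega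
  simp only [mul_one] at h1
  rw [h2] at h1
  rw [card_filter]
  push_cast
  rw [h1, sum_const, card_range, nsmul_eq_mul, mul_one]
  have h3 : ∑ ρ ∈ range (b ^ q), (if ρ < z then (1 : ℝ) else 0) = z := by
    rw [← sum_filter, sum_const, nsmul_eq_mul, mul_one]
    have h4 : (range (b ^ q)).filter (fun ρ => ρ < z) = range z := by
      ext ρ
      rw [mem_filter, mem_range, mem_range]
      omega
    rw [h4, card_range]
  rw [h3]
  have h5 : (b : ℝ) ^ K = (b : ℝ) ^ q * (b : ℝ) ^ (K - q) := by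
    rw [← pow_add]; congr 1; omega
  rw [h5]
  push_cast
  field_simp

lemma count_out (b K q : ℕ) (z : ℤ) (hb : 2 ≤ b) (hq : q ≤ K) (hz : |z| ≤ (b : ℤ) ^ q) :
    (#{n ∈ range (b ^ K) | ¬ (0 ≤ ((n % b ^ q : ℕ) : ℤ) + z ∧
      ((n % b ^ q : ℕ) : ℤ) + z < (b : ℤ) ^ q)} : ℝ) ≤
      (b : ℝ) ^ K / (b : ℝ) ^ q * |(z : ℝ)| := by
  have hbq : 0 < b ^ q := by
    have : 0 < b := by omega
    positivity
  have hcast : ((b ^ q : ℕ) : ℤ) = (b : ℤ) ^ q := by push_cast; rfl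
  rcases Int.natAbs_eq z with hz2 | hz2
  · obtain ⟨t, ht⟩ : ∃ t : ℕ, t = z.natAbs := ⟨_, rfl⟩
    rw [← ht] at hz2
    have h1 : t ≤ b ^ q := by
      have : (t : ℤ) ≤ ((b ^ q : ℕ) : ℤ) := by
        rw [hcast]
        refine le_trans ?_ hz
        rw [hz2]
        exact le_abs_self _
      exact_mod_cast this
    have h2 := count_carry b K q t hb hq h1
    have h3 : |(z : ℝ)| = t := by
      rw [hz2]
      push_cast
      exact abs_of_nonneg (Nat.cast_nonneg _)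
    rw [h3, ← h2]
    have h4 : #{n ∈ range (b ^ K) | ¬ (0 ≤ ((n % b ^ q : ℕ) : ℤ) + z ∧
        ((n % b ^ q : ℕ) : ℤ) + z < (b : ℤ) ^ q)} ≤ #{n ∈ range (b ^ K) | b ^ q ≤ n % b ^ q + t} := by
      refine card_le_card fun n hn => ?_
      obtain ⟨h5, h6⟩ := mem_filter.1 hn
      refine mem_filter.2 ⟨h5, ?_⟩
      by_contra hcon
      refine h6 ⟨?_, ?_⟩
      · rw [hz2]; positivity
      · rw [hz2, ← hcast]
        exact_mod_cast not_le.1 hcon
    exact_mod_cast h4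
  · obtain ⟨t, ht⟩ : ∃ t : ℕ, t = z.natAbs := ⟨_, rfl⟩
    rw [← ht] at hz2
    have h1 : t ≤ b ^ q := by
      have : (t : ℤ) ≤ ((b ^ q : ℕ) : ℤ) := by
        rw [hcast]
        refine le_trans ?_ hz
        rw [hz2, abs_neg]
        exact le_abs_self _
      exact_mod_cast this
    have h2 := count_small b K q t hb hq h1
    have h3 : |(z : ℝ)| = t := by
      rw [hz2]
      push_cast
      rw [abs_neg]
      exact abs_of_nonneg (Nat.cast_nonneg _)
    rw [h3, ← h2]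
    have h4 : #{n ∈ range (b ^ K) | ¬ (0 ≤ ((n % b ^ q : ℕ) : ℤ) + z ∧
        ((n % b ^ q : ℕ) : ℤ) + z < (b : ℤ) ^ q)} ≤ #{n ∈ range (b ^ K) | n % b ^ q < t} := by
      refine card_le_card fun n hn => ?_
      obtain ⟨h5, h6⟩ := mem_filter.1 hn
      refine mem_filter.2 ⟨h5, ?_⟩
      by_contra hcon
      have h7 := not_lt.1 hcon
      have h8 : n % b ^ q < b ^ q := Nat.mod_lt _ hbq
      refine h6 ⟨?_, ?_⟩
      · rw [hz2]
        have : (t : ℤ) ≤ ((n % b ^ q : ℕ) : ℤ) := by exact_mod_cast h7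
        linarith
      · rw [hz2, ← hcast]
        have h9 : ((n % b ^ q : ℕ) : ℤ) < ((b ^ q : ℕ) : ℤ) := by exact_mod_cast h8
        have h10 : (0 : ℤ) ≤ t := Nat.cast_nonneg _
        linarith
    exact_mod_cast h4

lemma geom_fin (b q K : ℕ) (hb : 2 ≤ b) :
    ∑ i : Fin K, (if (i : ℕ) < q then (b : ℝ) ^ (i : ℕ) else 0) < (b : ℝ) ^ q := by
  have h1 := Fin.sum_univ_eq_sum_range (fun i => if i < q then (b : ℝ) ^ i else 0) K
  rw [h1, ← sum_filter]
  have h2 : ∑ i ∈ range q, (b : ℝ) ^ i < (b : ℝ) ^ q := by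
    have := geom_le b q hb
    exact_mod_cast this
  refine lt_of_le_of_lt ?_ h2
  refine sum_le_sum_of_subset_of_nonneg (fun i hi => ?_) fun _ _ _ => by positivity
  exact mem_range.2 (mem_filter.1 hi).2

/-- the low part of the noise -/
lemma noise_split2 (b K : ℕ) (q : Fin K) (hb : 2 ≤ b) (ξ : Fin K → ℤ) (hξ : ξ ∈ states K)
    (hq : ξ q = 0) :
    ∃ zl k : ℤ, zz b ξ = zl + (b : ℤ) ^ ((q : ℕ) + 1) * k ∧ |zl| ≤ (b : ℤ) ^ (q : ℕ) ∧
      |(zl : ℝ)| ≤ ∑ i : Fin K, if (i : ℕ) < q then (b : ℝ) ^ (i : ℕ) * (if ξ i ≠ 0 then 1 else 0)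
        else 0 := by
  have hξ1 : ∀ i, |(ξ i : ℝ)| = if ξ i ≠ 0 then 1 else 0 := by
    intro i
    have h := Fintype.mem_piFinset.1 hξ i
    simp only [mem_insert, mem_singleton] at h
    rcases h with h | h | h <;> rw [h] <;> norm_num
  have h1 : (b : ℤ) ^ ((q : ℕ) + 1) ∣ ∑ i ∈ univ.filter (fun i : Fin K => ¬ (i : ℕ) < q),
      ξ i * (b : ℤ) ^ (i : ℕ) := by
    refine dvd_sum fun i hi => ?_
    have h2 := (mem_filter.1 hi).2
    rcases eq_or_ne i q with h3 | h3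
    · rw [h3, hq, zero_mul]; exact dvd_zero _
    · have h4 : (i : ℕ) ≠ q := fun h => h3 (Fin.ext h)
      exact Dvd.dvd.mul_left (pow_dvd_pow _ (by omega)) _
  obtain ⟨k, hk⟩ := h1
  obtain ⟨zl, hzl⟩ : ∃ zl, zl = ∑ i ∈ univ.filter (fun i : Fin K => (i : ℕ) < q),
      ξ i * (b : ℤ) ^ (i : ℕ) := ⟨_, rfl⟩
  have h2 : |(zl : ℝ)| ≤ ∑ i : Fin K, if (i : ℕ) < q then
      (b : ℝ) ^ (i : ℕ) * (if ξ i ≠ 0 then 1 else 0) else 0 := by
    rw [hzl, ← sum_filter]
    push_cast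
    refine (abs_sum_le_sum_abs _ _).trans (le_of_eq (sum_congr rfl fun i _ => ?_))
    rw [abs_mul, hξ1, abs_of_nonneg (by positivity : (0 : ℝ) ≤ (b : ℝ) ^ (i : ℕ)), mul_comm]
  refine ⟨zl, k, ?_, ?_, h2⟩
  · rw [← hk, hzl]
    unfold zz
    rw [sum_filter_add_sum_filter_not]
  · have h3 : |(zl : ℝ)| ≤ (b : ℝ) ^ (q : ℕ) := by
      refine h2.trans ?_
      refine le_trans ?_ (geom_fin b q K hb).le
      refine sum_le_sum fun i _ => ?_
      split_ifs <;> simp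
    exact_mod_cast h3

/-- the noise changes the digit at `q` with probability at most `2 s` -/
lemma change_le2 (b K q : ℕ) (s : ℝ) (hb : 2 ≤ b) (hq : q < K) (hs0 : 0 ≤ s) (hs1 : s ≤ 1) :
    ∑ ξ ∈ states K, prob s ξ *
      (#{n ∈ range (b ^ K) | digit b q ((((n : ℕ) : ℤ) + zz b ξ) % ((b ^ K : ℕ) : ℤ)).toNat ≠
        digit b q n} : ℝ) ≤ 2 * s * (b : ℝ) ^ K := by
  have hb0 : (0 : ℝ) < b := by
    have : 0 < b := by omega
    exact_mod_cast this
  have hx : (0 : ℝ) < (b : ℝ) ^ K := by positivity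
  have hw : ∀ ξ : Fin K → ℤ, 0 ≤ prob s ξ := fun ξ => prod_nonneg fun i _ => by
    split_ifs <;> linarith
  have h1 : ∀ ξ ∈ states K, prob s ξ *
      (#{n ∈ range (b ^ K) | digit b q ((((n : ℕ) : ℤ) + zz b ξ) % ((b ^ K : ℕ) : ℤ)).toNat ≠
        digit b q n} : ℝ) ≤
      (b : ℝ) ^ K * (prob s ξ * (if ξ ⟨q, hq⟩ ≠ 0 then 1 else 0)) +
      ∑ i : Fin K, (b : ℝ) ^ K / (b : ℝ) ^ q * (if (i : ℕ) < q then (b : ℝ) ^ (i : ℕ) else 0) *
        (prob s ξ * (if ξ i ≠ 0 then 1 else 0)) := by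
    intro ξ hξ
    have h2 : (#{n ∈ range (b ^ K) | digit b q ((((n : ℕ) : ℤ) + zz b ξ) % ((b ^ K : ℕ) : ℤ)).toNat ≠
        digit b q n} : ℝ) ≤
        (b : ℝ) ^ K * (if ξ ⟨q, hq⟩ ≠ 0 then 1 else 0) +
        ∑ i : Fin K, (b : ℝ) ^ K / (b : ℝ) ^ q *
          (if (i : ℕ) < q then (b : ℝ) ^ (i : ℕ) else 0) * (if ξ i ≠ 0 then 1 else 0) := by
      by_cases hqξ : ξ ⟨q, hq⟩ ≠ 0
      · have hs : (0 : ℝ) ≤ ∑ i : Fin K, (b : ℝ) ^ K / (b : ℝ) ^ q *
            (if (i : ℕ) < q then (b : ℝ) ^ (i : ℕ) else 0) * (if ξ i ≠ 0 then 1 else 0) := by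
          refine sum_nonneg fun i _ => ?_
          split_ifs <;> positivity
        rw [if_pos hqξ]
        have h3 : #{n ∈ range (b ^ K) | digit b q ((((n : ℕ) : ℤ) + zz b ξ) % ((b ^ K : ℕ) : ℤ)).toNat ≠
            digit b q n} ≤ b ^ K := (card_filter_le _ _).trans (card_range _).le
        have h4 : (#{n ∈ range (b ^ K) | digit b q ((((n : ℕ) : ℤ) + zz b ξ) %
            ((b ^ K : ℕ) : ℤ)).toNat ≠ digit b q n} : ℝ) ≤ (b : ℝ) ^ K := by exact_mod_cast h3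
        linarith
      · rw [if_neg hqξ, mul_zero, zero_add]
        obtain ⟨zl, k, hk1, hk2, hk3⟩ := noise_split2 b K ⟨q, hq⟩ hb ξ hξ (not_not.1 hqξ)
        simp only at hk1 hk2 hk3
        have h3 : #{n ∈ range (b ^ K) | digit b q ((((n : ℕ) : ℤ) + zz b ξ) % ((b ^ K : ℕ) : ℤ)).toNat ≠
            digit b q n} ≤ #{n ∈ range (b ^ K) | ¬ (0 ≤ ((n % b ^ q : ℕ) : ℤ) + zl ∧
              ((n % b ^ q : ℕ) : ℤ) + zl < (b : ℤ) ^ q)} := by
          refine card_le_card fun n hn => ?_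
          obtain ⟨h4, h5⟩ := mem_filter.1 hn
          refine mem_filter.2 ⟨h4, fun hcon => h5 ?_⟩
          have h6 := digit_emod b K q hb hq ((n : ℤ) + zz b ξ)
          rw [hk1, digit_add2 b q n zl k hb hcon.1 hcon.2] at h6
          rw [hk1]
          exact_mod_cast h6
        have h4 : (#{n ∈ range (b ^ K) | digit b q ((((n : ℕ) : ℤ) + zz b ξ) %
            ((b ^ K : ℕ) : ℤ)).toNat ≠ digit b q n} : ℝ) ≤
            (#{n ∈ range (b ^ K) | ¬ (0 ≤ ((n % b ^ q : ℕ) : ℤ) + zl ∧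
              ((n % b ^ q : ℕ) : ℤ) + zl < (b : ℤ) ^ q)} : ℝ) := by exact_mod_cast h3
        refine h4.trans ((count_out b K q zl hb hq.le hk2).trans ?_)
        refine (mul_le_mul_of_nonneg_left hk3 (by positivity)).trans (le_of_eq ?_)
        rw [mul_sum]
        refine sum_congr rfl fun i _ => ?_
        split_ifs <;> ring
    calc _ ≤ prob s ξ * ((b : ℝ) ^ K * (if ξ ⟨q, hq⟩ ≠ 0 then 1 else 0) +
        ∑ i : Fin K, (b : ℝ) ^ K / (b : ℝ) ^ q *
          (if (i : ℕ) < q then (b : ℝ) ^ (i : ℕ) else 0) * (if ξ i ≠ 0 then 1 else 0)) :=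
          mul_le_mul_of_nonneg_left h2 (hw ξ)
      _ = _ := by
          rw [mul_add, mul_sum]
          congr 1
          · ring
          · exact sum_congr rfl fun i _ => by ring
  refine (sum_le_sum h1).trans ?_
  rw [sum_add_distrib, ← mul_sum, sum_states_ne K s ⟨q, hq⟩, sum_comm]
  have h2 : ∀ i : Fin K, ∑ ξ ∈ states K, (b : ℝ) ^ K / (b : ℝ) ^ q *
      (if (i : ℕ) < q then (b : ℝ) ^ (i : ℕ) else 0) *
      (prob s ξ * (if ξ i ≠ 0 then 1 else 0)) = (b : ℝ) ^ K / (b : ℝ) ^ q *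
      (if (i : ℕ) < q then (b : ℝ) ^ (i : ℕ) else 0) * s := by
    intro i
    rw [← mul_sum, sum_states_ne K s i]
  rw [sum_congr rfl fun i _ => h2 i, ← sum_mul, ← mul_sum]
  have h4 : (b : ℝ) ^ K / (b : ℝ) ^ q *
      ∑ i : Fin K, (if (i : ℕ) < q then (b : ℝ) ^ (i : ℕ) else 0) ≤ (b : ℝ) ^ K := by
    calc _ ≤ (b : ℝ) ^ K / (b : ℝ) ^ q * (b : ℝ) ^ q :=
          mul_le_mul_of_nonneg_left (geom_fin b q K hb).le (by positivity)
      _ = _ := by field_simp
  have h5 := mul_le_mul_of_nonneg_right h4 hs0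
  linarith

/-- Markov's inequality -/
lemma noise_markov {ι : Type*} (Ω : Finset ι) (w : ι → ℝ) (hw : ∀ ω, 0 ≤ w ω)
    (hw1 : ∑ ω ∈ Ω, w ω = 1) (b v K : ℕ) (hb : 2 ≤ b) (hv : 1 ≤ v) (f : ℕ → ℕ)
    (g : ι → ℕ → ℕ) (hg : ∀ ω n, g ω n < b ^ K)
    (hf : ∀ i < K, FewDigits b v (fun n => digit b i (f n)))
    (hch : ∀ q < K, ∑ ω ∈ Ω, w ω *
      (#{n ∈ range (b ^ K) | digit b q (g ω n) ≠ digit b q n} : ℝ) ≤
      2 * (1 / (16 * v)) * (b : ℝ) ^ K)
    (G : ι → Finset ℕ) (hG : ∀ ω, ∀ n < b ^ K, (1 / (b : ℝ) + 1 / 4) * K ≤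
      (#{i ∈ range K | digit b i (f (g ω n)) = digit b i (f n)} : ℝ) → n ∈ G ω) :
    (b : ℝ) ^ K / 2 ≤ ∑ ω ∈ Ω, w ω * #(G ω) := by
  classical
  have hb0 : (0 : ℝ) < b := by
    have : 0 < b := by omega
    exact_mod_cast this
  have hv1 : (1 : ℝ) ≤ v := by exact_mod_cast hv
  have hx : (0 : ℝ) < (b : ℝ) ^ K := by positivity
  have hQ : ∀ i, ∃ Q : Finset ℕ, i < K → #Q ≤ v ∧
      ∀ m n, (∀ q ∈ Q, digit b q m = digit b q n) → digit b i (f m) = digit b i (f n) := by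
    intro i
    by_cases hi : i < K
    · obtain ⟨Q, hQ1, hQ2⟩ := hf i hi
      exact ⟨Q, fun _ => ⟨hQ1, hQ2⟩⟩
    · exact ⟨∅, fun h' => absurd h' hi⟩
  choose Q hQ using hQ
  obtain ⟨wr, hwr⟩ : ∃ wr : ι → ℕ → ℕ, ∀ ω n, wr ω n = #{i ∈ range K |
    digit b i (f (g ω n)) ≠ digit b i (f n)} := ⟨_, fun _ _ => rfl⟩
  have h1 : ∀ ω, ∀ n ∈ range (b ^ K), (wr ω n : ℝ) ≤ ∑ i ∈ range K, ∑ q ∈ Q i ∩ range K,
      (if digit b q (g ω n) ≠ digit b q n then (1 : ℝ) else 0) := by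
    intro ω n hn
    have hn' := mem_range.1 hn
    rw [hwr, card_filter]
    push_cast
    refine sum_le_sum fun i hi => ?_
    have hiK := mem_range.1 hi
    by_cases hne : digit b i (f (g ω n)) ≠ digit b i (f n)
    · rw [if_pos hne]
      have h2 : ∃ q ∈ Q i ∩ range K, digit b q (g ω n) ≠ digit b q n := by
        by_contra hcon
        push_neg at hcon
        refine hne ((hQ i hiK).2 _ _ fun q hq => ?_)
        by_cases hqK : q < K
        · exact hcon q (mem_inter.2 ⟨hq, mem_range.2 hqK⟩)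
        · have h3 : ∀ n < b ^ K, digit b q n = 0 := by
            intro n hn
            unfold digit
            have h4 : n < b ^ q := lt_of_lt_of_le hn (Nat.pow_le_pow_right (by omega)
              (not_lt.1 hqK))
            rw [Nat.div_eq_of_lt h4, Nat.zero_mod]
          rw [h3 _ (hg ω n), h3 n hn']
      obtain ⟨q, hq, hqn⟩ := h2
      refine le_trans (le_of_eq ?_) (single_le_sum (f := fun q =>
        (if digit b q (g ω n) ≠ digit b q n then (1 : ℝ) else 0))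
        (fun q _ => by split_ifs <;> norm_num) hq)
      exact (if_pos hqn).symm
    · rw [if_neg hne]
      exact sum_nonneg fun q _ => by split_ifs <;> norm_num
  have h2 : ∑ ω ∈ Ω, w ω * ∑ n ∈ range (b ^ K), (wr ω n : ℝ) ≤ K / 8 * (b : ℝ) ^ K := by
    have h3 : ∀ ω ∈ Ω, w ω * ∑ n ∈ range (b ^ K), (wr ω n : ℝ) ≤
        ∑ i ∈ range K, ∑ q ∈ Q i ∩ range K, w ω *
          (#{n ∈ range (b ^ K) | digit b q (g ω n) ≠ digit b q n} : ℝ) := by
      intro ω _
      refine (mul_le_mul_of_nonneg_left (sum_le_sum (h1 ω)) (hw ω)).trans (le_of_eq ?_)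
      rw [sum_comm, mul_sum]
      refine sum_congr rfl fun i _ => ?_
      rw [sum_comm, mul_sum]
      refine sum_congr rfl fun q _ => ?_
      rw [card_filter]
      push_cast
      rfl
    refine (sum_le_sum h3).trans ?_
    rw [sum_comm]
    have h4 : ∀ i ∈ range K, ∑ ω ∈ Ω, ∑ q ∈ Q i ∩ range K, w ω *
        (#{n ∈ range (b ^ K) | digit b q (g ω n) ≠ digit b q n} : ℝ) ≤
        v * (2 * (1 / (16 * v)) * (b : ℝ) ^ K) := by
      intro i hi
      rw [sum_comm]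
      refine (sum_le_sum fun q hq => hch q (mem_range.1 (mem_inter.1 hq).2)).trans ?_
      rw [sum_const, nsmul_eq_mul]
      refine mul_le_mul_of_nonneg_right ?_ (by positivity)
      have h6 : #(Q i ∩ range K) ≤ v :=
        (card_le_card inter_subset_left).trans (hQ i (mem_range.1 hi)).1
      exact_mod_cast h6
    refine (sum_le_sum h4).trans (le_of_eq ?_)
    rw [sum_const, card_range, nsmul_eq_mul]
    field_simp
    ring
  have h3 : ∀ ω, (b : ℝ) ^ K - #(G ω) ≤ (#{n ∈ range (b ^ K) | (K : ℝ) / 4 < wr ω n} : ℝ) := by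
    intro ω
    have h4 : (range (b ^ K)).filter (fun n => ¬ (K : ℝ) / 4 < wr ω n) ⊆ G ω := by
      intro n hn
      obtain ⟨h5, h6⟩ := mem_filter.1 hn
      refine hG ω n (mem_range.1 h5) ?_
      have h10 : (#{i ∈ range K | digit b i (f (g ω n)) = digit b i (f n)} : ℝ) + wr ω n = K := by
        have h11 := card_filter_add_card_filter_not (s := range K)
          (fun i => digit b i (f (g ω n)) = digit b i (f n))
        rw [card_range] at h11
        rw [hwr]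
        exact_mod_cast h11
      have hb2 : 1 / (b : ℝ) ≤ 1 / 2 := by
        have : (2 : ℝ) ≤ b := by exact_mod_cast hb
        exact one_div_le_one_div_of_le (by norm_num) this
      have hK0 : (0 : ℝ) ≤ K := Nat.cast_nonneg _
      have h12 : (1 / (b : ℝ) + 1 / 4) * K ≤ 3 / 4 * K :=
        mul_le_mul_of_nonneg_right (by linarith) hK0
      have h13 := not_lt.1 h6
      linarith
    have h5 := card_le_card h4
    have h6 := card_filter_add_card_filter_not (s := range (b ^ K))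
      (fun n => (K : ℝ) / 4 < wr ω n)
    rw [card_range] at h6
    have h7 : (#{n ∈ range (b ^ K) | (K : ℝ) / 4 < wr ω n} : ℝ) +
        (#((range (b ^ K)).filter (fun n => ¬ (K : ℝ) / 4 < wr ω n)) : ℝ) = (b : ℝ) ^ K := by
      exact_mod_cast h6
    have h8 : (#((range (b ^ K)).filter (fun n => ¬ (K : ℝ) / 4 < wr ω n)) : ℝ) ≤ #(G ω) := by
      exact_mod_cast h5
    linarith
  have h4 : ∑ ω ∈ Ω, w ω * (#{n ∈ range (b ^ K) | (K : ℝ) / 4 < wr ω n} : ℝ) ≤
      (b : ℝ) ^ K / 2 := by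
    rcases Nat.eq_zero_or_pos K with hK0 | hK0
    · have h5 : ∀ ω ∈ Ω, w ω * (#{n ∈ range (b ^ K) | (K : ℝ) / 4 < wr ω n} : ℝ) = 0 := by
        intro ω _
        have h6 : (range (b ^ K)).filter (fun n => (K : ℝ) / 4 < wr ω n) = ∅ := by
          refine filter_false_of_mem fun n _ => ?_
          rw [hwr, hK0]
          simp
        rw [h6, card_empty]
        simp
      rw [sum_congr rfl h5, sum_const_zero]
      positivity
    · have hKr : (0 : ℝ) < K := by exact_mod_cast hK0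
      have h5 : ∀ ω ∈ Ω, w ω * (#{n ∈ range (b ^ K) | (K : ℝ) / 4 < wr ω n} : ℝ) ≤
          4 / K * (w ω * ∑ n ∈ range (b ^ K), (wr ω n : ℝ)) := by
        intro ω _
        have h6 : (#{n ∈ range (b ^ K) | (K : ℝ) / 4 < wr ω n} : ℝ) * (K / 4) ≤
            ∑ n ∈ range (b ^ K), (wr ω n : ℝ) := by
          rw [← nsmul_eq_mul, ← sum_const]
          refine (sum_le_sum fun n hn => (mem_filter.1 hn).2.le).trans ?_
          exact sum_le_sum_of_subset_of_nonneg (filter_subset _ _) fun _ _ _ => Nat.cast_nonneg _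
        have h7 : (#{n ∈ range (b ^ K) | (K : ℝ) / 4 < wr ω n} : ℝ) ≤
            4 / K * ∑ n ∈ range (b ^ K), (wr ω n : ℝ) := by
          have h8 := mul_le_mul_of_nonneg_left h6 (show (0 : ℝ) ≤ 4 / K by positivity)
          have h9 : 4 / (K : ℝ) * ((#{n ∈ range (b ^ K) | (K : ℝ) / 4 < wr ω n} : ℝ) * (K / 4)) =
              (#{n ∈ range (b ^ K) | (K : ℝ) / 4 < wr ω n} : ℝ) := by
            field_simp
          rw [h9] at h8
          exact h8
        have h10 := mul_le_mul_of_nonneg_left h7 (hw ω)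
        refine h10.trans (le_of_eq ?_)
        ring
      refine (sum_le_sum h5).trans ?_
      rw [← mul_sum]
      refine (mul_le_mul_of_nonneg_left h2 (by positivity)).trans (le_of_eq ?_)
      field_simp
      ring
  have h5 : (b : ℝ) ^ K = ∑ ω ∈ Ω, w ω * (b : ℝ) ^ K := by
    rw [← sum_mul, hw1, one_mul]
  have h6 : (b : ℝ) ^ K - ∑ ω ∈ Ω, w ω * #(G ω) ≤
      ∑ ω ∈ Ω, w ω * (#{n ∈ range (b ^ K) | (K : ℝ) / 4 < wr ω n} : ℝ) := by
    conv_lhs => rw [h5]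
    rw [← sum_sub_distrib]
    refine sum_le_sum fun ω _ => ?_
    rw [← mul_sub]
    exact mul_le_mul_of_nonneg_left (h3 ω) (hw ω)
  linarith

/-- Sharpness of the noisy reading theorem, two-sided noise. -/
theorem sharp_noise2 : ∃ C : ℝ, 0 < C ∧ ∀ b v m : ℕ, 2 ≤ b → 1 ≤ v →
    ∃ (A : Set ℕ) (J : ℤ → ℕ → ℕ),
      (b : ℝ) ^ (v * m) / 2 ≤ ∑ ξ ∈ states (v * m), prob (1 / (16 * v)) ξ *
          #(readSetZ b (v * m) (1 / 4) A J (zz b ξ)) ∧
      ∑ n ∈ range (2 * b ^ (v * m)), (rep A n : ℝ) ^ 2 ≤ (b : ℝ) ^ (v * m) * Real.exp (C * m) := by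
  classical
  obtain ⟨C, hC, h⟩ := sharp
  refine ⟨C, hC, fun b v m hb hv => ?_⟩
  obtain ⟨A, f, hA, hf, hE⟩ := h b v m hb
  obtain ⟨K, hK⟩ : ∃ K : ℕ, K = v * m := ⟨_, rfl⟩
  rw [← hK] at hA hf hE ⊢
  refine ⟨A, fun y i => digit b i (f (y % ((b ^ K : ℕ) : ℤ)).toNat), ?_, hE⟩
  have hb0 : 0 < b := by omega
  have hv1 : (1 : ℝ) ≤ v := by exact_mod_cast hv
  have hs0 : (0 : ℝ) ≤ 1 / (16 * v) := by positivity
  have hs1 : 1 / (16 * (v : ℝ)) ≤ 1 := by
    rw [div_le_one (by positivity)]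
    linarith
  have hw : ∀ ξ : Fin K → ℤ, 0 ≤ prob (1 / (16 * (v : ℝ))) ξ := fun ξ => prod_nonneg fun i _ => by
    split_ifs <;> linarith
  have hKp : (0 : ℤ) < ((b ^ K : ℕ) : ℤ) := by
    have : 0 < b ^ K := by positivity
    exact_mod_cast this
  refine noise_markov (states K) (fun ξ => prob (1 / (16 * (v : ℝ))) ξ) hw (sum_states K _) b v K hb hv f
    (fun ξ n => (((n : ℤ) + zz b ξ) % ((b ^ K : ℕ) : ℤ)).toNat) ?_ hf ?_ _ ?_
  · intro ξ n
    have h1 := Int.emod_lt_of_pos ((n : ℤ) + zz b ξ) hKp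
    have h2 := Int.emod_nonneg ((n : ℤ) + zz b ξ) hKp.ne'
    show (((n : ℤ) + zz b ξ) % ((b ^ K : ℕ) : ℤ)).toNat < b ^ K
    omega
  · intro q hq
    exact change_le2 b K q _ hb hq hs0 hs1
  · intro ξ n hn h1
    obtain ⟨h7, h8, h9⟩ := hA n hn
    unfold readSetZ
    exact mem_filter.2 ⟨mem_range.2 hn, f n, h8, n - f n, h9, by omega, h1⟩

end Pool.Agent.Helper7.SC
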