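import Pool.Agent.Helper7.SC.Sharp
import Pool.Agent.Helper44.LB.Final

set_option autoImplicit false

/-! Sharpness with the thin basis of helper44. -/

namespace Pool.Agent.Helper7.SC

open Finset
open Pool.Agent.Helper57.UC (rep digit FewDigits)

lemma rep_eq_rp (A : Set ℕ) (n : ℕ) : rep A n = Pool.Agent.Helper52.Thin.rp A n := by
  classical
  unfold rep Pool.Agent.Helper52.Thin.rp Pool.Agent.Helper52.Thin.Rp
  rw [← Set.ncard_coe_finset]
  congr 1
  ext p
  rw [mem_coe, mem_filter, HasAntidiagonal.mem_antidiagonal]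
  simp only [Set.mem_setOf_eq]
  tauto

theorem sharp : ∃ C : ℝ, 0 < C ∧ ∀ b w m : ℕ, 2 ≤ b →
    ∃ (A : Set ℕ) (f : ℕ → ℕ), (∀ n < b ^ (w * m), f n ≤ n ∧ f n ∈ A ∧ n - f n ∈ A) ∧
      (∀ i < w * m, FewDigits b w (fun n => digit b i (f n))) ∧
      ∑ n ∈ range (2 * b ^ (w * m)), (rep A n : ℝ) ^ 2 ≤
        (b : ℝ) ^ (w * m) * Real.exp (C * m) := by
  obtain ⟨A, h1, _, _, h4, _⟩ := Pool.Agent.Helper44.LB.basis
  obtain ⟨C, hC⟩ := h4 1
  have hC2 : ∀ N : ℕ, ∑ n ∈ range N, (rep A n : ℝ) ^ 2 ≤ (2 * C) * N := by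
    intro N
    have h5 : ∀ n ∈ range N, (rep A n : ℝ) ^ 2 ≤
        2 * Real.exp (1 * Pool.Agent.Helper52.Thin.rp A n) := by
      intro n _
      rw [rep_eq_rp, one_mul]
      have h6 : (0 : ℝ) ≤ Pool.Agent.Helper52.Thin.rp A n := Nat.cast_nonneg _
      have h7 := Real.quadratic_le_exp_of_nonneg h6
      nlinarith
    refine (sum_le_sum h5).trans ?_
    rw [← Finset.mul_sum]
    have := hC N
    linarith
  have hC0 : 0 < C := by
    have h5 := hC 1
    rw [Finset.sum_range_one] at h5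
    have h6 := Real.exp_pos (1 * Pool.Agent.Helper52.Thin.rp A 0)
    push_cast at h5
    linarith
  refine ⟨Real.log (max (4 * (2 * C)) 2), Real.log_pos (lt_of_lt_of_le one_lt_two (le_max_right _ _)),
    fun b w m hb => ?_⟩
  obtain ⟨A', f, hf1, hf2, hf3⟩ := sharp_of A (2 * C) h1 hC2 b hb w m
  refine ⟨A', f, hf1, hf2, hf3.trans ?_⟩
  have h6 : Real.exp (Real.log (max (4 * (2 * C)) 2) * m) = (max (4 * (2 * C)) 2) ^ m := by
    rw [mul_comm, Real.exp_nat_mul, Real.exp_log (lt_of_lt_of_le two_pos (le_max_right _ _))]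
  rw [h6, mul_comm]
  refine mul_le_mul_of_nonneg_left ?_ (by positivity)
  exact pow_le_pow_left₀ (by positivity) (le_max_left _ _) m

end Pool.Agent.Helper7.SC
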