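import Pool.Agent.Helper7.SC.Th

/-!
# Strings of Booleans for graphs, and isolated vertices
-/

open scoped InnerProductSpace
open Pool.Agent.Helper91.PolyTime

namespace Pool.Agent.Helper7.SC

open Pool.Agent.Helper92.Theta Pool.Agent.Helper95.Slp

/-! ### Isolated vertices -/

theorem pad_th {n B : ℕ} (hn : n ≤ B) (E : List (ℕ × ℕ)) {e : ℕ → ℕ → ℝ}
    (he : ∀ i < B, ∀ j < B, e i j = 1 ↔ i < n ∧ j < n ∧ (i, j) ∈ E) :
    (fun _ => 1 / 8) ∈ TH (gEd B e) ↔ (n, E) ∈ Theta8 := by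
  unfold Theta8
  rw [Set.mem_ofPred_eq, th_iff, th_iff]
  constructor
  · rintro ⟨H, i1, i2, z₀, z, hz0, hz1, hz2⟩
    refine ⟨H, i1, i2, z₀, fun i => z (Fin.castLE hn i), hz0, fun i => hz1 _, fun i j hij => ?_⟩
    have hi := i.2
    have hj := j.2
    refine hz2 _ _ ⟨fun h => hij.1 (Fin.castLE_injective hn h), ?_⟩
    rcases hij.2 with h | h
    · exact Or.inl ((he _ (by simp; omega) _ (by simp; omega)).2 ⟨hi, hj, h⟩)
    · exact Or.inr ((he _ (by simp; omega) _ (by simp; omega)).2 ⟨hj, hi, h⟩)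
  · rintro ⟨H, i1, i2, z₀, z, hz0, hz1, hz2⟩
    -- a new direction
    let w : WithLp 2 (H × ℝ) := WithLp.toLp 2 ((1 / 8 : ℝ) • z₀, √7 / 8)
    let y : Fin B → WithLp 2 (H × ℝ) := fun i =>
      if h : (i : ℕ) < n then WithLp.toLp 2 (z ⟨i, h⟩, 0) else w
    have h7 : √(7 : ℝ) * √7 = 7 := Real.mul_self_sqrt (by norm_num)
    refine ⟨WithLp 2 (H × ℝ), inferInstance, inferInstance, WithLp.toLp 2 (z₀, 0), y, ?_,
      fun i => ?_, fun i j hij => ?_⟩
    · rw [WithLp.prod_inner_apply]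
      simp only [inner_zero_right, add_zero]
      exact hz0
    · by_cases h : (i : ℕ) < n
      · simp only [y, dif_pos h, WithLp.prod_inner_apply]
        have := hz1 ⟨i, h⟩
        simp only [inner_zero_right, add_zero]
        exact this
      · simp only [y, dif_neg h, w, WithLp.prod_inner_apply, inner_smul_right, inner_smul_left, hz0]
        constructor
        · simp
        · simp only [RCLike.inner_apply, conj_trivial, mul_one]
          nlinarith [h7]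
    · have hi := i.2
      have hj := j.2
      have hne : ∀ h h' : (i : ℕ) < n ∧ (j : ℕ) < n, ⟪z ⟨i, h.1⟩, z ⟨j, h.2⟩⟫_ℝ = 0 →
          ⟪y i, y j⟫_ℝ = 0 := by
        intro h _ h1
        simp only [y, dif_pos h.1, dif_pos h.2, WithLp.prod_inner_apply, h1]
        simp
      rcases hij.2 with h | h
      · obtain ⟨h1, h2, h3⟩ := (he _ hi _ hj).1 h
        refine hne ⟨h1, h2⟩ ⟨h1, h2⟩ (hz2 _ _ ⟨fun h' => hij.1 (Fin.ext ?_), Or.inl h3⟩)
        simpa using h'
      · obtain ⟨h2, h1, h3⟩ := (he _ hj _ hi).1 h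
        refine hne ⟨h1, h2⟩ ⟨h1, h2⟩ (hz2 _ _ ⟨fun h' => hij.1 (Fin.ext ?_), Or.inr h3⟩)
        simpa using h'

/-! ### Strings for graphs -/

/-- pairs of numbers as numbers -/
def pi2 (i j : ℕ) : ℕ := (i + j) * (i + j) + i

lemma pi2_inj {i j i' j' : ℕ} (h : pi2 i j = pi2 i' j') : i = i' ∧ j = j' := by
  unfold pi2 at h
  have h1 : i + j = i' + j' := by
    rcases lt_trichotomy (i + j) (i' + j') with h1 | h1 | h1
    · have h2 : (i + j + 1) * (i + j + 1) ≤ (i' + j') * (i' + j') := Nat.mul_le_mul h1 h1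
      have h3 : (i + j + 1) * (i + j + 1) = (i + j) * (i + j) + 2 * (i + j) + 1 := by ring
      omega
    · exact h1
    · have h2 : (i' + j' + 1) * (i' + j' + 1) ≤ (i + j) * (i + j) := Nat.mul_le_mul h1 h1
      have h3 : (i' + j' + 1) * (i' + j' + 1) = (i' + j') * (i' + j') + 2 * (i' + j') + 1 := by ring
      omega
  rw [h1] at h
  omega

lemma pi2_lt {i j n : ℕ} (hi : i < n) (hj : j < n) : pi2 i j < 4 * n * n + n := by
  unfold pi2
  have h2 : (i + j) * (i + j) ≤ (2 * n) * (2 * n) := Nat.mul_le_mul (by omega) (by omega)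
  have h3 : (2 * n) * (2 * n) = 4 * n * n := by ring
  omega

/-- the string of a graph -/
def adj (I : ℕ × List (ℕ × ℕ)) : List Bool :=
  (List.range (4 * I.1 * I.1 + I.1)).map fun k =>
    I.2.any fun e => decide (e.1 < I.1 ∧ e.2 < I.1 ∧ pi2 e.1 e.2 = k)

lemma adj_length (I : ℕ × List (ℕ × ℕ)) : (adj I).length = 4 * I.1 * I.1 + I.1 := by
  unfold adj
  rw [List.length_map, List.length_range]

lemma adj_iff (I : ℕ × List (ℕ × ℕ)) (i j : ℕ) :
    (adj I)[pi2 i j]? = some true ↔ i < I.1 ∧ j < I.1 ∧ (i, j) ∈ I.2 := by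
  unfold adj
  rw [List.getElem?_map]
  constructor
  · intro h
    rw [Option.map_eq_some_iff] at h
    obtain ⟨k, hk, hany⟩ := h
    obtain ⟨hk1, hk2⟩ := List.getElem?_eq_some_iff.1 hk
    rw [List.getElem_range] at hk2
    subst hk2
    obtain ⟨e, he, hd⟩ := List.any_eq_true.1 hany
    obtain ⟨h1, h2, h3⟩ := of_decide_eq_true hd
    obtain ⟨rfl, rfl⟩ := pi2_inj h3
    exact ⟨h1, h2, he⟩
  · rintro ⟨h1, h2, h3⟩
    have h4 := pi2_lt h1 h2
    rw [List.getElem?_range h4, Option.map_some, Option.some_inj, List.any_eq_true]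
    exact ⟨(i, j), h3, decide_eq_true ⟨h1, h2, rfl⟩⟩

variable {α : Type} [PEnc α]

lemma ptf_pi2 {i j : α → ℕ} (hi : PTF i) (hj : PTF j) : PTF (fun x => pi2 (i x) (j x)) := by
  unfold pi2
  exact PTF.add (PTF.mul (PTF.add hi hj) (PTF.add hi hj)) hi

theorem ptf_adj : PTF adj := by
  unfold adj
  refine PTF.map (f := fun (I : ℕ × List (ℕ × ℕ)) k =>
    I.2.any fun e => decide (e.1 < I.1 ∧ e.2 < I.1 ∧ pi2 e.1 e.2 = k)) (PTF.range (PTF.add
      (PTF.mul (PTF.mul (PTF.const 4) PTF.id.fst) PTF.id.fst) PTF.id.fst)) ?_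
  refine PTF.any (f := fun (p : (ℕ × List (ℕ × ℕ)) × ℕ) e =>
    decide (e.1 < p.1.1 ∧ e.2 < p.1.1 ∧ pi2 e.1 e.2 = p.2)) PTF.id.fst.snd ?_
  exact PTF.decide_and (PTF.lt PTF.id.snd.fst PTF.id.fst.fst.fst)
    (PTF.decide_and (PTF.lt PTF.id.snd.snd PTF.id.fst.fst.fst)
      (PTF.eq (ptf_pi2 PTF.id.snd.fst PTF.id.snd.snd) PTF.id.fst.snd))

end Pool.Agent.Helper7.SC
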