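import Pool.Agent.Helper7.SC.Net

/-!
# The alternative of a semidefinite system with fixed trace
-/

namespace Pool.Agent.Helper7.SC

lemma psd_iff {n : ℕ} {M : Matrix (Fin n) (Fin n) ℝ} : M.PosSemidef ↔
    (∀ i j, M i j = M j i) ∧ ∀ x : Fin n → ℝ, 0 ≤ ∑ i, ∑ j, x i * M i j * x j := by
  rw [Matrix.posSemidef_iff_dotProduct_mulVec]
  have h1 : M.IsHermitian ↔ ∀ i j, M i j = M j i := by
    rw [Matrix.IsHermitian.ext_iff]
    simp only [star_trivial]
    exact ⟨fun h i j => h j i, fun h i j => h j i⟩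
  rw [h1]
  refine and_congr Iff.rfl (forall_congr' fun x => ?_)
  have h2 : star x ⬝ᵥ M.mulVec x = ∑ i, ∑ j, x i * M i j * x j := by
    simp only [dotProduct, Matrix.mulVec, Pi.star_apply, star_trivial, Finset.mul_sum]
    exact Finset.sum_congr rfl fun i _ => Finset.sum_congr rfl fun j _ => by ring
  rw [h2]

lemma psd_entry {n : ℕ} {M : Matrix (Fin n) (Fin n) ℝ} (h : M.PosSemidef) (i j : Fin n) :
    |M i j| ≤ (M i i + M j j) / 2 := by
  obtain ⟨m, y, hy⟩ := Pool.Agent.Helper92.Theta.exists_vectors h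
  rw [← hy i j, ← hy i i, ← hy j j]
  have h1 := abs_real_inner_le_norm (y i) (y j)
  rw [real_inner_self_eq_norm_sq, real_inner_self_eq_norm_sq]
  nlinarith [sq_nonneg (‖y i‖ - ‖y j‖)]

/-- the positive semidefinite matrices of trace one -/
def DD (n : ℕ) : Set (Matrix (Fin n) (Fin n) ℝ) :=
  {Y | Y.PosSemidef ∧ ∑ i, Y i i = 1}

lemma dd_compact (n : ℕ) : IsCompact (DD n) := by
  have h1 : DD n = {Y | ∀ i j, Y i j = Y j i} ∩
      ({Y | ∀ x : Fin n → ℝ, 0 ≤ ∑ i, ∑ j, x i * Y i j * x j} ∩ {Y | ∑ i, Y i i = 1}) := by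
    ext Y
    simp only [DD, Set.mem_setOf_eq, Set.mem_inter_iff, psd_iff, and_assoc]
  have hc : ∀ i j : Fin n, Continuous (fun Y : Matrix (Fin n) (Fin n) ℝ => Y i j) :=
    fun i j => continuous_apply_apply i j
  have h2 : IsClosed (DD n) := by
    rw [h1]
    refine IsClosed.inter ?_ (IsClosed.inter ?_ ?_)
    · simp only [Set.setOf_forall]
      exact isClosed_iInter fun i => isClosed_iInter fun j => isClosed_eq (hc i j) (hc j i)
    · simp only [Set.setOf_forall]
      refine isClosed_iInter fun x => isClosed_le continuous_const ?_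
      exact continuous_finset_sum _ fun i _ => continuous_finset_sum _ fun j _ =>
        (continuous_const.mul (hc i j)).mul continuous_const
    · exact isClosed_eq (continuous_finset_sum _ fun i _ => hc i i) continuous_const
  have h3 : IsCompact (Set.univ.pi fun _ : Fin n => Set.univ.pi fun _ : Fin n =>
      Set.Icc (-1 : ℝ) 1) := isCompact_univ_pi fun _ => isCompact_univ_pi fun _ => isCompact_Icc
  refine IsCompact.of_isClosed_subset h3 h2 ?_
  rintro Y ⟨hY, hT⟩
  have h4 : ∀ i, Y i i ≤ 1 := by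
    intro i
    rw [← hT]
    exact Finset.single_le_sum (f := fun i => Y i i) (fun j _ => hY.diag_nonneg) (Finset.mem_univ i)
  intro i _ j _
  have h5 := psd_entry hY i j
  have h6 := h4 i
  have h7 := h4 j
  have h8 := abs_le.1 (h5.trans (by linarith : (Y i i + Y j j) / 2 ≤ 1))
  exact h8

lemma dd_convex (n : ℕ) : Convex ℝ (DD n) := by
  rintro Y ⟨hY, hY1⟩ Z ⟨hZ, hZ1⟩ a b ha hb hab
  refine ⟨(hY.smul ha).add (hZ.smul hb), ?_⟩
  simp only [Matrix.add_apply, Matrix.smul_apply, smul_eq_mul, Finset.sum_add_distrib,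
    ← Finset.mul_sum, hY1, hZ1]
  linarith

/-- the map of the constraints -/
noncomputable def LL {n m : ℕ} (A : Fin m → Matrix (Fin n) (Fin n) ℝ) :
    Matrix (Fin n) (Fin n) ℝ →ₗ[ℝ] (Fin m → ℝ) where
  toFun Y l := ∑ i, ∑ j, A l i j * Y i j
  map_add' Y Z := by
    funext l
    simp only [Matrix.add_apply, mul_add, Finset.sum_add_distrib, Pi.add_apply]
  map_smul' c Y := by
    funext l
    simp only [Matrix.smul_apply, smul_eq_mul, RingHom.id_apply, Pi.smul_apply, Finset.mul_sum]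
    exact Finset.sum_congr rfl fun i _ => Finset.sum_congr rfl fun j _ => by ring

/-- the matrix of the alternative -/
noncomputable def ZZ {n m : ℕ} (A : Fin m → Matrix (Fin n) (Fin n) ℝ) (δ : ℝ) (μ : Fin m → ℝ) :
    Matrix (Fin n) (Fin n) ℝ :=
  Matrix.of fun i j => (if i = j then δ else 0) + ∑ l, μ l * ((A l i j + A l j i) / 2)

lemma zz_symm {n m : ℕ} (A : Fin m → Matrix (Fin n) (Fin n) ℝ) (δ : ℝ) (μ : Fin m → ℝ)
    (i j : Fin n) : ZZ A δ μ i j = ZZ A δ μ j i := by
  unfold ZZ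
  rw [Matrix.of_apply, Matrix.of_apply]
  congr 1
  · by_cases h : i = j
    · rw [if_pos h, if_pos h.symm]
    · rw [if_neg h, if_neg (Ne.symm h)]
  · exact Finset.sum_congr rfl fun l _ => by ring

/-- pairing with a symmetric matrix -/
lemma zz_pair {n m : ℕ} (A : Fin m → Matrix (Fin n) (Fin n) ℝ) (δ : ℝ) (μ : Fin m → ℝ)
    (Y : Matrix (Fin n) (Fin n) ℝ) (hY : ∀ i j, Y i j = Y j i) :
    ∑ i, ∑ j, ZZ A δ μ i j * Y i j =
      δ * ∑ i, Y i i + ∑ l, μ l * ∑ i, ∑ j, A l i j * Y i j := by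
  have h1 : ∀ l, ∑ i, ∑ j, (A l i j + A l j i) / 2 * Y i j = ∑ i, ∑ j, A l i j * Y i j := by
    intro l
    have h2 : ∑ i, ∑ j, A l j i * Y i j = ∑ i, ∑ j, A l i j * Y i j := by
      rw [Finset.sum_comm]
      exact Finset.sum_congr rfl fun i _ => Finset.sum_congr rfl fun j _ => by rw [hY]
    have h3 : ∑ i, ∑ j, (A l i j + A l j i) / 2 * Y i j =
        (∑ i, ∑ j, A l i j * Y i j + ∑ i, ∑ j, A l j i * Y i j) / 2 := by
      rw [← Finset.sum_add_distrib, Finset.sum_div]
      refine Finset.sum_congr rfl fun i _ => ?_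
      rw [← Finset.sum_add_distrib, Finset.sum_div]
      exact Finset.sum_congr rfl fun j _ => by ring
    rw [h3, h2]
    ring
  have h4 : ∀ i j, ZZ A δ μ i j * Y i j = (if i = j then δ * Y i j else 0) +
      ∑ l, μ l * ((A l i j + A l j i) / 2 * Y i j) := by
    intro i j
    unfold ZZ
    rw [Matrix.of_apply, add_mul, Finset.sum_mul]
    congr 1
    · split_ifs <;> simp
    · exact Finset.sum_congr rfl fun l _ => by ring
  simp only [h4, Finset.sum_add_distrib]
  congr 1
  · rw [Finset.mul_sum]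
    refine Finset.sum_congr rfl fun i _ => ?_
    rw [Finset.sum_ite_eq]
    simp
  · have h5 : ∀ i : Fin n, ∑ j, ∑ l, μ l * ((A l i j + A l j i) / 2 * Y i j) =
        ∑ l, μ l * ∑ j, (A l i j + A l j i) / 2 * Y i j := by
      intro i
      rw [Finset.sum_comm]
      exact Finset.sum_congr rfl fun l _ => by rw [Finset.mul_sum]
    simp only [h5]
    rw [Finset.sum_comm]
    refine Finset.sum_congr rfl fun l _ => ?_
    rw [← Finset.mul_sum, h1]

lemma zz_psd_of_pair {n m : ℕ} (A : Fin m → Matrix (Fin n) (Fin n) ℝ) (δ : ℝ) (μ : Fin m → ℝ)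
    (h : ∀ Y ∈ DD n, 0 ≤ δ * ∑ i, Y i i + ∑ l, μ l * ∑ i, ∑ j, A l i j * Y i j) :
    (ZZ A δ μ).PosSemidef := by
  rw [psd_iff]
  refine ⟨zz_symm A δ μ, fun x => ?_⟩
  by_cases hx : x = 0
  · subst hx
    simp
  · have hs : 0 < ∑ i, x i * x i := by
      refine lt_of_le_of_ne (Finset.sum_nonneg fun i _ => mul_self_nonneg _) fun h0 => hx ?_
      funext i
      have := (Finset.sum_eq_zero_iff_of_nonneg fun i _ => mul_self_nonneg (x i)).1 h0.symm i
        (Finset.mem_univ i)
      simpa using this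
    set s := ∑ i, x i * x i with hsdef
    have hY : (Matrix.of fun i j => s⁻¹ * (x i * x j) : Matrix (Fin n) (Fin n) ℝ) ∈ DD n := by
      constructor
      · rw [psd_iff]
        refine ⟨fun i j => by simp [mul_comm], fun z => ?_⟩
        have h2 : ∑ i, ∑ j, z i * (Matrix.of fun i j => s⁻¹ * (x i * x j)) i j * z j =
            s⁻¹ * (∑ i, z i * x i) ^ 2 := by
          rw [sq, Finset.sum_mul_sum, Finset.mul_sum]
          refine Finset.sum_congr rfl fun i _ => ?_
          rw [Finset.mul_sum]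
          exact Finset.sum_congr rfl fun j _ => by rw [Matrix.of_apply]; ring
        rw [h2]
        positivity
      · simp only [Matrix.of_apply, ← Finset.mul_sum]
        exact inv_mul_cancel₀ hs.ne'
    have h3 := h _ hY
    rw [← zz_pair A δ μ _ (fun i j => by simp [mul_comm])] at h3
    have h4 : ∑ i, ∑ j, ZZ A δ μ i j * (Matrix.of fun i j => s⁻¹ * (x i * x j)) i j =
        s⁻¹ * ∑ i, ∑ j, x i * ZZ A δ μ i j * x j := by
      rw [Finset.mul_sum]
      refine Finset.sum_congr rfl fun i _ => ?_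
      rw [Finset.mul_sum]
      exact Finset.sum_congr rfl fun j _ => by rw [Matrix.of_apply]; ring
    rw [h4] at h3
    exact nonneg_of_mul_nonneg_right h3 (inv_pos.2 hs)

/-- **The alternative.** -/
theorem alt {n m : ℕ} (τ : ℝ) (b : Fin m → ℝ) (A : Fin m → Matrix (Fin n) (Fin n) ℝ)
    (h : ¬ ∃ Y : Matrix (Fin n) (Fin n) ℝ, Y.PosSemidef ∧ ∑ i, Y i i = τ ∧
      ∀ l, ∑ i, ∑ j, A l i j * Y i j = b l) :
    ∃ (δ : ℝ) (μ : Fin m → ℝ), (ZZ A δ μ).PosSemidef ∧ δ * τ + ∑ l, μ l * b l = -1 := by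
  rcases lt_trichotomy τ 0 with hτ | hτ | hτ
  · refine ⟨-τ⁻¹, fun _ => 0, zz_psd_of_pair _ _ _ ?_, ?_⟩
    · rintro Y ⟨hY, hY1⟩
      rw [hY1]
      have : 0 ≤ -τ⁻¹ := by
        have := inv_lt_zero.2 hτ
        linarith
      simpa using this
    · simp only [zero_mul, Finset.sum_const_zero, add_zero, neg_mul]
      rw [inv_mul_cancel₀ hτ.ne]
  · subst hτ
    have hb : b ≠ 0 := by
      rintro rfl
      exact h ⟨0, Matrix.PosSemidef.zero, by simp, by simp⟩
    have hs : 0 < ∑ l, b l * b l := by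
      refine lt_of_le_of_ne (Finset.sum_nonneg fun i _ => mul_self_nonneg _) fun h0 => hb ?_
      funext i
      have := (Finset.sum_eq_zero_iff_of_nonneg fun i _ => mul_self_nonneg (b i)).1 h0.symm i
        (Finset.mem_univ i)
      simpa using this
    set s := ∑ l, b l * b l with hsdef
    set μ : Fin m → ℝ := fun l => -(s⁻¹ * b l) with hμ
    obtain ⟨C, hC⟩ : ∃ C : ℝ, ∀ Y ∈ DD n, -C ≤ ∑ l, μ l * ∑ i, ∑ j, A l i j * Y i j := by
      have hcont : Continuous fun Y : Matrix (Fin n) (Fin n) ℝ =>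
          ∑ l, μ l * ∑ i, ∑ j, A l i j * Y i j :=
        continuous_finset_sum _ fun l _ => continuous_const.mul (continuous_finset_sum _ fun i _ =>
          continuous_finset_sum _ fun j _ => continuous_const.mul (continuous_apply_apply i j))
      obtain ⟨c, hc⟩ := ((dd_compact n).image hcont).bddBelow
      refine ⟨-c, fun Y hY => ?_⟩
      rw [neg_neg]
      exact hc ⟨Y, hY, rfl⟩
    refine ⟨C, μ, zz_psd_of_pair _ _ _ ?_, ?_⟩
    · intro Y hY
      have h1 := hC Y hY
      rw [hY.2]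
      linarith
    · have h1 : ∑ l, μ l * b l = -(s⁻¹ * s) := by
        rw [hsdef, Finset.mul_sum, ← Finset.sum_neg_distrib]
        exact Finset.sum_congr rfl fun l _ => by simp only [hμ]; ring
      rw [h1, inv_mul_cancel₀ hs.ne']
      ring
  · have hcont : Continuous (LL A) := (LL A).continuous_of_finiteDimensional
    have hK : IsCompact (LL A '' DD n) := (dd_compact n).image hcont
    have hconv : Convex ℝ (LL A '' DD n) := (dd_convex n).linear_image (LL A)
    have hnot : (τ⁻¹ • b) ∉ LL A '' DD n := by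
      rintro ⟨Y, ⟨hY, hY1⟩, hYb⟩
      refine h ⟨τ • Y, hY.smul hτ.le, ?_, fun l => ?_⟩
      · simp only [Matrix.smul_apply, smul_eq_mul, ← Finset.mul_sum, hY1, mul_one]
      · have h1 := congrFun hYb l
        have h2 : ∑ i, ∑ j, A l i j * Y i j = τ⁻¹ * b l := h1
        have h3 : ∑ i, ∑ j, A l i j * (τ • Y) i j = τ * ∑ i, ∑ j, A l i j * Y i j := by
          rw [Finset.mul_sum]
          refine Finset.sum_congr rfl fun i _ => ?_
          rw [Finset.mul_sum]
          exact Finset.sum_congr rfl fun j _ => by rw [Matrix.smul_apply, smul_eq_mul]; ring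
        rw [h3, h2, ← mul_assoc, mul_inv_cancel₀ hτ.ne', one_mul]
    obtain ⟨f, u, hf1, hf2⟩ := geometric_hahn_banach_closed_point hconv hK.isClosed hnot
    set μ : Fin m → ℝ := fun l => -f (Pi.single l 1) with hμ
    have hfv : ∀ a : Fin m → ℝ, f a = -∑ l, μ l * a l := by
      intro a
      have h1 : a = ∑ l, a l • (Pi.single l 1 : Fin m → ℝ) := by
        funext i
        simp [Finset.sum_apply, Pi.single_apply]
      conv_lhs => rw [h1]
      rw [map_sum, ← Finset.sum_neg_distrib]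
      refine Finset.sum_congr rfl fun l _ => ?_
      rw [map_smul, smul_eq_mul, hμ]
      ring
    have hneg : u * τ + ∑ l, μ l * b l < 0 := by
      rw [hfv] at hf2
      have h1 : ∑ l, μ l * (τ⁻¹ • b) l = τ⁻¹ * ∑ l, μ l * b l := by
        rw [Finset.mul_sum]
        exact Finset.sum_congr rfl fun l _ => by rw [Pi.smul_apply, smul_eq_mul]; ring
      rw [h1] at hf2
      have h2 : τ * u < τ * -(τ⁻¹ * ∑ l, μ l * b l) := mul_lt_mul_of_pos_left hf2 hτ
      have h3 : τ * -(τ⁻¹ * ∑ l, μ l * b l) = -∑ l, μ l * b l := by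
        rw [mul_neg, ← mul_assoc, mul_inv_cancel₀ hτ.ne', one_mul]
      linarith
    set c := -(u * τ + ∑ l, μ l * b l) with hc
    have hc0 : 0 < c := by rw [hc]; linarith
    refine ⟨c⁻¹ * u, fun l => c⁻¹ * μ l, zz_psd_of_pair _ _ _ ?_, ?_⟩
    · intro Y hY
      have h1 := hf1 _ ⟨Y, hY, rfl⟩
      rw [hfv] at h1
      have h2 : ∑ l, μ l * LL A Y l = ∑ l, μ l * ∑ i, ∑ j, A l i j * Y i j := rfl
      rw [h2] at h1
      rw [hY.2, mul_one]
      have h3 : ∑ l, c⁻¹ * μ l * ∑ i, ∑ j, A l i j * Y i j =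
          c⁻¹ * ∑ l, μ l * ∑ i, ∑ j, A l i j * Y i j := by
        rw [Finset.mul_sum]
        exact Finset.sum_congr rfl fun l _ => by ring
      rw [h3, ← mul_add]
      exact mul_nonneg (inv_pos.2 hc0).le (by linarith)
    · have h3 : ∑ l, c⁻¹ * μ l * b l = c⁻¹ * ∑ l, μ l * b l := by
        rw [Finset.mul_sum]
        exact Finset.sum_congr rfl fun l _ => by ring
      rw [h3]
      have h4 : c⁻¹ * u * τ + c⁻¹ * ∑ l, μ l * b l = c⁻¹ * (u * τ + ∑ l, μ l * b l) := by ring
      rw [h4]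
      have h5 : u * τ + ∑ l, μ l * b l = -c := by rw [hc]; ring
      rw [h5, mul_neg, inv_mul_cancel₀ hc0.ne']

end Pool.Agent.Helper7.SC
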