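import Pool.Agent.Helper91.PolyTime.CookLevin

/-!
# Functions computable in polynomial time and one-dimensional automata

The computation of one of Mathlib's machines is a table of cells with finitely many states and a
local rule.
-/

open Turing Function Pool.Agent.Helper91.CookLevin

namespace Pool.Agent.Helper7.SC

/-- A one-dimensional automaton. -/
structure Aut where
  /-- the number of states -/
  s : ℕ
  /-- the new state of a cell from the states of the first cell, the left neighbour, the cell, and
  the right neighbour -/
  nxt : Bool → ℕ → ℕ → ℕ → ℕ → ℕ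
  /-- the initial state for an input symbol -/
  ini : Option Bool → ℕ
  /-- the output symbol of a state -/
  out : ℕ → Option Bool
  hn : ∀ b z l m r, nxt b z l m r < s
  hi : ∀ o, ini o < s

/-- the table for an input -/
def Aut.tab (A : Aut) (w : ℕ → Option Bool) : ℕ → ℕ → ℕ
  | 0, i => A.ini (w i)
  | t + 1, i => A.nxt (decide (i = 0)) (A.tab w t 0) (A.tab w t (i - 1)) (A.tab w t i)
      (A.tab w t (i + 1))

lemma Aut.tab_lt (A : Aut) (w : ℕ → Option Bool) (t i : ℕ) : A.tab w t i < A.s := by
  cases t with
  | zero => exact A.hi _
  | succ t => exact A.hn _ _ _ _ _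

section machine

variable {tm : FinTM2}

lemma length_nextStk (c : Ctl tm) (S : Stk tm) (k : tm.K) :
    (nextStk c S k).length ≤ (S k).length + 1 := by
  obtain ⟨c, v⟩ := c
  cases c with
  | none => exact Nat.le_succ _
  | some q =>
    cases q with
    | push k' f q =>
      simp only [nextStk]
      by_cases h : k = k'
      · subst h
        rw [update_self]
        simp
      · rw [update_of_ne h]
        exact Nat.le_succ _
    | pop k' f q =>
      simp only [nextStk]
      by_cases h : k = k'
      · subst h
        rw [update_self, List.length_tail]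
        omega
      · rw [update_of_ne h]
        exact Nat.le_succ _
    | peek k f q => exact Nat.le_succ _
    | load f q => exact Nat.le_succ _
    | branch f q₁ q₂ => exact Nat.le_succ _
    | goto l => exact Nat.le_succ _
    | halt => exact Nat.le_succ _

lemma length_small (x : Ctl tm × Stk tm) (k : tm.K) (n : ℕ) :
    ((small^[n] x).2 k).length ≤ (x.2 k).length + n := by
  induction n with
  | zero => exact le_refl _
  | succ n ih =>
    rw [iterate_succ_apply']
    have h := length_nextStk (small^[n] x).1 (small^[n] x).2 k
    change (nextStk _ _ k).length ≤ _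
    omega

lemma length_initList (l : List (tm.Γ tm.k₀)) (k : tm.K) :
    ((initList tm l).stk k).length ≤ l.length := by
  by_cases hk : k = tm.k₀
  · subst hk
    simp [initList]
  · simp [initList, hk]

end machine

section aut

variable (M : TM2ComputableAux Bool Bool)

/-- the initial cell for an input symbol -/
noncomputable def cell0 (o : Option Bool) : D M.tm :=
  tableD (o.toList.map M.inputAlphabet.invFun) (0, 0)

/-- the output symbol of a cell -/
def outD (d : D M.tm) : Option Bool := (d.1.2 M.tm.k₁).map M.outputAlphabet.toFun

/-- the numbers of the cells -/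
noncomputable def num : D M.tm ≃ Fin (Nat.card (D M.tm)) := Finite.equivFin _

open Classical in
/-- the cell with a given number -/
noncomputable def dec (x : ℕ) : D M.tm :=
  if h : x < Nat.card (D M.tm) then (num M).symm ⟨x, h⟩ else cell0 M none

open Classical in
/-- the next cell -/
noncomputable def nextD (b : Bool) (z l m r : D M.tm) : D M.tm :=
  if h : CellOK (nextCell b z.1 l.1 m.1 r.1) then ⟨_, h⟩ else cell0 M none

lemma dec_num (d : D M.tm) : dec M (num M d : ℕ) = d := by
  unfold dec
  rw [dif_pos (num M d).2, Fin.eta, Equiv.symm_apply_apply]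

/-- the automaton of a machine -/
noncomputable def autOf : Aut where
  s := Nat.card (D M.tm)
  nxt b z l m r := (num M (nextD M b (dec M z) (dec M l) (dec M m) (dec M r)) : ℕ)
  ini o := num M (cell0 M o)
  out d := outD M (dec M d)
  hn b z l m r := Fin.is_lt _
  hi o := Fin.is_lt _

lemma col_init' (l : List Bool) (i : ℕ) :
    col (initList M.tm (l.map M.inputAlphabet.invFun)).stk i =
      col (initList M.tm (l[i]?.toList.map M.inputAlphabet.invFun)).stk 0 := by
  funext k
  by_cases hk : k = M.tm.k₀
  · subst hk
    simp only [col, initList, dite_true]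
    cases hl : l[i]? <;> simp [hl]
  · simp only [col, initList, dif_neg hk]
    simp

lemma autOf_tab (l : List Bool) (t : ℕ) : ∀ i, (autOf M).tab (fun i => l[i]?) t i =
    (num M (tableD (l.map M.inputAlphabet.invFun) (t, i)) : ℕ) := by
  induction t with
  | zero =>
    intro i
    have h : cell0 M (l[i]?) = tableD (l.map M.inputAlphabet.invFun) (0, i) := by
      apply Subtype.ext
      simp only [cell0, tableD, table, iterate_zero, id_eq, conf]
      rw [col_init' M l i]
      rfl
    change ((num M (cell0 M (l[i]?)) : Fin _) : ℕ) = _
    rw [h]
  | succ t ih =>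
    intro i
    have h1 : (autOf M).tab (fun i => l[i]?) (t + 1) i = (autOf M).nxt (decide (i = 0))
        ((autOf M).tab (fun i => l[i]?) t 0) ((autOf M).tab (fun i => l[i]?) t (i - 1))
        ((autOf M).tab (fun i => l[i]?) t i) ((autOf M).tab (fun i => l[i]?) t (i + 1)) := rfl
    rw [h1, ih, ih, ih, ih]
    change ((num M (nextD M _ (dec M _) (dec M _) (dec M _) (dec M _)) : Fin _) : ℕ) = _
    rw [dec_num, dec_num, dec_num, dec_num]
    have h2 := table_succ (conf (initList M.tm (l.map M.inputAlphabet.invFun))) t i
    have h3 : nextCell (decide (i = 0)) (tableD (l.map M.inputAlphabet.invFun) (t, 0)).1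
        (tableD (l.map M.inputAlphabet.invFun) (t, i - 1)).1
        (tableD (l.map M.inputAlphabet.invFun) (t, i)).1
        (tableD (l.map M.inputAlphabet.invFun) (t, i + 1)).1 =
        (tableD (l.map M.inputAlphabet.invFun) (t + 1, i)).1 := h2.symm
    have h5 : nextD M (decide (i = 0)) (tableD (l.map M.inputAlphabet.invFun) (t, 0))
        (tableD (l.map M.inputAlphabet.invFun) (t, i - 1))
        (tableD (l.map M.inputAlphabet.invFun) (t, i))
        (tableD (l.map M.inputAlphabet.invFun) (t, i + 1)) =
        tableD (l.map M.inputAlphabet.invFun) (t + 1, i) := by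
      unfold nextD
      rw [dif_pos (by rw [h3]; exact (tableD (l.map M.inputAlphabet.invFun) (t + 1, i)).2)]
      exact Subtype.ext h3
    rw [h5]

end aut

/-- **Functions computable in polynomial time are computed by automata.** -/
theorem exists_aut {α β : Type} {ea : α → List Bool} {eb : β → List Bool} {f : α → β}
    (H : TM2ComputableInPolyTime ea eb f) : ∃ (A : Aut) (p : Polynomial ℕ), ∀ a,
      (∀ t, p.eval (ea a).length ≤ t → ∀ i, A.out (A.tab (fun i => (ea a)[i]?) t i) =
        (eb (f a))[i]?) ∧ (eb (f a)).length ≤ p.eval (ea a).length := by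
  refine ⟨autOf H.toTM2ComputableAux, Polynomial.X + Polynomial.C (bnd H.tm) * H.time, fun a => ?_⟩
  have hev : (Polynomial.X + Polynomial.C (bnd H.tm) * H.time).eval (ea a).length =
      (ea a).length + bnd H.tm * H.time.eval (ea a).length := by simp
  rw [hev]
  constructor
  · intro t ht i
    rw [autOf_tab]
    have h5 := run_output (H.outputsFun a) (by omega : bnd H.tm * H.time.eval (ea a).length ≤ t)
    have h6 : (tableD ((ea a).map H.inputAlphabet.invFun) (t, i)).1.2 =
        col (conf (haltList H.tm (List.map H.outputAlphabet.invFun (eb (f a))))).2 i := by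
      rw [← h5]; rfl
    change outD _ (dec _ _) = _
    rw [dec_num]
    unfold outD
    rw [h6]
    simp only [conf, haltList, col, dite_true, eq_mpr_eq_cast, cast_eq, List.getElem?_map,
      Option.map_map]
    have h7 : (H.outputAlphabet.toFun ∘ H.outputAlphabet.invFun) = id := by
      funext b
      exact H.outputAlphabet.right_inv b
    rw [h7, Option.map_id]
    rfl
  · have h5 := run_output (H.outputsFun a) (le_refl _)
    have h6 := length_small (conf (initList H.tm ((ea a).map H.inputAlphabet.invFun))) H.tm.k₁
      (bnd H.tm * H.time.eval (ea a).length)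
    rw [h5] at h6
    have h7 : ((conf (haltList H.tm (List.map H.outputAlphabet.invFun (eb (f a))))).2
        H.tm.k₁).length = (eb (f a)).length := by
      simp [conf, haltList]
    have h8 := length_initList (tm := H.tm) ((ea a).map H.inputAlphabet.invFun) H.tm.k₁
    rw [h7] at h6
    rw [List.length_map] at h8
    have h9 : ((conf (initList H.tm ((ea a).map H.inputAlphabet.invFun))).2 H.tm.k₁) =
      (initList H.tm ((ea a).map H.inputAlphabet.invFun)).stk H.tm.k₁ := rfl
    rw [h9] at h6
    omega

end Pool.Agent.Helper7.SC
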