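import Pool.Agent.Helper7.SC.DigitClause
import Pool.Agent.Helper72.AC.AdvCore
import Pool.Agent.Helper45.SE.Khr

set_option autoImplicit false

/-! Base 2: the digit sensitivity is the total influence. -/

namespace Pool.Agent.Helper7.SC

open Finset
open Pool.Agent.Helper57.U2 (rep IsChoice upTo digit Guesses sensitivity)
open Pool.Agent.Helper72.AC (bits num num_bits bits_num num_flip_false)
open Pool.Agent.Helper72.Adv (guesses_mod)
open Pool.Agent.Helper45.SE (tot)

lemma inc_bits {K N j : ℕ} (hN : N < 2 ^ K) (hj : j < K) :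
    inc 2 j N = num (Pool.Agent.Helper72.AC.flip (bits K N) ⟨j, hj⟩) := by
  have h1 : bits K N ⟨j, hj⟩ = decide (N / 2 ^ j % 2 = 1) := by
    show N.testBit j = _
    exact Nat.testBit_eq_decide_div_mod_eq
  by_cases h : N / 2 ^ j % 2 = 1
  · have h2 : Pool.Agent.Helper72.AC.flip (bits K N) ⟨j, hj⟩ ⟨j, hj⟩ = false := by
      rw [Pool.Agent.Helper72.AC.flip, Function.update_self, h1]
      simp [h]
    have h3 := num_flip_false h2
    rw [Pool.Agent.Helper72.AC.flip_flip, num_bits hN] at h3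
    unfold inc
    rw [if_pos h]
    simp only at h3
    omega
  · have h2 : bits K N ⟨j, hj⟩ = false := by
      rw [h1]
      simp [h]
    have h3 := num_flip_false h2
    rw [num_bits hN] at h3
    unfold inc
    rw [if_neg h, h3]

/-- digit sensitivity of `J` modulo two from the total sensitivities -/
theorem digitSens_le {K : ℕ} {s : ℝ} (hK : 1 ≤ K) (J : ℕ → ℕ → ℕ)
    (h : ∀ i < K, (tot (fun x : Fin K → Bool => (J i (Nat.ofBits x)).testBit 0) : ℝ) ≤
      s * 2 ^ K) : digitSensitivity 2 K (fun i N => J i N % 2) ≤ s := by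
  have hK0 : (0 : ℝ) < K := by exact_mod_cast hK
  unfold digitSensitivity
  rw [div_le_iff₀ (by positivity)]
  have h1 : ∀ i ∈ range K, (∑ j ∈ range K,
      (#{n ∈ range (2 ^ K) | J i n % 2 ≠ J i (inc 2 j n) % 2} : ℝ)) ≤ s * 2 ^ K := by
    intro i hi
    refine le_trans ?_ (h i (mem_range.1 hi))
    unfold tot
    push_cast
    rw [Finset.sum_range]
    refine sum_le_sum fun j _ => Nat.cast_le.2 ?_
    refine Finset.card_le_card_of_injOn (fun N => bits K N) ?_ ?_
    · intro N hN
      rw [mem_coe, mem_filter, mem_range] at hN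
      obtain ⟨hN1, hN2⟩ := hN
      rw [mem_coe, mem_filter]
      refine ⟨mem_univ _, ?_⟩
      have e1 : Nat.ofBits (bits K N) = N := num_bits hN1
      have e2 := inc_bits hN1 j.2
      have e3 : Nat.ofBits (Pool.Agent.Helper72.AC.flip (bits K N) j) = inc 2 j N := e2.symm
      simp only
      rw [e1, e3]
      intro h3
      apply hN2
      rw [Nat.testBit_zero, Nat.testBit_zero] at h3
      have h4 := decide_eq_decide.1 h3
      have h5 := Nat.mod_two_eq_zero_or_one (J i N)
      have h6 := Nat.mod_two_eq_zero_or_one (J i (inc 2 j N))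
      rcases h5 with h5 | h5 <;> rcases h6 with h6 | h6 <;> simp [h5, h6] at h4 ⊢
    · intro M hM N hN hMN
      rw [mem_coe, mem_filter, mem_range] at hM hN
      have := congrArg num hMN
      simp only at this
      rwa [num_bits hM.1, num_bits hN.1] at this
  have h2 := Finset.sum_le_sum h1
  rw [Finset.sum_const, card_range, nsmul_eq_mul] at h2
  have h3 : (((2 : ℕ) : ℝ)) = 2 := by norm_num
  rw [h3]
  calc _ ≤ (K : ℝ) * (s * 2 ^ K) := h2
    _ = s * (K * 2 ^ K) := by ring

/-- the clause for families with total sensitivity at most `s` -/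
theorem tot_clause {K : ℕ} {c E s δ ε : ℝ} {D : Set ℕ} {f : ℕ → ℕ} (hc : 0 < c) (hs : 1 ≤ s)
    (J : ℕ → ℕ → ℕ) (hJ : Guesses 2 K ε D f J)
    (h : ∀ J : ℕ → ℕ → ℕ, Guesses 2 K ε D f J → ∀ s : ℝ, 1 ≤ s → sensitivity 2 K J ≤ s →
      c * ((2 : ℕ) : ℝ) ^ K * Real.exp (c * K / s) ≤ E)
    (hG : ∀ i < K, (tot (fun x : Fin K → Bool => (J i (Nat.ofBits x)).testBit 0) : ℝ) ≤
      s * 2 ^ K) :
    c / 4 * 2 ^ K * Real.exp (c / 4 * K / (s * Real.log (K + 2))) ≤ E := by
  rcases Nat.eq_zero_or_pos K with hK | hK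
  · subst hK
    have h1 := h J hJ (max 1 (sensitivity 2 0 J)) (le_max_left _ _) (le_max_right _ _)
    simp only [pow_zero, mul_one, Nat.cast_zero, mul_zero, zero_div, Real.exp_zero] at h1 ⊢
    linarith
  · have h1 := digit_of (b := 2) le_rfl hc hs (h _ (guesses_mod hJ)) (digitSens_le hK J hG)
    have h3 : (((2 : ℕ) : ℝ)) = 2 := by norm_num
    rw [h3] at h1
    exact h1

end Pool.Agent.Helper7.SC
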