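import Pool.Agent.Helper7.SC.Fejer

set_option autoImplicit false

/-! One block. -/

namespace Pool.Agent.Helper7.SC

open Finset

lemma v_nonneg {Q : ℕ} {p : ℝ} (hp : 0 ≤ p) (hp1 : p ≤ 1) (y : ℝ) : 0 ≤ v Q p y := by
  unfold v
  have h1 := w_nonneg Q y
  have h2 := w_le_one Q y
  nlinarith

lemma v_le_one {Q : ℕ} {p : ℝ} (hp : 0 ≤ p) (y : ℝ) : v Q p y ≤ 1 := by
  unfold v
  have h2 := w_le_one Q y
  nlinarith

lemma half_le_v {Q : ℕ} {p : ℝ} (hp : 0 ≤ p) (hp1 : p ≤ 1 / 2) (y : ℝ) : 1 / 2 ≤ v Q p y := by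
  unfold v
  have h1 := w_nonneg Q y
  have h2 := w_le_one Q y
  nlinarith

lemma le_ga {Q : ℕ} {η : ℝ} (hη1 : η ≤ 1) (y : ℝ) : η ≤ ga Q η y := by
  unfold ga
  have h1 := w_nonneg Q y
  nlinarith

lemma v_add_int (Q : ℕ) (p y : ℝ) (k : ℤ) : v Q p (y + k) = v Q p y := by
  unfold v
  rw [w_add_int]

lemma ga_add_int (Q : ℕ) (η y : ℝ) (k : ℤ) : ga Q η (y + k) = ga Q η y := by
  unfold ga
  rw [w_add_int]

lemma ga_shift {Q : ℕ} {η : ℝ} (hη : 0 < η) (hη1 : η ≤ 1) (y s : ℝ) :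
    ga Q η (y + s) ≤ ga Q η y * Real.exp (2 * Real.pi * Q / η * |s|) := by
  have h1 := w_sub_le Q y s
  have h2 := (abs_le.1 h1).2
  have h3 := le_ga (Q := Q) hη1 y
  have h4 : 2 * Real.pi * Q / η * |s| + 1 ≤ Real.exp (2 * Real.pi * Q / η * |s|) :=
    Real.add_one_le_exp _
  have h5 : ga Q η (y + s) ≤ ga Q η y + 2 * Real.pi * Q * |s| := by
    unfold ga
    have h6 : 0 ≤ 2 * Real.pi * Q * |s| := by positivity
    nlinarith
  have h7 : 2 * Real.pi * Q * |s| ≤ ga Q η y * (2 * Real.pi * Q / η * |s|) := by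
    have h8 : 2 * Real.pi * Q * |s| = η * (2 * Real.pi * Q / η * |s|) := by
      field_simp
    rw [h8]
    exact mul_le_mul_of_nonneg_right h3 (by positivity)
  have h9 : 0 ≤ ga Q η y := hη.le.trans h3
  calc ga Q η (y + s) ≤ ga Q η y * (2 * Real.pi * Q / η * |s| + 1) := by linarith
    _ ≤ _ := mul_le_mul_of_nonneg_left h4 h9

lemma v_shift {Q : ℕ} {p η : ℝ} (hp : 0 ≤ p) (hp1 : p ≤ 1 / 2) (hη : 0 < η) (hη1 : η ≤ 1)
    (y s : ℝ) : v Q p (y + s) ≤ v Q p y * Real.exp (2 * Real.pi * Q / η * |s|) := by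
  have h1 := w_sub_le Q y s
  have h2 := (abs_le.1 h1).2
  have h3 := half_le_v (Q := Q) hp hp1 y
  have h4 : 2 * Real.pi * Q / η * |s| + 1 ≤ Real.exp (2 * Real.pi * Q / η * |s|) :=
    Real.add_one_le_exp _
  have h5 : v Q p (y + s) ≤ v Q p y + 1 / 2 * (2 * Real.pi * Q * |s|) := by
    unfold v
    have h6 : 0 ≤ 2 * Real.pi * Q * |s| := by positivity
    nlinarith
  have h7 : 2 * Real.pi * Q * |s| ≤ 2 * Real.pi * Q / η * |s| := by
    refine mul_le_mul_of_nonneg_right ?_ (abs_nonneg s)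
    rw [le_div_iff₀ hη]
    exact mul_le_of_le_one_right (by positivity) hη1
  have h8 : 1 / 2 * (2 * Real.pi * Q * |s|) ≤ v Q p y * (2 * Real.pi * Q / η * |s|) :=
    mul_le_mul h3 h7 (by positivity) (by linarith)
  calc v Q p (y + s) ≤ v Q p y * (2 * Real.pi * Q / η * |s| + 1) := by linarith
    _ ≤ _ := mul_le_mul_of_nonneg_left h4 (by linarith)

lemma vga_shift {Q : ℕ} {p η : ℝ} (hp : 0 ≤ p) (hp1 : p ≤ 1 / 2) (hη : 0 < η) (hη1 : η ≤ 1)
    (y s : ℝ) : v Q p (y + s) * ga Q η (y + s) ≤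
      v Q p y * ga Q η y * Real.exp (4 * Real.pi * Q / η * |s|) := by
  have h1 := ga_shift (Q := Q) hη hη1 y s
  have h2 := v_shift (Q := Q) hp hp1 hη hη1 y s
  have h3 : 0 ≤ v Q p (y + s) := v_nonneg hp (by linarith) _
  have h4 : 0 ≤ ga Q η y := hη.le.trans (le_ga hη1 y)
  have h5 : 0 ≤ v Q p y := v_nonneg hp (by linarith) _
  have h6 : 0 ≤ ga Q η (y + s) := hη.le.trans (le_ga hη1 _)
  calc v Q p (y + s) * ga Q η (y + s)
      ≤ (v Q p y * Real.exp (2 * Real.pi * Q / η * |s|)) *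
        (ga Q η y * Real.exp (2 * Real.pi * Q / η * |s|)) := mul_le_mul h2 h1 h6 (by positivity)
    _ = v Q p y * ga Q η y * (Real.exp (2 * Real.pi * Q / η * |s|) *
        Real.exp (2 * Real.pi * Q / η * |s|)) := by ring
    _ = _ := by
        rw [← Real.exp_add]
        congr 2
        ring

lemma ga_shift' {Q : ℕ} {η : ℝ} (hη : 0 < η) (hη1 : η ≤ 1) (y s : ℝ) :
    ga Q η (y + s) ≤ ga Q η y * Real.exp (4 * Real.pi * Q / η * |s|) := by
  refine (ga_shift hη hη1 y s).trans ?_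
  refine mul_le_mul_of_nonneg_left ?_ (hη.le.trans (le_ga hη1 y))
  rw [Real.exp_le_exp]
  refine mul_le_mul_of_nonneg_right ?_ (abs_nonneg s)
  gcongr
  norm_num

/-- the block inequality -/
lemma block {Q H : ℕ} (hH : 1 ≤ H) (hQ : 2 * H < Q) {p Δ η : ℝ} (hΔ : 0 < Δ) (hp : 0 < p)
    (hη : η = 8 * Δ / p) (hη1 : η ≤ 1) (y : ℝ) :
    v Q p y * ga Q η y + 2 * (Δ / (2 * H)) * ∑ k ∈ Kz H, ga Q η (y + k / Q) ≤
      (1 + 4 * Δ * η) * ga Q η y := by
  have hH0 : (0 : ℝ) < H := by exact_mod_cast hH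
  have hH1 : (1 : ℝ) ≤ H := by exact_mod_cast hH
  have hη0 : 0 < η := by
    rw [hη]
    positivity
  have h1 := w_nonneg Q y
  have h2 := w_le_one Q y
  have h3 := sum_Kz_w hQ y
  have h4 : ∑ k ∈ Kz H, ga Q η (y + k / Q) = 2 * H * η + (1 - η) * ∑ k ∈ Kz H, w Q (y + k / Q) := by
    unfold ga
    rw [Finset.sum_add_distrib, Finset.sum_const, card_Kz, ← Finset.mul_sum, nsmul_eq_mul]
    push_cast
    ring
  have h5 : 2 * (Δ / (2 * H)) * ∑ k ∈ Kz H, ga Q η (y + k / Q) ≤ 2 * Δ * (η + (1 - w Q y)) := by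
    rw [h4]
    have h6 : (1 - η) * ∑ k ∈ Kz H, w Q (y + k / Q) ≤ 1 - w Q y := by
      have h7 : 0 ≤ ∑ k ∈ Kz H, w Q (y + k / Q) := sum_nonneg fun _ _ => w_nonneg _ _
      nlinarith
    have h8 : 2 * (Δ / (2 * H)) * (2 * H * η + (1 - w Q y)) ≤ 2 * Δ * (η + (1 - w Q y)) := by
      have h9 : 2 * (Δ / (2 * H)) * (2 * H * η + (1 - w Q y)) =
          2 * Δ * η + Δ * (1 - w Q y) / H := by
        field_simp
      rw [h9]
      have h10 : Δ * (1 - w Q y) / H ≤ Δ * (1 - w Q y) := by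
        rw [div_le_iff₀ hH0]
        have : 0 ≤ Δ * (1 - w Q y) := mul_nonneg hΔ.le (by linarith)
        nlinarith
      have : 0 ≤ Δ * (1 - w Q y) := mul_nonneg hΔ.le (by linarith)
      linarith
    refine le_trans ?_ h8
    gcongr
  have hpη : p * η = 8 * Δ := by
    rw [hη]
    field_simp
  refine le_trans (add_le_add_right h5 _) ?_
  have h11 : ga Q η y = η + (1 - η) * w Q y := rfl
  have h12 : v Q p y = 1 - p * (1 - w Q y) := rfl
  rw [h12]
  have h13 := le_ga (Q := Q) hη1 y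
  set W := w Q y with hW
  set g := ga Q η y with hg
  have key : 2 * Δ * (η + (1 - W)) ≤ (p * (1 - W) + 4 * Δ * η) * g := by
    rcases le_total (1 / 2) W with h | h
    · have h14 : 1 / 2 ≤ g := by
        rw [h11]
        nlinarith
      have h15 : 8 * Δ ≤ p := by
        rw [← hpη]
        exact mul_le_of_le_one_right hp.le hη1
      have h16 : 0 ≤ p * (1 - W) + 4 * Δ * η := by
        have : 0 ≤ p * (1 - W) := mul_nonneg hp.le (by linarith)
        have : 0 ≤ 4 * Δ * η := by positivity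
        linarith
      have h17 : (p * (1 - W) + 4 * Δ * η) * (1 / 2) ≤ (p * (1 - W) + 4 * Δ * η) * g :=
        mul_le_mul_of_nonneg_left h14 h16
      have h18 : 8 * Δ * (1 - W) ≤ p * (1 - W) := mul_le_mul_of_nonneg_right h15 (by linarith)
      have h19 : 0 ≤ Δ * (1 - W) := mul_nonneg hΔ.le (by linarith)
      nlinarith
    · have h16 : 0 ≤ p * (1 - W) + 4 * Δ * η := by
        have : 0 ≤ p * (1 - W) := mul_nonneg hp.le (by linarith)
        have : 0 ≤ 4 * Δ * η := by positivity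
        linarith
      have h17 : (p * (1 - W) + 4 * Δ * η) * η ≤ (p * (1 - W) + 4 * Δ * η) * g :=
        mul_le_mul_of_nonneg_left h13 h16
      have h18 : (p * (1 - W) + 4 * Δ * η) * η = 8 * Δ * (1 - W) + 4 * Δ * η * η := by
        linear_combination (1 - W) * hpη
      have h19 : 0 ≤ 4 * Δ * η * η := by positivity
      have h20 : 1 / 2 * Δ ≤ Δ * (1 - W) := by nlinarith
      have h21 : Δ * η ≤ Δ := mul_le_of_le_one_right hΔ.le hη1
      nlinarith
  nlinarith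

end Pool.Agent.Helper7.SC
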