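import Pool.Agent.Helper7.SC.Glob

/-!
# Circuits with semidefinite gates
-/

open scoped InnerProductSpace

namespace Pool.Agent.Helper7.SC

open Pool.Agent.Helper92.Theta Pool.Agent.Helper95.Slp

open Classical in
/-- The values of a circuit with semidefinite gates; the value number `0` is `1`. -/
noncomputable def evX (P : List XGate) : ℕ → ℝ
  | 0 => 1
  | k + 1 => match P[k]? with
    | none => 0
    | some g =>
      if g.1 = true then
        (if feas g.2.1 g.2.2.2.1 (fun u => evX P (idx k (g.2.2.1 + u))) then 1 else 0)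
      else opR g.2.1 (ival g.2.2.2.2) (evX P (idx k g.2.2.1)) (evX P (idx k g.2.2.2.1))
  decreasing_by all_goals exact Nat.lt_succ_of_le (idx_le _ _)

/-- The circuits whose last value is positive. -/
def SdpCircuit : Set (List XGate) := {P | 0 < evX P P.length}

lemma evX_zero (P : List XGate) : evX P 0 = 1 := by rw [evX]

open Classical in
/-- the value of a gate with the given earlier values -/
noncomputable def gv (k : ℕ) (g : XGate) (f : ℕ → ℝ) : ℝ :=
  if g.1 = true then
    (if feas g.2.1 g.2.2.2.1 (fun u => f (idx k (g.2.2.1 + u))) then 1 else 0)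
  else opR g.2.1 (ival g.2.2.2.2) (f (idx k g.2.2.1)) (f (idx k g.2.2.2.1))

lemma evX_succ {P : List XGate} {k : ℕ} {g : XGate} (h : P[k]? = some g) :
    evX P (k + 1) = gv k g (evX P) := by
  rw [evX, h]
  rfl

lemma gv_congr {k : ℕ} {g : XGate} {f f' : ℕ → ℝ} (h : ∀ c ≤ k, f c = f' c) :
    gv k g f = gv k g f' := by
  unfold gv
  rw [h _ (idx_le _ _), h _ (idx_le _ _)]
  have h1 : (fun u => f (idx k (g.2.2.1 + u))) = fun u => f' (idx k (g.2.2.1 + u)) :=
    funext fun u => h _ (idx_le _ _)
  rw [h1]

lemma evX_append (P Q : List XGate) : ∀ c, c ≤ P.length → evX (P ++ Q) c = evX P c := by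
  intro c
  induction c using Nat.strong_induction_on with
  | _ c ih =>
    intro hc
    rcases c with _ | k
    · rw [evX_zero, evX_zero]
    · have hk : k < P.length := by omega
      have h1 : P[k]? = some P[k] := List.getElem?_eq_getElem hk
      have h2 : (P ++ Q)[k]? = some P[k] := by
        rw [List.getElem?_append_left hk, h1]
      rw [evX_succ h1, evX_succ h2]
      exact gv_congr fun c hc => ih c (by omega) (by omega)

lemma evX_snoc (P : List XGate) (g : XGate) :
    evX (P ++ [g]) (P.length + 1) = gv P.length g (evX P) := by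
  have h : (P ++ [g])[P.length]? = some g := by
    rw [List.getElem?_append_right (le_refl _), Nat.sub_self]
    rfl
  rw [evX_succ h]
  exact gv_congr fun c hc => evX_append P [g] c hc

/-! ### Compilation of circuits to programs -/

/-- Six gates of a program that simulate one gate of a circuit. -/
def blkX (k : ℕ) (g : XGate) : List XGate :=
  if g.1 = true then [(false, fil), (false, fil), (false, fil), (false, fil), (false, fil),
    (true, g.2)]
  else (blk k g.2.1 (6 * idx k g.2.2.1) (6 * idx k g.2.2.2.1) g.2.2.2.2).map (Prod.mk false)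

/-- The program that simulates the circuit. -/
def cmpX (P : List XGate) : List XGate :=
  (List.range P.length).flatMap fun k => blkX k ((P[k]?).getD xg0)

lemma blkX_length (k : ℕ) (g : XGate) : (blkX k g).length = 6 := by
  unfold blkX
  split_ifs
  · rfl
  · rw [List.length_map, blk_length]

lemma cmpX_length (P : List XGate) : (cmpX P).length = 6 * P.length := by
  unfold cmpX
  rw [List.length_flatMap]
  simp [blkX_length, mul_comm]

/-- the values of the compiled program -/
noncomputable def cvX (P : List XGate) (c : ℕ) : ℝ :=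
  if c = 0 then 1 else
    if ((P[(c - 1) / 6]?).getD xg0).1 = true then
      (if (c - 1) % 6 = 5 then evX P ((c - 1) / 6 + 1) else 0)
    else
    (blkV ((P[(c - 1) / 6]?).getD xg0).2.1 (ival ((P[(c - 1) / 6]?).getD xg0).2.2.2.2)
      (evX P (idx ((c - 1) / 6) ((P[(c - 1) / 6]?).getD xg0).2.2.1))
      (evX P (idx ((c - 1) / 6) ((P[(c - 1) / 6]?).getD xg0).2.2.2.1))).getD ((c - 1) % 6) 0

lemma cvX_six (P : List XGate) (c : ℕ) (hc : c ≤ P.length) : cvX P (6 * c) = evX P c := by
  rcases c with _ | k
  · rw [evX_zero]; rfl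
  · have hk : k < P.length := by omega
    have h1 : P[k]? = some P[k] := List.getElem?_eq_getElem hk
    have h2 : (6 * (k + 1) - 1) / 6 = k := by omega
    have h3 : (6 * (k + 1) - 1) % 6 = 5 := by omega
    unfold cvX
    rw [if_neg (by omega), h2, h3, h1, Option.getD_some]
    by_cases hb : P[k].1 = true
    · rw [if_pos hb, if_pos rfl]
    · rw [if_neg hb, blkV_last, evX_succ h1]
      unfold gv
      rw [if_neg hb]

lemma cmpX_values (P : List XGate) : XValues (cmpX P) (cvX P) := by
  refine ⟨rfl, fun K g hg => ?_⟩
  have hK : K < 6 * P.length := by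
    have := (List.getElem?_eq_some_iff.1 hg).1
    rwa [cmpX_length] at this
  obtain ⟨k, r, hr, rfl⟩ : ∃ k r, r < 6 ∧ K = 6 * k + r :=
    ⟨K / 6, K % 6, Nat.mod_lt _ (by omega), by omega⟩
  have hk : k < P.length := by omega
  have h1 : P[k]? = some P[k] := List.getElem?_eq_getElem hk
  unfold cmpX at hg
  rw [getElem?_flatMap_range 6 _ (fun _ => blkX_length _ _) _ _ _ hk hr, h1,
    Option.getD_some] at hg
  have a1 := idx_le k P[k].2.2.1
  have a2 := idx_le k P[k].2.2.2.1
  have hcv : ∀ s < 6, cvX P (6 * k + s + 1) =
      if P[k].1 = true then (if s = 5 then evX P (k + 1) else 0)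
      else (blkV P[k].2.1 (ival P[k].2.2.2.2) (evX P (idx k P[k].2.2.1))
        (evX P (idx k P[k].2.2.2.1))).getD s 0 := by
    intro s hs
    have h2 : (6 * k + s + 1 - 1) / 6 = k := by omega
    have h3 : (6 * k + s + 1 - 1) % 6 = s := by omega
    unfold cvX
    rw [if_neg (by omega), h2, h3, h1, Option.getD_some]
  by_cases hb : P[k].1 = true
  · simp only [if_pos hb] at hcv
    unfold blkX at hg
    rw [if_pos hb] at hg
    by_cases hr5 : r = 5
    · subst hr5
      simp only [List.getElem?_cons_succ, List.getElem?_cons_zero, Option.some.injEq] at hg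
      subst hg
      unfold XRes
      rw [if_pos rfl, hcv 5 (by omega), if_pos rfl, evX_succ h1]
      unfold gv
      rw [if_pos hb]
      have h2 : (fun u => cvX P (rd (6 * k + 5) (P[k].2.2.1 + u))) =
          fun u => evX P (idx k (P[k].2.2.1 + u)) := by
        funext u
        unfold rd
        have h3 : (6 * k + 5) / 6 = k := by omega
        rw [h3]
        exact cvX_six P _ ((idx_le _ _).trans hk.le)
      simp only
      rw [h2]
      refine ⟨fun h => if_pos h, fun h => if_neg h⟩
    · have hgf : g = (false, fil) := by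
        interval_cases r <;> simp at hg hr5 <;> exact hg.symm
      subst hgf
      unfold XRes
      rw [if_neg (by simp), hcv r hr, if_neg hr5]
      simp [Res, fil, ival_zer]
  · simp only [if_neg hb] at hcv
    unfold blkX at hg
    rw [if_neg hb, List.getElem?_map] at hg
    rcases hg' : (blk k P[k].2.1 (6 * idx k P[k].2.2.1) (6 * idx k P[k].2.2.2.1)
        P[k].2.2.2.2)[r]? with _ | g'
    · rw [hg'] at hg; exact absurd hg (by simp)
    · rw [hg'] at hg
      simp only [Option.map_some, Option.some.injEq] at hg
      subst hg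
      unfold XRes
      rw [if_neg (by simp)]
      exact blk_ok (a := evX P (idx k P[k].2.2.1)) (b := evX P (idx k P[k].2.2.2.1)) rfl
        (cvX_six P _ (by omega)) (cvX_six P _ (by omega)) (by omega) (by omega)
        hcv r g' hg'

lemma XValues.unique {P : List XGate} {v v' : ℕ → ℝ} (h : XValues P v) (h' : XValues P v') :
    ∀ c, c ≤ P.length → v c = v' c := by
  intro c
  induction c using Nat.strong_induction_on with
  | _ c ih =>
    intro hc
    rcases c with _ | k
    · rw [h.1, h'.1]
    · have hk : k < P.length := by omega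
      have h1 : P[k]? = some P[k] := List.getElem?_eq_getElem hk
      have h2 := h.2 k _ h1
      have h3 := h'.2 k _ h1
      unfold XRes at h2 h3
      by_cases hb : P[k].1 = true
      · rw [if_pos hb] at h2 h3
        have h4 : (fun u => v (rd k (P[k].2.2.1 + u))) = fun u => v' (rd k (P[k].2.2.1 + u)) :=
          funext fun u => ih _ (Nat.lt_succ_of_le (rd_le _ _)) ((rd_le _ _).trans hk.le)
        rw [h4] at h2
        by_cases hf : feas P[k].2.1 P[k].2.2.2.1 (fun u => v' (rd k (P[k].2.2.1 + u)))
        · rw [h2.1 hf, h3.1 hf]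
        · rw [h2.2 hf, h3.2 hf]
      · rw [if_neg hb] at h2 h3
        have a1 := idx_le k P[k].2.2.1
        have a2 := idx_le k P[k].2.2.2.1
        rw [← ih _ (by omega) (by omega), ← ih _ (by omega) (by omega)] at h3
        exact h2.unique h3

/-! ### Acceptance -/

/-- auxiliary row for the acceptance -/
def Sl : Na := (11, 0, 0, 0)

/-- the value number `c` is nonnegative -/
def acc (c : ℕ) : Eqn := ([(one, Sl, Sl), (mone, o0, V c)], zer)

theorem acc_iff {Q : List XGate} {v : ℕ → ℝ} (hv : XValues Q v) :
    sdpOf (sysX Q ++ [acc Q.length]) ∈ SDPFeas ↔ 0 ≤ v Q.length := by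
  have hOk : ∀ e ∈ sysX Q ++ [acc Q.length], Ok e := by
    intro e he
    rcases List.mem_append.1 he with he | he
    · exact ok_sysX Q e he
    · rw [List.mem_singleton] at he
      subst he
      simp [Ok, acc, Sl, V, o0]
  constructor
  · intro h
    obtain ⟨m, x, v', hx, hv', hl, hE⟩ := sysX_sound hOk h
    have h1 := hE (acc Q.length) (List.mem_singleton.2 rfl)
    simp only [Hol, acc, lhs_cons, lhs_nil, bval_one, bval_mone, bval_zer] at h1
    have h2 : 0 ≤ ⟪x Sl, x Sl⟫_ℝ := real_inner_self_nonneg
    have h3 : ⟪x o0, x (V Q.length)⟫_ℝ = v' Q.length := by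
      rw [hl _ (le_refl _), inner_smul_right, hx, mul_one]
    rw [hv.unique hv' _ (le_refl _), ← h3]
    linarith
  · intro h
    obtain ⟨K, w, N, hK, hK0, hE, hKe, hw0, hwV, hwx, hN1, hN2, hNx⟩ :=
      sysX_complete hv (fun _ => 0) (fun _ => √(v Q.length)) (fun _ => (0, 0))
    refine net_complete hOk hK hK0 fun e he => ?_
    rcases List.mem_append.1 he with he | he
    · exact hE e he
    · rw [List.mem_singleton] at he
      subst he
      simp only [Hol, acc, lhs_cons, lhs_nil, bval_one, bval_mone, bval_zer]
      rw [hKe, hKe, hNx _ _ (by simp [Sl]) (by simp [Sl]), hwx _ (by simp [Sl]),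
        hN1 _ _ (by simp [o0]), hw0, hwV, if_pos rfl, Real.mul_self_sqrt h]
      ring

/-! ### Operations at the end of a circuit -/

/-- append a basic gate whose operands are given -/
def apX (P : List XGate) (op i j : ℕ) : List XGate := P ++ [(false, (op, i, j, zer))]

lemma apX_length (P : List XGate) (op i j : ℕ) : (apX P op i j).length = P.length + 1 := by
  simp [apX]

lemma evX_apX (P : List XGate) (op i j : ℕ) (hi : i ≤ P.length) (hj : j ≤ P.length) :
    evX (apX P op i j) (P.length + 1) = opR op 0 (evX P i) (evX P j) := by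
  unfold apX
  rw [evX_snoc]
  unfold gv
  rw [if_neg (by simp), idx_eq hi, idx_eq hj, ival_zer, Int.cast_zero]

/-- `x ↦ [0 < x] - 1` -/
def posX (P : List XGate) : List XGate := apX (apX P 6 P.length 0) 2 (P.length + 1) 0

lemma posX_iff (P : List XGate) : 0 ≤ evX (posX P) (posX P).length ↔ 0 < evX P P.length := by
  unfold posX
  rw [apX_length, apX_length]
  have h1 := evX_apX (apX P 6 P.length 0) 2 (P.length + 1) 0 (by rw [apX_length]) (Nat.zero_le _)
  rw [apX_length] at h1
  rw [h1, evX_apX P 6 P.length 0 (le_refl _) (Nat.zero_le _)]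
  simp only [opR, evX_zero]
  split_ifs with h
  · simp [h]
  · simp only [h, iff_false]
    norm_num

/-- `x ↦ 1 - [0 < x]` -/
def negX (P : List XGate) : List XGate := apX (apX P 6 P.length 0) 2 0 (P.length + 1)

lemma negX_iff (P : List XGate) : 0 < evX (negX P) (negX P).length ↔ ¬ 0 < evX P P.length := by
  unfold negX
  rw [apX_length, apX_length]
  have h1 := evX_apX (apX P 6 P.length 0) 2 0 (P.length + 1) (Nat.zero_le _) (by rw [apX_length])
  rw [apX_length] at h1
  rw [h1, evX_apX P 6 P.length 0 (le_refl _) (Nat.zero_le _)]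
  simp only [opR, evX_zero]
  split_ifs with h
  · simp [h]
  · simp [h]

/-- The reduction from circuits with semidefinite gates to semidefinite feasibility. -/
def circX (P : List XGate) : SDP :=
  sdpOf (sysX (cmpX (posX P)) ++ [acc (cmpX (posX P)).length])

theorem circX_iff (P : List XGate) : P ∈ SdpCircuit ↔ circX P ∈ SDPFeas := by
  unfold circX
  rw [acc_iff (cmpX_values (posX P)), cmpX_length, cvX_six _ _ (le_refl _), posX_iff]
  rfl

/-! ### Circuits without semidefinite gates -/

lemma evX_map (P : List Gate) : ∀ c, evX (P.map (Prod.mk false)) c = ev P c := by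
  intro c
  induction c using Nat.strong_induction_on with
  | _ c ih =>
    rcases c with _ | k
    · rw [evX_zero, ev_zero]
    · rcases hk : P[k]? with _ | g
      · rw [evX, ev, List.getElem?_map, hk]
        rfl
      · have h2 : (P.map (Prod.mk false))[k]? = some (false, g) := by
          rw [List.getElem?_map, hk]; rfl
        rw [evX_succ h2, ev_succ hk]
        unfold gv
        rw [if_neg (by simp)]
        simp only
        rw [ih _ (Nat.lt_succ_of_le (idx_le _ _)), ih _ (Nat.lt_succ_of_le (idx_le _ _))]

theorem mapX_iff (P : List Gate) : P ∈ RealCircuit ↔ P.map (Prod.mk false) ∈ SdpCircuit := by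
  change 0 < ev P P.length ↔ 0 < evX _ _
  rw [evX_map, List.length_map]

end Pool.Agent.Helper7.SC
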