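import Mathlib

/-!
# Definitions for the statement of `MP_0878b7_lc.SdpCircuits`
-/

open Turing
open scoped InnerProductSpace

namespace Pool.Agent.Results.MP_0878b7_lc.SdpCircuits

/-! ### Computability in polynomial time -/

/-- Types whose elements are coded by strings of Booleans. -/
class Coded (α : Type) where
  /-- the code -/
  code : α → List Bool

export Coded (code)

/-- The code of a pair of strings: the symbols of the first string, each preceded by `true`, then
`false`, then the second string. -/
def pairCode (u v : List Bool) : List Bool := u.flatMap (fun a => [true, a]) ++ false :: v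

/-- A Boolean is coded by itself. -/
instance instCodedBool : Coded Bool := ⟨fun b => [b]⟩

/-- A natural number that is a size or an index is coded in unary. (Other numbers are
represented by their binary digits, see `bval` below.) -/
instance instCodedNat : Coded ℕ := ⟨fun n => List.replicate n true⟩

/-- The code of a pair. -/
instance instCodedProd {α β : Type} [Coded α] [Coded β] : Coded (α × β) :=
  ⟨fun x => pairCode (code x.1) (code x.2)⟩

/-- The code of a list: `pairCode (code a₁) (pairCode (code a₂) (… []))`. -/
instance instCodedList {α : Type} [Coded α] : Coded (List α) :=
  ⟨fun l => l.foldr (fun a s => pairCode (code a) s) []⟩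

/-- The function `f` is computable in polynomial time by a Turing machine. -/
def PolyTime {α β : Type} [Coded α] [Coded β] (f : α → β) : Prop :=
  Nonempty (TM2ComputableInPolyTime (code : α → List Bool) (code : β → List Bool) f)

/-- A decision problem: instances with codes, and the set of the instances with the answer yes. -/
structure Problem where
  /-- the instances -/
  Inst : Type
  /-- the codes of the instances -/
  coded : Coded Inst
  /-- the instances with the answer yes -/
  yes : Set Inst

attribute [instance] Problem.coded

/-- The complement of a problem. -/
def Problem.compl (A : Problem) : Problem := ⟨A.Inst, A.coded, A.yesᶜ⟩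

/-- Polynomial-time many-one reducibility. -/
def Reduces (A B : Problem) : Prop :=
  ∃ f : A.Inst → B.Inst, PolyTime f ∧ ∀ x, x ∈ A.yes ↔ f x ∈ B.yes

/-- The problem can be decided in polynomial time. -/
def InP (A : Problem) : Prop := ∃ f : A.Inst → Bool, PolyTime f ∧ ∀ x, x ∈ A.yes ↔ f x = true

/-- The first `m` answers of the oracle `B` on an input. The next question is `q a`, where `a` is
the list of the answers so far. -/
noncomputable def answers {β : Type} (B : Set β) (q : List Bool → β) (m : ℕ) : List Bool :=
  (fun a => a ++ [open Classical in decide (q a ∈ B)])^[m] []

/-- **Polynomial-time Turing reducibility**: `A` is decided in polynomial time with an oracle for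
`B`. The number of the questions is a polynomial `p` in the length of the code of the input `x`,
the next question is computed in polynomial time from `x` and the answers so far, and the decision
is computed in polynomial time from `x` and all answers. -/
def TuringReduces (A B : Problem) : Prop :=
  ∃ (q : A.Inst × List Bool → B.Inst) (d : A.Inst × List Bool → Bool) (p : Polynomial ℕ),
    PolyTime q ∧ PolyTime d ∧ ∀ x, x ∈ A.yes ↔
      d (x, answers B.yes (fun a => q (x, a)) (p.eval (code x).length)) = true

/-! ### Numbers in binary -/

/-- The natural number with the given binary digits, least significant digit first. -/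
def bval (l : List Bool) : ℕ := l.foldr (fun b n => (if b = true then 1 else 0) + 2 * n) 0

/-- Integers in binary: a sign (`true` for nonnegative) and the digits of the absolute value. -/
abbrev BInt : Type := Bool × List Bool

/-- The integer with a given binary representation. -/
def ival (z : BInt) : ℤ := if z.1 = true then (bval z.2 : ℤ) else - (bval z.2 : ℤ)

/-! ### The theta body -/

/-- The theta body of a graph. The index `none` stands for the additional row `0`. -/
def TH {V : Type} (G : SimpleGraph V) : Set (V → ℝ) :=
  {x | ∃ Y : Matrix (Option V) (Option V) ℝ, Y.PosSemidef ∧ Y none none = 1 ∧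
    (∀ i, Y none (some i) = x i ∧ Y (some i) (some i) = x i) ∧
    ∀ i j, G.Adj i j → Y (some i) (some j) = 0}

/-- The graph on `Fin n` whose edges are given by a list of pairs of vertices. -/
def graphOf (n : ℕ) (E : List (ℕ × ℕ)) : SimpleGraph (Fin n) where
  Adj i j := i ≠ j ∧ (((i : ℕ), (j : ℕ)) ∈ E ∨ ((j : ℕ), (i : ℕ)) ∈ E)
  symm := ⟨fun _ _ h => ⟨h.1.symm, h.2.symm⟩⟩
  loopless := ⟨fun _ h => h.1 rfl⟩

/-- **Exact membership of the vector `(1/8, …, 1/8)` in the theta body.** An instance is the number
of vertices with the list of the edges of the graph. -/
def TH8 : Problem := ⟨ℕ × List (ℕ × ℕ), inferInstance, {I | (fun _ => 1 / 8) ∈ TH (graphOf I.1 I.2)}⟩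

/-- The Lovász number of a graph: the maximum of the sum of the coordinates on the theta body. -/
noncomputable def lovasz {V : Type} [Fintype V] (G : SimpleGraph V) : ℝ :=
  sSup {s | ∃ x ∈ TH G, s = ∑ i, x i}

/-- **Comparison of Lovász numbers.** An instance is a pair of graphs. Question: is the Lovász number
of the first graph at most that of the second graph? -/
def LovaszCompare : Problem :=
  ⟨(ℕ × List (ℕ × ℕ)) × (ℕ × List (ℕ × ℕ)), inferInstance,
    {p | lovasz (graphOf p.1.1 p.1.2) ≤ lovasz (graphOf p.2.1 p.2.2)}⟩

/-! ### Real circuits with semidefinite gates -/

/-- The operations of the basic gates: constants, `+`, `-`, `*`, `/`, the square root, and the test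
for positivity. All operations are total: `a / 0 = 0`, and the square root of a negative number is
`0`. -/
noncomputable def opR (o : ℕ) (z a b : ℝ) : ℝ :=
  if o = 0 then z else if o = 1 then a + b else if o = 2 then a - b else if o = 3 then a * b
  else if o = 4 then a / b else if o = 5 then √a else if 0 < a then 1 else 0

/-- The semidefinite system with the data `d 0, d 1, …` is feasible: some positive semidefinite
`n × n` matrix `Y` has the trace `d 0` and satisfies `m` linear equations. The data of an equation
are its right side, followed by the `n * n` coefficients, row by row. -/
def Feasible (n m : ℕ) (d : ℕ → ℝ) : Prop :=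
  ∃ Y : Matrix (Fin n) (Fin n) ℝ, Y.PosSemidef ∧ ∑ i, Y i i = d 0 ∧
    ∀ l < m, ∑ i : Fin n, ∑ j : Fin n, d (1 + l * (n * n + 1) + 1 + n * i + j) * Y i j =
      d (1 + l * (n * n + 1))

/-- A gate of a circuit. `(false, o, i, j, z)` is a basic gate with the operation `o`, the operands
with the numbers `i`, `j` and the constant `z`. `(true, n, p, m, _)` is a semidefinite gate with
`n × n` matrices and `m` equations, whose data are the values with the numbers
`p, p + 1, p + 2, …`. -/
abbrev Gate : Type := Bool × ℕ × ℕ × ℕ × BInt

/-- The value number `i` of a list of values; it is `1` (the value number `0`) if `i` is too big. -/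
def operand {R : Type} [One R] (vs : List R) (i : ℕ) : R := (vs[i]?).getD 1

open Classical in
/-- The value of a gate, given the values before. The value of a semidefinite gate is `1` if its
system is feasible, and `0` otherwise. -/
noncomputable def gateValue (vs : List ℝ) (g : Gate) : ℝ :=
  if g.1 = true then
    if Feasible g.2.1 g.2.2.2.1 (fun u => operand vs (g.2.2.1 + u)) then 1 else 0
  else opR g.2.1 (ival g.2.2.2.2) (operand vs g.2.2.1) (operand vs g.2.2.2.1)

/-- The values of a circuit: the value number `0` is `1`, and the value number `k + 1` is the value
of the gate number `k` (counted from `0`). -/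
noncomputable def values (P : List Gate) : List ℝ := P.foldl (fun vs g => vs ++ [gateValue vs g]) [1]

/-- **The value problem for real circuits with semidefinite gates**: is the last value positive? -/
def SdpCircuit : Problem := ⟨List Gate, inferInstance, {P | 0 < operand (values P) P.length}⟩

/-! ### Integer straight-line programs, sums of square roots -/

/-- The operations of integer straight-line programs. -/
def opZ (o : ℕ) (a b : ℤ) : ℤ := if o = 0 then a + b else if o = 1 then a - b else a * b

/-- The values of the straight-line program `P`, a list of triples (operation, first operand, second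
operand): the value number `0` is `1`. -/
def valuesZ (P : List (ℕ × ℕ × ℕ)) : List ℤ :=
  P.foldl (fun vs g => vs ++ [opZ g.1 (operand vs g.2.1) (operand vs g.2.2)]) [1]

/-- **PosSLP**: is the integer computed by the straight-line program positive? -/
def PosSLP : Problem :=
  ⟨List (ℕ × ℕ × ℕ), inferInstance, {P | 0 < operand (valuesZ P) P.length}⟩

/-- **The sum of square roots problem.** An instance is a list of signs and natural numbers `a` in
binary. Question: is `∑ ±√a ≥ 0`? -/
def SumSqrt : Problem := ⟨List BInt, inferInstance,
  {l | 0 ≤ (l.map fun z => (if z.1 = true then 1 else -1) * √(bval z.2 : ℝ)).sum}⟩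

/-! ### Discounted stochastic games -/

/-- The right side of the optimality equation of a position of type `t` whose successors have the
values `a`, `b`, for the discount factor `1 - 2 ^ (-k)`: at a position of type `0` the player Max
chooses the successor, at type `1` the player Min, at type `2` it is chosen at random, each with
probability `1/2`; positions of type `3` are terminal with the payoff `1`, all others are terminal
with the payoff `-1`. -/
noncomputable def opt (k t : ℕ) (a b : ℝ) : ℝ :=
  if t = 0 then (1 - 1 / 2 ^ k) * max a b
  else if t = 1 then (1 - 1 / 2 ^ k) * min a b
  else if t = 2 then (1 - 1 / 2 ^ k) * ((a + b) / 2)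
  else if t = 3 then 1 else -1

/-- The position number `i` (type and successors) of a game; a number that is too big denotes a
terminal position with the payoff `-1`. -/
def position (L : List (ℕ × ℕ × ℕ)) (i : ℕ) : ℕ × ℕ × ℕ := (L[i]?).getD (4, 0, 0)

/-- `v` is the sequence of the values of the positions of the game `(k, L)` -/
def GameValues (I : ℕ × List (ℕ × ℕ × ℕ)) (v : ℕ → ℝ) : Prop :=
  ∀ i, v i = opt I.1 (position I.2 i).1 (v (position I.2 i).2.1) (v (position I.2 i).2.2)

/-- **Discounted stochastic games**: is the value of the position `0` nonnegative? -/
def StochGame : Problem :=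
  ⟨ℕ × List (ℕ × ℕ × ℕ), inferInstance, {I | ∃ v, GameValues I v ∧ 0 ≤ v 0}⟩

end Pool.Agent.Results.MP_0878b7_lc.SdpCircuits
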