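import Pool.Agent.Helper7.SC.Net
import Pool.Agent.Helper78.TT.Cpt

/-!
# Comparison of Lovász numbers
-/

open scoped InnerProductSpace
open Pool.Agent.Helper91.PolyTime

namespace Pool.Agent.Helper7.SC

open Pool.Agent.Helper92.Theta Pool.Agent.Helper95.Slp Pool.Agent.Helper78.TT

/-- graphs as inputs -/
abbrev GI : Type := ℕ × List (ℕ × ℕ)

/-- the first Lovász number is smaller than the second -/
def LovLt : Set (GI × GI) := {p | lov (graphOf p.1.1 p.1.2) < lov (graphOf p.2.1 p.2.2)}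

/-! ### The equations -/

/-- vectors of the theta body of the second graph -/
def cA (i : ℕ) : Na := (1, i, 0, 0)

/-- the vector with the length of the threshold -/
def cO : Na := (2, 0, 0, 0)

/-- vectors of the dual of the first graph -/
def cB (i : ℕ) : Na := (3, i, 0, 0)

/-- the excess -/
def cC : Na := (4, 0, 0, 0)

/-- its inverse -/
def cD : Na := (5, 0, 0, 0)

/-- the edges that are used -/
def edg (I : GI) : List (ℕ × ℕ) :=
  I.2.filter fun e => decide (e.1 < I.1 ∧ e.2 < I.1 ∧ e.1 ≠ e.2)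

/-- the equations -/
def eqL (p : GI × GI) : List Eqn :=
  ((List.range p.2.1).map fun i => (([(one, o0, cA i), (mone, cA i, cA i)], zer) : Eqn)) ++
  (((edg p.2).map fun e => (([(one, cA e.1, cA e.2)], zer) : Eqn)) ++
  (((List.range p.1.1).map fun i => (([(one, cO, cB i)], one) : Eqn)) ++
  (((List.range p.1.1).map fun i => (([(one, cB i, cB i)], one) : Eqn)) ++
  (((complE p.1.1 p.1.2).map fun e => (([(one, cB e.1, cB e.2)], zer) : Eqn)) ++
  [([(one, cC, cD)], one),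
    ((mone, cO, cO) :: (mone, cC, cC) :: (List.range p.2.1).map fun i => (one, cA i, cA i),
      zer)]))))

lemma eqL_ok (p : GI × GI) : ∀ e ∈ eqL p, Ok e := by
  intro e he
  unfold eqL at he
  simp only [List.mem_append, List.mem_map, List.mem_cons, List.not_mem_nil, or_false] at he
  unfold Ok
  rcases he with ⟨i, -, rfl⟩ | ⟨i, -, rfl⟩ | ⟨i, -, rfl⟩ | ⟨i, -, rfl⟩ | ⟨i, -, rfl⟩ | rfl | rfl
  · simp [o0, cA]
  · simp
  · simp
  · simp
  · simp
  · simp
  · simp only [List.map_cons, List.map_map, List.nodup_cons, List.mem_cons, List.mem_map,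
      List.mem_range, not_or]
    refine ⟨⟨by simp [cO, cC], ?_⟩, ?_, ?_⟩
    · rintro ⟨i, -, h⟩
      simp [cA, cO] at h
    · rintro ⟨i, -, h⟩
      simp [cA, cC] at h
    · refine List.Nodup.map ?_ List.nodup_range
      intro i j h
      simpa [cA] using h

lemma hol_one {y : Na → Na → ℝ} {a b : Na} {z : BInt} :
    Hol y ([(one, a, b)], z) ↔ y a b = ival z := by
  unfold Hol lhs
  simp [Helper95.Slp.ival_one]

lemma lhs_sum (y : Na → Na → ℝ) (n : ℕ) :
    lhs y ((List.range n).map fun i => (one, cA i, cA i)) =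
      ∑ i ∈ Finset.range n, y (cA i) (cA i) := by
  induction n with
  | zero => simp [lhs]
  | succ n ih =>
    unfold lhs at ih ⊢
    rw [List.range_succ, List.map_append, List.map_append, List.sum_append, ih,
      Finset.sum_range_succ]
    simp [Helper95.Slp.ival_one]

lemma ival_mone' : (ival mone : ℝ) = -1 := by
  have : ival mone = -1 := by simp [mone, ival, bval]
  rw [this]
  norm_num

/-- the meaning of the equations -/
lemma eqL_iff (p : GI × GI) (y : Na → Na → ℝ) : (∀ e ∈ eqL p, Hol y e) ↔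
    (∀ i < p.2.1, y o0 (cA i) = y (cA i) (cA i)) ∧
    (∀ e ∈ edg p.2, y (cA e.1) (cA e.2) = 0) ∧
    (∀ i < p.1.1, y cO (cB i) = 1) ∧ (∀ i < p.1.1, y (cB i) (cB i) = 1) ∧
    (∀ e ∈ complE p.1.1 p.1.2, y (cB e.1) (cB e.2) = 0) ∧
    y cC cD = 1 ∧ ∑ i ∈ Finset.range p.2.1, y (cA i) (cA i) = y cO cO + y cC cC := by
  unfold eqL
  simp only [List.forall_mem_append, List.forall_mem_map, List.mem_range, hol_one, ival_zer,
    Helper95.Slp.ival_one, Int.cast_zero, Int.cast_one, List.forall_mem_cons, List.not_mem_nil,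
    false_implies, implies_true, and_true]
  have h1 : ∀ i, Hol y ([(one, o0, cA i), (mone, cA i, cA i)], zer) ↔
      y o0 (cA i) = y (cA i) (cA i) := by
    intro i
    unfold Hol lhs
    simp only [List.map_cons, List.map_nil, List.sum_cons, List.sum_nil, Helper95.Slp.ival_one,
      ival_mone', ival_zer, Int.cast_one, Int.cast_zero]
    constructor <;> intro h <;> linarith
  have h2 : Hol y ((mone, cO, cO) :: (mone, cC, cC) ::
      (List.range p.2.1).map fun i => (one, cA i, cA i), zer) ↔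
      ∑ i ∈ Finset.range p.2.1, y (cA i) (cA i) = y cO cO + y cC cC := by
    have h3 := lhs_sum y p.2.1
    unfold Hol
    unfold lhs at h3 ⊢
    rw [List.map_cons, List.map_cons, List.sum_cons, List.sum_cons, h3]
    simp only [ival_mone', ival_zer, Int.cast_zero]
    constructor <;> intro h <;> linarith
  simp only [h1, h2]

/-! ### Soundness -/

lemma adj_edg {I : GI} {i j : Fin I.1} (h : (graphOf I.1 I.2).Adj i j) :
    ((i : ℕ), (j : ℕ)) ∈ edg I ∨ ((j : ℕ), (i : ℕ)) ∈ edg I := by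
  have hi := i.2
  have hj := j.2
  have hne : (i : ℕ) ≠ j := fun h' => h.1 (Fin.ext h')
  unfold edg
  rcases h.2 with h1 | h1
  · exact Or.inl (List.mem_filter.2 ⟨h1, decide_eq_true ⟨hi, hj, hne⟩⟩)
  · exact Or.inr (List.mem_filter.2 ⟨h1, decide_eq_true ⟨hj, hi, hne.symm⟩⟩)

lemma edg_adj {I : GI} {e : ℕ × ℕ} (h : e ∈ edg I) : ∃ (h1 : e.1 < I.1) (h2 : e.2 < I.1),
    (graphOf I.1 I.2).Adj ⟨e.1, h1⟩ ⟨e.2, h2⟩ := by
  obtain ⟨h1, h2⟩ := List.mem_filter.1 h
  obtain ⟨h3, h4, h5⟩ := of_decide_eq_true h2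
  exact ⟨h3, h4, fun h => h5 (by simpa using h), Or.inl h1⟩

theorem lt_sound {p : GI × GI} (h : sdpOf (eqL p) ∈ SDPFeas) : p ∈ LovLt := by
  obtain ⟨m, x, x0, hx⟩ := net_sound (eqL_ok p) h
  rw [eqL_iff] at hx
  obtain ⟨h1, h2, h3, h4, h5, h6, h7⟩ := hx
  set k := ⟪x cO, x cO⟫_ℝ with hk
  -- the point of the theta body
  have t1 : (fun i : Fin p.2.1 => ⟪x (cA i), x (cA i)⟫_ℝ) ∈ TH (graphOf p.2.1 p.2.2) := by
    rw [th_iff]
    refine ⟨_, inferInstance, inferInstance, x o0, fun i => x (cA i), x0,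
      fun i => ⟨h1 i i.2, rfl⟩, fun i j hij => ?_⟩
    rcases adj_edg hij with h8 | h8
    · exact h2 _ h8
    · rw [real_inner_comm]
      exact h2 _ h8
  have t2 := le_lov _ t1
  have t3 : ∑ i : Fin p.2.1, ⟪x (cA i), x (cA i)⟫_ℝ = k + ⟪x cC, x cC⟫_ℝ := by
    rw [← h7, Finset.sum_range]
  have t4 : 0 < ⟪x cC, x cC⟫_ℝ := by
    rcases eq_or_ne (x cC) 0 with h8 | h8
    · rw [h8, inner_zero_left] at h6
      norm_num at h6
    · exact real_inner_self_pos.2 h8
  -- the bound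
  have t5 : lov (graphOf p.1.1 p.1.2) ≤ k := by
    rcases (real_inner_self_nonneg : 0 ≤ ⟪x cO, x cO⟫_ℝ).lt_or_eq with h8 | h8
    · rw [← hk] at h8
      rw [lov_le_iff _ h8, ← graphOf_compl, th_iff]
      have hs : (√k)⁻¹ * (√k)⁻¹ = 1 / k := by
        rw [← mul_inv, Real.mul_self_sqrt h8.le, one_div]
      have hin : ∀ a b : Na, ⟪(√k)⁻¹ • x a, (√k)⁻¹ • x b⟫_ℝ = 1 / k * ⟪x a, x b⟫_ℝ := by
        intro a b
        rw [inner_smul_left, inner_smul_right, RCLike.conj_to_real, ← mul_assoc, hs]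
      refine ⟨_, inferInstance, inferInstance, (√k)⁻¹ • x cO, fun i => (√k)⁻¹ • x (cB i), ?_,
        fun i => ⟨?_, ?_⟩, fun i j hij => ?_⟩
      · rw [hin, ← hk, one_div, inv_mul_cancel₀ h8.ne']
      · rw [hin, h3 i i.2, mul_one]
      · rw [hin, h4 i i.2, mul_one]
      · have h9 : ⟪x (cB i), x (cB j)⟫_ℝ = 0 := by
          rcases hij.2 with h9 | h9
          · exact h5 _ h9
          · rw [real_inner_comm]
            exact h5 _ h9
        rw [hin, h9, mul_zero]
    · rw [← hk] at h8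
      have h9 : x cO = 0 := by
        rw [← inner_self_eq_zero (𝕜 := ℝ)]
        exact h8.symm
      rw [← h8, lov_small _ (le_refl _)]
      refine ⟨?_, le_refl _⟩
      by_contra hn
      have h10 := h3 0 (Nat.pos_of_ne_zero hn)
      rw [h9, inner_zero_left] at h10
      norm_num at h10
  change lov _ < lov _
  linarith

/-! ### Completeness -/

theorem lt_complete {p : GI × GI} (h : p ∈ LovLt) : sdpOf (eqL p) ∈ SDPFeas := by
  change lov _ < lov _ at h
  have h0 : 0 ≤ lov (graphOf p.1.1 p.1.2) := by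
    have := le_lov _ (th_zero (graphOf p.1.1 p.1.2))
    simpa using this
  -- the point of the theta body
  obtain ⟨s, ⟨x, hx, rfl⟩, hs⟩ := exists_lt_of_lt_csSup
    (⟨_, _, th_zero (graphOf p.2.1 p.2.2), rfl⟩ :
      {s | ∃ x ∈ TH (graphOf p.2.1 p.2.2), s = ∑ i, x i}.Nonempty) h
  set k := (lov (graphOf p.1.1 p.1.2) + ∑ i, x i) / 2 with hk
  have hk0 : 0 < k := by rw [hk]; linarith
  have hk1 : lov (graphOf p.1.1 p.1.2) ≤ k := by rw [hk]; linarith
  have hk2 : k < ∑ i, x i := by rw [hk]; linarith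
  rw [lov_le_iff _ hk0, ← graphOf_compl, th_iff] at hk1
  obtain ⟨H, i1, i2, u, v, hu, hv, hw⟩ := hk1
  rw [th_iff] at hx
  obtain ⟨H', i1', i2', u', v', hu', hv', hw'⟩ := hx
  set s := ∑ i, x i - k with hs'
  have hs0 : 0 < s := by rw [hs']; linarith
  -- the kernel
  let X : Na → H' := fun a => if a.1 = 0 then u' else
    if h : a.1 = 1 ∧ a.2.1 < p.2.1 then v' ⟨a.2.1, h.2⟩ else 0
  let Z : Na → H := fun a => if a.1 = 2 then √k • u else
    if h : a.1 = 3 ∧ a.2.1 < p.1.1 then √k • v ⟨a.2.1, h.2⟩ else 0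
  let w : Na → ℝ := fun a => if a.1 = 4 then √s else if a.1 = 5 then (√s)⁻¹ else 0
  have sk : √k * √k = k := Real.mul_self_sqrt hk0.le
  have ss : √s * √s = s := Real.mul_self_sqrt hs0.le
  have hss : √s ≠ 0 := (Real.sqrt_pos.2 hs0).ne'
  have XA : ∀ i (h : i < p.2.1), X (cA i) = v' ⟨i, h⟩ := by
    intro i h
    simp only [X, cA]
    rw [if_neg (by norm_num), dif_pos ⟨trivial, h⟩]
  have X0 : X o0 = u' := rfl
  have XO : X cO = 0 := by simp [X, cO]
  have XB : ∀ i, X (cB i) = 0 := fun i => by simp [X, cB]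
  have XC : X cC = 0 := by simp [X, cC]
  have XD : X cD = 0 := by simp [X, cD]
  have ZA : ∀ i, Z (cA i) = 0 := fun i => by simp [Z, cA]
  have Z0 : Z o0 = 0 := by simp [Z, o0]
  have ZO : Z cO = √k • u := rfl
  have ZB : ∀ i (h : i < p.1.1), Z (cB i) = √k • v ⟨i, h⟩ := by
    intro i h
    simp only [Z, cB]
    rw [if_neg (by norm_num), dif_pos ⟨trivial, h⟩]
  have ZC : Z cC = 0 := by simp [Z, cC]
  have ZD : Z cD = 0 := by simp [Z, cD]
  have wA : ∀ i, w (cA i) = 0 := fun i => by simp [w, cA]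
  have w0 : w o0 = 0 := by simp [w, o0]
  have wO : w cO = 0 := by simp [w, cO]
  have wB : ∀ i, w (cB i) = 0 := fun i => by simp [w, cB]
  have wC : w cC = √s := rfl
  have wD : w cD = (√s)⁻¹ := rfl
  refine net_complete (eqL_ok p) (K := fun a b => (⟪X a, X b⟫_ℝ + ⟪Z a, Z b⟫_ℝ) + w a * w b)
    (((psdk_of_vec X).add (psdk_of_vec Z)).add (psdk_one w)) ?_ ?_
  · simp only [X0, Z0, w0, inner_zero_left, add_zero, mul_zero]
    exact hu'
  rw [eqL_iff]
  have hsk : ∀ a b : H, ⟪√k • a, √k • b⟫_ℝ = k * ⟪a, b⟫_ℝ := by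
    intro a b
    rw [inner_smul_left, inner_smul_right, RCLike.conj_to_real, ← mul_assoc, sk]
  refine ⟨fun i hi => ?_, fun e he => ?_, fun i hi => ?_, fun i hi => ?_, fun e he => ?_, ?_, ?_⟩
  · simp only [X0, Z0, w0, wA, ZA, XA i hi, inner_zero_left, add_zero, mul_zero]
    rw [(hv' _).1, (hv' _).2]
  · obtain ⟨e1, e2, e3⟩ := edg_adj he
    simp only [wA, ZA, XA _ e1, XA _ e2, inner_zero_left, add_zero, mul_zero]
    exact hw' _ _ e3
  · simp only [XO, ZO, wO, XB, wB, ZB i hi, inner_zero_left, add_zero, zero_add, mul_zero]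
    rw [hsk, (hv _).1, mul_one_div, div_self hk0.ne']
  · simp only [XB, wB, ZB i hi, inner_zero_left, add_zero, zero_add, mul_zero]
    rw [hsk, (hv _).2, mul_one_div, div_self hk0.ne']
  · obtain ⟨e1, e2, e3⟩ := (mem_complE p.1.1 p.1.2 e.1 e.2).1 he
    simp only [XB, wB, ZB _ e1, ZB _ e2, inner_zero_left, add_zero, zero_add, mul_zero]
    rw [hsk, hw ⟨e.1, e1⟩ ⟨e.2, e2⟩ ⟨fun h => e3.1 (by simpa using h), Or.inl he⟩, mul_zero]
  · simp only [XC, ZC, wC, wD, inner_zero_left, add_zero, zero_add]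
    exact mul_inv_cancel₀ hss
  · simp only [XO, ZO, wO, XC, ZC, wC, ZA, wA, inner_zero_left, add_zero, zero_add, mul_zero]
    rw [hsk, hu, mul_one, ss, hs', Finset.sum_range]
    have h1 : ∀ i : Fin p.2.1, ⟪X (cA i), X (cA i)⟫_ℝ = x i := by
      intro i
      rw [XA i i.2]
      exact (hv' _).2
    rw [Finset.sum_congr rfl fun i _ => h1 i]
    ring

theorem lovLt_iff (p : GI × GI) : p ∈ LovLt ↔ sdpOf (eqL p) ∈ SDPFeas :=
  ⟨lt_complete, lt_sound⟩

/-! ### Hardness -/

lemma lov_empty : lov (graphOf 8 []) = 8 := by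
  refine le_antisymm (lov_le _ fun x hx => ?_) ?_
  · have h1 : ∑ i : Fin 8, x i ≤ ∑ _i : Fin 8, (1 : ℝ) :=
      Finset.sum_le_sum fun i _ => th_le_one _ hx i
    refine h1.trans ?_
    simp
  · have h1 : (fun _ => (1 : ℝ)) ∈ TH (graphOf 8 []) := by
      rw [th_iff]
      refine ⟨ℝ, inferInstance, inferInstance, 1, fun _ => 1, by simp, fun i => by simp,
        fun i j hij => ?_⟩
      rcases hij.2 with h | h <;> simp at h
    have h2 := le_lov _ h1
    simpa using h2

theorem theta8_cmp (I : GI) : I ∈ Theta8 ↔ (((8, []) : GI), complI I) ∉ LovLt := by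
  change _ ↔ ¬ lov (graphOf 8 []) < lov (graphOf I.1 (complE I.1 I.2))
  rw [lov_empty, not_lt, graphOf_compl, lov_le_iff _ (by norm_num), compl_compl]
  rfl

/-! ### Computability -/

variable {α : Type} [PEnc α]

lemma ptf_cA {i : α → ℕ} (hi : PTF i) : PTF (fun x => cA (i x)) :=
  PTF.pair (PTF.const 1) (PTF.pair hi (PTF.const (0, 0)))

lemma ptf_cB {i : α → ℕ} (hi : PTF i) : PTF (fun x => cB (i x)) :=
  PTF.pair (PTF.const 3) (PTF.pair hi (PTF.const (0, 0)))

lemma ptf_ter (z : BInt) {a b : α → Na} (ha : PTF a) (hb : PTF b) :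
    PTF (fun x => ((z, a x, b x) : Te)) :=
  PTF.pair (PTF.const z) (PTF.pair ha hb)

theorem ptf_edg : PTF edg := by
  unfold edg
  refine PTF.filter (f := fun (I : GI) e => decide (e.1 < I.1 ∧ e.2 < I.1 ∧ e.1 ≠ e.2))
    PTF.id.snd ?_
  exact PTF.decide_and (PTF.lt PTF.id.snd.fst PTF.id.fst.fst)
    (PTF.decide_and (PTF.lt PTF.id.snd.snd PTF.id.fst.fst)
      (PTF.decide_not (PTF.eq PTF.id.snd.fst PTF.id.snd.snd)))

theorem ptf_eqL : PTF eqL := by
  unfold eqL
  have h2 : PTF (fun p : GI × GI => List.range p.2.1) := PTF.range PTF.id.snd.fst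
  have h1 : PTF (fun p : GI × GI => List.range p.1.1) := PTF.range PTF.id.fst.fst
  have hO : ∀ {β : Type} [PEnc β], PTF (fun _ : β => o0) := fun {β} _ => PTF.const _
  have hc : ∀ {β : Type} [PEnc β], PTF (fun _ : β => cO) := fun {β} _ => PTF.const _
  refine PTF.append ?_ (PTF.append ?_ (PTF.append ?_ (PTF.append ?_ (PTF.append ?_ ?_))))
  · refine PTF.map (f := fun _ i => (([(one, o0, cA i), (mone, cA i, cA i)], zer) : Eqn)) h2 ?_
    exact PTF.pair (PTF.cons (ptf_ter one hO (ptf_cA PTF.id.snd)) (PTF.cons (ptf_ter mone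
      (ptf_cA PTF.id.snd) (ptf_cA PTF.id.snd)) (PTF.const []))) (PTF.const _)
  · refine PTF.map (f := fun _ (e : ℕ × ℕ) => (([(one, cA e.1, cA e.2)], zer) : Eqn))
      (ptf_edg.comp PTF.id.snd) ?_
    exact PTF.pair (PTF.cons (ptf_ter one (ptf_cA PTF.id.snd.fst) (ptf_cA PTF.id.snd.snd))
      (PTF.const [])) (PTF.const _)
  · refine PTF.map (f := fun _ i => (([(one, cO, cB i)], one) : Eqn)) h1 ?_
    exact PTF.pair (PTF.cons (ptf_ter one hc (ptf_cB PTF.id.snd)) (PTF.const [])) (PTF.const _)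
  · refine PTF.map (f := fun _ i => (([(one, cB i, cB i)], one) : Eqn)) h1 ?_
    exact PTF.pair (PTF.cons (ptf_ter one (ptf_cB PTF.id.snd) (ptf_cB PTF.id.snd))
      (PTF.const [])) (PTF.const _)
  · refine PTF.map (f := fun _ (e : ℕ × ℕ) => (([(one, cB e.1, cB e.2)], zer) : Eqn))
      ((ptf_complI.comp PTF.id.fst).snd) ?_
    exact PTF.pair (PTF.cons (ptf_ter one (ptf_cB PTF.id.snd.fst) (ptf_cB PTF.id.snd.snd))
      (PTF.const [])) (PTF.const _)
  · refine PTF.cons (PTF.const _) (PTF.cons (PTF.pair (PTF.cons (PTF.const _)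
      (PTF.cons (PTF.const _) (PTF.map (f := fun _ i => ((one, cA i, cA i) : Te)) h2 ?_)))
      (PTF.const _)) (PTF.const []))
    exact ptf_ter one (ptf_cA PTF.id.snd) (ptf_cA PTF.id.snd)

end Pool.Agent.Helper7.SC
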