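import Pool.Agent.Helper7.SC.Game3

/-!
# The reduction of discounted stochastic games to semidefinite feasibility
-/

open Pool.Agent.Helper91.PolyTime

namespace Pool.Agent.Helper7.SC

open Pool.Agent.Helper92.Theta Pool.Agent.Helper95.Slp

/-- the position with a given number -/
def nd (L : List (ℕ × ℕ × ℕ)) (i : ℕ) : ℕ × ℕ × ℕ := (L[i]?).getD (4, 0, 0)

/-- `v` is the sequence of the values of the positions -/
def IsVal (I : ℕ × List (ℕ × ℕ × ℕ)) (v : ℕ → ℝ) : Prop :=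
  ∀ i, v i = shp I.1 (nd I.2 i).1 (v (nd I.2 i).2.1) (v (nd I.2 i).2.2)

/-- Is the value of the position `0` nonnegative? -/
def StochGame : Set (ℕ × List (ℕ × ℕ × ℕ)) := {I | ∃ v, IsVal I v ∧ 0 ≤ v 0}

/-- the smaller number -/
def mn (n a : ℕ) : ℕ := if a ≤ n then a else n

lemma mn_le (n a : ℕ) : mn n a ≤ n := by
  unfold mn
  split_ifs with h
  · exact h
  · exact le_refl _

lemma nd_ge {L : List (ℕ × ℕ × ℕ)} {i : ℕ} (h : L.length ≤ i) : nd L i = (4, 0, 0) := by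
  unfold nd
  rw [List.getElem?_eq_none h]
  rfl

lemma shp_four (k : ℕ) (a b : ℝ) : shp k 4 a b = -1 := by
  unfold shp
  rw [if_neg (by omega), if_neg (by omega), if_neg (by omega), if_neg (by omega)]

lemma isVal_ge {I : ℕ × List (ℕ × ℕ × ℕ)} {v : ℕ → ℝ} (h : IsVal I v) {i : ℕ}
    (hi : I.2.length ≤ i) : v i = -1 := by
  have h1 := h i
  rw [nd_ge hi] at h1
  rw [h1]
  exact shp_four _ _ _

lemma isVal_mn {I : ℕ × List (ℕ × ℕ × ℕ)} {v : ℕ → ℝ} (h : IsVal I v) (a : ℕ) :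
    v (mn I.2.length a) = v a := by
  unfold mn
  split_ifs with h1
  · rfl
  · rw [isVal_ge h (le_refl _), isVal_ge h (by omega)]

/-- types of the positions -/
def tyI (I : ℕ × List (ℕ × ℕ × ℕ)) (i : ℕ) : ℕ := (nd I.2 i).1
/-- first successors -/
def paI (I : ℕ × List (ℕ × ℕ × ℕ)) (i : ℕ) : ℕ := mn I.2.length (nd I.2 i).2.1
/-- second successors -/
def pbI (I : ℕ × List (ℕ × ℕ × ℕ)) (i : ℕ) : ℕ := mn I.2.length (nd I.2 i).2.2

lemma val_of_isVal {I : ℕ × List (ℕ × ℕ × ℕ)} {v : ℕ → ℝ} (h : IsVal I v) :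
    Val I.2.length I.1 (tyI I) (paI I) (pbI I) v := by
  intro i _
  unfold tyI paI pbI
  rw [isVal_mn h, isVal_mn h]
  exact h i

/-- The values exist. -/
theorem exists_isVal (I : ℕ × List (ℕ × ℕ × ℕ)) : ∃ v, IsVal I v := by
  obtain ⟨u, hu⟩ := exists_val (pa := paI I) (pb := pbI I) I.2.length I.1 (tyI I)
    (fun _ _ => mn_le _ _) (fun _ _ => mn_le _ _)
  have hn : u I.2.length = -1 := by
    have h1 := hu I.2.length (le_refl _)
    unfold tyI at h1
    rw [nd_ge (le_refl _)] at h1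
    rw [h1]
    exact shp_four _ _ _
  have hmn : ∀ a, u (mn I.2.length a) = if a ≤ I.2.length then u a else -1 := by
    intro a
    unfold mn
    split_ifs
    · rfl
    · exact hn
  refine ⟨fun i => if i ≤ I.2.length then u i else -1, fun i => ?_⟩
  by_cases hi : i ≤ I.2.length
  · simp only
    rw [if_pos hi]
    have h1 := hu i hi
    unfold tyI paI pbI at h1
    rw [hmn, hmn] at h1
    exact h1
  · simp only
    rw [if_neg hi, nd_ge (by omega), shp_four]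

/-- The values are unique. -/
theorem isVal_unique {I : ℕ × List (ℕ × ℕ × ℕ)} {v v' : ℕ → ℝ} (h : IsVal I v)
    (h' : IsVal I v') : v = v' := by
  funext i
  by_cases hi : i ≤ I.2.length
  · exact val_unique (fun _ _ => mn_le _ _) (fun _ _ => mn_le _ _) (val_of_isVal h)
      (val_of_isVal h') i hi
  · rw [isVal_ge h (by omega), isVal_ge h' (by omega)]

/-- the reduction -/
def gameX (I : ℕ × List (ℕ × ℕ × ℕ)) : SDP :=
  gSDP (gapN I.2.length I.1) I.2.length I.1 (tyI I) (paI I) (pbI I)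

theorem gameX_iff (I : ℕ × List (ℕ × ℕ × ℕ)) : I ∈ StochGame ↔ gameX I ∈ SDPFeas := by
  obtain ⟨v, hv⟩ := exists_isVal I
  have h1 : gameX I ∈ SDPFeas ↔ 0 ≤ v 0 := by
    have hpa : ∀ i ≤ I.2.length, paI I i ≤ I.2.length := fun _ _ => mn_le _ _
    have hpb : ∀ i ≤ I.2.length, pbI I i ≤ I.2.length := fun _ _ => mn_le _ _
    unfold gameX
    rw [gSDP_iff hpa hpb]
    exact game_iff hpa hpb (val_of_isVal hv)
  rw [h1]
  constructor
  · rintro ⟨v', h2, h3⟩
    rw [isVal_unique hv h2]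
    exact h3
  · intro h
    exact ⟨v, hv, h⟩

/-! ### Polynomial time -/

section PT

variable {α : Type} [PEnc α]

lemma ptf_chq {k i : α → ℕ} (hk : PTF k) (hi : PTF i) : PTF (fun x => chq (k x) (i x)) := by
  unfold chq
  have h0 : ∀ {β : Type} [PEnc β], PTF (fun _ : β => o0) := fun {β} _ => PTF.const _
  have hzer : ∀ {β : Type} [PEnc β], PTF (fun _ : β => zer) := fun {β} _ => PTF.const _
  have z : ∀ {β : Type} [PEnc β], PTF (fun _ : β => 0) := fun {β} _ => PTF.const _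
  refine PTF.cons (ptf_e1 (ptf_tc one h0 (ptf_na 17 hi z z)) (PTF.const _)) (PTF.cons
    (ptf_e3 (ptf_tc one h0 (ptf_na 12 hi z z)) (ptf_tc one (ptf_na 20 hi z z) (ptf_na 20 hi z z))
      (ptf_tc mone h0 (ptf_na 17 hi hk z)) hzer) ?_)
  refine PTF.flatMap (f := fun x j => [(([(one, Cn (i x) j, Cn (i x) j),
      (mone, o0, Cs (i x) j)], zer) : Eqn),
    ([(one, Dd (i x) j, Dd (i x) j), (mone, o0, Yy (i x))], zer),
    ([(one, Cn (i x) j, Dd (i x) j), (mone, o0, Cs (i x) (j + 1))], zer)]) (PTF.range hk) ?_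
  have hi' : PTF (fun q : α × ℕ => i q.1) := hi.comp PTF.id.fst
  have c18 := ptf_na 18 hi' PTF.id.snd z
  have c19 := ptf_na 19 hi' PTF.id.snd z
  exact PTF.cons (ptf_e2 (ptf_tc one c18 c18) (ptf_tc mone h0 (ptf_na 17 hi' PTF.id.snd z)) hzer)
    (PTF.cons (ptf_e2 (ptf_tc one c19 c19) (ptf_tc mone h0 (ptf_na 14 hi' z z)) hzer)
    (PTF.cons (ptf_e2 (ptf_tc one c18 c19) (ptf_tc mone h0 (ptf_na 17 hi' (PTF.succ PTF.id.snd) z))
      hzer) (PTF.const [])))

lemma ptf_nq {N k i t a b : α → ℕ} (hN : PTF N) (hk : PTF k) (hi : PTF i) (ht : PTF t)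
    (ha : PTF a) (hb : PTF b) : PTF (fun x => nq (N x) (k x) (i x) (t x) (a x) (b x)) := by
  unfold nq
  have h0 : PTF (fun _ : α => o0) := PTF.const _
  have hzer : PTF (fun _ : α => zer) := PTF.const _
  have z : PTF (fun _ : α => 0) := PTF.const _
  have nil : PTF (fun _ : α => ([] : List Eqn)) := PTF.const []
  have nX : PTF (fun x => Xn (i x)) := ptf_na 12 hi z z
  have nXa : PTF (fun x => Xn (a x)) := ptf_na 12 ha z z
  have nXb : PTF (fun x => Xn (b x)) := ptf_na 12 hb z z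
  have nS : PTF (fun x => Sn (i x)) := ptf_na 13 hi z z
  have nY : PTF (fun x => Yy (i x)) := ptf_na 14 hi z z
  have nA : PTF (fun x => An (i x)) := ptf_na 15 hi z z
  have nB : PTF (fun x => Bn (i x)) := ptf_na 16 hi z z
  have nE : PTF (fun x => En (i x)) := ptf_na 20 hi z z
  have hch := ptf_chq hk hi
  refine PTF.cons (ptf_e2 (ptf_tc one nS nS) (ptf_tc mone h0 nX) hzer)
    (PTF.ite (PTF.eq ht (PTF.const 0)) ?_ (PTF.ite (PTF.eq ht (PTF.const 1)) ?_
    (PTF.ite (PTF.eq ht (PTF.const 2)) ?_ (PTF.ite (PTF.eq ht (PTF.const 3)) ?_ ?_))))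
  · exact PTF.cons (ptf_e3 (ptf_tc one h0 nY) (ptf_tc mone h0 nXa) (ptf_tc mone nXb h0) hzer) hch
  · exact PTF.cons (ptf_e3 (ptf_tc one h0 nY) (ptf_tc one nA nA) (ptf_tc mone h0 nXa) hzer)
      (PTF.cons (ptf_e3 (ptf_tc one h0 nY) (ptf_tc one nB nB) (ptf_tc mone h0 nXb) hzer) hch)
  · exact PTF.cons (ptf_e2 (ptf_tc one nA nA) (ptf_tc mone h0 nXa) hzer)
      (PTF.cons (ptf_e2 (ptf_tc one nB nB) (ptf_tc mone h0 nXb) hzer)
      (PTF.cons (ptf_e2 (ptf_tc one nA nB) (ptf_tc mone h0 nY) hzer) hch))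
  · exact PTF.cons (ptf_e3 (ptf_tc one h0 nX) (ptf_tc one nE nE)
      (ptf_tc mone h0 (ptf_V (PTF.succ hN))) hzer) nil
  · exact PTF.cons (ptf_e3 (ptf_tc one h0 nX) (ptf_tc one nE nE)
      (ptf_tc mone h0 (ptf_V (PTF.add hN (PTF.const 2)))) hzer) nil

lemma ptf_nd {L : α → List (ℕ × ℕ × ℕ)} {i : α → ℕ} (hL : PTF L) (hi : PTF i) :
    PTF (fun x => nd (L x) (i x)) := by
  unfold nd
  exact ptf_getD (PTF.getElem? hi hL) (PTF.const _)

lemma ptf_mn {n a : α → ℕ} (hn : PTF n) (ha : PTF a) : PTF (fun x => mn (n x) (a x)) := by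
  unfold mn
  exact PTF.ite (PTF.le ha hn) ha hn

lemma ptf_gapN {n k : α → ℕ} (hn : PTF n) (hk : PTF k) : PTF (fun x => gapN (n x) (k x)) := by
  unfold gapN gapQ
  exact PTF.succ (PTF.add (PTF.add (PTF.mul (PTF.succ hn) (PTF.succ hn))
    (PTF.mul (PTF.add hk (PTF.const 2)) (PTF.succ hn))) hk)

end PT

theorem ptf_gameX : PTF gameX := by
  unfold gameX gSDP
  have hn : PTF (fun I : ℕ × List (ℕ × ℕ × ℕ) => I.2.length) := PTF.length PTF.id.snd
  have hk : PTF (fun I : ℕ × List (ℕ × ℕ × ℕ) => I.1) := PTF.id.fst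
  have hN := ptf_gapN hn hk
  refine ptf_sdpOf (PTF.append (ptf_sysX ?_) ?_)
  · unfold prg
    refine PTF.append (ptf_sqs hN) (PTF.cons (PTF.pair (PTF.const false) (PTF.pair (PTF.const 4)
      (PTF.pair (PTF.const 0) (PTF.pair (PTF.succ hN) (PTF.const _))))) (PTF.const []))
  · unfold gE
    refine PTF.cons (PTF.const _) (PTF.flatMap (f := fun (I : ℕ × List (ℕ × ℕ × ℕ)) i =>
      nq (gapN I.2.length I.1) I.1 i (tyI I i) (paI I i) (pbI I i)) (PTF.range (PTF.succ hn)) ?_)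
    have hd : PTF (fun p : (ℕ × List (ℕ × ℕ × ℕ)) × ℕ => nd p.1.2 p.2) :=
      ptf_nd PTF.id.fst.snd PTF.id.snd
    have hn' : PTF (fun p : (ℕ × List (ℕ × ℕ × ℕ)) × ℕ => p.1.2.length) := hn.comp PTF.id.fst
    exact ptf_nq (hN.comp PTF.id.fst) (hk.comp PTF.id.fst) PTF.id.snd hd.fst
      (ptf_mn hn' hd.snd.fst) (ptf_mn hn' hd.snd.snd)

end Pool.Agent.Helper7.SC
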