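import Pool.Agent.Helper7.SC.Pt2
import Pool.Agent.Helper89.Comp
import Pool.Agent.Helper91.PolyTime.Verifier

/-!
# Turing reductions become many-one reductions
-/

open Turing Pool.Agent.Helper91.PolyTime

namespace Pool.Agent.Helper7.SC

open Pool.Agent.Helper92.Theta Pool.Agent.Helper95.Slp

lemma tm2_of_ptf' {α β : Type} [PEnc α] [PEnc β] {f : α → β} (hf : PTF f) :
    Nonempty (TM2ComputableInPolyTime (enc : α → List Bool) (enc : β → List Bool) f) := by
  refine PT.tm2 _ _ (fun b => [b]) f ?_
  have h : (fun a : α => (enc a).flatMap (fun b => [b])) = fun a => enc a := by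
    funext a
    simp
  rw [h]
  exact hf

lemma ans_length (Q : List Bool → ℕ × List (ℕ × ℕ)) (m : ℕ) : (ans Q m).length = m := by
  induction m with
  | zero => rfl
  | succ m ih => rw [ans, List.length_append, ih]; rfl

/-- **Turing reductions.** -/
theorem exists_big {α : Type} {ca : α → List Bool} {q : α × List Bool → ℕ × List (ℕ × ℕ)}
    {d : α × List Bool → Bool} (p : Polynomial ℕ)
    (Hq : Nonempty (TM2ComputableInPolyTime (fun x : α × List Bool => pr (ca x.1) (enc x.2))
      (enc : ℕ × List (ℕ × ℕ) → List Bool) q))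
    (Hd : Nonempty (TM2ComputableInPolyTime (fun x : α × List Bool => pr (ca x.1) (enc x.2))
      (enc : Bool → List Bool) d)) :
    ∃ F : α → List XGate, Nonempty (TM2ComputableInPolyTime ca (enc : List XGate → List Bool) F) ∧
      ∀ x : α, F x ∈ SdpCircuit ↔
        d (x, ans (fun a => q (x, a)) (p.eval (ca x).length)) = true := by
  obtain ⟨Hq⟩ := Hq
  obtain ⟨Hd⟩ := Hd
  obtain ⟨Hadj⟩ := tm2_of_ptf' ptf_adj
  obtain ⟨H1⟩ := Pool.Agent.Helper89.TM2Poly.comp Hq Hadj
  obtain ⟨A, pA, hA⟩ := exists_aut H1
  obtain ⟨D, pD, hD⟩ := exists_aut Hd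
  let M : ℕ → ℕ := fun n => 2 * n + 1 + 3 * p.eval n
  let G : Str → List XGate := fun c =>
    big A D (pA.eval (M c.len)) (pA.eval (M c.len)) (p.eval c.len) (pD.eval (M c.len)) c.toList
  have hG : PTF G := by
    have hl : PTF (fun c : Str => c.len) := PTF.strLen PTF.id
    have hp : PTF (fun c : Str => p.eval c.len) := PTF.polyEval p hl
    have hM : PTF (fun c : Str => M c.len) :=
      PTF.add (PTF.add (PTF.mul (PTF.const 2) hl) (PTF.const 1)) (PTF.mul (PTF.const 3) hp)
    exact ptf_big A D (PTF.polyEval pA hM) (PTF.polyEval pA hM) hp (PTF.polyEval pD hM)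
      (PTF.strToList PTF.id)
  refine ⟨fun x => G (ca x), ?_, fun x => ?_⟩
  · refine PT.tm2 _ _ (fun b => [b]) _ ?_
    have h : (fun a : α => (ca a).flatMap (fun b => [b])) = fun a => ca a := by
      funext a
      simp
    rw [h]
    exact PT.reindex hG ca
  · have hlen : ∀ a : List Bool, a.length ≤ p.eval (ca x).length →
        (pr (ca x) (enc a)).length ≤ M (ca x).length := by
      intro a ha
      rw [length_pr, Pool.Agent.Helper91.Verifier.length_enc_bools]
      simp only [M]
      omega
    refine big_iff (c := ca x) (Q := fun a => q (x, a)) (d := fun a => d (x, a)) ?_ ?_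
    · intro a ha
      have h1 := hA (x, a)
      have h2 := eval_mono pA (hlen a ha)
      refine ⟨fun i => h1.1 _ h2 i, ?_⟩
      have h3 : (enc (adj (q (x, a)))).length ≤ pA.eval (M (ca x).length) := h1.2.trans h2
      rw [Pool.Agent.Helper91.Verifier.length_enc_bools, adj_length] at h3
      change (q (x, a)).1 ≤ pA.eval (M (ca x).length)
      omega
    · intro a ha
      have h1 := (hD (x, a)).1 _ (eval_mono pD (hlen a ha)) 0
      exact h1

end Pool.Agent.Helper7.SC
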