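import Pool.Agent.Helper89.Comp
import Pool.Agent.Helper7.SC.Game4
import Pool.Agent.Helper7.SC.Tur
import Pool.Agent.Helper7.SC.Cmp
import Pool.Agent.Helper7.SC.CircDefs

/-!
# Proof of `MP_0878b7_lc.SdpCircuits`
-/

open Turing
open scoped InnerProductSpace

namespace Pool.Agent.Results.MP_0878b7_lc.SdpCircuits

/-! ### Comparison with the definitions of the helper files -/

open Pool.Agent.Helper92 in
lemma bval_eq : bval = Theta.bval := by
  funext l
  induction l with
  | nil => rfl
  | cons b l ih =>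
    rw [Theta.bval, ← ih]
    cases b <;> rfl

open Pool.Agent.Helper92 in
lemma ival_eq : ival = Theta.ival := by
  funext z
  rw [ival, Theta.ival, bval_eq]
  cases z.1 <;> rfl

open Pool.Agent.Helper92 in
lemma th8_eq : TH8.yes = Theta.Theta8 := rfl

open Pool.Agent.Helper95 in
lemma opR_eq (n : ℕ) (z a b : ℝ) : opR n z a b = Slp.opR n z a b := by
  match n with
  | 0 => simp [opR, Slp.opR]
  | 1 => simp [opR, Slp.opR]
  | 2 => simp [opR, Slp.opR]
  | 3 => simp [opR, Slp.opR]
  | 4 => simp [opR, Slp.opR]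
  | 5 => simp [opR, Slp.opR]
  | n + 6 => simp [opR, Slp.opR]

open Pool.Agent.Helper95 in
lemma opZ_eq (n : ℕ) (a b : ℤ) : opZ n a b = Slp.opZ n a b := by
  match n with
  | 0 => simp [opZ, Slp.opZ]
  | 1 => simp [opZ, Slp.opZ]
  | n + 2 => simp [opZ, Slp.opZ]

open Pool.Agent.Helper7 in
lemma values_eq (P : List Gate) : values P = (List.range (P.length + 1)).map (SC.evX P) := by
  induction P using List.reverseRecOn with
  | nil => simp [values, SC.evX_zero]
  | append_singleton P g ih =>
    have h1 : values (P ++ [g]) = values P ++ [gateValue (values P) g] := by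
      unfold values
      rw [List.foldl_append]
      rfl
    have hop : ∀ i, operand (values P) i = SC.evX P (Pool.Agent.Helper95.Slp.idx P.length i) := by
      intro i
      unfold operand Pool.Agent.Helper95.Slp.idx
      rw [ih, List.getElem?_map]
      by_cases hi : i ≤ P.length
      · rw [if_pos hi, List.getElem?_range (by omega)]
        rfl
      · rw [if_neg hi, List.getElem?_eq_none (by rw [List.length_range]; omega), SC.evX_zero]
        rfl
    have h2 : SC.evX (P ++ [g]) (P.length + 1) = gateValue (values P) g := by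
      rw [SC.evX_snoc]
      unfold gateValue SC.gv
      have h3 : (fun u => operand (values P) (g.2.2.1 + u)) =
          fun u => SC.evX P (Pool.Agent.Helper95.Slp.idx P.length (g.2.2.1 + u)) :=
        funext fun u => hop _
      rw [h3, hop, hop, opR_eq, ival_eq]
      rfl
    rw [h1, List.length_append, List.length_cons, List.length_nil, List.range_succ, List.map_append,
      List.map_cons, List.map_nil, h2, ih]
    congr 1
    refine List.map_congr_left fun c hc => (SC.evX_append P [g] c ?_).symm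
    have := List.mem_range.1 hc
    omega

open Pool.Agent.Helper7 in
lemma sdpCircuit_eq : SdpCircuit.yes = SC.SdpCircuit := by
  ext P
  change 0 < operand (values P) P.length ↔ 0 < SC.evX P P.length
  have h : operand (values P) P.length = SC.evX P P.length := by
    unfold operand
    rw [values_eq, List.getElem?_map, List.getElem?_range (by omega)]
    rfl
  rw [h]

open Pool.Agent.Helper95 in
lemma evZ_append (P Q : List (ℕ × ℕ × ℕ)) : ∀ c, c ≤ P.length →
    Slp.evZ (P ++ Q) c = Slp.evZ P c := by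
  intro c
  induction c using Nat.strong_induction_on with
  | _ c ih =>
    intro hc
    rcases c with _ | k
    · rw [Slp.evZ_zero, Slp.evZ_zero]
    · have hk : k < P.length := by omega
      have h1 := List.getElem?_eq_getElem hk
      have h2 : (P ++ Q)[k]? = some P[k] := by rw [List.getElem?_append_left hk, h1]
      rw [Slp.evZ_succ h1, Slp.evZ_succ h2]
      have h3 : ∀ i, Slp.idx k i ≤ k := by intro i; unfold Slp.idx; split_ifs <;> omega
      have h4 := h3 (P[k]).2.1
      have h5 := h3 (P[k]).2.2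
      rw [ih _ (by omega) (by omega), ih _ (by omega) (by omega)]

open Pool.Agent.Helper95 in
lemma valuesZ_eq (P : List (ℕ × ℕ × ℕ)) :
    valuesZ P = (List.range (P.length + 1)).map (Slp.evZ P) := by
  induction P using List.reverseRecOn with
  | nil => simp [valuesZ, Slp.evZ_zero]
  | append_singleton P g ih =>
    have h1 : valuesZ (P ++ [g]) = valuesZ P ++
        [opZ g.1 (operand (valuesZ P) g.2.1) (operand (valuesZ P) g.2.2)] := by
      unfold valuesZ
      rw [List.foldl_append]
      rfl
    have hop : ∀ i, operand (valuesZ P) i = Slp.evZ P (Slp.idx P.length i) := by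
      intro i
      unfold operand Slp.idx
      rw [ih, List.getElem?_map]
      by_cases hi : i ≤ P.length
      · rw [if_pos hi, List.getElem?_range (by omega)]
        rfl
      · rw [if_neg hi, List.getElem?_eq_none (by rw [List.length_range]; omega), Slp.evZ_zero]
        rfl
    have hidx : ∀ i, Slp.idx P.length i ≤ P.length := by
      intro i; unfold Slp.idx; split_ifs <;> omega
    have h2 : Slp.evZ (P ++ [g]) (P.length + 1) =
        opZ g.1 (operand (valuesZ P) g.2.1) (operand (valuesZ P) g.2.2) := by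
      have h3 : (P ++ [g])[P.length]? = some g := by
        rw [List.getElem?_append_right (le_refl _), Nat.sub_self]
        rfl
      rw [Slp.evZ_succ h3, evZ_append P [g] _ (hidx _), evZ_append P [g] _ (hidx _), hop, hop,
        opZ_eq]
    rw [h1, List.length_append, List.length_cons, List.length_nil, List.range_succ, List.map_append,
      List.map_cons, List.map_nil, h2, ih]
    congr 1
    refine List.map_congr_left fun c hc => (evZ_append P [g] c ?_).symm
    have := List.mem_range.1 hc
    omega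

open Pool.Agent.Helper95 in
lemma posSLP_eq : PosSLP.yes = Slp.PosSLP := by
  ext P
  change 0 < operand (valuesZ P) P.length ↔ 0 < Slp.evZ P P.length
  have h : operand (valuesZ P) P.length = Slp.evZ P P.length := by
    unfold operand
    rw [valuesZ_eq, List.getElem?_map, List.getElem?_range (by omega)]
    rfl
  rw [h]

open Pool.Agent.Helper95 in
lemma sumSqrt_eq : SumSqrt.yes = Slp.SumSqrt := by
  unfold SumSqrt Slp.SumSqrt Slp.sqt
  rw [bval_eq]

open Pool.Agent.Helper7 in
lemma opt_eq (k t : ℕ) (a b : ℝ) : opt k t a b = SC.shp k t a b := rfl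

open Pool.Agent.Helper7 in
lemma gameValues_iff (I : ℕ × List (ℕ × ℕ × ℕ)) (v : ℕ → ℝ) : GameValues I v ↔ SC.IsVal I v := by
  unfold GameValues SC.IsVal
  simp only [opt_eq]
  rfl

open Pool.Agent.Helper7 in
lemma stochGame_eq : StochGame.yes = SC.StochGame := by
  unfold StochGame SC.StochGame
  simp only [gameValues_iff]

/-! ### Reductions -/

open Pool.Agent.Helper91.PolyTime in
/-- The codes agree with those of the helper files. -/
class Agree (α : Type) [Coded α] [PEnc α] : Prop where
  eq : ∀ x : α, code x = PEnc.enc x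

instance : Agree Bool := ⟨fun _ => rfl⟩

instance : Agree ℕ := ⟨fun _ => rfl⟩

open Pool.Agent.Helper91.PolyTime in
instance {α β : Type} [Coded α] [PEnc α] [Agree α] [Coded β] [PEnc β] [Agree β] :
    Agree (α × β) := ⟨fun x => by
  change pairCode (code x.1) (code x.2) = pr (PEnc.enc x.1) (PEnc.enc x.2)
  rw [Agree.eq, Agree.eq]
  rfl⟩

open Pool.Agent.Helper91.PolyTime in
instance {α : Type} [Coded α] [PEnc α] [Agree α] : Agree (List α) := ⟨fun l => by
  induction l with
  | nil => rfl
  | cons a l ih =>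
    change pairCode (code a) (code l) = pr (PEnc.enc a) (PEnc.enc l)
    rw [Agree.eq a, ih]
    rfl⟩

open Pool.Agent.Helper91.PolyTime in
lemma polyTime_of_ptf {α β : Type} [Coded α] [PEnc α] [Agree α] [Coded β] [PEnc β] [Agree β]
    {f : α → β} (hf : PTF f) : PolyTime f := by
  have h1 : (code : α → List Bool) = PEnc.enc := funext Agree.eq
  have h2 : (code : β → List Bool) = PEnc.enc := funext Agree.eq
  unfold PolyTime
  rw [h1, h2]
  refine PT.tm2 _ _ (fun b => [b]) f ?_
  have h : (fun a : α => (PEnc.enc a).flatMap (fun b => [b])) = fun a => PEnc.enc a := by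
    funext a
    simp
  rw [h]
  exact hf

lemma InP.of_reduces {A B : Problem} (h : Reduces A B) (hB : InP B) : InP A := by
  obtain ⟨f, ⟨hf⟩, hfA⟩ := h
  obtain ⟨g, ⟨hg⟩, hgB⟩ := hB
  exact ⟨g ∘ f, Pool.Agent.Helper89.TM2Poly.comp hf hg, fun x => (hfA x).trans (hgB _)⟩

lemma Reduces.trans {A B C : Problem} (h : Reduces A B) (h' : Reduces B C) : Reduces A C := by
  obtain ⟨f, ⟨hf⟩, hfA⟩ := h
  obtain ⟨g, ⟨hg⟩, hgB⟩ := h'
  exact ⟨g ∘ f, Pool.Agent.Helper89.TM2Poly.comp hf hg, fun x => (hfA x).trans (hgB _)⟩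

lemma Reduces.compl {A B : Problem} (h : Reduces A B) : Reduces A.compl B.compl := by
  obtain ⟨f, hf, hA⟩ := h
  exact ⟨f, hf, fun x => not_congr (hA x)⟩

lemma reduces_mk {α β : Type} [ca : Coded α] [cb : Coded β] {A : Set α} {B : Set β} {f : α → β}
    (hf : PolyTime f) (h : ∀ x, x ∈ A ↔ f x ∈ B) : Reduces ⟨α, ca, A⟩ ⟨β, cb, B⟩ := ⟨f, hf, h⟩

open Pool.Agent.Helper7 in
lemma circuit_reduces : Reduces SdpCircuit TH8 := by
  refine reduces_mk (α := List Gate) (β := ℕ × List (ℕ × ℕ)) (A := SdpCircuit.yes) (B := TH8.yes)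
    (polyTime_of_ptf (Pool.Agent.Helper92.Theta.ptf_red.comp SC.ptf_circX)) ?_
  rw [sdpCircuit_eq, th8_eq]
  exact fun P => (SC.circX_iff P).trans (Pool.Agent.Helper92.Theta.red_iff _)

open Pool.Agent.Helper7 in
lemma circuit_compl : Reduces SdpCircuit.compl SdpCircuit := by
  refine reduces_mk (α := List Gate) (β := List Gate) (A := SdpCircuit.yesᶜ) (B := SdpCircuit.yes)
    (polyTime_of_ptf SC.ptf_negX) ?_
  rw [sdpCircuit_eq]
  exact fun P => (SC.negX_iff P).symm

open Pool.Agent.Helper7 Pool.Agent.Helper92.Theta in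
lemma th8_reduces : Reduces TH8 SdpCircuit := by
  refine reduces_mk (β := List Gate) (α := ℕ × List (ℕ × ℕ)) (B := SdpCircuit.yes) (A := TH8.yes)
    (polyTime_of_ptf (SC.ptf_genX.comp (ptf_toSDP.comp ptf_toTH))) ?_
  rw [sdpCircuit_eq, th8_eq]
  exact fun I => (toTH_iff I).trans ((toSDP_iff _).trans (SC.genX_iff _))

open Pool.Agent.Helper95 Pool.Agent.Helper7 in
lemma posSLP_reduces : Reduces PosSLP SdpCircuit := by
  refine reduces_mk (α := List (ℕ × ℕ × ℕ)) (β := List Gate) (A := PosSLP.yes)
    (B := SdpCircuit.yes) (polyTime_of_ptf (SC.ptf_mapX.comp Slp.ptf_circZ)) ?_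
  rw [sdpCircuit_eq, posSLP_eq]
  exact fun P => (Slp.circZ_iff P).trans (SC.mapX_iff _)

open Pool.Agent.Helper95 Pool.Agent.Helper7 in
lemma sumSqrt_reduces : Reduces SumSqrt SdpCircuit := by
  refine reduces_mk (α := List BInt) (β := List Gate) (A := SumSqrt.yes) (B := SdpCircuit.yes)
    (polyTime_of_ptf (SC.ptf_mapX.comp Slp.ptf_circS)) ?_
  rw [sdpCircuit_eq, sumSqrt_eq]
  exact fun P => (Slp.circS_iff P).trans (SC.mapX_iff _)

open Pool.Agent.Helper7 in
lemma game_reduces : Reduces StochGame TH8 := by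
  refine reduces_mk (α := ℕ × List (ℕ × ℕ × ℕ)) (β := ℕ × List (ℕ × ℕ)) (A := StochGame.yes)
    (B := TH8.yes) (polyTime_of_ptf (Pool.Agent.Helper92.Theta.ptf_red.comp SC.ptf_gameX)) ?_
  rw [stochGame_eq, th8_eq]
  exact fun P => (SC.gameX_iff P).trans (Pool.Agent.Helper92.Theta.red_iff _)

open Pool.Agent.Helper7 in
lemma game_values (I : ℕ × List (ℕ × ℕ × ℕ)) : ∃! v, GameValues I v := by
  obtain ⟨v, hv⟩ := SC.exists_isVal I
  exact ⟨v, (gameValues_iff I v).2 hv, fun v' h =>
    SC.isVal_unique ((gameValues_iff I v').1 h) hv⟩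

/-! ### Lovász numbers -/

open Pool.Agent.Helper7 Pool.Agent.Helper91.PolyTime in
lemma compare_reduces (h : Reduces TH8.compl TH8) : Reduces LovaszCompare TH8 := by
  let A : Problem := ⟨SC.GI × SC.GI, inferInstance, SC.LovLt⟩
  have h1 : Reduces A TH8 := by
    refine reduces_mk (α := SC.GI × SC.GI) (β := ℕ × List (ℕ × ℕ)) (A := SC.LovLt)
      (B := TH8.yes) (polyTime_of_ptf (Pool.Agent.Helper92.Theta.ptf_red.comp
      ((SC.ptf_sdpOf PTF.id).comp SC.ptf_eqL))) ?_
    rw [th8_eq]
    exact fun p => (SC.lovLt_iff p).trans (Pool.Agent.Helper92.Theta.red_iff _)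
  have h2 : Reduces A.compl TH8 := h1.compl.trans h
  refine Reduces.trans (B := A.compl) (reduces_mk (α := SC.GI × SC.GI) (β := SC.GI × SC.GI)
    (A := LovaszCompare.yes) (B := SC.LovLtᶜ) (f := fun p => (p.2, p.1))
    (polyTime_of_ptf (PTF.pair PTF.id.snd PTF.id.fst)) fun p => ?_) h2
  change lovasz _ ≤ lovasz _ ↔ ¬ (lovasz _ < lovasz _)
  rw [not_lt]
  rfl

open Pool.Agent.Helper7 Pool.Agent.Helper91.PolyTime in
lemma reduces_compare : Reduces TH8 LovaszCompare := by
  refine reduces_mk (α := ℕ × List (ℕ × ℕ)) (β := SC.GI × SC.GI) (A := TH8.yes)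
    (B := LovaszCompare.yes) (f := fun I => (Pool.Agent.Helper78.TT.complI I, (8, [])))
    (polyTime_of_ptf (PTF.pair Pool.Agent.Helper78.TT.ptf_complI (PTF.const _))) fun I => ?_
  rw [th8_eq]
  refine (SC.theta8_cmp I).trans ?_
  change ¬ (lovasz _ < lovasz _) ↔ lovasz _ ≤ lovasz _
  rw [not_lt]
  rfl

/-! ### Turing reductions -/

open Pool.Agent.Helper7 in
lemma answers_eq (q : List Bool → ℕ × List (ℕ × ℕ)) (m : ℕ) :
    answers TH8.yes q m = SC.ans q m := by
  induction m with
  | zero => rfl
  | succ m ih =>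
    rw [SC.ans, ← ih]
    unfold answers
    rw [Function.iterate_succ_apply']
    rfl

open Pool.Agent.Helper91.PolyTime in
lemma code_fun (β : Type) [Coded β] [PEnc β] [Agree β] : (code : β → List Bool) = PEnc.enc :=
  funext Agree.eq

open Pool.Agent.Helper91.PolyTime in
lemma code_pair_fun (α β : Type) [Coded α] [Coded β] [PEnc β] [Agree β] :
    (code : α × β → List Bool) = fun x => pr (code x.1) (PEnc.enc x.2) := by
  funext x
  change pairCode (code x.1) (code x.2) = _
  rw [Agree.eq x.2]
  rfl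

open Pool.Agent.Helper7 in
theorem TuringReduces.reduces {A : Problem} (h : TuringReduces A TH8) :
    Reduces A SdpCircuit := by
  obtain ⟨q, d, p, hq, hd, hA⟩ := h
  change A.Inst × List Bool → ℕ × List (ℕ × ℕ) at q
  change PolyTime (β := ℕ × List (ℕ × ℕ)) q at hq
  unfold PolyTime at hq hd
  rw [code_pair_fun A.Inst (List Bool), code_fun (ℕ × List (ℕ × ℕ))] at hq
  rw [code_pair_fun A.Inst (List Bool), code_fun Bool] at hd
  obtain ⟨F, hF, hF'⟩ := SC.exists_big p hq hd
  refine ⟨F, ?_, fun x => ?_⟩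
  · change PolyTime (β := List Gate) F
    unfold PolyTime
    rw [code_fun (List Gate)]
    exact hF
  · rw [hA, sdpCircuit_eq, answers_eq]
    exact (hF' x).symm

open Pool.Agent.Helper91.PolyTime in
lemma polyTime_fst (α β : Type) [Coded α] [Coded β] [PEnc β] [Agree β] :
    PolyTime (Prod.fst : α × β → α) := by
  unfold PolyTime
  rw [code_pair_fun α β]
  refine PT.tm2 _ _ (fun b => [b]) _ ?_
  have h : (fun a : α × β => (pr (code a.1) (PEnc.enc a.2)).flatMap (fun b => [b])) =
      fun a => pr (code a.1) (PEnc.enc a.2) := by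
    funext a
    simp
  rw [h]
  have h2 := (PT.refl (fun a : α × β => pr (code a.1) (PEnc.enc a.2))).fst
  simp only [upr_pr] at h2
  exact h2

open Pool.Agent.Helper91.PolyTime in
lemma polyTime_snd (α β : Type) [Coded α] [Coded β] [PEnc β] [Agree β] :
    PolyTime (Prod.snd : α × β → β) := by
  unfold PolyTime
  rw [code_pair_fun α β, code_fun β]
  refine PT.tm2 _ _ (fun b => [b]) _ ?_
  have h : (fun a : α × β => (pr (code a.1) (PEnc.enc a.2)).flatMap (fun b => [b])) =
      fun a => pr (code a.1) (PEnc.enc a.2) := by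
    funext a
    simp
  rw [h]
  have h2 := (PT.refl (fun a : α × β => pr (code a.1) (PEnc.enc a.2))).snd
  simp only [upr_pr] at h2
  exact h2

lemma PolyTime.comp {α β γ : Type} [Coded α] [Coded β] [Coded γ] {g : β → γ} {f : α → β}
    (hg : PolyTime g) (hf : PolyTime f) : PolyTime (g ∘ f) := by
  obtain ⟨hf⟩ := hf
  obtain ⟨hg⟩ := hg
  exact Pool.Agent.Helper89.TM2Poly.comp hf hg

open Pool.Agent.Helper91.PolyTime in
theorem Reduces.turing {A B : Problem} (h : Reduces A B) : TuringReduces A B := by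
  obtain ⟨f, hf, hA⟩ := h
  refine ⟨f ∘ Prod.fst, (fun a : List Bool => a.head?.getD false) ∘ Prod.snd, 1,
    hf.comp (polyTime_fst A.Inst (List Bool)), PolyTime.comp (polyTime_of_ptf ?_)
      (polyTime_snd A.Inst (List Bool)), fun x => ?_⟩
  · exact Pool.Agent.Helper92.Theta.ptf_getD (PTF.head? PTF.id) (PTF.const _)
  · rw [Polynomial.eval_one, hA]
    simp [answers]

theorem main :
    (Reduces SdpCircuit TH8 ∧ Reduces TH8 SdpCircuit) ∧
    (Reduces TH8.compl TH8 ∧ Reduces TH8 TH8.compl) ∧
    (∀ A : Problem, TuringReduces A TH8 ↔ Reduces A TH8) ∧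
    (Reduces LovaszCompare TH8 ∧ Reduces TH8 LovaszCompare) ∧
    (Reduces PosSLP TH8 ∧ Reduces SumSqrt TH8 ∧ Reduces StochGame TH8 ∧
      ∀ I, ∃! v, GameValues I v) ∧
    (InP TH8 → InP SdpCircuit ∧ InP LovaszCompare ∧ InP PosSLP ∧ InP SumSqrt ∧ InP StochGame) := by
  have h1 := circuit_reduces
  have h2 := th8_reduces
  have h3 : Reduces TH8.compl TH8 := h2.compl.trans (circuit_compl.trans h1)
  have h4 : Reduces TH8 TH8.compl := by
    have h := h3.compl
    have h' : TH8.compl.compl = TH8 := by
      unfold Problem.compl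
      simp only [compl_compl]
    rwa [h'] at h
  have h5 := posSLP_reduces.trans h1
  have h6 := sumSqrt_reduces.trans h1
  have h7 := compare_reduces h3
  exact ⟨⟨h1, h2⟩, ⟨h3, h4⟩, fun A => ⟨fun h => h.reduces.trans h1, fun h => h.turing⟩,
    ⟨h7, reduces_compare⟩, ⟨h5, h6, game_reduces, game_values⟩, fun h =>
    ⟨h.of_reduces h1, h.of_reduces h7, h.of_reduces h5, h.of_reduces h6,
      h.of_reduces game_reduces⟩⟩

end Pool.Agent.Results.MP_0878b7_lc.SdpCircuits
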