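import Pool.Agent.Helper7.SC.Gates

/-!
# Kernels that satisfy the equations of the gates
-/

namespace Pool.Agent.Helper7.SC

open Pool.Agent.Helper92.Theta Pool.Agent.Helper95.Slp

lemma psdk_iff {K : Na → Na → ℝ} : Psdk K ↔ (∀ a b, K a b = K b a) ∧
    ∀ (n : ℕ) (f : Fin n → Na) (x : Fin n → ℝ), 0 ≤ ∑ i, ∑ j, x i * K (f i) (f j) * x j := by
  constructor
  · intro h
    refine ⟨fun a b => ?_, fun n f x => ?_⟩
    · have h1 := (psd_iff.1 (h 2 ![a, b])).1 0 1
      simpa using h1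
    · exact (psd_iff.1 (h n f)).2 x
  · rintro ⟨h1, h2⟩ n f
    rw [psd_iff]
    exact ⟨fun i j => h1 _ _, fun x => h2 n f x⟩

/-- kernels with labels -/
lemma psdk_lab {D : Type} [DecidableEq D] (lab : Na → D) (yk : D → Na → Na → ℝ)
    (h : ∀ s, Psdk (yk s)) :
    Psdk (fun a b => if lab a = lab b then yk (lab a) a b else 0) := by
  rw [psdk_iff]
  refine ⟨fun a b => ?_, fun n f x => ?_⟩
  · by_cases hab : lab a = lab b
    · rw [if_pos hab, if_pos hab.symm, hab]
      exact (psdk_iff.1 (h _)).1 a b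
    · rw [if_neg hab, if_neg (Ne.symm hab)]
  · let S : Finset D := Finset.univ.image fun i => lab (f i)
    have h1 : ∑ i, ∑ j, x i * (if lab (f i) = lab (f j) then yk (lab (f i)) (f i) (f j) else 0) *
        x j = ∑ s ∈ S, ∑ i, ∑ j, (if lab (f i) = s then x i else 0) * yk s (f i) (f j) *
          (if lab (f j) = s then x j else 0) := by
      rw [Finset.sum_comm]
      have h2 : ∀ i j, x i * (if lab (f i) = lab (f j) then yk (lab (f i)) (f i) (f j) else 0) *
          x j = ∑ s ∈ S, (if lab (f i) = s then x i else 0) * yk s (f i) (f j) *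
            (if lab (f j) = s then x j else 0) := by
        intro i j
        rw [Finset.sum_eq_single (lab (f i))]
        · rw [if_pos rfl]
          by_cases hij : lab (f i) = lab (f j)
          · rw [if_pos hij, if_pos hij.symm]
          · rw [if_neg hij, if_neg (Ne.symm hij)]
            simp
        · intro s _ hs
          rw [if_neg (Ne.symm hs)]
          simp
        · intro hs
          exact absurd (Finset.mem_image_of_mem _ (Finset.mem_univ i)) hs
      simp only [h2]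
      rw [Finset.sum_comm]
      calc ∑ i, ∑ j, ∑ s ∈ S, (if lab (f i) = s then x i else 0) * yk s (f i) (f j) *
            (if lab (f j) = s then x j else 0) =
          ∑ i, ∑ s ∈ S, ∑ j, (if lab (f i) = s then x i else 0) * yk s (f i) (f j) *
            (if lab (f j) = s then x j else 0) :=
            Finset.sum_congr rfl fun i _ => Finset.sum_comm
        _ = _ := Finset.sum_comm
    rw [h1]
    exact Finset.sum_nonneg fun s _ => (psdk_iff.1 (h s)).2 n f _

/-- What is needed about a kernel `K` to satisfy the equations of a program: `w` are the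
components in the direction of `o0`, `N` is the rest. -/
structure Ker (K : Na → Na → ℝ) (w : Na → ℝ) (N : Na → Na → ℝ) (v su sa sb : ℕ → ℝ)
    (yy zz : ℕ → ℕ → ℕ → ℝ) (mu : ℕ → ℕ → ℝ) (dl : ℕ → ℝ) : Prop where
  eqn : ∀ a b, K a b = w a * w b + N a b
  n0 : ∀ a b, a.1 ≤ 2 ∨ (7 ≤ a.1 ∧ a.1 ≤ 10) → N a b = 0
  n0' : ∀ a b, b.1 ≤ 2 ∨ (7 ≤ b.1 ∧ b.1 ≤ 10) → N a b = 0
  naa : ∀ c, N (Aa c) (Aa c) = sa c * sa c
  nab : ∀ c, N (Aa c) (Bb c) = sa c * sb c
  nbb : ∀ c, N (Bb c) (Bb c) = sb c * sb c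
  ny : ∀ k i j, N (Yn k i) (Yn k j) = yy k i j
  nz : ∀ k i j, N (Zn k i) (Zn k j) = zz k i j
  w0 : w o0 = 1
  wV : ∀ c, w (V c) = v c
  wU : ∀ c, w (U c) = su c
  wA : ∀ c, w (Aa c) = 0
  wB : ∀ c, w (Bb c) = 0
  wY : ∀ k i, w (Yn k i) = 0
  wZ : ∀ k i, w (Zn k i) = 0
  wR : ∀ k i j, w (Rn k i j) = yy k i j
  wM : ∀ k l, w (Mn k l) = mu k l
  wM' : ∀ k l, w (Mc k l) = mu k l
  wD : ∀ k, w (Dn k) = dl k

variable {K : Na → Na → ℝ} {w : Na → ℝ} {N : Na → Na → ℝ} {v su sa sb : ℕ → ℝ}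
  {yy zz : ℕ → ℕ → ℕ → ℝ} {mu : ℕ → ℕ → ℝ} {dl : ℕ → ℝ}

theorem basic_complete (hK : Ker K w N v su sa sb yy zz mu dl) {k : ℕ} (g : Gate)
    (h : Res g.1 (ival g.2.2.2) (v (idx k g.2.1)) (v (idx k g.2.2.1)) (v (k + 1)))
    (hA : Aux g.1 (v (idx k g.2.1)) (v (idx k g.2.2.1)) (v (k + 1)) (su (k + 1)) (sa (k + 1))
      (sb (k + 1))) : ∀ e ∈ gq k g, Hol K e := by
  obtain ⟨op, i, j, z⟩ := g
  simp only at h hA
  have k0V : ∀ c, K o0 (V c) = v c := fun c => by
    rw [hK.eqn, hK.n0 _ _ (Or.inl (by simp [o0])), hK.w0, hK.wV]; ring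
  have kV0 : ∀ c, K (V c) o0 = v c := fun c => by
    rw [hK.eqn, hK.n0 _ _ (Or.inl (by simp [V])), hK.w0, hK.wV]; ring
  have k0U : ∀ c, K o0 (U c) = su c := fun c => by
    rw [hK.eqn, hK.n0 _ _ (Or.inl (by simp [o0])), hK.w0, hK.wU]; ring
  have kVV : ∀ c c', K (V c) (V c') = v c * v c' := fun c c' => by
    rw [hK.eqn, hK.n0 _ _ (Or.inl (by simp [V])), hK.wV, hK.wV]; ring
  have kVU : ∀ c c', K (V c) (U c') = v c * su c' := fun c c' => by
    rw [hK.eqn, hK.n0 _ _ (Or.inl (by simp [V])), hK.wV, hK.wU]; ring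
  have kAA : ∀ c, K (Aa c) (Aa c) = sa c * sa c := fun c => by
    rw [hK.eqn, hK.naa, hK.wA]; ring
  have kAB : ∀ c, K (Aa c) (Bb c) = sa c * sb c := fun c => by
    rw [hK.eqn, hK.nab, hK.wA]; ring
  have kBB : ∀ c, K (Bb c) (Bb c) = sb c * sb c := fun c => by
    rw [hK.eqn, hK.nbb, hK.wB]; ring
  unfold gq
  simp only
  match op, h, hA with
  | 0, h, hA =>
    simp only [bq, if_true, List.forall_mem_cons, List.not_mem_nil, false_implies,
      implies_true, and_true, Hol, lhs_cons, lhs_nil, bval_one, bval_zer, ival_bneg, k0V, kVV]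
    have h' : v (k + 1) = ival z := h
    rw [h']
    refine ⟨by ring, ?_⟩
    push_cast
    ring
  | 1, h, hA =>
    simp only [bq, one_ne_zero, if_true, if_false, List.forall_mem_cons, List.not_mem_nil,
      false_implies, implies_true, and_true, Hol, lhs_cons, lhs_nil, bval_one, bval_mone, bval_zer,
      k0V, kV0, kVV]
    have h' : v (k + 1) = v (idx k i) + v (idx k j) := h
    rw [h']
    refine ⟨?_, ?_⟩ <;> ring
  | 2, h, hA =>
    simp only [bq, OfNat.ofNat_ne_zero, OfNat.ofNat_ne_one, if_true, if_false,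
      List.forall_mem_cons, List.not_mem_nil, false_implies, implies_true, and_true, Hol,
      lhs_cons, lhs_nil, bval_one, bval_mone, bval_zer, k0V, kV0, kVV]
    have h' : v (k + 1) = v (idx k i) - v (idx k j) := h
    rw [h']
    refine ⟨?_, ?_⟩ <;> ring
  | 3, h, hA =>
    simp only [bq, OfNat.ofNat_ne_zero, OfNat.ofNat_ne_one, if_true, if_false,
      List.forall_mem_cons, List.not_mem_nil, false_implies, implies_true, and_true,
      Nat.reduceEqDiff, Hol, lhs_cons, lhs_nil, bval_one, bval_mone, bval_zer, k0V, k0U, kVV, kVU]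
    have h' : v (k + 1) = v (idx k i) * v (idx k j) := h
    rw [hA.u3 rfl, h']
    refine ⟨?_, ?_, ?_⟩ <;> ring
  | 4, h, hA =>
    simp only [bq, OfNat.ofNat_ne_zero, OfNat.ofNat_ne_one, if_true, if_false,
      List.forall_mem_cons, List.not_mem_nil, false_implies, implies_true, and_true,
      Nat.reduceEqDiff, Hol, lhs_cons, lhs_nil, bval_one, bval_mone, bval_zer, k0V, k0U, kVV, kVU,
      kAB, kBB]
    obtain ⟨h1, h2⟩ : v (idx k j) ≠ 0 ∧ v (k + 1) = v (idx k i) / v (idx k j) := h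
    have h3 : v (idx k i) = v (idx k j) * v (k + 1) := by
      rw [h2]; field_simp
    rw [hA.u4 rfl, hA.a4 rfl, hA.b4 rfl, h3]
    have h4 : (ival one : ℝ) = 1 := bval_one
    refine ⟨?_, ?_, ?_, ?_, ?_⟩ <;> ring
  | 5, h, hA =>
    simp only [bq, OfNat.ofNat_ne_zero, OfNat.ofNat_ne_one, if_true, if_false,
      List.forall_mem_cons, List.not_mem_nil, false_implies, implies_true, and_true,
      Nat.reduceEqDiff, Hol, lhs_cons, lhs_nil, bval_one, bval_mone, bval_zer, k0V, kVV, kAB, kBB]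
    obtain ⟨h1, h2⟩ : (v (idx k i) = 0 → v (k + 1) = 0) ∧ (v (idx k i) ≠ 0 → v (k + 1) = 1) := h
    have h3 : v (idx k i) * v (k + 1) = v (idx k i) := by
      by_cases hv : v (idx k i) = 0
      · rw [hv, zero_mul]
      · rw [h2 hv, mul_one]
    have h4 : v (k + 1) * v (k + 1) = v (k + 1) := by
      by_cases hv : v (idx k i) = 0
      · rw [h1 hv, zero_mul]
      · rw [h2 hv, mul_one]
    rw [hA.n5 rfl, hA.m5 rfl, h3, h4]
    refine ⟨?_, ?_, ?_, ?_⟩ <;> ring
  | n + 6, h, hA =>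
    have e0 : ¬ (n + 6 = 0) := by omega
    have e1 : ¬ (n + 6 = 1) := by omega
    have e2 : ¬ (n + 6 = 2) := by omega
    have e3 : ¬ (n + 6 = 3) := by omega
    have e4 : ¬ (n + 6 = 4) := by omega
    have e5 : ¬ (n + 6 = 5) := by omega
    simp only [bq, e0, e1, e2, e3, e4, e5, if_false, List.forall_mem_cons, List.not_mem_nil,
      false_implies, implies_true, and_true, Hol, lhs_cons, lhs_nil, bval_one, bval_mone, bval_zer,
      k0V, kVV, kAA, kAB, kBB]
    obtain ⟨h1, h2⟩ : 0 ≤ v (k + 1) ∧ v (k + 1) * v (k + 1) = v (idx k i) := h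
    rw [hA.a5 (by omega), hA.b5 (by omega), hA.c5 (by omega), h2]
    refine ⟨?_, ?_, ?_, ?_⟩ <;> ring

/-- The data of the rows of a semidefinite gate. -/
structure SAux (n m : ℕ) (d : ℕ → ℝ) (b : ℝ) (y z : ℕ → ℕ → ℝ) (μ : ℕ → ℝ) (δ : ℝ) : Prop where
  b2 : b * b = b
  tr : ∑ i : Fin n, y i i = d 0 * b
  con : ∀ l < m, ∑ i : Fin n, ∑ j : Fin n, d (pA n l i j) * y i j = d (pB n l) * b
  zz : ∀ i < n, ∀ j < n, 2 * z i j = (if i = j then 2 * δ else 0) +
    (∑ l : Fin m, d (pA n l i j) * μ l + ∑ l : Fin m, d (pA n l j i) * μ l)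
  obj : d 0 * δ + ∑ l : Fin m, d (pB n l) * μ l = b - 1

theorem sdp_complete (hK : Ker K w N v su sa sb yy zz mu dl) {k n m : ℕ} {r : ℕ → ℕ}
    (hA : SAux n m (fun u => v (r u)) (v (k + 1)) (yy k) (zz k) (mu k) (dl k)) :
    ∀ e ∈ sq k (fun u => V (r u)) n m, Hol K e := by
  rw [sem_iff]
  have k0 : ∀ a, K o0 a = w a := fun a => by
    rw [hK.eqn, hK.n0 _ _ (Or.inl (by simp [o0])), hK.w0]; ring
  have kV : ∀ c a, K (V c) a = v c * w a := fun c a => by
    rw [hK.eqn, hK.n0 _ _ (Or.inl (by simp [V])), hK.wV]; ring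
  have kY : ∀ i j, K (Yn k i) (Yn k j) = yy k i j := fun i j => by
    rw [hK.eqn, hK.ny, hK.wY]; ring
  have kZ : ∀ i j, K (Zn k i) (Zn k j) = zz k i j := fun i j => by
    rw [hK.eqn, hK.nz, hK.wZ]; ring
  refine ⟨?_, fun i _ j _ => ?_, ?_, fun l hl => ?_, fun i hi j hj => ?_, fun l _ => ?_, ?_⟩
  · rw [kV, k0, hK.wV]
    exact hA.b2
  · rw [kY, k0, hK.wR]
  · simp only [k0, kV, hK.wR, hK.wV]
    exact hA.tr
  · simp only [kV, hK.wR, hK.wV]
    exact hA.con l hl
  · simp only [kZ, k0, kV, hK.wM, hK.wM', hK.wD]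
    exact hA.zz i hi j hj
  · rw [k0, k0, hK.wM, hK.wM']
  · simp only [kV, k0, hK.wD, hK.wM, hK.wV, hK.w0]
    exact hA.obj

/-- the extension of a matrix to all natural numbers -/
noncomputable def extN {n : ℕ} (Y : Matrix (Fin n) (Fin n) ℝ) (i j : ℕ) : ℝ :=
  if h : i < n ∧ j < n then Y ⟨i, h.1⟩ ⟨j, h.2⟩ else 0

lemma extN_fin {n : ℕ} (Y : Matrix (Fin n) (Fin n) ℝ) (i j : Fin n) :
    extN Y i j = Y i j := by
  unfold extN
  rw [dif_pos ⟨i.2, j.2⟩]

/-- the kernel of a matrix on rows with numbers -/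
lemma psdk_extN {n : ℕ} {Y : Matrix (Fin n) (Fin n) ℝ} (hY : Y.PosSemidef) (p : Na → ℕ) :
    Psdk (fun a b => extN Y (p a) (p b)) := by
  have h := psdk_mat hY (fun a => if h : p a < n then some ⟨p a, h⟩ else none)
  have e : (fun a b => extN Y (p a) (p b)) = (fun a b : Na =>
      match (if h : p a < n then some (⟨p a, h⟩ : Fin n) else none),
        (if h : p b < n then some (⟨p b, h⟩ : Fin n) else none) with
      | some i, some j => Y i j
      | _, _ => 0) := by
    funext a b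
    unfold extN
    by_cases ha : p a < n
    · by_cases hb : p b < n
      · rw [dif_pos ⟨ha, hb⟩, dif_pos ha, dif_pos hb]
      · rw [dif_neg (fun h => hb h.2), dif_pos ha, dif_neg hb]
    · rw [dif_neg (fun h => ha h.1), dif_neg ha]
  rw [e]
  exact h

lemma exists_saux (n m : ℕ) (d : ℕ → ℝ) (b : ℝ)
    (h : (feas n m d → b = 1) ∧ (¬ feas n m d → b = 0)) :
    ∃ (Y Z : Matrix (Fin n) (Fin n) ℝ) (μ : ℕ → ℝ) (δ : ℝ), Y.PosSemidef ∧ Z.PosSemidef ∧
      SAux n m d b (extN Y) (extN Z) μ δ := by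
  by_cases hf : feas n m d
  · have hb := h.1 hf
    subst hb
    obtain ⟨Y, hY, hY1, hY2⟩ := hf
    refine ⟨Y, 0, fun _ => 0, 0, hY, Matrix.PosSemidef.zero, ⟨by ring, ?_, fun l hl => ?_,
      fun i hi j hj => ?_, ?_⟩⟩
    · simp only [extN_fin]
      rw [hY1, mul_one]
    · simp only [extN_fin]
      rw [hY2 l hl, mul_one]
    · have e : extN (0 : Matrix (Fin n) (Fin n) ℝ) i j = 0 := by
        unfold extN
        split_ifs <;> simp
      rw [e]
      simp
    · simp
  · have hb := h.2 hf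
    subst hb
    have hf' : ¬ ∃ Y : Matrix (Fin n) (Fin n) ℝ, Y.PosSemidef ∧ ∑ i, Y i i = d 0 ∧
        ∀ l : Fin m, ∑ i, ∑ j, (Matrix.of fun i j : Fin n => d (pA n l i j)) i j * Y i j =
          d (pB n l) := by
      rintro ⟨Y, h1, h2, h3⟩
      exact hf ⟨Y, h1, h2, fun l hl => h3 ⟨l, hl⟩⟩
    obtain ⟨δ, μ, hZ, hobj⟩ := alt (d 0) (fun l : Fin m => d (pB n l))
      (fun l => Matrix.of fun i j : Fin n => d (pA n l i j)) hf'
    refine ⟨0, ZZ (fun l => Matrix.of fun i j : Fin n => d (pA n l i j)) δ μ,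
      fun l => if h : l < m then μ ⟨l, h⟩ else 0, δ, Matrix.PosSemidef.zero, hZ,
      ⟨by ring, ?_, fun l hl => ?_, fun i hi j hj => ?_, ?_⟩⟩
    · simp [extN]
    · simp [extN]
    · have e : ∀ l : Fin m, (if h : (l : ℕ) < m then μ ⟨l, h⟩ else 0) = μ l := fun l => by
        rw [dif_pos l.2]
      simp only [e]
      have e2 := extN_fin (ZZ (fun l => Matrix.of fun i j : Fin n => d (pA n l i j)) δ μ)
        ⟨i, hi⟩ ⟨j, hj⟩
      simp only at e2
      rw [e2, ZZ, Matrix.of_apply, mul_add]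
      have e3 : (⟨i, hi⟩ : Fin n) = ⟨j, hj⟩ ↔ i = j := by simp
      congr 1
      · by_cases hij : i = j
        · rw [if_pos (e3.2 hij), if_pos hij]
        · rw [if_neg (fun h => hij (e3.1 h)), if_neg hij, mul_zero]
      · rw [Finset.mul_sum, ← Finset.sum_add_distrib]
        refine Finset.sum_congr rfl fun l _ => ?_
        simp only [Matrix.of_apply]
        ring
    · have e : ∀ l : Fin m, (if h : (l : ℕ) < m then μ ⟨l, h⟩ else 0) = μ l := fun l => by
        rw [dif_pos l.2]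
      simp only [e]
      rw [mul_comm (d 0), zero_sub, ← hobj]
      congr 1
      exact Finset.sum_congr rfl fun l _ => mul_comm _ _

end Pool.Agent.Helper7.SC
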