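import Pool.Agent.Helper7.SC.Sharp

set_option autoImplicit false

/-! Sensitivity to the change of one digit, against the addition of a power of `b`. -/

namespace Pool.Agent.Helper7.SC

open Finset

/-- the digit at position `j` is increased by one modulo `b` -/
def inc (b j n : ℕ) : ℕ := if n / b ^ j % b = b - 1 then n - (b - 1) * b ^ j else n + b ^ j

lemma split_digit (b j n : ℕ) : n = n % b ^ j + b ^ j * (n / b ^ j % b) +
    b ^ (j + 1) * (n / b ^ (j + 1)) := by
  have h1 := Nat.mod_add_div n (b ^ (j + 1))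
  rw [Nat.mod_pow_succ] at h1
  exact h1.symm

lemma inc_carry {b j n : ℕ} (hb : 2 ≤ b) (h : n / b ^ j % b = b - 1) :
    inc b j n + b ^ (j + 1) = n + b ^ j ∧
      inc b j n = n % b ^ j + b ^ (j + 1) * (n / b ^ (j + 1)) := by
  have h1 := split_digit b j n
  rw [h] at h1
  have h2 : inc b j n = n - (b - 1) * b ^ j := by
    unfold inc
    rw [if_pos h]
  have h3 : b ^ j * (b - 1) + b ^ j = b ^ (j + 1) := by
    rw [← Nat.mul_succ, Nat.succ_eq_add_one, Nat.sub_add_cancel (by omega), pow_succ]
  rw [mul_comm (b ^ j) (b - 1)] at h1 h3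
  generalize (b - 1) * b ^ j = P at h1 h2 h3
  generalize b ^ (j + 1) * (n / b ^ (j + 1)) = P2 at h1 ⊢
  generalize n % b ^ j = e at h1 ⊢
  constructor
  · rw [h2]
    omega
  · rw [h2]
    omega

lemma inc_nocarry {b j n : ℕ} (h : n / b ^ j % b ≠ b - 1) : inc b j n = n + b ^ j := by
  unfold inc
  rw [if_neg h]

/-- the number of `n` below `b ^ K` for which `g` changes when the digit at `j` is increased -/
def cn {α : Type*} [DecidableEq α] (b K : ℕ) (g : ℕ → α) (j : ℕ) : ℕ :=
  #{n ∈ range (b ^ K) | g n ≠ g (inc b j n)}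

lemma count_low (b K j a : ℕ) (hb : 2 ≤ b) (hj : j ≤ K) (ha : a ≤ j) :
    (#{n ∈ range (b ^ K) | n % b ^ j < b ^ (j - a)} : ℝ) = (b : ℝ) ^ K / (b : ℝ) ^ a := by
  have hb0 : (b : ℝ) ≠ 0 := by
    have : b ≠ 0 := by omega
    exact_mod_cast this
  have h1 := sum_mod_div (b ^ j) (b ^ (K - j)) (fun ρ => if ρ < b ^ (j - a) then (1 : ℝ) else 0)
    (fun _ => 1)
  have h2 : b ^ j * b ^ (K - j) = b ^ K := by
    rw [← pow_add]
    congr 1
    omega
  rw [h2] at h1
  have h3 : (#{n ∈ range (b ^ K) | n % b ^ j < b ^ (j - a)} : ℝ) =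
      ∑ n ∈ range (b ^ K), (fun ρ => if ρ < b ^ (j - a) then (1 : ℝ) else 0) (n % b ^ j) *
        (fun _ => (1 : ℝ)) (n / b ^ j) := by
    rw [Finset.card_filter]
    push_cast
    refine sum_congr rfl fun n _ => ?_
    simp
  rw [h3, h1, Finset.sum_const, card_range, nsmul_eq_mul, mul_one]
  have h4 : ∑ ρ ∈ range (b ^ j), (if ρ < b ^ (j - a) then (1 : ℝ) else 0) = (b : ℝ) ^ (j - a) := by
    rw [← Finset.sum_filter, Finset.sum_const, nsmul_eq_mul, mul_one]
    have h5 : (range (b ^ j)).filter (fun ρ => ρ < b ^ (j - a)) = range (b ^ (j - a)) := by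
      ext ρ
      rw [mem_filter, mem_range, mem_range]
      constructor
      · exact fun h => h.2
      · intro h
        exact ⟨lt_of_lt_of_le h (Nat.pow_le_pow_right (by omega) (Nat.sub_le j a)), h⟩
    rw [h5, card_range]
    push_cast
    rfl
  rw [h4]
  push_cast
  rw [eq_div_iff (pow_ne_zero _ hb0), ← pow_add, ← pow_add]
  congr 1
  omega

lemma inc_inj {b j : ℕ} (hb : 2 ≤ b) {m n : ℕ} (hm : m / b ^ j % b = b - 1)
    (hn : n / b ^ j % b = b - 1) (h : inc b j m = inc b j n) : m = n := by
  have h1 := (inc_carry hb hm).1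
  have h2 := (inc_carry hb hn).1
  omega

lemma peel {α : Type*} [DecidableEq α] (b K : ℕ) (hb : 2 ≤ b) (g : ℕ → α) :
    ∀ (R j a : ℕ), j ≤ K → a ≤ j →
    (#{n ∈ range (b ^ K) | n % b ^ j < b ^ (j - a) ∧ g n ≠ g ((n + b ^ j) % b ^ K)} : ℝ) ≤
      ∑ k ∈ range R, (if j + k < K then (cn b K g (j + k) : ℝ) else 0) +
        (b : ℝ) ^ K / (b : ℝ) ^ (a + R) := by
  have hb0 : (0 : ℝ) < b := by
    have : 0 < b := by omega
    exact_mod_cast this
  intro R
  induction R with
  | zero =>
    intro j a hj ha
    rw [Finset.sum_range_zero, zero_add, add_zero, ← count_low b K j a hb hj ha]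
    have : #{n ∈ range (b ^ K) | n % b ^ j < b ^ (j - a) ∧ g n ≠ g ((n + b ^ j) % b ^ K)} ≤
        #{n ∈ range (b ^ K) | n % b ^ j < b ^ (j - a)} := by
      refine card_le_card fun n hn => ?_
      rw [mem_filter] at hn ⊢
      exact ⟨hn.1, hn.2.1⟩
    exact_mod_cast this
  | succ R ih =>
    intro j a hj ha
    rcases Nat.lt_or_ge j K with hjK | hjK
    · have ih' := ih (j + 1) (a + 1) hjK (by omega)
      have h1 : (∑ k ∈ range (R + 1), (if j + k < K then (cn b K g (j + k) : ℝ) else 0)) =
          ∑ k ∈ range R, (if j + 1 + k < K then (cn b K g (j + 1 + k) : ℝ) else 0) +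
            (cn b K g j : ℝ) := by
        rw [Finset.sum_range_succ', add_zero, if_pos hjK]
        congr 1
        refine sum_congr rfl fun k _ => ?_
        have : j + (k + 1) = j + 1 + k := by ring
        rw [this]
      have h2 : a + (R + 1) = a + 1 + R := by ring
      rw [h1, h2]
      have h3 : j + 1 - (a + 1) = j - a := by omega
      rw [h3] at ih'
      have h4 : #{n ∈ range (b ^ K) | n % b ^ j < b ^ (j - a) ∧ g n ≠ g ((n + b ^ j) % b ^ K)} ≤
          cn b K g j + #{n ∈ range (b ^ K) | n % b ^ (j + 1) < b ^ (j - a) ∧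
            g n ≠ g ((n + b ^ (j + 1)) % b ^ K)} := by
        classical
        set U := (range (b ^ K)).filter
          (fun n => n % b ^ j < b ^ (j - a) ∧ g n ≠ g ((n + b ^ j) % b ^ K)) with hU
        set U1 := U.filter (fun n => g n ≠ g (inc b j n)) with hU1
        set U2 := U.filter (fun n => ¬ (g n ≠ g (inc b j n))) with hU2
        have h5 : #U = #U1 + #U2 := (Finset.card_filter_add_card_filter_not _).symm
        have h6 : #U1 ≤ cn b K g j := by
          unfold cn
          have h7 : ∀ n ∈ U1, n ∈ range (b ^ K) ∧ g n ≠ g (inc b j n) := by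
            intro n hn
            rw [hU1, mem_filter, hU, mem_filter] at hn
            exact ⟨hn.1.1, hn.2⟩
          refine card_le_card fun n hn => ?_
          exact Finset.mem_filter.2 (h7 n hn)
        have h8 : ∀ n ∈ U2, n < b ^ K ∧ n % b ^ j < b ^ (j - a) ∧
            g n ≠ g ((n + b ^ j) % b ^ K) ∧ g n = g (inc b j n) ∧ n / b ^ j % b = b - 1 := by
          intro n hn
          rw [hU2, mem_filter, hU, mem_filter, mem_range] at hn
          obtain ⟨⟨hn1, hn2, hn3⟩, hn4⟩ := hn
          have hn5 : g n = g (inc b j n) := not_not.1 hn4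
          refine ⟨hn1, hn2, hn3, hn5, ?_⟩
          by_contra hne
          have h9 := inc_nocarry (n := n) (j := j) hne
          have h10 : n + b ^ j < b ^ K := by
            have h11 := split_digit b j n
            have h12 : n / b ^ j % b < b := Nat.mod_lt _ (by omega)
            have h13 : n / b ^ j % b + 1 ≤ b - 1 := by omega
            have h14 : n / b ^ (j + 1) < b ^ (K - (j + 1)) := by
              rw [Nat.div_lt_iff_lt_mul (pow_pos (by omega) _), ← pow_add]
              have : K - (j + 1) + (j + 1) = K := by omega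
              rw [this]
              exact hn1
            have h15 : b ^ (j + 1) * (n / b ^ (j + 1) + 1) ≤ b ^ (j + 1) * b ^ (K - (j + 1)) :=
              Nat.mul_le_mul_left _ h14
            have h16 : b ^ (j + 1) * b ^ (K - (j + 1)) = b ^ K := by
              rw [← pow_add]
              congr 1
              omega
            have h17 : b ^ j * (n / b ^ j % b + 1) ≤ b ^ j * (b - 1) := Nat.mul_le_mul_left _ h13
            have h18 : b ^ j * (b - 1) + b ^ j = b ^ (j + 1) := by
              rw [← Nat.mul_succ, Nat.succ_eq_add_one, Nat.sub_add_cancel (by omega), pow_succ]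
            have h19 : n % b ^ j < b ^ j := Nat.mod_lt _ (pow_pos (by omega) _)
            rw [h16] at h15
            rw [mul_add, mul_one] at h15 h17
            omega
          rw [Nat.mod_eq_of_lt h10, ← h9] at hn3
          exact hn3 hn5
        have h20 : #U2 ≤ #{n ∈ range (b ^ K) | n % b ^ (j + 1) < b ^ (j - a) ∧
            g n ≠ g ((n + b ^ (j + 1)) % b ^ K)} := by
          refine Finset.card_le_card_of_injOn (fun n => inc b j n) ?_ ?_
          · intro n hn
            obtain ⟨h21, h22, h23, h24, h25⟩ := h8 n hn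
            obtain ⟨h26, h27⟩ := inc_carry hb h25
            have h28 : inc b j n % b ^ (j + 1) = n % b ^ j := by
              rw [h27, Nat.add_mul_mod_self_left, Nat.mod_eq_of_lt]
              exact lt_of_lt_of_le (Nat.mod_lt _ (pow_pos (by omega) _))
                (Nat.pow_le_pow_right (by omega) (by omega))
            rw [mem_coe, mem_filter, mem_range]
            refine ⟨?_, ?_, ?_⟩
            · have : b ^ j ≤ b ^ (j + 1) := Nat.pow_le_pow_right (by omega) (by omega)
              simp only
              omega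
            · simp only
              rw [h28]
              exact h22
            · simp only
              rw [h26, ← h24]
              exact h23
          · intro m hm n hn hmn
            exact inc_inj hb (h8 m hm).2.2.2.2 (h8 n hn).2.2.2.2 hmn
        omega
      have h4' : (#{n ∈ range (b ^ K) | n % b ^ j < b ^ (j - a) ∧
          g n ≠ g ((n + b ^ j) % b ^ K)} : ℝ) ≤ cn b K g j +
          #{n ∈ range (b ^ K) | n % b ^ (j + 1) < b ^ (j - a) ∧
            g n ≠ g ((n + b ^ (j + 1)) % b ^ K)} := by
        exact_mod_cast h4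
      linarith
    · have hjK' : j = K := le_antisymm hj hjK
      have h5 : (#{n ∈ range (b ^ K) | n % b ^ j < b ^ (j - a) ∧
          g n ≠ g ((n + b ^ j) % b ^ K)} : ℝ) = 0 := by
        have : (range (b ^ K)).filter (fun n => n % b ^ j < b ^ (j - a) ∧
            g n ≠ g ((n + b ^ j) % b ^ K)) = ∅ := by
          refine Finset.filter_eq_empty_iff.2 fun n hn hh => hh.2 ?_
          rw [mem_range] at hn
          rw [hjK', Nat.add_mod_right, Nat.mod_eq_of_lt hn]
        rw [this]
        simp
      rw [h5]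
      have h6 : 0 ≤ ∑ k ∈ range (R + 1), (if j + k < K then (cn b K g (j + k) : ℝ) else 0) :=
        sum_nonneg fun k _ => by
          split_ifs
          · exact Nat.cast_nonneg _
          · exact le_rfl
      positivity

/-- additive sensitivity against digit sensitivity -/
theorem add_le_digit {α : Type*} [DecidableEq α] (b K : ℕ) (hb : 2 ≤ b) (g : ℕ → α) (R : ℕ) :
    ∑ j ∈ range K, (#{n ∈ range (b ^ K) | g n ≠ g ((n + b ^ j) % b ^ K)} : ℝ) ≤
      R * ∑ j ∈ range K, (cn b K g j : ℝ) + K * ((b : ℝ) ^ K / (b : ℝ) ^ R) := by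
  have h1 : ∀ j ∈ range K, (#{n ∈ range (b ^ K) | g n ≠ g ((n + b ^ j) % b ^ K)} : ℝ) ≤
      ∑ k ∈ range R, (if j + k < K then (cn b K g (j + k) : ℝ) else 0) +
        (b : ℝ) ^ K / (b : ℝ) ^ R := by
    intro j hj
    have h2 := peel b K hb g R j 0 (mem_range.1 hj).le (Nat.zero_le _)
    rw [Nat.zero_add, Nat.sub_zero] at h2
    refine le_trans (le_of_eq ?_) h2
    congr 2
    ext n
    rw [mem_filter, mem_filter]
    constructor
    · rintro ⟨h3, h4⟩
      exact ⟨h3, Nat.mod_lt _ (pow_pos (by omega) _), h4⟩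
    · rintro ⟨h3, _, h4⟩
      exact ⟨h3, h4⟩
  refine (sum_le_sum h1).trans ?_
  rw [Finset.sum_add_distrib, Finset.sum_const, card_range, nsmul_eq_mul, Finset.sum_comm]
  refine add_le_add ?_ le_rfl
  have h5 : ∀ k ∈ range R, ∑ j ∈ range K, (if j + k < K then (cn b K g (j + k) : ℝ) else 0) ≤
      ∑ j ∈ range K, (cn b K g j : ℝ) := by
    intro k _
    rw [← Finset.sum_filter]
    rw [← Finset.sum_image (f := fun j => (cn b K g j : ℝ)) (g := fun j => j + k)
      (s := (range K).filter fun j => j + k < K) (by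
        intro x _ y _ hxy
        simp only at hxy
        omega)]
    refine sum_le_sum_of_subset_of_nonneg ?_ fun _ _ _ => Nat.cast_nonneg _
    intro j hj
    rw [mem_image] at hj
    obtain ⟨i, hi, rfl⟩ := hj
    rw [mem_filter] at hi
    exact mem_range.2 hi.2
  refine (sum_le_sum h5).trans ?_
  rw [Finset.sum_const, card_range, nsmul_eq_mul]

end Pool.Agent.Helper7.SC
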