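import Pool.Agent.Helper7.SC.DigitClause
import Pool.Agent.Helper45.HD.Frames
import Pool.Agent.Helper18.SC.DP.M2Un

set_option autoImplicit false

/-! Additive against digit sensitivity, without a logarithm. -/

namespace Pool.Agent.Helper7.SC

open Finset
open Pool.Agent.Helper57.U2
open Pool.Agent.Helper45.HD (StAd Ed setd)

lemma sum_digits3 (b K j : ℕ) (hj : j < K) (Φ : ℕ → ℝ) :
    ∑ n ∈ range (b ^ K), Φ n = ∑ hi ∈ range (b ^ (K - (j + 1))), ∑ u ∈ range b,
      ∑ lo ∈ range (b ^ j), Φ (b ^ (j + 1) * hi + (b ^ j * u + lo)) := by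
  have e : b ^ K = b ^ (j + 1) * b ^ (K - (j + 1)) := by
    rw [← pow_add]
    congr 1
    omega
  rw [e, Pool.Agent.Helper18.SC.DP.sum_range_mul']
  refine sum_congr rfl fun hi _ => ?_
  rw [pow_succ]
  exact Pool.Agent.Helper18.SC.DP.sum_range_mul' (b ^ j) b _

lemma mean_le (b : ℕ) (hb : 2 ≤ b) (G : ℕ → ℝ) :
    ∑ u ∈ range b, (G u - (∑ w ∈ range b, G w) / b) ^ 2 ≤
      (b : ℝ) ^ 2 * ∑ u ∈ range b, (G u - G ((u + 1) % b)) ^ 2 := by
  have hb0 : (0 : ℝ) < b := by
    have : 0 < b := by omega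
    exact_mod_cast this
  obtain ⟨S, hS⟩ : ∃ S : ℝ, S = ∑ u ∈ range b, (G u - G ((u + 1) % b)) ^ 2 := ⟨_, rfl⟩
  obtain ⟨μ, hμ⟩ : ∃ μ : ℝ, μ = (∑ w ∈ range b, G w) / b := ⟨_, rfl⟩
  rw [← hS, ← hμ]
  have hsum : ∑ w ∈ range b, G w = b * μ := by rw [hμ]; field_simp
  have h1 : ∑ u ∈ range b, (G u - μ) ^ 2 ≤ ∑ u ∈ range b, (G u - G 0) ^ 2 := by
    have h2 : ∑ u ∈ range b, (G u - G 0) ^ 2 =
        ∑ u ∈ range b, (G u - μ) ^ 2 + b * (μ - G 0) ^ 2 := by
      have h3 : ∀ u ∈ range b, (G u - G 0) ^ 2 =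
          (G u - μ) ^ 2 + (2 * (μ - G 0) * G u + ((μ - G 0) ^ 2 - 2 * (μ - G 0) * μ)) := by
        intro u _
        ring
      rw [sum_congr rfl h3, sum_add_distrib, sum_add_distrib, ← mul_sum, hsum, sum_const,
        card_range, nsmul_eq_mul]
      ring
    rw [h2]
    have : 0 ≤ (b : ℝ) * (μ - G 0) ^ 2 := by positivity
    linarith
  refine h1.trans ?_
  have h2 : ∀ u ∈ range b, (G u - G 0) ^ 2 ≤ b * S := by
    intro u hu
    have hub := mem_range.1 hu
    rw [← sum_range_sub G u]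
    refine (sq_sum_le_card_mul_sum_sq).trans ?_
    rw [card_range]
    refine mul_le_mul ?_ ?_ (sum_nonneg fun _ _ => sq_nonneg _) hb0.le
    · exact_mod_cast hub.le
    · rw [hS]
      refine le_trans (le_of_eq ?_) (sum_le_sum_of_subset_of_nonneg
        (range_subset_range.2 hub.le) fun _ _ _ => sq_nonneg _)
      refine sum_congr rfl fun w hw => ?_
      have hwu := mem_range.1 hw
      rw [Nat.mod_eq_of_lt (show w + 1 < b by omega)]
      ring
  refine (sum_le_sum h2).trans (le_of_eq ?_)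
  rw [sum_const, card_range, nsmul_eq_mul]
  ring

/-- one digit: the distance to the average against the change under `inc` -/
lemma ed_le_inc (b K j : ℕ) (hb : 2 ≤ b) (hj : j < K) (F : ℕ → ℝ) :
    ∑ n ∈ range (b ^ K), (F n - Ed b j F n) ^ 2 ≤
      (b : ℝ) ^ 2 * ∑ n ∈ range (b ^ K), (F n - F (inc b j n)) ^ 2 := by
  have hbj : 0 < b ^ j := by positivity
  rw [sum_digits3 b K j hj, sum_digits3 b K j hj, mul_sum]
  refine sum_le_sum fun hi _ => ?_
  rw [sum_comm, sum_comm (s := range b), mul_sum]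
  refine sum_le_sum fun lo hlo => ?_
  have hlo' := mem_range.1 hlo
  have hmod : ∀ u < b, (b ^ (j + 1) * hi + (b ^ j * u + lo)) % b ^ j = lo := by
    intro u _
    have : b ^ (j + 1) * hi + (b ^ j * u + lo) = lo + b ^ j * (b * hi + u) := by
      rw [pow_succ]; ring
    rw [this, Nat.add_mul_mod_self_left, Nat.mod_eq_of_lt hlo']
  have hlt : ∀ u < b, b ^ j * u + lo < b ^ (j + 1) := by
    intro u hu
    have h1 : b ^ j * (u + 1) ≤ b ^ j * b := Nat.mul_le_mul_left _ hu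
    rw [pow_succ]
    have h2 : b ^ j * (u + 1) = b ^ j * u + b ^ j := by ring
    omega
  have hdiv : ∀ u < b, (b ^ (j + 1) * hi + (b ^ j * u + lo)) / b ^ (j + 1) = hi := by
    intro u hu
    rw [Nat.mul_add_div (by positivity), Nat.div_eq_of_lt (hlt u hu), add_zero]
  have hdig : ∀ u < b, (b ^ (j + 1) * hi + (b ^ j * u + lo)) / b ^ j % b = u := by
    intro u hu
    have : b ^ (j + 1) * hi + (b ^ j * u + lo) = b ^ j * (b * hi + u) + lo := by
      rw [pow_succ]; ring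
    rw [this, Nat.mul_add_div hbj, Nat.div_eq_of_lt hlo', add_zero, Nat.mul_add_mod,
      Nat.mod_eq_of_lt hu]
  obtain ⟨G, hG⟩ : ∃ G : ℕ → ℝ, G = fun u => F (b ^ (j + 1) * hi + (b ^ j * u + lo)) := ⟨_, rfl⟩
  have h1 : ∀ u ∈ range b, (F (b ^ (j + 1) * hi + (b ^ j * u + lo)) -
      Ed b j F (b ^ (j + 1) * hi + (b ^ j * u + lo))) ^ 2 =
      (G u - (∑ w ∈ range b, G w) / b) ^ 2 := by
    intro u hu
    have hu' := mem_range.1 hu
    have h2 : Ed b j F (b ^ (j + 1) * hi + (b ^ j * u + lo)) = (∑ w ∈ range b, G w) / b := by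
      unfold Ed
      congr 1
      refine sum_congr rfl fun w _ => ?_
      unfold setd
      rw [hmod u hu', hdiv u hu', hG]
      congr 1
      ring
    rw [h2, hG]
  have h2 : ∀ u ∈ range b, (F (b ^ (j + 1) * hi + (b ^ j * u + lo)) -
      F (inc b j (b ^ (j + 1) * hi + (b ^ j * u + lo)))) ^ 2 =
      (G u - G ((u + 1) % b)) ^ 2 := by
    intro u hu
    have hu' := mem_range.1 hu
    have h3 : inc b j (b ^ (j + 1) * hi + (b ^ j * u + lo)) =
        b ^ (j + 1) * hi + (b ^ j * ((u + 1) % b) + lo) := by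
      by_cases hub : u = b - 1
      · have h4 := (inc_carry hb (n := b ^ (j + 1) * hi + (b ^ j * u + lo)) (j := j)
          (by rw [hdig u hu', hub])).2
        rw [h4, hmod u hu', hdiv u hu']
        have h5 : (u + 1) % b = 0 := by
          have : u + 1 = b := by omega
          rw [this, Nat.mod_self]
        rw [h5]
        ring
      · rw [inc_nocarry (by rw [hdig u hu']; exact hub), Nat.mod_eq_of_lt (by omega)]
        ring
    rw [h3, hG]
  rw [sum_congr rfl h1, sum_congr rfl h2]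
  exact mean_le b hb G

/-- indicator functions and a change of value -/
lemma two_mul_ne (V : Finset ℕ) (x y : ℕ) (hx : x ∈ V) (hy : y ∈ V) :
    ∑ a ∈ V, ((if x = a then (1 : ℝ) else 0) - (if y = a then 1 else 0)) ^ 2 =
      2 * if x ≠ y then 1 else 0 := by
  have h1 : ∀ a ∈ V, ((if x = a then (1 : ℝ) else 0) - (if y = a then 1 else 0)) ^ 2 =
      (if x = a then (1 : ℝ) else 0) + (if y = a then 1 else 0) -
        2 * (if x = a then (if y = x then (1 : ℝ) else 0) else 0) := by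
    intro a _
    by_cases h1 : x = a
    · subst h1
      by_cases h2 : y = x <;> simp [h2] <;> norm_num
    · by_cases h2 : y = a
      · simp [h1, h2]
      · simp [h1, h2]
  rw [sum_congr rfl h1, sum_sub_distrib, sum_add_distrib, ← mul_sum, sum_ite_eq, sum_ite_eq,
    sum_ite_eq, if_pos hx, if_pos hy, if_pos hx]
  by_cases h : x = y
  · subst h
    simp
    norm_num
  · rw [if_neg (fun h' => h h'.symm), if_pos h]
    norm_num

theorem add_le_inc (hAd : StAd) (b K : ℕ) (hb : 2 ≤ b) (g : ℕ → ℕ) :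
    ∑ j ∈ range K, (#{n ∈ range (b ^ K) | g n ≠ g ((n + b ^ j) % b ^ K)} : ℝ) ≤
      48 * (b : ℝ) ^ 2 * ∑ j ∈ range K, (#{n ∈ range (b ^ K) | g n ≠ g (inc b j n)} : ℝ) := by
  obtain ⟨V, hV⟩ : ∃ V : Finset ℕ, V = (range (b ^ K)).image g ∪
    (range K ×ˢ range (b ^ K)).image (fun p => g (inc b p.1 p.2)) := ⟨_, rfl⟩
  have hbK : 0 < b ^ K := by positivity
  have hV1 : ∀ n < b ^ K, g n ∈ V := by
    intro n hn
    rw [hV]
    exact mem_union_left _ (mem_image_of_mem _ (mem_range.2 hn))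
  have hV2 : ∀ j < K, ∀ n < b ^ K, g (inc b j n) ∈ V := by
    intro j hj n hn
    rw [hV]
    refine mem_union_right _ (mem_image.2 ⟨(j, n), ?_, rfl⟩)
    exact mem_product.2 ⟨mem_range.2 hj, mem_range.2 hn⟩
  have h1 : 2 * ∑ j ∈ range K, (#{n ∈ range (b ^ K) | g n ≠ g ((n + b ^ j) % b ^ K)} : ℝ) =
      ∑ a ∈ V, ∑ j ∈ range K, ∑ n ∈ range (b ^ K), ((if g n = a then (1 : ℝ) else 0) -
        (if g ((n + b ^ j) % b ^ K) = a then 1 else 0)) ^ 2 := by
    rw [sum_comm, mul_sum]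
    refine sum_congr rfl fun j _ => ?_
    rw [sum_comm, card_filter]
    push_cast
    rw [mul_sum]
    refine sum_congr rfl fun n hn => ?_
    rw [two_mul_ne V _ _ (hV1 n (mem_range.1 hn)) (hV1 _ (Nat.mod_lt _ hbK))]
  have h2 : 2 * ∑ j ∈ range K, (#{n ∈ range (b ^ K) | g n ≠ g (inc b j n)} : ℝ) =
      ∑ a ∈ V, ∑ j ∈ range K, ∑ n ∈ range (b ^ K), ((if g n = a then (1 : ℝ) else 0) -
        (if g (inc b j n) = a then 1 else 0)) ^ 2 := by
    rw [sum_comm, mul_sum]
    refine sum_congr rfl fun j hj => ?_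
    rw [sum_comm, card_filter]
    push_cast
    rw [mul_sum]
    refine sum_congr rfl fun n hn => ?_
    rw [two_mul_ne V _ _ (hV1 n (mem_range.1 hn)) (hV2 j (mem_range.1 hj) n (mem_range.1 hn))]
  have h3 : ∀ a ∈ V, ∑ j ∈ range K, ∑ n ∈ range (b ^ K), ((if g n = a then (1 : ℝ) else 0) -
        (if g ((n + b ^ j) % b ^ K) = a then 1 else 0)) ^ 2 ≤
      48 * (b : ℝ) ^ 2 * ∑ j ∈ range K, ∑ n ∈ range (b ^ K), ((if g n = a then (1 : ℝ) else 0) -
        (if g (inc b j n) = a then 1 else 0)) ^ 2 := by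
    intro a _
    refine (hAd b K hb fun n => if g n = a then (1 : ℝ) else 0).trans ?_
    rw [mul_assoc]
    refine mul_le_mul_of_nonneg_left ?_ (by norm_num)
    rw [mul_sum]
    exact sum_le_sum fun j hj => ed_le_inc b K j hb (mem_range.1 hj) _
  have h4 := sum_le_sum h3
  rw [← mul_sum, ← h1, ← h2] at h4
  linarith

/-- the additive sensitivity is at most a constant times the digit sensitivity -/
theorem sensitivity_le_digit (hAd : StAd) (b K : ℕ) (hb : 2 ≤ b) (J : ℕ → ℕ → ℕ) :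
    sensitivity b K J ≤ 48 * (b : ℝ) ^ 2 * digitSensitivity b K J := by
  unfold sensitivity digitSensitivity
  rw [← mul_div_assoc]
  refine div_le_div_of_nonneg_right ?_ (by positivity)
  rw [mul_sum]
  exact sum_le_sum fun i _ => add_le_inc hAd b K hb (J i)

/-- the clause for the digit sensitivity -/
theorem digit_of2 (hAd : StAd) {b K : ℕ} (hb : 2 ≤ b) {J : ℕ → ℕ → ℕ} {c E s : ℝ} (hs : 1 ≤ s)
    (hc : 0 < c)
    (h : ∀ s : ℝ, 1 ≤ s → sensitivity b K J ≤ s → c * (b : ℝ) ^ K * Real.exp (c * K / s) ≤ E)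
    (hJ : digitSensitivity b K J ≤ s) :
    c / (48 * b ^ 2) * (b : ℝ) ^ K * Real.exp (c / (48 * b ^ 2) * (K / s)) ≤ E := by
  have hb2 : (2 : ℝ) ≤ b := by exact_mod_cast hb
  have hs0 : 0 < s := by linarith
  have h1 : (1 : ℝ) ≤ 48 * (b : ℝ) ^ 2 := by nlinarith
  have h2 := h (48 * (b : ℝ) ^ 2 * s) (by nlinarith) ((sensitivity_le_digit hAd b K hb J).trans
    (mul_le_mul_of_nonneg_left hJ (by positivity)))
  refine le_trans ?_ h2
  have h3 : c / (48 * (b : ℝ) ^ 2) ≤ c := div_le_self hc.le h1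
  have h4 : c / (48 * (b : ℝ) ^ 2) * (K / s) = c * K / (48 * (b : ℝ) ^ 2 * s) := by
    field_simp
  rw [h4]
  exact mul_le_mul_of_nonneg_right (mul_le_mul_of_nonneg_right h3 (by positivity))
    (Real.exp_pos _).le

end Pool.Agent.Helper7.SC
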