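import Pool.Agent.Helper7.SC.Digit
import Pool.Agent.Helper57.U2.Main

set_option autoImplicit false

/-! The sensitivity clause for the change of one digit. -/

namespace Pool.Agent.Helper7.SC

open Finset
open Pool.Agent.Helper57.U2

/-- The average digit sensitivity: the mean over `i < K` and `n < b ^ K` of the number of `j < K`
for which `J i n` changes when the digit of `n` at `j` is increased by one modulo `b`. -/
noncomputable def digitSensitivity (b K : ℕ) (J : ℕ → ℕ → ℕ) : ℝ :=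
  (∑ i ∈ range K, ∑ j ∈ range K,
    (#{n ∈ range (b ^ K) | J i n ≠ J i (inc b j n)} : ℝ)) / (K * (b : ℝ) ^ K)

lemma sensitivity_le (b K : ℕ) (hb : 2 ≤ b) (hK : 1 ≤ K) (J : ℕ → ℕ → ℕ) (R : ℕ) :
    sensitivity b K J ≤ R * digitSensitivity b K J + K / (b : ℝ) ^ R := by
  have hb0 : (0 : ℝ) < b := by
    have : 0 < b := by omega
    exact_mod_cast this
  have hK0 : (0 : ℝ) < K := by exact_mod_cast hK
  unfold sensitivity digitSensitivity
  rw [div_le_iff₀ (by positivity)]
  have h1 : ∑ i ∈ range K, ∑ j ∈ range K,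
      (#{n ∈ range (b ^ K) | J i n ≠ J i ((n + b ^ j) % b ^ K)} : ℝ) ≤
      ∑ i ∈ range K, (R * ∑ j ∈ range K, (cn b K (J i) j : ℝ) +
        K * ((b : ℝ) ^ K / (b : ℝ) ^ R)) :=
    sum_le_sum fun i _ => add_le_digit b K hb (J i) R
  refine h1.trans (le_of_eq ?_)
  rw [Finset.sum_add_distrib, ← Finset.mul_sum, Finset.sum_const, card_range, nsmul_eq_mul]
  have h2 : ∑ i ∈ range K, ∑ j ∈ range K, (cn b K (J i) j : ℝ) = ∑ i ∈ range K, ∑ j ∈ range K,
      (#{n ∈ range (b ^ K) | J i n ≠ J i (inc b j n)} : ℝ) := rfl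
  rw [h2]
  field_simp

theorem digit_of {b K : ℕ} (hb : 2 ≤ b) {J : ℕ → ℕ → ℕ} {c E s : ℝ} (hc : 0 < c) (hs : 1 ≤ s)
    (h : ∀ s : ℝ, 1 ≤ s → sensitivity b K J ≤ s → c * (b : ℝ) ^ K * Real.exp (c * K / s) ≤ E)
    (hJ : digitSensitivity b K J ≤ s) :
    c / 4 * (b : ℝ) ^ K * Real.exp (c / 4 * K / (s * Real.log (K + 2))) ≤ E := by
  have hb0 : (0 : ℝ) < b := by
    have : 0 < b := by omega
    exact_mod_cast this
  have hb2 : (2 : ℝ) ≤ b := by exact_mod_cast hb
  have hs0 : 0 < s := by linarith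
  rcases Nat.eq_zero_or_pos K with hK | hK
  · subst hK
    have h1 := h (max 1 (sensitivity b 0 J)) (le_max_left _ _) (le_max_right _ _)
    simp only [pow_zero, mul_one, Nat.cast_zero, mul_zero, zero_div, Real.exp_zero] at h1 ⊢
    linarith
  · set R := Nat.log 2 K + 1 with hR
    have hK0 : (0 : ℝ) < K := by exact_mod_cast hK
    have h1 := sensitivity_le b K hb hK J R
    have h2 : (K : ℝ) / (b : ℝ) ^ R ≤ 1 := by
      rw [div_le_one (by positivity)]
      have h3 : K < 2 ^ R := Nat.lt_pow_succ_log_self (by norm_num) K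
      have h4 : (K : ℝ) ≤ (2 : ℝ) ^ R := by exact_mod_cast h3.le
      exact h4.trans (pow_le_pow_left₀ (by norm_num) hb2 R)
    have h5 : sensitivity b K J ≤ (R + 1) * s := by
      have h6 : (R : ℝ) * digitSensitivity b K J ≤ R * s :=
        mul_le_mul_of_nonneg_left hJ (Nat.cast_nonneg _)
      linarith
    have hR0 : (0 : ℝ) ≤ R := Nat.cast_nonneg _
    have h7 : 1 ≤ ((R : ℝ) + 1) * s := by nlinarith
    have h8 := h _ h7 h5
    have hlog2 : (1 : ℝ) / 2 < Real.log 2 := by
      have := Real.log_two_gt_d9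
      linarith
    have hl : 1 ≤ Real.log ((K : ℝ) + 2) := by
      rw [Real.le_log_iff_exp_le (by positivity)]
      have := Real.exp_one_lt_d9
      have h9 : (1 : ℝ) ≤ K := by exact_mod_cast hK
      linarith
    have h10 : ((R : ℝ) + 1) ≤ 4 * Real.log ((K : ℝ) + 2) := by
      have h11 : (2 : ℝ) ^ (Nat.log 2 K) ≤ K := by
        exact_mod_cast Nat.pow_log_le_self 2 hK.ne'
      have h12 : (Nat.log 2 K : ℝ) * Real.log 2 ≤ Real.log ((K : ℝ) + 2) := by
        rw [← Real.log_pow]
        exact Real.log_le_log (by positivity) (by linarith)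
      have h13 : (Nat.log 2 K : ℝ) * (1 / 2) ≤ Nat.log 2 K * Real.log 2 :=
        mul_le_mul_of_nonneg_left hlog2.le (Nat.cast_nonneg _)
      rw [hR]
      push_cast
      linarith
    refine le_trans ?_ h8
    have h14 : c / 4 * K / (s * Real.log (K + 2)) ≤ c * K / (((R : ℝ) + 1) * s) := by
      rw [div_le_div_iff₀ (by positivity) (by positivity)]
      have h15 : ((R : ℝ) + 1) * s * (c / 4 * K) ≤ (4 * Real.log ((K : ℝ) + 2)) * s * (c / 4 * K) := by
        gcongr
      nlinarith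
    have h16 : Real.exp (c / 4 * K / (s * Real.log (K + 2))) ≤
        Real.exp (c * K / (((R : ℝ) + 1) * s)) := Real.exp_le_exp.2 h14
    have h17 : c / 4 * (b : ℝ) ^ K ≤ c * (b : ℝ) ^ K := by
      have : 0 < (b : ℝ) ^ K := by positivity
      nlinarith
    exact mul_le_mul h17 h16 (Real.exp_pos _).le (by positivity)

end Pool.Agent.Helper7.SC
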