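import Pool.Agent.Helper7.SC.Frames

set_option autoImplicit false

/-! The Fejer kernel. -/

namespace Pool.Agent.Helper7.SC

open Finset

lemma e_add (s t : ℝ) : e (s + t) = e s * e t := by
  unfold e
  rw [← Complex.exp_add]
  congr 1
  push_cast
  ring

lemma norm_e (t : ℝ) : ‖e t‖ = 1 := by
  unfold e
  have : (2 * Real.pi * t * Complex.I : ℂ) = ((2 * Real.pi * t : ℝ) : ℂ) * Complex.I := by
    push_cast
    ring
  rw [this, Complex.norm_exp_ofReal_mul_I]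

lemma e_int (k : ℤ) : e (k : ℝ) = 1 := by
  unfold e
  have : (2 * Real.pi * ((k : ℝ) : ℂ) * Complex.I : ℂ) = k * (2 * Real.pi * Complex.I) := by
    push_cast
    ring
  rw [this]
  exact Complex.exp_int_mul_two_pi_mul_I k

lemma e_zero : e 0 = 1 := by
  have := e_int 0
  simpa using this

lemma e_eq_one {t : ℝ} (h : e t = 1) : ∃ n : ℤ, t = n := by
  unfold e at h
  obtain ⟨n, hn⟩ := Complex.exp_eq_one_iff.1 h
  refine ⟨n, ?_⟩
  have h2 : (2 * Real.pi * Complex.I : ℂ) ≠ 0 := by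
    simp [Real.pi_ne_zero]
  have h3 : ((t : ℂ) - n) * (2 * Real.pi * Complex.I) = 0 := by
    linear_combination hn
  rcases mul_eq_zero.1 h3 with h4 | h4
  · have h5 : (t : ℂ) = n := sub_eq_zero.1 h4
    exact_mod_cast h5
  · exact absurd h4 h2

lemma e_nat_mul (k : ℕ) (t : ℝ) : e (k * t) = e t ^ k := by
  unfold e
  rw [← Complex.exp_nat_mul]
  congr 1
  push_cast
  ring

lemma conj_e (t : ℝ) : (starRingEnd ℂ) (e t) = e (-t) := by
  unfold e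
  rw [← Complex.exp_conj]
  congr 1
  have h1 : (2 * Real.pi * t * Complex.I : ℂ) = ((2 * Real.pi * t : ℝ) : ℂ) * Complex.I := by
    push_cast
    ring
  rw [h1, map_mul, Complex.conj_ofReal, Complex.conj_I]
  push_cast
  ring

lemma e_sub_one_le (t : ℝ) : ‖e t - 1‖ ≤ 2 * Real.pi * |t| := by
  have h := Real.norm_exp_I_mul_ofReal_sub_one_le (x := 2 * Real.pi * t)
  have h2 : e t = Complex.exp (Complex.I * ((2 * Real.pi * t : ℝ) : ℂ)) := by
    unfold e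
    congr 1
    push_cast
    ring
  rw [h2]
  refine h.trans (le_of_eq ?_)
  rw [Real.norm_eq_abs, abs_mul, abs_of_pos (by positivity)]

/-- the Dirichlet kernel -/
noncomputable def Dk (Q : ℕ) (y : ℝ) : ℂ := (1 / Q : ℂ) * ∑ τ ∈ range Q, e (τ * y)

lemma w_eq (Q : ℕ) (y : ℝ) : w Q y = ‖Dk Q y‖ ^ 2 := rfl

lemma w_nonneg (Q : ℕ) (y : ℝ) : 0 ≤ w Q y := by
  unfold w
  positivity

lemma norm_Dk_le (Q : ℕ) (y : ℝ) : ‖Dk Q y‖ ≤ 1 := by
  unfold Dk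
  rw [norm_mul]
  have h1 : ‖∑ τ ∈ range Q, e (τ * y)‖ ≤ Q := by
    refine (norm_sum_le _ _).trans ?_
    simp [norm_e]
  have h2 : ‖(1 / Q : ℂ)‖ = 1 / Q := by simp
  rw [h2]
  rcases Nat.eq_zero_or_pos Q with h | h
  · subst h
    simp
  · have hQ : (0 : ℝ) < Q := by exact_mod_cast h
    rw [one_div, inv_mul_le_iff₀ hQ]
    linarith

lemma w_le_one (Q : ℕ) (y : ℝ) : w Q y ≤ 1 := by
  rw [w_eq]
  exact pow_le_one₀ (norm_nonneg _) (norm_Dk_le Q y)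

lemma w_add_int (Q : ℕ) (y : ℝ) (k : ℤ) : w Q (y + k) = w Q y := by
  unfold w
  congr 3
  refine sum_congr rfl fun τ _ => ?_
  rw [mul_add, e_add]
  have : ((τ : ℝ) * (k : ℝ)) = ((τ * k : ℤ) : ℝ) := by push_cast; ring
  rw [this, e_int, mul_one]

lemma sum_root {Q : ℕ} (hQ : 0 < Q) (d : ℤ) (hd : d ≠ 0) (hd2 : |d| < Q) :
    ∑ k ∈ range Q, e (d * (k / Q)) = 0 := by
  have hQ0 : (Q : ℝ) ≠ 0 := by exact_mod_cast hQ.ne'
  have h1 : ∀ k ∈ range Q, e (d * (k / Q)) = e (d / Q) ^ k := by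
    intro k _
    rw [← e_nat_mul]
    congr 1
    ring
  rw [sum_congr rfl h1]
  have h2 : e (d / Q) ^ Q = 1 := by
    rw [← e_nat_mul, mul_div_cancel₀ _ hQ0, e_int]
  have h3 : e (d / Q) ≠ 1 := by
    intro h
    obtain ⟨n, hn⟩ := e_eq_one h
    rw [div_eq_iff hQ0] at hn
    have h4 : d = n * Q := by exact_mod_cast hn
    have h5 : n ≠ 0 := by
      rintro rfl
      exact hd (by rw [h4, zero_mul])
    have h6 : (Q : ℤ) ≤ |d| := by
      rw [h4, abs_mul, Nat.abs_cast]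
      have : 1 ≤ |n| := Int.one_le_abs h5
      nlinarith [this, (Int.natCast_nonneg Q)]
    omega
  have h7 := mul_geom_sum (e (d / Q)) Q
  rw [h2, sub_self] at h7
  rcases mul_eq_zero.1 h7 with h8 | h8
  · exact absurd (sub_eq_zero.1 h8) h3
  · exact h8

lemma w_expand (Q : ℕ) (y : ℝ) : ((w Q y : ℝ) : ℂ) =
    (1 / (Q : ℂ) ^ 2) * ∑ τ ∈ range Q, ∑ τ' ∈ range Q, e (((τ : ℤ) - (τ' : ℤ) : ℤ) * y) := by
  rw [w_eq, Complex.ofReal_pow, ← Complex.mul_conj' (Dk Q y)]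
  unfold Dk
  rw [map_mul, map_sum]
  have h1 : (starRingEnd ℂ) (1 / (Q : ℂ)) = 1 / Q := by simp
  rw [h1]
  have h2 : (∑ τ ∈ range Q, e (τ * y)) * (∑ τ' ∈ range Q, (starRingEnd ℂ) (e (τ' * y))) =
      ∑ τ ∈ range Q, ∑ τ' ∈ range Q, e (((τ : ℤ) - (τ' : ℤ) : ℤ) * y) := by
    rw [Finset.sum_mul_sum]
    refine sum_congr rfl fun τ _ => sum_congr rfl fun τ' _ => ?_
    rw [conj_e, ← e_add]
    congr 1
    push_cast
    ring
  rw [← h2]
  ring

lemma sum_w {Q : ℕ} (hQ : 0 < Q) (y : ℝ) : ∑ k ∈ range Q, w Q (y + k / Q) = 1 := by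
  have hQ0 : (Q : ℂ) ≠ 0 := by exact_mod_cast hQ.ne'
  have h : ((∑ k ∈ range Q, w Q (y + k / Q) : ℝ) : ℂ) = 1 := by
    push_cast
    simp_rw [w_expand]
    rw [← Finset.mul_sum]
    have h1 : ∑ k ∈ range Q, ∑ τ ∈ range Q, ∑ τ' ∈ range Q,
        e (((τ : ℤ) - (τ' : ℤ) : ℤ) * (y + k / Q)) =
        ∑ τ ∈ range Q, ∑ τ' ∈ range Q, if τ' = τ then (Q : ℂ) else 0 := by
      rw [Finset.sum_comm]
      refine sum_congr rfl fun τ hτ => ?_
      rw [Finset.sum_comm]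
      refine sum_congr rfl fun τ' hτ' => ?_
      have h2 : ∀ k ∈ range Q, e (((τ : ℤ) - (τ' : ℤ) : ℤ) * (y + k / Q)) =
          e (((τ : ℤ) - (τ' : ℤ) : ℤ) * y) * e (((τ : ℤ) - (τ' : ℤ) : ℤ) * (k / Q)) := by
        intro k _
        rw [mul_add, e_add]
      rw [sum_congr rfl h2, ← Finset.mul_sum]
      rw [mem_range] at hτ hτ'
      split_ifs with h3
      · subst h3
        simp [e_zero]
      · rw [sum_root hQ _ (by omega) (by rw [abs_lt]; constructor <;> omega), mul_zero]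
    rw [h1]
    have h4 : ∑ τ ∈ range Q, ∑ τ' ∈ range Q, (if τ' = τ then (Q : ℂ) else 0) =
        ∑ τ ∈ range Q, (Q : ℂ) := by
      refine sum_congr rfl fun τ hτ => ?_
      rw [Finset.sum_ite_eq', if_pos hτ]
    rw [h4, Finset.sum_const, card_range, nsmul_eq_mul]
    field_simp
  exact_mod_cast h

lemma sum_Icc_w {Q H : ℕ} (hQ : 2 * H < Q) (y : ℝ) :
    ∑ k ∈ Icc (-(H : ℤ)) H, w Q (y + k / Q) ≤ 1 := by
  have hQ0 : 0 < Q := by omega
  have hQ1 : (Q : ℝ) ≠ 0 := by exact_mod_cast hQ0.ne'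
  rw [← sum_w hQ0 y]
  have h1 : ∀ k ∈ Icc (-(H : ℤ)) H, w Q (y + k / Q) =
      w Q (y + (((k % Q).toNat : ℕ) : ℝ) / Q) := by
    intro k _
    have h2 : (((k % Q).toNat : ℕ) : ℤ) = k % Q :=
      Int.toNat_of_nonneg (Int.emod_nonneg _ (by omega))
    have h3 : (k : ℝ) = (((k % Q).toNat : ℕ) : ℝ) + Q * ((k / Q : ℤ) : ℝ) := by
      have h4 := Int.emod_add_mul_ediv k Q
      rw [← h2] at h4
      exact_mod_cast h4.symm
    have h5 : y + (k : ℝ) / Q = y + (((k % Q).toNat : ℕ) : ℝ) / Q + ((k / Q : ℤ) : ℝ) := by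
      rw [h3]
      field_simp
      ring
    rw [h5, w_add_int]
  rw [sum_congr rfl h1]
  have hinj : Set.InjOn (fun k : ℤ => (k % Q).toNat) (Icc (-(H : ℤ)) H : Finset ℤ) := by
    intro k hk l hl hkl
    rw [mem_coe, mem_Icc] at hk hl
    have h6 : k % Q = l % Q := by
      have h7 : 0 ≤ k % (Q : ℤ) := Int.emod_nonneg _ (by omega)
      have h8 : 0 ≤ l % (Q : ℤ) := Int.emod_nonneg _ (by omega)
      simp only at hkl
      omega
    have h9 : (Q : ℤ) ∣ k - l := Int.ModEq.dvd (Int.ModEq.symm h6) 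
    obtain ⟨c, hc⟩ := h9
    have h10 : c = 0 := by
      by_contra hne
      have : 1 ≤ |c| := Int.one_le_abs hne
      have h11 : |k - l| = Q * |c| := by rw [hc, abs_mul, Nat.abs_cast]
      have h12 : |k - l| ≤ 2 * H := by
        rw [abs_le]
        constructor <;> omega
      nlinarith
    rw [h10, mul_zero] at hc
    omega
  rw [← Finset.sum_image (f := fun j : ℕ => w Q (y + (j : ℝ) / Q)) hinj]
  refine sum_le_sum_of_subset_of_nonneg ?_ fun _ _ _ => w_nonneg _ _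
  intro j hj
  rw [mem_image] at hj
  obtain ⟨k, _, rfl⟩ := hj
  rw [mem_range]
  have h13 : k % (Q : ℤ) < Q := Int.emod_lt_of_pos _ (by omega)
  have h14 : 0 ≤ k % (Q : ℤ) := Int.emod_nonneg _ (by omega)
  omega

lemma zero_mem_Icc (H : ℕ) : (0 : ℤ) ∈ Icc (-(H : ℤ)) H := by
  rw [mem_Icc]
  constructor <;> omega

lemma sum_Kz_w {Q H : ℕ} (hQ : 2 * H < Q) (y : ℝ) :
    ∑ k ∈ Kz H, w Q (y + k / Q) ≤ 1 - w Q y := by
  have h1 := sum_Icc_w hQ y
  rw [← Finset.add_sum_erase _ _ (zero_mem_Icc H)] at h1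
  simp only [Int.cast_zero, zero_div, add_zero] at h1
  unfold Kz
  linarith

lemma card_Kz (H : ℕ) : #(Kz H) = 2 * H := by
  unfold Kz
  rw [card_erase_of_mem (zero_mem_Icc H), Int.card_Icc]
  omega

lemma Dk_sub_le (Q : ℕ) (y s : ℝ) : ‖Dk Q (y + s) - Dk Q y‖ ≤ Real.pi * Q * |s| := by
  rcases Nat.eq_zero_or_pos Q with h | h
  · subst h
    simp [Dk]
  · have hQ : (0 : ℝ) < Q := by exact_mod_cast h
    unfold Dk
    rw [← mul_sub, ← Finset.sum_sub_distrib, norm_mul]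
    have h1 : ‖∑ τ ∈ range Q, (e (τ * (y + s)) - e (τ * y))‖ ≤
        ∑ τ ∈ range Q, 2 * Real.pi * (τ * |s|) := by
      refine (norm_sum_le _ _).trans (sum_le_sum fun τ _ => ?_)
      rw [mul_add, e_add, ← mul_sub_one, norm_mul, norm_e, one_mul]
      refine (e_sub_one_le _).trans (le_of_eq ?_)
      rw [abs_mul, Nat.abs_cast]
    have h2 : ∑ τ ∈ range Q, 2 * Real.pi * ((τ : ℝ) * |s|) ≤ Real.pi * Q ^ 2 * |s| := by
      rw [← Finset.mul_sum, ← Finset.sum_mul]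
      have h3 : (∑ τ ∈ range Q, (τ : ℝ)) * 2 = Q * (Q - 1 : ℕ) := by
        rw [← Nat.cast_sum]
        exact_mod_cast Finset.sum_range_id_mul_two Q
      have h4 : ((Q - 1 : ℕ) : ℝ) ≤ Q := by exact_mod_cast Nat.sub_le Q 1
      have h5 : (∑ τ ∈ range Q, (τ : ℝ)) * 2 ≤ Q ^ 2 := by
        rw [h3, sq]
        exact mul_le_mul_of_nonneg_left h4 hQ.le
      have h6 : 2 * Real.pi * ((∑ τ ∈ range Q, (τ : ℝ)) * |s|) =
          Real.pi * ((∑ τ ∈ range Q, (τ : ℝ)) * 2) * |s| := by ring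
      rw [h6]
      gcongr
    have h7 : ‖(1 / Q : ℂ)‖ = 1 / Q := by simp
    rw [h7]
    calc (1 / Q : ℝ) * ‖∑ τ ∈ range Q, (e (τ * (y + s)) - e (τ * y))‖
        ≤ (1 / Q : ℝ) * (Real.pi * Q ^ 2 * |s|) := by
          gcongr
          exact h1.trans h2
      _ = Real.pi * Q * |s| := by
          field_simp

lemma w_sub_le (Q : ℕ) (y s : ℝ) : |w Q (y + s) - w Q y| ≤ 2 * Real.pi * Q * |s| := by
  rw [w_eq, w_eq]
  have h1 : ‖Dk Q (y + s)‖ ^ 2 - ‖Dk Q y‖ ^ 2 =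
      (‖Dk Q (y + s)‖ - ‖Dk Q y‖) * (‖Dk Q (y + s)‖ + ‖Dk Q y‖) := by ring
  rw [h1, abs_mul]
  have h2 : |‖Dk Q (y + s)‖ - ‖Dk Q y‖| ≤ Real.pi * Q * |s| :=
    (abs_norm_sub_norm_le _ _).trans (Dk_sub_le Q y s)
  have h3 : |‖Dk Q (y + s)‖ + ‖Dk Q y‖| ≤ 2 := by
    rw [abs_of_nonneg (by positivity)]
    linarith [norm_Dk_le Q (y + s), norm_Dk_le Q y]
  calc |‖Dk Q (y + s)‖ - ‖Dk Q y‖| * |‖Dk Q (y + s)‖ + ‖Dk Q y‖|
      ≤ (Real.pi * Q * |s|) * 2 := mul_le_mul h2 h3 (abs_nonneg _) (by positivity)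
    _ = 2 * Real.pi * Q * |s| := by ring

end Pool.Agent.Helper7.SC
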