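import Pool.Agent.Helper7.SC.Defs

set_option autoImplicit false

/-!
Frames: the literal statements of the pieces, as propositions.
-/

namespace Pool.Agent.Helper7.SC

open Finset

/-- the phase of the frequency `j` modulo `b ^ K` seen by the block `B` -/
noncomputable def nuhat (b q r m K : ℕ) (p : ℝ) (j : ℤ) : ℝ :=
  ∏ B : Fin m, v (b ^ q) p ((b : ℝ) ^ (r + B * q) * (j / (b : ℝ) ^ K))

/-- `F(j) = |sum_(a in S) e(a j / x)|²` -/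
noncomputable def F (x : ℕ) (S : Finset ℕ) (j : ℤ) : ℝ := ‖∑ a ∈ S, e (a * (j / x))‖ ^ 2

/-- the vectors `h` -/
noncomputable def Hs (m H : ℕ) : Finset (Fin m → ℤ) := Fintype.piFinset fun _ => Icc (-(H : ℤ)) H

noncomputable def rho {m : ℕ} (H : ℕ) (Δ : ℝ) (h : Fin m → ℤ) : ℝ :=
  ∏ B, if h B = 0 then 1 else Δ / (2 * H)

/-- the integer `x psi_h`, `psi_h = sum_B h_B / b ^ (r + (B + 1) q)` -/
def sh (b q r K : ℕ) {m : ℕ} (h : Fin m → ℤ) : ℤ :=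
  ∑ B : Fin m, h B * (b : ℤ) ^ (K - (r + (B + 1) * q))

/-- (A1, helper7) the main inequality, frequency form -/
def StA1 : Prop := ∀ (b q r m K H : ℕ) (p Δ η : ℝ), 2 ≤ b → r + m * q ≤ K → 1 ≤ H →
  2 * H < b ^ q → 0 < Δ → 0 < p → p ≤ 1 / 2 → η = 8 * Δ / p → η ≤ 1 →
  Real.exp (8 * Real.pi * H / ((b : ℝ) ^ q * η)) ≤ 2 → ∀ S : Finset ℕ,
  ∑ j ∈ range (b ^ K), nuhat b q r m K p j *
      ∑ h ∈ Hs m H, rho H Δ h * (F (b ^ K) S j * F (b ^ K) S (j + sh b q r K h)) ≤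
    (1 + 4 * Δ * η) ^ m * ∑ j ∈ range (b ^ K), F (b ^ K) S j ^ 2

/-- (A2) the Fourier identity for `X` -/
def StA2 : Prop := ∀ (b q r m K H : ℕ) (p Δ : ℝ), 2 ≤ b → r + m * q ≤ K → 1 ≤ H →
  ∀ S : Finset ℕ, (b : ℝ) ^ K * X b q r m K H p Δ S =
    ∑ j ∈ range (b ^ K), nuhat b q r m K p j *
      ∑ h ∈ Hs m H, rho H Δ h * (F (b ^ K) S j * F (b ^ K) S (j + sh b q r K h))

/-- (A3) Parseval: the number of additive quadruples modulo `x` -/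
def StA3 : Prop := ∀ (x : ℕ), 0 < x → ∀ S : Finset ℕ,
  x * Ecyc x S = ∑ j ∈ range x, F x S j ^ 2

/-- (A4) energy modulo `x` against representations in the integers -/
def StA4 : Prop := ∀ (x : ℕ) (S : Finset ℕ), S ⊆ range x →
  Ecyc x S ≤ 2 * ∑ n ∈ range (2 * x),
    (#{a ∈ S ×ˢ S | a.1 + a.2 = n} : ℝ) ^ 2

/-- (L) the law is a probability -/
def StL : Prop := ∀ (b q r m K : ℕ) (p : ℝ), 2 ≤ b → 0 ≤ p → p ≤ 1 →
  (∀ t, 0 ≤ law b q r m K p t) ∧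
    ∀ [Fintype (ZMod (b ^ K))], ∑ t, law b q r m K p t = 1

/-- (T) Cauchy-Schwarz for the positive definite operator `T` = convolution with the law:
`|<g, T c>|² ≤ x <g, T g>` for `|c| ≤ 1` -/
def StT : Prop := ∀ (b q r m K : ℕ) (p : ℝ), 2 ≤ b → 0 ≤ p → p ≤ 1 →
  ∀ [Fintype (ZMod (b ^ K))] (g c : ZMod (b ^ K) → ℂ), (∀ n, ‖c n‖ ≤ 1) →
  ‖∑ n, ∑ t, law b q r m K p t * (g n * c (n + t))‖ ^ 2 ≤
    (b : ℝ) ^ K * (∑ n, ∑ t, law b q r m K p t * (g n * (starRingEnd ℂ) (g (n + t)))).re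

/-- (B) stability: `J` on residues modulo `x`; `n` and `n + z` have the same `J` but for
`2 (b - 1) p` times the average sensitivity of `J` -/
def StB : Prop := ∀ (b q r m K : ℕ) (p : ℝ), 2 ≤ b → r + m * q ≤ K → 0 ≤ p → p ≤ 1 →
  ∀ [Fintype (ZMod (b ^ K))] (J : ZMod (b ^ K) → ℕ),
  ∑ n, ∑ t, law b q r m K p t * (if J n = J (n + t) then 0 else 1) ≤
    2 * (b - 1) * p * ∑ j ∈ range K, (#{n | J n ≠ J (n + (b : ZMod (b ^ K)) ^ j)} : ℝ)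

/-- (D) Jensen: for a choice `f` on `D` with summands in `S` -/
def StD : Prop := ∀ (b q r m K H : ℕ) (p Δ ε₀ : ℝ), 2 ≤ b → 1 ≤ H → 0 < m → r + m * q ≤ K →
  0 < Δ → Δ ≤ 1 / 2 → 0 ≤ p → p ≤ 1 → 0 < ε₀ →
  ∀ (S D : Finset ℕ) (f : ℕ → ℕ), S ⊆ range (b ^ K) → D ⊆ range (b ^ K) →
  (∀ n ∈ D, f n ≤ n ∧ f n ∈ S ∧ n - f n ∈ S) →
  ε₀ * (m * (b : ℝ) ^ K) ≤ ∑ n ∈ D, ∑ n' ∈ D, law b q r m K p ((n' : ZMod (b ^ K)) - n) *
    ∑ B : Fin m, ka H (((f n : ℝ) - f n') / (b : ℝ) ^ (r + (B + 1) * q)) →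
  ε₀ * (b : ℝ) ^ K * Real.exp ((Δ * ε₀ - Δ ^ 2) * m) ≤ X b q r m K H p Δ S

end Pool.Agent.Helper7.SC
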