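import Mathlib

/-!
# Values of discounted stochastic games
-/

namespace Pool.Agent.Helper7.SC

/-- the discount factor -/
noncomputable def bet (k : ℕ) : ℝ := 1 - 1 / 2 ^ k

lemma bet_nonneg (k : ℕ) : 0 ≤ bet k := by
  have h : (1 : ℝ) ≤ 2 ^ k := one_le_pow₀ (by norm_num)
  have h1 : (1 : ℝ) / 2 ^ k ≤ 1 := by
    rw [div_le_one (by positivity)]
    exact h
  unfold bet
  linarith

lemma bet_lt_one (k : ℕ) : bet k < 1 := by
  have h : (0 : ℝ) < 1 / 2 ^ k := by positivity
  unfold bet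
  linarith

/-- the right sides of the optimality equations: `0` is a position of the player who maximizes,
`1` of the player who minimizes, `2` a random move, `3` and all others are terminal -/
noncomputable def shp (k t : ℕ) (a b : ℝ) : ℝ :=
  if t = 0 then bet k * max a b
  else if t = 1 then bet k * min a b
  else if t = 2 then bet k * ((a + b) / 2)
  else if t = 3 then 1 else -1

lemma shp_lip {k t : ℕ} {a b a' b' r : ℝ} (h : |a - a'| ≤ r) (h' : |b - b'| ≤ r) :
    |shp k t a b - shp k t a' b'| ≤ bet k * r := by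
  have hb := bet_nonneg k
  have hr : 0 ≤ r := (abs_nonneg _).trans h
  unfold shp
  split_ifs
  · rw [← mul_sub, abs_mul, abs_of_nonneg hb]
    exact mul_le_mul_of_nonneg_left ((abs_max_sub_max_le_max _ _ _ _).trans (max_le h h')) hb
  · rw [← mul_sub, abs_mul, abs_of_nonneg hb]
    exact mul_le_mul_of_nonneg_left ((abs_min_sub_min_le_max _ _ _ _).trans (max_le h h')) hb
  · rw [← mul_sub, abs_mul, abs_of_nonneg hb]
    refine mul_le_mul_of_nonneg_left ?_ hb
    rw [abs_le] at *
    constructor <;> linarith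
  · simp only [sub_self, abs_zero]
    positivity
  · simp only [sub_self, abs_zero]
    positivity

/-- the optimality equations for the positions `0, …, n` -/
def Val (n k : ℕ) (ty pa pb : ℕ → ℕ) (v : ℕ → ℝ) : Prop :=
  ∀ i ≤ n, v i = shp k (ty i) (v (pa i)) (v (pb i))

variable {n k : ℕ} {ty pa pb : ℕ → ℕ}

lemma val_unique (hpa : ∀ i ≤ n, pa i ≤ n) (hpb : ∀ i ≤ n, pb i ≤ n) {v v' : ℕ → ℝ}
    (hv : Val n k ty pa pb v) (hv' : Val n k ty pa pb v') : ∀ i ≤ n, v i = v' i := by
  obtain ⟨i, hi, hmax⟩ := Finset.exists_max_image (Finset.range (n + 1)) (fun i => |v i - v' i|)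
    ⟨0, by simp⟩
  simp only [Finset.mem_range, Nat.lt_succ_iff] at hi hmax
  have h1 : |v i - v' i| ≤ bet k * |v i - v' i| := by
    conv_lhs => rw [hv i hi, hv' i hi]
    exact shp_lip (hmax _ (hpa i hi)) (hmax _ (hpb i hi))
  have h2 := bet_lt_one k
  have h3 : |v i - v' i| ≤ 0 := by
    by_contra h4
    push Not at h4
    nlinarith
  intro j hj
  have h4 := (hmax j hj).trans h3
  have h5 := abs_nonneg (v j - v' j)
  have h6 : v j - v' j = 0 := abs_eq_zero.1 (le_antisymm h4 h5)
  linarith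

lemma exists_val (n k : ℕ) (ty : ℕ → ℕ) (hpa : ∀ i ≤ n, pa i ≤ n) (hpb : ∀ i ≤ n, pb i ≤ n) :
    ∃ v, Val n k ty pa pb v := by
  let ext : (Fin (n + 1) → ℝ) → ℕ → ℝ := fun u i => if h : i < n + 1 then u ⟨i, h⟩ else 0
  let F : (Fin (n + 1) → ℝ) → (Fin (n + 1) → ℝ) := fun u i =>
    shp k (ty i) (ext u (pa i)) (ext u (pb i))
  have hext : ∀ u u' : Fin (n + 1) → ℝ, ∀ j, |ext u j - ext u' j| ≤ dist u u' := by
    intro u u' j
    simp only [ext]
    split_ifs with h
    · rw [← Real.dist_eq]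
      exact dist_le_pi_dist u u' _
    · simp
  have hF : ContractingWith ⟨bet k, bet_nonneg k⟩ F := by
    refine ⟨by exact_mod_cast bet_lt_one k, LipschitzWith.of_dist_le_mul fun u u' => ?_⟩
    rw [dist_pi_le_iff (by have := bet_nonneg k; positivity)]
    intro i
    rw [Real.dist_eq]
    exact shp_lip (hext u u' _) (hext u u' _)
  have hfix := hF.fixedPoint_isFixedPt
  refine ⟨ext (ContractingWith.fixedPoint F hF), fun i hi => ?_⟩
  have h1 := congrFun hfix ⟨i, Nat.lt_succ_of_le hi⟩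
  have h2 : ext (ContractingWith.fixedPoint F hF) i =
      ContractingWith.fixedPoint F hF ⟨i, Nat.lt_succ_of_le hi⟩ := by
    simp only [ext]
    rw [dif_pos]
  rw [h2, ← h1]

/-! ### A lower bound for nonzero values -/

/-- the integer matrix of the equations with the chosen successors -/
def gmat (n k : ℕ) (ty p q : ℕ → ℕ) : Matrix (Fin (n + 1)) (Fin (n + 1)) ℤ := fun i j =>
  if ty i ≤ 2 then (if i = j then 2 ^ (k + 1) else 0) -
    (2 ^ k - 1) * ((if p i = j then 1 else 0) + (if q i = j then 1 else 0))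
  else if i = j then 1 else 0

lemma gmat_mul {p q : ℕ → ℕ} (hp : ∀ i ≤ n, p i ≤ n) (hq : ∀ i ≤ n, q i ≤ n) (u : ℕ → ℝ)
    (i : Fin (n + 1)) : ∑ j, (gmat n k ty p q i j : ℝ) * u j =
      if ty i ≤ 2 then 2 ^ (k + 1) * u i - (2 ^ k - 1) * (u (p i) + u (q i)) else u i := by
  have hi := Nat.lt_succ_iff.1 i.2
  have e : ∀ m ≤ n, ∑ j : Fin (n + 1), (if m = (j : ℕ) then (1 : ℝ) else 0) * u j = u m := by
    intro m hm
    rw [Finset.sum_eq_single ⟨m, Nat.lt_succ_of_le hm⟩]
    · simp
    · intro j _ hj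
      rw [if_neg, zero_mul]
      intro h
      exact hj (Fin.ext h.symm)
    · intro h; exact absurd (Finset.mem_univ _) h
  have e' : ∑ j : Fin (n + 1), (if i = j then (1 : ℝ) else 0) * u j = u i := by
    simp
  unfold gmat
  split_ifs with h
  · have h1 : ∀ j : Fin (n + 1), (((if i = j then 2 ^ (k + 1) else 0) -
        (2 ^ k - 1) * ((if p i = j then 1 else 0) + (if q i = j then 1 else 0)) : ℤ) : ℝ) * u j =
        2 ^ (k + 1) * ((if i = j then (1 : ℝ) else 0) * u j) - (2 ^ k - 1) *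
          ((if p i = j then (1 : ℝ) else 0) * u j + (if q i = j then (1 : ℝ) else 0) * u j) := by
      intro j
      push_cast
      split_ifs <;> ring
    rw [Finset.sum_congr rfl fun j _ => h1 j, Finset.sum_sub_distrib, ← Finset.mul_sum,
      ← Finset.mul_sum, Finset.sum_add_distrib, e', e _ (hp _ hi), e _ (hq _ hi)]
  · rw [← e']
    refine Finset.sum_congr rfl fun j _ => ?_
    push_cast
    rfl

lemma gmat_det {p q : ℕ → ℕ} (hp : ∀ i ≤ n, p i ≤ n) (hq : ∀ i ≤ n, q i ≤ n) :
    (gmat n k ty p q).det ≠ 0 := by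
  intro h0
  have h1 : ((gmat n k ty p q).map (Int.castRingHom ℝ)).det = 0 := by
    have := (RingHom.map_det (Int.castRingHom ℝ) (gmat n k ty p q)).symm
    rw [h0] at this
    simpa using this
  obtain ⟨u, hu, hz⟩ := Matrix.exists_mulVec_eq_zero_iff.2 h1
  let w : ℕ → ℝ := fun i => if h : i < n + 1 then u ⟨i, h⟩ else 0
  have hw : ∀ i : Fin (n + 1), w i = u i := by
    intro i
    simp only [w]
    rw [dif_pos i.2]
  obtain ⟨i, hi, hmax⟩ := Finset.exists_max_image (Finset.range (n + 1)) (fun i => |w i|)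
    ⟨0, by simp⟩
  simp only [Finset.mem_range] at hi hmax
  have hi' : i ≤ n := Nat.lt_succ_iff.1 hi
  have h2 := congrFun hz ⟨i, hi⟩
  have h3 := gmat_mul (k := k) (ty := ty) hp hq w ⟨i, hi⟩
  have h4 : ∑ j : Fin (n + 1), (gmat n k ty p q ⟨i, hi⟩ j : ℝ) * w j = 0 := by
    rw [← Pi.zero_apply (M := fun _ : Fin (n + 1) => ℝ) ⟨i, hi⟩, ← h2]
    unfold Matrix.mulVec dotProduct
    refine Finset.sum_congr rfl fun j _ => ?_
    rw [hw]
    rfl
  rw [h3] at h4
  simp only at h4
  have hwi : |w i| ≤ 0 := by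
    split_ifs at h4 with ht
    · have h5 : (2 : ℝ) ^ (k + 1) * w i = (2 ^ k - 1) * (w (p i) + w (q i)) := by linarith
      have h6 : (1 : ℝ) ≤ 2 ^ k := one_le_pow₀ (by norm_num)
      have h7 : |w (p i) + w (q i)| ≤ 2 * |w i| := by
        refine (abs_add_le _ _).trans ?_
        have a1 := hmax _ (Nat.lt_succ_of_le (hp i hi'))
        have a2 := hmax _ (Nat.lt_succ_of_le (hq i hi'))
        linarith
      have h8 := congrArg abs h5
      rw [abs_mul, abs_mul, abs_of_nonneg (by positivity : (0 : ℝ) ≤ 2 ^ (k + 1)),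
        abs_of_nonneg (by linarith : (0 : ℝ) ≤ 2 ^ k - 1)] at h8
      have h9 : (2 ^ k - 1) * |w (p i) + w (q i)| ≤ (2 ^ k - 1) * (2 * |w i|) :=
        mul_le_mul_of_nonneg_left h7 (by linarith)
      rw [← h8, pow_succ] at h9
      linarith
    · rw [h4]; simp
  apply hu
  funext j
  rw [← hw j, Pi.zero_apply]
  exact abs_eq_zero.1 (le_antisymm ((hmax _ j.2).trans hwi) (abs_nonneg _))

lemma gmat_le (p q : ℕ → ℕ) (i j : Fin (n + 1)) : |gmat n k ty p q i j| ≤ 2 ^ (k + 2) := by
  have h6 : (1 : ℤ) ≤ 2 ^ k := one_le_pow₀ (by norm_num)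
  have h7 : (2 : ℤ) ^ (k + 1) = 2 * 2 ^ k := by ring
  have h8 : (2 : ℤ) ^ (k + 2) = 4 * 2 ^ k := by ring
  unfold gmat
  rw [h7, h8, abs_le]
  split_ifs <;> constructor <;> linarith

lemma det_bound (p q : ℕ → ℕ) :
    |(gmat n k ty p q).det| ≤ 2 ^ ((n + 1) * (n + 1) + (k + 2) * (n + 1)) := by
  have h1 := Matrix.det_le (A := gmat n k ty p q) (abv := AbsoluteValue.abs) (x := 2 ^ (k + 2))
    (fun i j => gmat_le p q i j)
  rw [Fintype.card_fin, nsmul_eq_mul] at h1
  refine h1.trans ?_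
  have h2 : ((Nat.factorial (n + 1) : ℕ) : ℤ) ≤ 2 ^ ((n + 1) * (n + 1)) := by
    have h3 : Nat.factorial (n + 1) ≤ 2 ^ ((n + 1) * (n + 1)) := by
      calc Nat.factorial (n + 1) ≤ (n + 1) ^ (n + 1) := Nat.factorial_le_pow _
        _ ≤ (2 ^ (n + 1)) ^ (n + 1) := Nat.pow_le_pow_left Nat.lt_two_pow_self.le _
        _ = _ := by rw [← pow_mul]
    exact_mod_cast h3
  calc ((Nat.factorial (n + 1) : ℕ) : ℤ) * (2 ^ (k + 2)) ^ (n + 1) ≤
      2 ^ ((n + 1) * (n + 1)) * (2 ^ (k + 2)) ^ (n + 1) := by gcongr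
    _ = _ := by rw [← pow_mul, ← pow_add]

/-- the bound for the logarithm of the gap -/
def gapQ (n k : ℕ) : ℕ := (n + 1) * (n + 1) + (k + 2) * (n + 1)

theorem gap (hpa : ∀ i ≤ n, pa i ≤ n) (hpb : ∀ i ≤ n, pb i ≤ n) {v : ℕ → ℝ}
    (hv : Val n k ty pa pb v) (h0 : v 0 ≠ 0) : 1 / 2 ^ gapQ n k ≤ |v 0| := by
  let p : ℕ → ℕ := fun i => if ty i = 0 then (if v (pa i) ≤ v (pb i) then pb i else pa i)
    else if ty i = 1 then (if v (pa i) ≤ v (pb i) then pa i else pb i) else pa i
  let q : ℕ → ℕ := fun i => if ty i = 0 then p i else if ty i = 1 then p i else pb i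
  have hp : ∀ i ≤ n, p i ≤ n := by
    intro i hi
    have a1 := hpa i hi
    have a2 := hpb i hi
    simp only [p]
    split_ifs <;> assumption
  have hq : ∀ i ≤ n, q i ≤ n := by
    intro i hi
    have a1 := hp i hi
    have a2 := hpb i hi
    simp only [q]
    split_ifs <;> assumption
  have hbet : (2 : ℝ) ^ (k + 1) * bet k = 2 * (2 ^ k - 1) := by
    unfold bet
    field_simp
    ring
  -- the equations
  let b : Fin (n + 1) → ℤ := fun i => if ty i ≤ 2 then 0 else if ty i = 3 then 1 else -1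
  have heq : ∀ i : Fin (n + 1), ∑ j, (gmat n k ty p q i j : ℝ) * v j = b i := by
    intro i
    have hi := Nat.lt_succ_iff.1 i.2
    have hvi := hv i hi
    rw [gmat_mul hp hq]
    simp only [b]
    split_ifs with h1 h2
    · rw [Int.cast_zero]
      have h3 : v i = bet k * ((v (p i) + v (q i)) / 2) := by
        rw [hvi]
        simp only [p, q]
        unfold shp
        by_cases t0 : ty i = 0
        · simp only [if_pos t0]
          split_ifs with h4
          · rw [max_eq_right h4]; ring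
          · rw [max_eq_left (le_of_lt (not_le.1 h4))]; ring
        · by_cases t1 : ty i = 1
          · simp only [if_neg t0, if_pos t1]
            split_ifs with h4
            · rw [min_eq_left h4]; ring
            · rw [min_eq_right (le_of_lt (not_le.1 h4))]; ring
          · have t2 : ty i = 2 := by omega
            simp only [if_neg t0, if_neg t1, if_pos t2]
      have h4 : (2 : ℝ) ^ (k + 1) * v i = 2 * (2 ^ k - 1) * ((v (p i) + v (q i)) / 2) := by
        rw [h3, ← mul_assoc, hbet]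
      linarith
    · rw [hvi]
      unfold shp
      rw [if_neg (by omega), if_neg (by omega), if_neg (by omega), if_pos h2, Int.cast_one]
    · rw [hvi]
      unfold shp
      rw [if_neg (by omega), if_neg (by omega), if_neg (by omega), if_neg h2]
      simp
  -- Cramer
  set A := gmat n k ty p q with hA
  have hdet := gmat_det (k := k) (ty := ty) hp hq
  obtain ⟨z, hz⟩ : ∃ z : ℤ, (A.det : ℝ) * v 0 = z := by
    refine ⟨∑ j, A.adjugate 0 j * b j, ?_⟩
    have h1 : ∀ j : Fin (n + 1), ∑ i, A.adjugate 0 i * A i j =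
        if (0 : Fin (n + 1)) = j then A.det else 0 := by
      intro j
      have h2 := congrFun (congrFun (Matrix.adjugate_mul A) 0) j
      rw [Matrix.mul_apply] at h2
      rw [h2, Matrix.smul_apply, Matrix.one_apply, smul_eq_mul]
      split_ifs <;> simp
    rw [Int.cast_sum]
    simp only [Int.cast_mul]
    have h3 : ∀ i : Fin (n + 1), (A.adjugate 0 i : ℝ) * (b i : ℝ) =
        ∑ j, ((A.adjugate 0 i * A i j : ℤ) : ℝ) * v j := by
      intro i
      rw [← heq i, Finset.mul_sum]
      refine Finset.sum_congr rfl fun j _ => ?_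
      push_cast
      ring
    rw [Finset.sum_congr rfl fun i _ => h3 i, Finset.sum_comm]
    have h4 : ∀ j : Fin (n + 1), ∑ i, ((A.adjugate 0 i * A i j : ℤ) : ℝ) * v j =
        if (0 : Fin (n + 1)) = j then (A.det : ℝ) * v j else 0 := by
      intro j
      rw [← Finset.sum_mul, ← Int.cast_sum, h1 j]
      split_ifs <;> simp
    rw [Finset.sum_congr rfl fun j _ => h4 j, Finset.sum_ite_eq, if_pos (Finset.mem_univ _)]
    rfl
  have hz0 : z ≠ 0 := by
    rintro rfl
    rw [Int.cast_zero] at hz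
    rcases mul_eq_zero.1 hz with h1 | h1
    · exact hdet (by exact_mod_cast h1)
    · exact h0 h1
  have h1 : (1 : ℝ) ≤ |(z : ℝ)| := by
    have h2 := Int.one_le_abs hz0
    exact_mod_cast h2
  rw [← hz, abs_mul] at h1
  have h2 : |(A.det : ℝ)| ≤ 2 ^ gapQ n k := by
    have h3 := det_bound (n := n) (k := k) (ty := ty) p q
    rw [← hA] at h3
    unfold gapQ
    exact_mod_cast h3
  rw [div_le_iff₀ (by positivity)]
  calc (1 : ℝ) ≤ |(A.det : ℝ)| * |v 0| := h1
    _ ≤ 2 ^ gapQ n k * |v 0| := mul_le_mul_of_nonneg_right h2 (abs_nonneg _)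
    _ = |v 0| * 2 ^ gapQ n k := mul_comm _ _

end Pool.Agent.Helper7.SC
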