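import Pool.Agent.Helper7.SC.Game1

/-!
# Stochastic games and inequalities between powers of a large number
-/

namespace Pool.Agent.Helper7.SC

/-- the upper bound for a position in terms of its successors -/
noncomputable def shx (k t : ℕ) (T a b : ℝ) : ℝ :=
  if t = 0 then (a + b) ^ bet k
  else if t = 1 then (min a b) ^ bet k
  else if t = 2 then (√(a * b)) ^ bet k
  else if t = 3 then T else T⁻¹

variable {n k : ℕ} {ty pa pb : ℕ → ℕ}

lemma shx_pow {T : ℝ} (hT : 1 ≤ T) (t : ℕ) (a b : ℝ) :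
    T ^ shp k t a b ≤ shx k t T (T ^ a) (T ^ b) := by
  have hT0 : 0 < T := by linarith
  have hb := bet_nonneg k
  have ha' : 0 < T ^ a := Real.rpow_pos_of_pos hT0 a
  have hb' : 0 < T ^ b := Real.rpow_pos_of_pos hT0 b
  unfold shp shx
  split_ifs
  · rw [mul_comm, Real.rpow_mul hT0.le]
    refine Real.rpow_le_rpow (by positivity) ?_ hb
    rcases le_total a b with h | h
    · rw [max_eq_right h]; linarith
    · rw [max_eq_left h]; linarith
  · rw [mul_comm, Real.rpow_mul hT0.le]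
    refine Real.rpow_le_rpow (by positivity) ?_ hb
    rcases le_total a b with h | h
    · rw [min_eq_left h]
      exact le_min le_rfl (Real.rpow_le_rpow_of_exponent_le hT h)
    · rw [min_eq_right h]
      exact le_min (Real.rpow_le_rpow_of_exponent_le hT h) le_rfl
  · rw [mul_comm, Real.rpow_mul hT0.le]
    refine Real.rpow_le_rpow (by positivity) ?_ hb
    refine Real.le_sqrt_of_sq_le ?_
    rw [← Real.rpow_natCast, ← Real.rpow_mul hT0.le, ← Real.rpow_add hT0]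
    apply le_of_eq
    congr 1
    push_cast
    ring
  · rw [Real.rpow_one]
  · rw [Real.rpow_neg_one]

lemma shx_bound {T M a b x y : ℝ} (hT : 1 < T) (hM : 1 ≤ M) (t : ℕ) (hx0 : 0 ≤ x) (hy0 : 0 ≤ y)
    (hx : x ≤ M * T ^ a) (hy : y ≤ M * T ^ b) :
    shx k t T x y ≤ (2 * M) ^ bet k * T ^ shp k t a b := by
  have hT0 : 0 < T := by linarith
  have hbt := bet_nonneg k
  have ha' : 0 < T ^ a := Real.rpow_pos_of_pos hT0 a
  have hb' : 0 < T ^ b := Real.rpow_pos_of_pos hT0 b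
  have hM0 : 0 < M := by linarith
  have hone : (1 : ℝ) ≤ (2 * M) ^ bet k := Real.one_le_rpow (by linarith) hbt
  have hk : ∀ w s : ℝ, 0 ≤ s → s ≤ 2 * M * T ^ w → s ^ bet k ≤ (2 * M) ^ bet k * T ^ (bet k * w) := by
    intro w s hs h
    refine (Real.rpow_le_rpow hs h hbt).trans (le_of_eq ?_)
    rw [Real.mul_rpow (by positivity) (Real.rpow_pos_of_pos hT0 w).le, mul_comm (bet k),
      Real.rpow_mul hT0.le]
  unfold shp shx
  split_ifs
  · refine hk _ _ (by positivity) ?_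
    have h1 : T ^ a ≤ T ^ max a b := Real.rpow_le_rpow_of_exponent_le hT.le (le_max_left _ _)
    have h2 : T ^ b ≤ T ^ max a b := Real.rpow_le_rpow_of_exponent_le hT.le (le_max_right _ _)
    have h3 : M * T ^ a ≤ M * T ^ max a b := mul_le_mul_of_nonneg_left h1 hM0.le
    have h4 : M * T ^ b ≤ M * T ^ max a b := mul_le_mul_of_nonneg_left h2 hM0.le
    linarith
  · refine hk _ _ (le_min hx0 hy0) ?_
    rcases le_total a b with h | h
    · rw [min_eq_left h]
      have := min_le_left x y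
      nlinarith [mul_pos hM0 ha']
    · rw [min_eq_right h]
      have := min_le_right x y
      nlinarith [mul_pos hM0 hb']
  · refine hk _ _ (Real.sqrt_nonneg _) ?_
    refine Real.sqrt_le_iff.2 ⟨by positivity, ?_⟩
    have h1 : x * y ≤ (M * T ^ a) * (M * T ^ b) := mul_le_mul hx hy hy0 (by positivity)
    have h2 : (2 * M * T ^ ((a + b) / 2)) ^ 2 = 4 * ((M * T ^ a) * (M * T ^ b)) := by
      have h3 : (T ^ ((a + b) / 2)) ^ 2 = T ^ a * T ^ b := by
        rw [← Real.rpow_natCast, ← Real.rpow_mul hT0.le, ← Real.rpow_add hT0]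
        congr 1
        push_cast
        ring
      calc (2 * M * T ^ ((a + b) / 2)) ^ 2 = 4 * M * M * (T ^ ((a + b) / 2)) ^ 2 := by ring
        _ = _ := by rw [h3]; ring
    rw [h2]
    nlinarith [mul_nonneg hx0 hy0]
  · rw [Real.rpow_one]
    nlinarith
  · rw [Real.rpow_neg_one]
    have := inv_pos.2 hT0
    nlinarith

/-- **Upper bound.** -/
theorem game_upper (hpa : ∀ i ≤ n, pa i ≤ n) (hpb : ∀ i ≤ n, pb i ≤ n) {v : ℕ → ℝ}
    (hv : Val n k ty pa pb v) {T : ℝ} (hT : 1 < T) {x : ℕ → ℝ}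
    (hx : ∀ i ≤ n, 0 ≤ x i ∧ x i ≤ shx k (ty i) T (x (pa i)) (x (pb i))) :
    ∀ i ≤ n, x i ≤ 2 ^ (2 ^ k) * T ^ v i := by
  have hT0 : 0 < T := by linarith
  have hbt := bet_nonneg k
  have hbt1 := bet_lt_one k
  obtain ⟨i, hi, hmax⟩ := Finset.exists_max_image (Finset.range (n + 1))
    (fun i => x i * T ^ (-v i)) ⟨0, by simp⟩
  simp only [Finset.mem_range, Nat.lt_succ_iff] at hi hmax
  set M := x i * T ^ (-v i) with hM
  have hinv : ∀ j, T ^ (-v j) * T ^ v j = 1 := by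
    intro j
    rw [← Real.rpow_add hT0, neg_add_cancel, Real.rpow_zero]
  have hb : ∀ j ≤ n, x j ≤ M * T ^ v j := by
    intro j hj
    have h1 := hmax j hj
    have h2 : 0 < T ^ v j := Real.rpow_pos_of_pos hT0 _
    calc x j = x j * T ^ (-v j) * T ^ v j := by rw [mul_assoc, hinv, mul_one]
      _ ≤ M * T ^ v j := mul_le_mul_of_nonneg_right h1 h2.le
  suffices hMle : M ≤ 2 ^ (2 ^ k) by
    intro j hj
    exact (hb j hj).trans (mul_le_mul_of_nonneg_right hMle (Real.rpow_pos_of_pos hT0 _).le)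
  by_contra hlt
  push Not at hlt
  have h2k : (1 : ℝ) ≤ 2 ^ (2 ^ k) := one_le_pow₀ (by norm_num)
  have hM1 : 1 ≤ M := by linarith
  have hM0 : 0 < M := by linarith
  have h1 := (hx i hi).2.trans (shx_bound (k := k) (M := M) hT hM1 (ty i) (hx _ (hpa i hi)).1
    (hx _ (hpb i hi)).1 (hb _ (hpa i hi)) (hb _ (hpb i hi)))
  rw [← hv i hi] at h1
  have h2 : M ≤ (2 * M) ^ bet k := by
    have h3 : 0 < T ^ (-v i) := Real.rpow_pos_of_pos hT0 _
    calc M = x i * T ^ (-v i) := hM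
      _ ≤ (2 * M) ^ bet k * T ^ v i * T ^ (-v i) := mul_le_mul_of_nonneg_right h1 h3.le
      _ = (2 * M) ^ bet k * (T ^ (-v i) * T ^ v i) := by ring
      _ = _ := by rw [hinv, mul_one]
  have h3 : M ^ ((1 : ℝ) / 2 ^ k) ≤ 2 := by
    have h4 : M = M ^ bet k * M ^ ((1 : ℝ) / 2 ^ k) := by
      rw [← Real.rpow_add hM0]
      have : bet k + 1 / 2 ^ k = 1 := by unfold bet; ring
      rw [this, Real.rpow_one]
    have h5 : (2 * M) ^ bet k = M ^ bet k * 2 ^ bet k := by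
      rw [Real.mul_rpow (by norm_num) hM0.le, mul_comm]
    have h6 : (0 : ℝ) < M ^ bet k := Real.rpow_pos_of_pos hM0 _
    have h7 : M ^ bet k * M ^ ((1 : ℝ) / 2 ^ k) ≤ M ^ bet k * 2 ^ bet k := by
      rw [← h4, ← h5]; exact h2
    have h8 : M ^ ((1 : ℝ) / 2 ^ k) ≤ 2 ^ bet k := le_of_mul_le_mul_left h7 h6
    refine h8.trans ?_
    calc (2 : ℝ) ^ bet k ≤ 2 ^ (1 : ℝ) := Real.rpow_le_rpow_of_exponent_le (by norm_num) hbt1.le
      _ = 2 := Real.rpow_one _
  have h4 : (M ^ ((1 : ℝ) / 2 ^ k)) ^ (2 ^ k) = M := by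
    rw [← Real.rpow_natCast, ← Real.rpow_mul hM0.le]
    have : (1 : ℝ) / 2 ^ k * ((2 ^ k : ℕ) : ℝ) = 1 := by
      push_cast
      field_simp
    rw [this, Real.rpow_one]
  have h5 : M ≤ 2 ^ (2 ^ k) := by
    conv_lhs => rw [← h4]
    exact pow_le_pow_left₀ (Real.rpow_pos_of_pos hM0 _).le h3 _
  linarith

/-- the exponent for the large number -/
def gapN (n k : ℕ) : ℕ := gapQ n k + k + 1

/-- **The equivalence.** -/
theorem game_iff (hpa : ∀ i ≤ n, pa i ≤ n) (hpb : ∀ i ≤ n, pb i ≤ n) {v : ℕ → ℝ}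
    (hv : Val n k ty pa pb v) :
    (∃ x : ℕ → ℝ, (∀ i ≤ n, 0 ≤ x i ∧
      x i ≤ shx k (ty i) (2 ^ (2 ^ gapN n k)) (x (pa i)) (x (pb i))) ∧ 1 ≤ x 0) ↔ 0 ≤ v 0 := by
  set T : ℝ := 2 ^ (2 ^ gapN n k) with hT
  have hT1 : 1 < T := by
    rw [hT]
    exact one_lt_pow₀ (by norm_num) (by positivity)
  have hT0 : 0 < T := by linarith
  constructor
  · rintro ⟨x, hx, hx0⟩
    by_contra hneg
    push Not at hneg
    have h1 := gap hpa hpb hv (ne_of_lt hneg)
    rw [abs_of_neg hneg] at h1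
    have h2 : v 0 ≤ -(1 / 2 ^ gapQ n k) := by linarith
    have h3 := game_upper hpa hpb hv hT1 hx 0 (Nat.zero_le _)
    have h4 : T ^ v 0 ≤ T ^ (-(1 / 2 ^ gapQ n k) : ℝ) :=
      Real.rpow_le_rpow_of_exponent_le hT1.le h2
    have h5 : T ^ (-(1 / 2 ^ gapQ n k) : ℝ) = (2 ^ (2 ^ (k + 1)))⁻¹ := by
      rw [Real.rpow_neg hT0.le, hT, ← Real.rpow_natCast 2 (2 ^ gapN n k),
        ← Real.rpow_mul (by norm_num)]
      congr 1
      have h6 : ((2 ^ gapN n k : ℕ) : ℝ) * (1 / 2 ^ gapQ n k) = ((2 ^ (k + 1) : ℕ) : ℝ) := by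
        unfold gapN
        rw [add_assoc]
        push_cast
        rw [pow_add]
        field_simp
      rw [h6, Real.rpow_natCast]
    rw [h5] at h4
    have h6 : x 0 ≤ 2 ^ (2 ^ k) * (2 ^ (2 ^ (k + 1)))⁻¹ :=
      h3.trans (mul_le_mul_of_nonneg_left h4 (by positivity))
    have h7 : (2 : ℝ) ^ (2 ^ (k + 1)) = 2 ^ (2 ^ k) * 2 ^ (2 ^ k) := by
      rw [← pow_add]; congr 1; ring
    have h8 : (2 : ℝ) ^ (2 ^ k) * (2 ^ (2 ^ (k + 1)))⁻¹ = (2 ^ (2 ^ k))⁻¹ := by
      rw [h7]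
      field_simp
    rw [h8] at h6
    have h9 : ((2 : ℝ) ^ (2 ^ k))⁻¹ < 1 := by
      apply inv_lt_one_of_one_lt₀
      exact one_lt_pow₀ (by norm_num) (by positivity)
    linarith
  · intro h0
    refine ⟨fun i => T ^ v i, fun i hi => ⟨(Real.rpow_pos_of_pos hT0 _).le, ?_⟩, ?_⟩
    · change T ^ v i ≤ shx k (ty i) T (T ^ v (pa i)) (T ^ v (pb i))
      conv_lhs => rw [hv i hi]
      exact shx_pow hT1.le _ _ _
    · exact Real.one_le_rpow hT1.le h0

end Pool.Agent.Helper7.SC
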