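import Pool.Agent.Helper7.SC.Pt

/-!
# Semidefinite feasibility as a circuit with one semidefinite gate
-/

open scoped InnerProductSpace
open Pool.Agent.Helper91.PolyTime

namespace Pool.Agent.Helper7.SC

open Pool.Agent.Helper92.Theta Pool.Agent.Helper95.Slp

/-- a gate with a constant -/
def cg (z : BInt) : XGate := (false, (0, 0, 0, z))

/-- the repeated squares of `2` -/
def sqs (N : ℕ) : List XGate :=
  cg two :: (List.range N).map fun k => (false, (3, k + 1, k + 1, zer))

lemma sqs_length (N : ℕ) : (sqs N).length = N + 1 := by simp [sqs]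

/-- the coefficients of an equation, with an additional row and column -/
def ent (n : ℕ) (A : List (List BInt)) (i j : ℕ) : BInt :=
  if i < n ∧ j < n then entry A i j else zer

/-- the data of one equation -/
def dat1 (n : ℕ) (a : List (List BInt) × BInt) : List BInt :=
  a.2 :: (List.range (n + 1)).flatMap fun i => (List.range (n + 1)).map fun j => ent n a.1 i j

/-- a default equation -/
def eq0 : List (List BInt) × BInt := ([], zer)

/-- the data of a semidefinite system -/
def dat (I : SDP) : List BInt :=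
  (List.range I.2.length).flatMap fun l => dat1 I.1 ((I.2[l]?).getD eq0)

/-- the circuit -/
def gtI (N : ℕ) (I : SDP) : List XGate :=
  (sqs N ++ (dat I).map cg) ++ [(true, (I.1 + 1, N + 1, I.2.length, zer))]

lemma dat1_length (n : ℕ) (a : List (List BInt) × BInt) :
    (dat1 n a).length = (n + 1) * (n + 1) + 1 := by
  unfold dat1
  rw [List.length_cons, List.length_flatMap]
  simp

lemma dat_length (I : SDP) : (dat I).length = ((I.1 + 1) * (I.1 + 1) + 1) * I.2.length := by
  unfold dat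
  rw [List.length_flatMap]
  simp [dat1_length, mul_comm]

lemma dat_b (I : SDP) (l : ℕ) (hl : l < I.2.length) :
    (dat I)[((I.1 + 1) * (I.1 + 1) + 1) * l]? = some (I.2[l]).2 := by
  have h := getElem?_flatMap_range ((I.1 + 1) * (I.1 + 1) + 1)
    (fun l => dat1 I.1 ((I.2[l]?).getD eq0)) (fun _ => dat1_length _ _) I.2.length l 0 hl (by omega)
  rw [add_zero] at h
  unfold dat
  rw [h, List.getElem?_eq_getElem hl, Option.getD_some]
  rfl

lemma dat_a (I : SDP) (l i j : ℕ) (hl : l < I.2.length) (hi : i < I.1 + 1) (hj : j < I.1 + 1) :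
    (dat I)[((I.1 + 1) * (I.1 + 1) + 1) * l + (1 + ((I.1 + 1) * i + j))]? =
      some (ent I.1 (I.2[l]).1 i j) := by
  have hb : (I.1 + 1) * i + j < (I.1 + 1) * (I.1 + 1) := by
    have h1 : (I.1 + 1) * (i + 1) ≤ (I.1 + 1) * (I.1 + 1) := Nat.mul_le_mul_left _ hi
    have h2 : (I.1 + 1) * (i + 1) = (I.1 + 1) * i + (I.1 + 1) := by ring
    omega
  have h := getElem?_flatMap_range ((I.1 + 1) * (I.1 + 1) + 1)
    (fun l => dat1 I.1 ((I.2[l]?).getD eq0)) (fun _ => dat1_length _ _) I.2.length l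
    (1 + ((I.1 + 1) * i + j)) hl (by omega)
  unfold dat
  rw [h, List.getElem?_eq_getElem hl, Option.getD_some]
  unfold dat1
  rw [Nat.add_comm 1, List.getElem?_cons_succ]
  have h2 := getElem?_flatMap_range (I.1 + 1)
    (fun i => (List.range (I.1 + 1)).map fun j => ent I.1 (I.2[l]).1 i j)
    (fun _ => by simp) (I.1 + 1) i j hi hj
  rw [h2]
  simp [hj]

lemma evX_cg {P : List XGate} {k : ℕ} {z : BInt} (h : P[k]? = some (cg z)) :
    evX P (k + 1) = ival z := by
  rw [evX_succ h]
  unfold gv cg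
  rw [if_neg (by simp)]
  rfl

lemma evX_sqs {N : ℕ} {P : List XGate} (hP : ∀ k < N + 1, P[k]? = (sqs N)[k]?) :
    ∀ c ≤ N, evX P (c + 1) = 2 ^ (2 ^ c) := by
  intro c
  induction c with
  | zero =>
    intro _
    rw [evX_cg (z := two) (by rw [hP 0 (by omega)]; rfl), ival_two]
    norm_num
  | succ c ih =>
    intro hc
    have h1 : P[c + 1]? = some (false, (3, c + 1, c + 1, zer)) := by
      rw [hP _ (by omega)]
      unfold sqs
      rw [List.getElem?_cons_succ]
      simp [show c < N by omega]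
    rw [evX_succ h1]
    unfold gv
    rw [if_neg (by simp)]
    simp only [opR]
    rw [idx_eq (le_refl _), ih (by omega), pow_succ 2 c, pow_mul]
    ring

lemma gtI_get_sqs (N : ℕ) (I : SDP) (k : ℕ) (hk : k < N + 1) : (gtI N I)[k]? = (sqs N)[k]? := by
  unfold gtI
  rw [List.getElem?_append_left (by rw [List.length_append, sqs_length]; omega),
    List.getElem?_append_left (by rw [sqs_length]; exact hk)]

lemma gtI_get_dat (N : ℕ) (I : SDP) (t : ℕ) (z : BInt) (ht : (dat I)[t]? = some z) :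
    (gtI N I)[N + 1 + t]? = some (cg z) := by
  have h1 : t < (dat I).length := (List.getElem?_eq_some_iff.1 ht).1
  unfold gtI
  rw [List.getElem?_append_left (by rw [List.length_append, sqs_length, List.length_map]; omega),
    List.getElem?_append_right (by rw [sqs_length]; omega), sqs_length, List.getElem?_map,
    Nat.add_sub_cancel_left, ht]
  rfl

lemma sum_last {n : ℕ} (f g : ℕ → ℕ → ℝ) (h : ∀ i j, ¬ (i < n ∧ j < n) → f i j = 0) :
    ∑ i : Fin (n + 1), ∑ j : Fin (n + 1), f i j * g i j =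
      ∑ i : Fin n, ∑ j : Fin n, f i j * g i j := by
  rw [Fin.sum_univ_castSucc]
  have h1 : ∑ j : Fin (n + 1), f (Fin.last n) j * g (Fin.last n) j = 0 :=
    Finset.sum_eq_zero fun j _ => by
      rw [h _ _ (by simp), zero_mul]
  rw [h1, add_zero]
  refine Finset.sum_congr rfl fun i _ => ?_
  rw [Fin.sum_univ_castSucc]
  have h2 : f (Fin.castSucc i) (Fin.last n) * g (Fin.castSucc i) (Fin.last n) = 0 := by
    rw [h _ _ (by simp), zero_mul]
  rw [h2, add_zero]
  rfl

/-- The semidefinite gate tests the feasibility with a bound on the trace. -/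
lemma gtI_iff (N : ℕ) (I : SDP) : gtI N I ∈ SdpCircuit ↔
    ∃ X : Matrix (Fin I.1) (Fin I.1) ℝ, X.PosSemidef ∧ Solves I X ∧
      ∑ i, X i i ≤ 2 ^ (2 ^ N) := by
  classical
  set L := (sqs N ++ (dat I).map cg).length with hL
  have hL' : L = N + 1 + (dat I).length := by
    rw [hL, List.length_append, sqs_length, List.length_map]
  have hlen : (gtI N I).length = L + 1 := by
    unfold gtI
    rw [List.length_append]
    rfl
  have hlast : (gtI N I)[L]? = some (true, (I.1 + 1, N + 1, I.2.length, zer)) := by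
    unfold gtI
    rw [List.getElem?_append_right (le_refl _), Nat.sub_self]
    rfl
  set d : ℕ → ℝ := fun u => evX (gtI N I) (idx L (N + 1 + u)) with hd
  have hval : evX (gtI N I) (gtI N I).length = if feas (I.1 + 1) I.2.length d then 1 else 0 := by
    rw [hlen, evX_succ hlast]
    unfold gv
    rw [if_pos rfl]
  have hmem : gtI N I ∈ SdpCircuit ↔ feas (I.1 + 1) I.2.length d := by
    change 0 < evX _ _ ↔ _
    rw [hval]
    split_ifs with h
    · simp [h]
    · simp [h]
  rw [hmem]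
  have d0 : d 0 = 2 ^ (2 ^ N) := by
    simp only [hd, add_zero]
    rw [idx_eq (by omega)]
    exact evX_sqs (gtI_get_sqs N I) N (le_refl _)
  have ddat : ∀ t z, (dat I)[t]? = some z → d (1 + t) = ival z := by
    intro t z ht
    have h1 : t < (dat I).length := (List.getElem?_eq_some_iff.1 ht).1
    simp only [hd]
    rw [idx_eq (by omega), show N + 1 + (1 + t) = N + 1 + t + 1 by omega]
    exact evX_cg (gtI_get_dat N I t z ht)
  have dB : ∀ l (hl : l < I.2.length), d (pB (I.1 + 1) l) = ival (I.2[l]).2 := by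
    intro l hl
    have h1 := ddat _ _ (dat_b I l hl)
    rw [← h1]
    unfold pB
    rw [mul_comm l]
  have dA : ∀ l (hl : l < I.2.length) (i j : ℕ), i < I.1 + 1 → j < I.1 + 1 →
      d (pA (I.1 + 1) l i j) = ival (ent I.1 (I.2[l]).1 i j) := by
    intro l hl i j hi hj
    have h1 := ddat _ _ (dat_a I l i j hl hi hj)
    rw [← h1]
    unfold pA
    congr 1
    ring
  -- the meaning of an equation
  have heq : ∀ l (hl : l < I.2.length) (y : ℕ → ℕ → ℝ),
      ∑ i : Fin (I.1 + 1), ∑ j : Fin (I.1 + 1), d (pA (I.1 + 1) l i j) * y i j =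
        ∑ i : Fin I.1, ∑ j : Fin I.1, (ival (entry (I.2[l]).1 i j) : ℝ) * y i j := by
    intro l hl y
    have h1 : ∑ i : Fin (I.1 + 1), ∑ j : Fin (I.1 + 1), d (pA (I.1 + 1) l i j) * y i j =
        ∑ i : Fin (I.1 + 1), ∑ j : Fin (I.1 + 1), (ival (ent I.1 (I.2[l]).1 i j) : ℝ) * y i j :=
      Finset.sum_congr rfl fun i _ => Finset.sum_congr rfl fun j _ => by
        rw [dA l hl i j i.2 j.2]
    rw [h1, sum_last (fun i j => (ival (ent I.1 (I.2[l]).1 i j) : ℝ)) y]
    · refine Finset.sum_congr rfl fun i _ => Finset.sum_congr rfl fun j _ => ?_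
      rw [ent, if_pos ⟨i.2, j.2⟩]
    · intro i j h
      rw [ent, if_neg h, ival_zer, Int.cast_zero]
  constructor
  · rintro ⟨Y, hY, htr, hE⟩
    refine ⟨Y.submatrix Fin.castSucc Fin.castSucc, hY.submatrix _, ?_, ?_⟩
    · intro a ha
      obtain ⟨l, hl, rfl⟩ := List.mem_iff_getElem.1 ha
      have h1 := hE l hl
      let y : ℕ → ℕ → ℝ := fun i j => if h : i < I.1 + 1 ∧ j < I.1 + 1 then Y ⟨i, h.1⟩ ⟨j, h.2⟩ else 0
      have hy : ∀ i j : Fin (I.1 + 1), y i j = Y i j := by
        intro i j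
        simp only [y]
        rw [dif_pos ⟨i.2, j.2⟩]
      have h2 := heq l hl y
      simp only [hy] at h2
      rw [h1, dB l hl] at h2
      rw [h2]
      refine Finset.sum_congr rfl fun i _ => Finset.sum_congr rfl fun j _ => ?_
      rw [Matrix.submatrix_apply, ← hy]
      rfl
    · rw [Fin.sum_univ_castSucc, d0] at htr
      have h1 : 0 ≤ Y (Fin.last _) (Fin.last _) := hY.diag_nonneg
      simp only [Matrix.submatrix_apply]
      linarith
  · rintro ⟨X, hX, hS, htr⟩
    obtain ⟨m, x, hx⟩ := exists_vectors hX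
    let xx : Fin (I.1 + 1) → EuclideanSpace ℝ (Fin m) := fun i =>
      if h : (i : ℕ) < I.1 then x ⟨i, h⟩ else 0
    let s : Fin (I.1 + 1) → ℝ := fun i => if (i : ℕ) < I.1 then 0 else √(2 ^ (2 ^ N) - ∑ i, X i i)
    refine ⟨(Matrix.of fun i j => ⟪xx i, xx j⟫_ℝ) + Matrix.of fun i j => ⟪s i, s j⟫_ℝ,
      (gram_posSemidef xx).add (gram_posSemidef s), ?_, ?_⟩
    · rw [Fin.sum_univ_castSucc, d0]
      have h1 : ∀ i : Fin I.1, (((Matrix.of fun i j => ⟪xx i, xx j⟫_ℝ) +
          Matrix.of fun i j => ⟪s i, s j⟫_ℝ : Matrix (Fin (I.1 + 1)) (Fin (I.1 + 1)) ℝ))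
          (Fin.castSucc i) (Fin.castSucc i) = X i i := by
        intro i
        rw [Matrix.add_apply, Matrix.of_apply, Matrix.of_apply]
        simp only [xx, s]
        rw [dif_pos (by simp), if_pos (by simp)]
        simp only [Fin.val_castSucc, Fin.eta, hx, inner_zero_left, add_zero]
      simp only [h1]
      rw [Matrix.add_apply, Matrix.of_apply, Matrix.of_apply]
      simp only [xx, s]
      rw [dif_neg (by simp), if_neg (by simp)]
      simp only [inner_zero_left, RCLike.inner_apply, conj_trivial, zero_add]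
      rw [Real.mul_self_sqrt (by linarith)]
      ring
    · intro l hl
      rw [dB l hl]
      let y : ℕ → ℕ → ℝ := fun i j => if h : i < I.1 + 1 ∧ j < I.1 + 1 then
        (((Matrix.of fun i j => ⟪xx i, xx j⟫_ℝ) + Matrix.of fun i j => ⟪s i, s j⟫_ℝ :
          Matrix (Fin (I.1 + 1)) (Fin (I.1 + 1)) ℝ)) ⟨i, h.1⟩ ⟨j, h.2⟩ else 0
      have hy : ∀ i j : Fin (I.1 + 1), y i j = (((Matrix.of fun i j => ⟪xx i, xx j⟫_ℝ) +
          Matrix.of fun i j => ⟪s i, s j⟫_ℝ : Matrix (Fin (I.1 + 1)) (Fin (I.1 + 1)) ℝ)) i j := by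
        intro i j
        simp only [y]
        rw [dif_pos ⟨i.2, j.2⟩]
      have h2 := heq l hl y
      simp only [hy] at h2
      rw [h2, ← hS _ (List.getElem_mem hl)]
      refine Finset.sum_congr rfl fun i _ => Finset.sum_congr rfl fun j _ => ?_
      congr 1
      have h3 : y i j = X i j := by
        have h4 := hy (Fin.castSucc i) (Fin.castSucc j)
        simp only [Fin.val_castSucc] at h4
        rw [h4, Matrix.add_apply, Matrix.of_apply, Matrix.of_apply]
        simp only [xx, s]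
        rw [dif_pos (by simp), dif_pos (by simp), if_pos (by simp)]
        simp only [Fin.val_castSucc, Fin.eta, hx, inner_zero_left, add_zero]
      exact h3

/-- the circuit for a semidefinite system -/
def genX (I : SDP) : List XGate := gtI (NS I + I.1) I

/-- The diagonal entries of some solution are small. -/
lemma bfeas_NS (I : SDP) (h : I ∈ SDPFeas) : BFeas (NS I) I := by
  refine bfeas_of_feas I _ ?_ ?_ ?_ h
  · have h2 := length_enc_nat I.1
    have h3 := enc_fst_le I
    omega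
  · exact (length_le_enc I.2).trans (enc_snd_le I)
  · intro a ha
    have h2 : (enc a).length ≤ (enc I).length := (enc_mem_le ha).trans (enc_snd_le I)
    refine ⟨(bint_length_le a.2).trans ((enc_snd_le a).trans h2), fun i j => ?_⟩
    exact (entry_length_le a.1 i j).trans ((enc_fst_le a).trans h2)

lemma pow_aux (n N : ℕ) : (n : ℝ) * 2 ^ (2 ^ N) ≤ 2 ^ (2 ^ (N + n)) := by
  have h1 : n + 2 ^ N ≤ 2 ^ (N + n) := by
    induction n with
    | zero => simp
    | succ n ih =>
      have h2 : 2 ^ (N + (n + 1)) = 2 ^ (N + n) + 2 ^ (N + n) := by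
        rw [← add_assoc, pow_succ]; ring
      have h3 : 1 ≤ 2 ^ (N + n) := Nat.one_le_two_pow
      omega
  have h2 : (n : ℝ) ≤ 2 ^ n := by exact_mod_cast Nat.lt_two_pow_self.le
  calc (n : ℝ) * 2 ^ (2 ^ N) ≤ 2 ^ n * 2 ^ (2 ^ N) := by gcongr
    _ = 2 ^ (n + 2 ^ N) := by rw [pow_add]
    _ ≤ 2 ^ (2 ^ (N + n)) := pow_le_pow_right₀ (by norm_num) h1

theorem genX_iff (I : SDP) : I ∈ SDPFeas ↔ genX I ∈ SdpCircuit := by
  unfold genX
  rw [gtI_iff]
  constructor
  · intro h
    obtain ⟨X, hX, hb, hS⟩ := bfeas_NS I h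
    refine ⟨X, hX, hS, ?_⟩
    calc ∑ i, X i i ≤ ∑ _i : Fin I.1, (2 : ℝ) ^ (2 ^ NS I) := Finset.sum_le_sum fun i _ => hb i
      _ = (I.1 : ℝ) * 2 ^ (2 ^ NS I) := by simp
      _ ≤ _ := pow_aux _ _
  · rintro ⟨X, hX, hS, -⟩
    exact ⟨X, hX, hS⟩

/-! ### Polynomial time -/

variable {α : Type} [PEnc α]

lemma ptf_cg {z : α → BInt} (hz : PTF z) : PTF (fun x => cg (z x)) :=
  PTF.pair (PTF.const false) (PTF.pair (PTF.const 0) (PTF.pair (PTF.const 0)
    (PTF.pair (PTF.const 0) hz)))

lemma ptf_sqs {N : α → ℕ} (hN : PTF N) : PTF (fun x => sqs (N x)) := by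
  unfold sqs
  refine PTF.cons (PTF.const _) (PTF.map (f := fun _ k =>
    ((false, (3, k + 1, k + 1, zer)) : XGate)) (PTF.range hN) ?_)
  exact PTF.pair (PTF.const false) (PTF.pair (PTF.const 3) (PTF.pair (PTF.succ PTF.id.snd)
    (PTF.pair (PTF.succ PTF.id.snd) (PTF.const _))))

lemma ptf_dat1 {n : α → ℕ} {a : α → List (List BInt) × BInt} (hn : PTF n) (ha : PTF a) :
    PTF (fun x => dat1 (n x) (a x)) := by
  unfold dat1
  have h1 : PTF (fun x => List.range (n x + 1)) := PTF.range (PTF.succ hn)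
  refine PTF.cons ha.snd (PTF.flatMap (f := fun x i =>
    (List.range (n x + 1)).map fun j => ent (n x) (a x).1 i j) h1 ?_)
  refine PTF.map (f := fun (q : α × ℕ) j => ent (n q.1) (a q.1).1 q.2 j) (h1.comp PTF.id.fst) ?_
  unfold ent
  have hn2 : PTF (fun q : (α × ℕ) × ℕ => n q.1.1) := hn.comp PTF.id.fst.fst
  exact PTF.ite (PTF.decide_and (PTF.lt PTF.id.fst.snd hn2) (PTF.lt PTF.id.snd hn2))
    (ptf_entry (ha.comp PTF.id.fst.fst).fst PTF.id.fst.snd PTF.id.snd) (PTF.const _)

lemma ptf_dat {I : α → SDP} (hI : PTF I) : PTF (fun x => dat (I x)) := by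
  unfold dat
  refine PTF.flatMap (f := fun x l => dat1 (I x).1 (((I x).2[l]?).getD eq0))
    (PTF.range (PTF.length hI.snd)) ?_
  exact ptf_dat1 (hI.comp PTF.id.fst).fst (ptf_getD (PTF.getElem? PTF.id.snd
    (hI.comp PTF.id.fst).snd) (PTF.const _))

lemma ptf_NS : PTF (fun I : SDP => NS I) := by
  unfold NS
  exact ptf_NB (PTF.mul PTF.id.fst PTF.id.fst) (PTF.add (PTF.mul (PTF.const 9)
    (PTF.codeLength PTF.id)) (PTF.const 5))

theorem ptf_genX : PTF genX := by
  unfold genX gtI
  have hN : PTF (fun I : SDP => NS I + I.1) := PTF.add ptf_NS PTF.id.fst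
  refine PTF.append (PTF.append (ptf_sqs hN) ?_) (PTF.cons ?_ (PTF.const []))
  · exact PTF.map (f := fun _ z => cg z) (ptf_dat PTF.id) (ptf_cg PTF.id.snd)
  · exact PTF.pair (PTF.const true) (PTF.pair (PTF.succ PTF.id.fst) (PTF.pair (PTF.succ hN)
      (PTF.pair (PTF.length PTF.id.snd) (PTF.const _))))

end Pool.Agent.Helper7.SC
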