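import Pool.Agent.Helper7.SC.Game2
import Pool.Agent.Helper7.SC.Gen

/-!
# The semidefinite system of a stochastic game
-/

open scoped InnerProductSpace

namespace Pool.Agent.Helper7.SC

open Pool.Agent.Helper92.Theta Pool.Agent.Helper95.Slp

/-! ### The program -/

/-- the program with the values `2 ^ (2 ^ N)` and its inverse -/
def prg (N : ℕ) : List XGate := sqs N ++ [(false, (4, 0, N + 1, zer))]

lemma prg_length (N : ℕ) : (prg N).length = N + 2 := by
  simp [prg, sqs_length]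

/-- the values of the program -/
noncomputable def pv (N c : ℕ) : ℝ :=
  if c = 0 then 1 else if c ≤ N + 1 then 2 ^ (2 ^ (c - 1)) else (2 ^ (2 ^ N))⁻¹

lemma pv_zero (N : ℕ) : pv N 0 = 1 := rfl

lemma pv_succ {N c : ℕ} (h : c ≤ N) : pv N (c + 1) = 2 ^ (2 ^ c) := by
  unfold pv
  rw [if_neg (by omega), if_pos (by omega), Nat.add_sub_cancel]

lemma pv_last (N : ℕ) : pv N (N + 2) = (2 ^ (2 ^ N))⁻¹ := by
  unfold pv
  rw [if_neg (by omega), if_neg (by omega)]

lemma prg_values (N : ℕ) : XValues (prg N) (pv N) := by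
  refine ⟨rfl, fun K g hg => ?_⟩
  have hK : K < N + 2 := by
    have := (List.getElem?_eq_some_iff.1 hg).1
    rwa [prg_length] at this
  rcases Nat.lt_or_ge K (N + 1) with h | h
  · unfold prg at hg
    rw [List.getElem?_append_left (by rw [sqs_length]; exact h)] at hg
    rcases K with _ | k
    · simp only [sqs, List.getElem?_cons_zero, Option.some.injEq] at hg
      subst hg
      unfold XRes cg
      rw [if_neg (by simp)]
      simp [Res, pv, ival_two]
    · have hg' : g = (false, (3, k + 1, k + 1, zer)) := by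
        unfold sqs at hg
        rw [List.getElem?_cons_succ, List.getElem?_map,
          List.getElem?_range (by omega : k < N)] at hg
        simpa using hg.symm
      subst hg'
      unfold XRes
      rw [if_neg (by simp)]
      simp only [Res]
      rw [idx_eq (le_refl _), pv_succ (by omega : k ≤ N), pv_succ (by omega : k + 1 ≤ N),
        pow_succ 2 k, pow_mul]
      ring
  · obtain rfl : K = N + 1 := by omega
    have hg' : g = (false, (4, 0, N + 1, zer)) := by
      unfold prg at hg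
      rw [List.getElem?_append_right (by rw [sqs_length]), sqs_length, Nat.sub_self] at hg
      simpa using hg.symm
    subst hg'
    unfold XRes
    rw [if_neg (by simp)]
    simp only [Res]
    rw [idx_eq (le_refl _), idx_eq (Nat.zero_le _), pv_zero, pv_succ (le_refl N)]
    refine ⟨by positivity, ?_⟩
    change pv N (N + 2) = _
    rw [pv_last, one_div]

/-! ### Names -/

/-- the number of a position -/
def Xn (i : ℕ) : Na := (12, i, 0, 0)
/-- auxiliary row -/
def Sn (i : ℕ) : Na := (13, i, 0, 0)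
/-- auxiliary number -/
def Yy (i : ℕ) : Na := (14, i, 0, 0)
/-- auxiliary row -/
def An (i : ℕ) : Na := (15, i, 0, 0)
/-- auxiliary row -/
def Bn (i : ℕ) : Na := (16, i, 0, 0)
/-- auxiliary number -/
def Cs (i j : ℕ) : Na := (17, i, j, 0)
/-- auxiliary row -/
def Cn (i j : ℕ) : Na := (18, i, j, 0)
/-- auxiliary row -/
def Dd (i j : ℕ) : Na := (19, i, j, 0)
/-- auxiliary row -/
def En (i : ℕ) : Na := (20, i, 0, 0)
/-- auxiliary row -/
def Fn : Na := (21, 0, 0, 0)

/-- the chain of square roots -/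
def chq (k i : ℕ) : List Eqn :=
  ([(one, o0, Cs i 0)], one) ::
  ([(one, o0, Xn i), (one, En i, En i), (mone, o0, Cs i k)], zer) ::
  (List.range k).flatMap fun j => [([(one, Cn i j, Cn i j), (mone, o0, Cs i j)], zer),
    ([(one, Dd i j, Dd i j), (mone, o0, Yy i)], zer),
    ([(one, Cn i j, Dd i j), (mone, o0, Cs i (j + 1))], zer)]

/-- the equations of a position with type `t` and successors `a`, `b` -/
def nq (N k i t a b : ℕ) : List Eqn :=
  ([(one, Sn i, Sn i), (mone, o0, Xn i)], zer) ::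
  (if t = 0 then ([(one, o0, Yy i), (mone, o0, Xn a), (mone, Xn b, o0)], zer) :: chq k i
  else if t = 1 then ([(one, o0, Yy i), (one, An i, An i), (mone, o0, Xn a)], zer) ::
    ([(one, o0, Yy i), (one, Bn i, Bn i), (mone, o0, Xn b)], zer) :: chq k i
  else if t = 2 then ([(one, An i, An i), (mone, o0, Xn a)], zer) ::
    ([(one, Bn i, Bn i), (mone, o0, Xn b)], zer) ::
    ([(one, An i, Bn i), (mone, o0, Yy i)], zer) :: chq k i
  else if t = 3 then [([(one, o0, Xn i), (one, En i, En i), (mone, o0, V (N + 1))], zer)]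
  else [([(one, o0, Xn i), (one, En i, En i), (mone, o0, V (N + 2))], zer)])

/-- the equations of the game -/
def gE (N n k : ℕ) (ty pa pb : ℕ → ℕ) : List Eqn :=
  ([(one, o0, Xn 0), (mone, o0, o0), (mone, Fn, Fn)], zer) ::
    (List.range (n + 1)).flatMap fun i => nq N k i (ty i) (pa i) (pb i)

lemma ok_chq (k i : ℕ) : ∀ e ∈ chq k i, Ok e := by
  unfold chq
  simp only [List.forall_mem_cons, List.mem_flatMap, List.mem_range, forall_exists_index,
    and_imp]
  refine ⟨by simp [Ok], by simp [Ok, o0, Xn, En, Cs], ?_⟩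
  intro e j _ he
  simp only [List.mem_cons, List.not_mem_nil, or_false] at he
  rcases he with rfl | rfl | rfl <;> simp [Ok, o0, Cn, Cs, Dd, Yy]

lemma ok_gE (N n k : ℕ) (ty pa pb : ℕ → ℕ) : ∀ e ∈ gE N n k ty pa pb, Ok e := by
  intro e he
  rcases List.mem_cons.1 he with rfl | he
  · simp [Ok, o0, Xn, Fn]
  · obtain ⟨i, _, he⟩ := List.mem_flatMap.1 he
    unfold nq at he
    rcases List.mem_cons.1 he with rfl | he
    · simp [Ok, o0, Xn, Sn]
    · split_ifs at he
      · rcases List.mem_cons.1 he with rfl | he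
        · simp [Ok, o0, Xn, Yy]
        · exact ok_chq _ _ _ he
      · rcases List.mem_cons.1 he with rfl | he
        · simp [Ok, o0, Xn, Yy, An]
        · rcases List.mem_cons.1 he with rfl | he
          · simp [Ok, o0, Xn, Yy, Bn]
          · exact ok_chq _ _ _ he
      · rcases List.mem_cons.1 he with rfl | he
        · simp [Ok, o0, Xn, An]
        · rcases List.mem_cons.1 he with rfl | he
          · simp [Ok, o0, Xn, Bn]
          · rcases List.mem_cons.1 he with rfl | he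
            · simp [Ok, o0, Yy, An, Bn]
            · exact ok_chq _ _ _ he
      · rw [List.mem_singleton] at he
        subst he
        simp [Ok, o0, Xn, En, V]
      · rw [List.mem_singleton] at he
        subst he
        simp [Ok, o0, Xn, En, V]

/-! ### Soundness -/

lemma chain_le {y s : ℝ} {c : ℕ → ℝ} {k : ℕ} (h0 : c 0 = 1) (hs : 0 ≤ s) (hys : y ≤ s)
    (h : ∀ j < k, 0 ≤ c j ∧ 0 ≤ y ∧ c (j + 1) * c (j + 1) ≤ c j * y) :
    ∀ j ≤ k, c j ≤ s ^ bet j := by
  intro j
  induction j with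
  | zero =>
    intro _
    have : bet 0 = 0 := by simp [bet]
    rw [h0, this, Real.rpow_zero]
  | succ j ih =>
    intro hj
    obtain ⟨h1, h2, h3⟩ := h j (by omega)
    have h4 := ih (by omega)
    have h5 : bet (j + 1) = (bet j + 1) / 2 := by
      unfold bet
      rw [pow_succ]
      field_simp
      ring
    have h6 : c (j + 1) * c (j + 1) ≤ s ^ bet j * s :=
      h3.trans (mul_le_mul h4 hys h2 (h1.trans h4))
    have h7 : s ^ bet (j + 1) * s ^ bet (j + 1) = s ^ bet j * s := by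
      have hb := bet_nonneg (j + 1)
      rw [← Real.rpow_add_of_nonneg hs hb hb]
      have h8 : bet (j + 1) + bet (j + 1) = bet j + 1 := by rw [h5]; ring
      rw [h8, Real.rpow_add_of_nonneg hs (bet_nonneg j) (by norm_num), Real.rpow_one]
    rw [← h7] at h6
    have h9 : 0 ≤ s ^ bet (j + 1) := Real.rpow_nonneg hs _
    by_contra hlt
    push Not at hlt
    nlinarith

variable {H : Type} [NormedAddCommGroup H] [InnerProductSpace ℝ H]

lemma chq_sound {x : Na → H} {k i : ℕ} {s : ℝ} (hs : 0 ≤ s)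
    (hys : ⟪x o0, x (Yy i)⟫_ℝ ≤ s)
    (h : ∀ e ∈ chq k i, Hol (fun a b => ⟪x a, x b⟫_ℝ) e) : ⟪x o0, x (Xn i)⟫_ℝ ≤ s ^ bet k := by
  unfold chq at h
  simp only [List.forall_mem_cons, List.mem_flatMap, List.mem_range, forall_exists_index,
    and_imp] at h
  obtain ⟨h1, h2, h3⟩ := h
  simp only [Hol, lhs_cons, lhs_nil, bval_one, bval_mone, bval_zer] at h1 h2
  have hE : 0 ≤ ⟪x (En i), x (En i)⟫_ℝ := real_inner_self_nonneg
  have hc : ∀ j < k, 0 ≤ ⟪x o0, x (Cs i j)⟫_ℝ ∧ 0 ≤ ⟪x o0, x (Yy i)⟫_ℝ ∧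
      ⟪x o0, x (Cs i (j + 1))⟫_ℝ * ⟪x o0, x (Cs i (j + 1))⟫_ℝ ≤
        ⟪x o0, x (Cs i j)⟫_ℝ * ⟪x o0, x (Yy i)⟫_ℝ := by
    intro j hj
    have g1 := h3 ([(one, Cn i j, Cn i j), (mone, o0, Cs i j)], zer) j hj (by simp)
    have g2 := h3 ([(one, Dd i j, Dd i j), (mone, o0, Yy i)], zer) j hj (by simp)
    have g3 := h3 ([(one, Cn i j, Dd i j), (mone, o0, Cs i (j + 1))], zer) j hj (by simp)
    simp only [Hol, lhs_cons, lhs_nil, bval_one, bval_mone, bval_zer] at g1 g2 g3
    have e1 : ⟪x o0, x (Cs i j)⟫_ℝ = ⟪x (Cn i j), x (Cn i j)⟫_ℝ := by linarith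
    have e2 : ⟪x o0, x (Yy i)⟫_ℝ = ⟪x (Dd i j), x (Dd i j)⟫_ℝ := by linarith
    have e3 : ⟪x o0, x (Cs i (j + 1))⟫_ℝ = ⟪x (Cn i j), x (Dd i j)⟫_ℝ := by linarith
    rw [e1, e2, e3]
    exact ⟨real_inner_self_nonneg, real_inner_self_nonneg, real_inner_mul_inner_self_le _ _⟩
  have hk := chain_le (c := fun j => ⟪x o0, x (Cs i j)⟫_ℝ) (k := k) (by linarith) hs hys hc k
    (le_refl _)
  linarith

lemma nq_sound {x : Na → H} {N k i t a b : ℕ} {T : ℝ} (hT : ⟪x o0, x (V (N + 1))⟫_ℝ = T)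
    (hT' : ⟪x o0, x (V (N + 2))⟫_ℝ = T⁻¹) (ha : 0 ≤ ⟪x o0, x (Xn a)⟫_ℝ)
    (hb : 0 ≤ ⟪x o0, x (Xn b)⟫_ℝ)
    (h : ∀ e ∈ nq N k i t a b, Hol (fun a b => ⟪x a, x b⟫_ℝ) e) :
    ⟪x o0, x (Xn i)⟫_ℝ ≤ shx k t T ⟪x o0, x (Xn a)⟫_ℝ ⟪x o0, x (Xn b)⟫_ℝ := by
  unfold nq at h
  rw [List.forall_mem_cons] at h
  obtain ⟨-, h⟩ := h
  have nA : 0 ≤ ⟪x (An i), x (An i)⟫_ℝ := real_inner_self_nonneg
  have nB : 0 ≤ ⟪x (Bn i), x (Bn i)⟫_ℝ := real_inner_self_nonneg
  have nE : 0 ≤ ⟪x (En i), x (En i)⟫_ℝ := real_inner_self_nonneg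
  unfold shx
  split_ifs at h with t0 t1 t2 t3
  · rw [if_pos t0]
    rw [List.forall_mem_cons] at h
    obtain ⟨h1, h2⟩ := h
    simp only [Hol, lhs_cons, lhs_nil, bval_one, bval_mone, bval_zer] at h1
    rw [real_inner_comm (x o0) (x (Xn b))] at h1
    exact chq_sound (add_nonneg ha hb) (by linarith) h2
  · rw [if_neg t0, if_pos t1]
    rw [List.forall_mem_cons, List.forall_mem_cons] at h
    obtain ⟨h1, h2, h3⟩ := h
    simp only [Hol, lhs_cons, lhs_nil, bval_one, bval_mone, bval_zer] at h1 h2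
    exact chq_sound (le_min ha hb) (le_min (by linarith) (by linarith)) h3
  · rw [if_neg t0, if_neg t1, if_pos t2]
    rw [List.forall_mem_cons, List.forall_mem_cons, List.forall_mem_cons] at h
    obtain ⟨h1, h2, h3, h4⟩ := h
    simp only [Hol, lhs_cons, lhs_nil, bval_one, bval_mone, bval_zer] at h1 h2 h3
    refine chq_sound (Real.sqrt_nonneg _) ?_ h4
    refine Real.le_sqrt_of_sq_le ?_
    have cs := real_inner_mul_inner_self_le (x (An i)) (x (Bn i))
    have e1 : ⟪x o0, x (Xn a)⟫_ℝ = ⟪x (An i), x (An i)⟫_ℝ := by linarith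
    have e2 : ⟪x o0, x (Xn b)⟫_ℝ = ⟪x (Bn i), x (Bn i)⟫_ℝ := by linarith
    have e3 : ⟪x o0, x (Yy i)⟫_ℝ = ⟪x (An i), x (Bn i)⟫_ℝ := by linarith
    rw [e1, e2, e3, pow_two]
    exact cs
  · rw [if_neg t0, if_neg t1, if_neg t2, if_pos t3]
    have h1 := h _ (List.mem_singleton.2 rfl)
    simp only [Hol, lhs_cons, lhs_nil, bval_one, bval_mone, bval_zer, hT] at h1
    linarith
  · rw [if_neg t0, if_neg t1, if_neg t2, if_neg t3]
    have h1 := h _ (List.mem_singleton.2 rfl)
    simp only [Hol, lhs_cons, lhs_nil, bval_one, bval_mone, bval_zer, hT'] at h1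
    linarith

/-! ### Completeness -/

section Comp

variable (k : ℕ) (T : ℝ) (ty pa pb : ℕ → ℕ) (X : ℕ → ℝ)

/-- the auxiliary number of a position -/
noncomputable def yv (i : ℕ) : ℝ :=
  if ty i = 0 then X (pa i) + X (pb i) else if ty i = 1 then min (X (pa i)) (X (pb i))
  else √(X (pa i) * X (pb i))

/-- the components in the direction of `o0` -/
noncomputable def gw (a : Na) : ℝ :=
  if a.1 = 12 then X a.2.1 else if a.1 = 14 then yv ty pa pb X a.2.1
  else if a.1 = 17 then yv ty pa pb X a.2.1 ^ bet a.2.2.1 else 0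

/-- the components in the other direction -/
noncomputable def gz (a : Na) : ℝ :=
  if a.1 = 13 then √(X a.2.1)
  else if a.1 = 15 then (if ty a.2.1 = 1 then √(X (pa a.2.1) - yv ty pa pb X a.2.1)
    else √(X (pa a.2.1)))
  else if a.1 = 16 then (if ty a.2.1 = 1 then √(X (pb a.2.1) - yv ty pa pb X a.2.1)
    else √(X (pb a.2.1)))
  else if a.1 = 18 then √(yv ty pa pb X a.2.1 ^ bet a.2.2.1)
  else if a.1 = 19 then √(yv ty pa pb X a.2.1)
  else if a.1 = 20 then √(shx k (ty a.2.1) T (X (pa a.2.1)) (X (pb a.2.1)) - X a.2.1)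
  else if a.1 = 21 then √(X 0 - 1)
  else 0

/-- a kernel with the given additional rows -/
structure GKer (K : Na → Na → ℝ) (N : ℕ) : Prop where
  kx : ∀ a b, 11 ≤ a.1 → 11 ≤ b.1 → K a b = gw ty pa pb X a * gw ty pa pb X b +
    gz k T ty pa pb X a * gz k T ty pa pb X b
  k0 : ∀ a, 11 ≤ a.1 → K o0 a = gw ty pa pb X a
  k0' : ∀ a, 11 ≤ a.1 → K a o0 = gw ty pa pb X a
  k00 : K o0 o0 = 1
  kV : K o0 (V (N + 1)) = T
  kV' : K o0 (V (N + 2)) = T⁻¹

variable {k T ty pa pb X}

lemma rpow_chain {y : ℝ} (hy : 0 ≤ y) (j : ℕ) : √(y ^ bet j) * √y = y ^ bet (j + 1) := by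
  have h0 : 0 ≤ y ^ bet j := Real.rpow_nonneg hy _
  have hb := bet_nonneg j
  have h5 : bet (j + 1) = (bet j + 1) * (1 / 2) := by
    unfold bet
    rw [pow_succ]
    field_simp
    ring
  rw [← Real.sqrt_mul h0, Real.sqrt_eq_rpow]
  have h6 : y ^ bet j * y = y ^ (bet j + 1) := by
    rw [Real.rpow_add_of_nonneg hy hb (by norm_num), Real.rpow_one]
  rw [h6, ← Real.rpow_mul hy, ← h5]

lemma yv_nonneg {i : ℕ} (h1 : 0 ≤ X (pa i)) (h2 : 0 ≤ X (pb i)) : 0 ≤ yv ty pa pb X i := by
  unfold yv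
  split_ifs
  · exact add_nonneg h1 h2
  · exact le_min h1 h2
  · exact Real.sqrt_nonneg _

lemma chq_complete {K : Na → Na → ℝ} {N : ℕ} (hK : GKer k T ty pa pb X K N) {i : ℕ}
    (h1 : 0 ≤ X (pa i)) (h2 : 0 ≤ X (pb i))
    (hs : shx k (ty i) T (X (pa i)) (X (pb i)) = yv ty pa pb X i ^ bet k)
    (hX : X i ≤ shx k (ty i) T (X (pa i)) (X (pb i))) : ∀ e ∈ chq k i, Hol K e := by
  have hy := yv_nonneg (ty := ty) h1 h2
  unfold chq
  simp only [List.forall_mem_cons, List.mem_flatMap, List.mem_range, forall_exists_index,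
    and_imp]
  refine ⟨?_, ?_, ?_⟩
  · simp only [Hol, lhs_cons, lhs_nil, bval_one]
    rw [hK.k0 _ (by simp [Cs])]
    simp [gw, Cs, bet]
  · simp only [Hol, lhs_cons, lhs_nil, bval_one, bval_mone, bval_zer]
    rw [hK.k0 _ (by simp [Xn]), hK.k0 _ (by simp [Cs]), hK.kx _ _ (by simp [En]) (by simp [En])]
    have e1 : gw ty pa pb X (Xn i) = X i := by simp [gw, Xn]
    have e2 : gw ty pa pb X (Cs i k) = yv ty pa pb X i ^ bet k := by simp [gw, Cs]
    have e3 : gw ty pa pb X (En i) = 0 := by simp [gw, En]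
    have e4 : gz k T ty pa pb X (En i) = √(yv ty pa pb X i ^ bet k - X i) := by
      simp [gz, En, hs]
    rw [e1, e2, e3, e4, Real.mul_self_sqrt (by rw [← hs]; linarith)]
    ring
  · intro e j _ he
    have e1 : gw ty pa pb X (Cs i j) = yv ty pa pb X i ^ bet j := by simp [gw, Cs]
    have e1' : gw ty pa pb X (Cs i (j + 1)) = yv ty pa pb X i ^ bet (j + 1) := by simp [gw, Cs]
    have e2 : gw ty pa pb X (Yy i) = yv ty pa pb X i := by simp [gw, Yy]
    have e3 : gw ty pa pb X (Cn i j) = 0 := by simp [gw, Cn]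
    have e4 : gw ty pa pb X (Dd i j) = 0 := by simp [gw, Dd]
    have e5 : gz k T ty pa pb X (Cn i j) = √(yv ty pa pb X i ^ bet j) := by simp [gz, Cn]
    have e6 : gz k T ty pa pb X (Dd i j) = √(yv ty pa pb X i) := by simp [gz, Dd]
    simp only [List.mem_cons, List.not_mem_nil, or_false] at he
    rcases he with rfl | rfl | rfl <;>
      simp only [Hol, lhs_cons, lhs_nil, bval_one, bval_mone, bval_zer]
    · rw [hK.kx _ _ (by simp [Cn]) (by simp [Cn]), hK.k0 _ (by simp [Cs]), e1, e3, e5,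
        Real.mul_self_sqrt (Real.rpow_nonneg hy _)]
      ring
    · rw [hK.kx _ _ (by simp [Dd]) (by simp [Dd]), hK.k0 _ (by simp [Yy]), e2, e4, e6,
        Real.mul_self_sqrt hy]
      ring
    · rw [hK.kx _ _ (by simp [Cn]) (by simp [Dd]), hK.k0 _ (by simp [Cs]), e1', e3, e4, e5, e6,
        rpow_chain hy]
      ring

lemma nq_complete {K : Na → Na → ℝ} {N : ℕ} (hK : GKer k T ty pa pb X K N) {i : ℕ}
    (h0 : 0 ≤ X i) (h1 : 0 ≤ X (pa i)) (h2 : 0 ≤ X (pb i))
    (hX : X i ≤ shx k (ty i) T (X (pa i)) (X (pb i))) :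
    ∀ e ∈ nq N k i (ty i) (pa i) (pb i), Hol K e := by
  have hy := yv_nonneg (ty := ty) h1 h2
  have x1 : K o0 (Xn i) = X i := by rw [hK.k0 _ (by simp [Xn])]; simp [gw, Xn]
  have xa : K o0 (Xn (pa i)) = X (pa i) := by rw [hK.k0 _ (by simp [Xn])]; simp [gw, Xn]
  have xb : K o0 (Xn (pb i)) = X (pb i) := by rw [hK.k0 _ (by simp [Xn])]; simp [gw, Xn]
  have xb' : K (Xn (pb i)) o0 = X (pb i) := by rw [hK.k0' _ (by simp [Xn])]; simp [gw, Xn]
  have y1 : K o0 (Yy i) = yv ty pa pb X i := by rw [hK.k0 _ (by simp [Yy])]; simp [gw, Yy]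
  unfold nq
  rw [List.forall_mem_cons]
  refine ⟨?_, ?_⟩
  · simp only [Hol, lhs_cons, lhs_nil, bval_one, bval_mone, bval_zer]
    rw [x1, hK.kx _ _ (by simp [Sn]) (by simp [Sn])]
    have e1 : gw ty pa pb X (Sn i) = 0 := by simp [gw, Sn]
    have e2 : gz k T ty pa pb X (Sn i) = √(X i) := by simp [gz, Sn]
    rw [e1, e2, Real.mul_self_sqrt h0]
    ring
  · have eA : gw ty pa pb X (An i) = 0 := by simp [gw, An]
    have eB : gw ty pa pb X (Bn i) = 0 := by simp [gw, Bn]
    have eE : gw ty pa pb X (En i) = 0 := by simp [gw, En]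
    have eE' : gz k T ty pa pb X (En i) = √(shx k (ty i) T (X (pa i)) (X (pb i)) - X i) := by
      simp [gz, En]
    split_ifs with t0 t1 t2 t3
    · rw [List.forall_mem_cons]
      refine ⟨?_, chq_complete hK h1 h2 ?_ hX⟩
      · simp only [Hol, lhs_cons, lhs_nil, bval_one, bval_mone, bval_zer]
        rw [y1, xa, xb']
        unfold yv
        rw [if_pos t0]
        ring
      · unfold shx yv
        rw [if_pos t0, if_pos t0]
    · have hyv : yv ty pa pb X i = min (X (pa i)) (X (pb i)) := by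
        unfold yv
        rw [if_neg t0, if_pos t1]
      rw [List.forall_mem_cons, List.forall_mem_cons]
      refine ⟨?_, ?_, chq_complete hK h1 h2 ?_ hX⟩
      · simp only [Hol, lhs_cons, lhs_nil, bval_one, bval_mone, bval_zer]
        rw [y1, xa, hK.kx _ _ (by simp [An]) (by simp [An]), eA]
        have e1 : gz k T ty pa pb X (An i) = √(X (pa i) - yv ty pa pb X i) := by
          simp [gz, An, t1]
        rw [e1, Real.mul_self_sqrt (by rw [hyv]; linarith [min_le_left (X (pa i)) (X (pb i))])]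
        ring
      · simp only [Hol, lhs_cons, lhs_nil, bval_one, bval_mone, bval_zer]
        rw [y1, xb, hK.kx _ _ (by simp [Bn]) (by simp [Bn]), eB]
        have e1 : gz k T ty pa pb X (Bn i) = √(X (pb i) - yv ty pa pb X i) := by
          simp [gz, Bn, t1]
        rw [e1, Real.mul_self_sqrt (by rw [hyv]; linarith [min_le_right (X (pa i)) (X (pb i))])]
        ring
      · unfold shx
        rw [if_neg t0, if_pos t1, hyv]
    · have hyv : yv ty pa pb X i = √(X (pa i) * X (pb i)) := by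
        unfold yv
        rw [if_neg t0, if_neg t1]
      rw [List.forall_mem_cons, List.forall_mem_cons, List.forall_mem_cons]
      have e1 : gz k T ty pa pb X (An i) = √(X (pa i)) := by simp [gz, An, t1]
      have e2 : gz k T ty pa pb X (Bn i) = √(X (pb i)) := by simp [gz, Bn, t1]
      refine ⟨?_, ?_, ?_, chq_complete hK h1 h2 ?_ hX⟩
      · simp only [Hol, lhs_cons, lhs_nil, bval_one, bval_mone, bval_zer]
        rw [xa, hK.kx _ _ (by simp [An]) (by simp [An]), eA, e1, Real.mul_self_sqrt h1]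
        ring
      · simp only [Hol, lhs_cons, lhs_nil, bval_one, bval_mone, bval_zer]
        rw [xb, hK.kx _ _ (by simp [Bn]) (by simp [Bn]), eB, e2, Real.mul_self_sqrt h2]
        ring
      · simp only [Hol, lhs_cons, lhs_nil, bval_one, bval_mone, bval_zer]
        rw [y1, hK.kx _ _ (by simp [An]) (by simp [Bn]), eA, eB, e1, e2, hyv, Real.sqrt_mul h1]
        ring
      · unfold shx
        rw [if_neg t0, if_neg t1, if_pos t2, hyv]
    · have hT : shx k (ty i) T (X (pa i)) (X (pb i)) = T := by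
        unfold shx
        rw [if_neg t0, if_neg t1, if_neg t2, if_pos t3]
      intro e he
      rw [List.mem_singleton] at he
      subst he
      rw [hT] at eE' hX
      simp only [Hol, lhs_cons, lhs_nil, bval_one, bval_mone, bval_zer]
      rw [x1, hK.kV, hK.kx _ _ (by simp [En]) (by simp [En]), eE, eE',
        Real.mul_self_sqrt (by linarith)]
      ring
    · have hT : shx k (ty i) T (X (pa i)) (X (pb i)) = T⁻¹ := by
        unfold shx
        rw [if_neg t0, if_neg t1, if_neg t2, if_neg t3]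
      intro e he
      rw [List.mem_singleton] at he
      subst he
      rw [hT] at eE' hX
      simp only [Hol, lhs_cons, lhs_nil, bval_one, bval_mone, bval_zer]
      rw [x1, hK.kV', hK.kx _ _ (by simp [En]) (by simp [En]), eE, eE',
        Real.mul_self_sqrt (by linarith)]
      ring

end Comp

/-- the semidefinite system of a game -/
def gSDP (N n k : ℕ) (ty pa pb : ℕ → ℕ) : SDP := sdpOf (sysX (prg N) ++ gE N n k ty pa pb)

theorem gSDP_iff {N n k : ℕ} {ty pa pb : ℕ → ℕ} (hpa : ∀ i ≤ n, pa i ≤ n)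
    (hpb : ∀ i ≤ n, pb i ≤ n) : gSDP N n k ty pa pb ∈ SDPFeas ↔
      ∃ x : ℕ → ℝ, (∀ i ≤ n, 0 ≤ x i ∧
        x i ≤ shx k (ty i) (2 ^ (2 ^ N)) (x (pa i)) (x (pb i))) ∧ 1 ≤ x 0 := by
  have hOk : ∀ e ∈ sysX (prg N) ++ gE N n k ty pa pb, Ok e := by
    intro e he
    rcases List.mem_append.1 he with he | he
    · exact ok_sysX _ e he
    · exact ok_gE _ _ _ _ _ _ e he
  have pv1 : pv N (N + 1) = 2 ^ (2 ^ N) := pv_succ (le_refl N)
  have pv2 : pv N (N + 2) = (2 ^ (2 ^ N))⁻¹ := pv_last N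
  constructor
  · intro h
    obtain ⟨m, x, v, hx, hv, hl, hE⟩ := sysX_sound hOk h
    have hlen := prg_length N
    have uniq := (prg_values N).unique hv
    have e1 : ⟪x o0, x (V (N + 1))⟫_ℝ = 2 ^ (2 ^ N) := by
      rw [hl _ (by omega), inner_smul_right, hx, mul_one, ← uniq _ (by omega), pv1]
    have e2 : ⟪x o0, x (V (N + 2))⟫_ℝ = (2 ^ (2 ^ N))⁻¹ := by
      rw [hl _ (by omega), inner_smul_right, hx, mul_one, ← uniq _ (by omega), pv2]
    have hnode : ∀ i ≤ n, ∀ e ∈ nq N k i (ty i) (pa i) (pb i),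
        Hol (fun a b => ⟪x a, x b⟫_ℝ) e := fun i hi e he =>
      hE e (List.mem_cons_of_mem _ (List.mem_flatMap.2
        ⟨i, List.mem_range.2 (Nat.lt_succ_of_le hi), he⟩))
    have hnn : ∀ i ≤ n, 0 ≤ ⟪x o0, x (Xn i)⟫_ℝ := by
      intro i hi
      have h1 := hnode i hi ([(one, Sn i, Sn i), (mone, o0, Xn i)], zer) (by simp [nq])
      simp only [Hol, lhs_cons, lhs_nil, bval_one, bval_mone, bval_zer] at h1
      have h2 : 0 ≤ ⟪x (Sn i), x (Sn i)⟫_ℝ := real_inner_self_nonneg
      linarith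
    refine ⟨fun i => ⟪x o0, x (Xn i)⟫_ℝ, fun i hi => ⟨hnn i hi,
      nq_sound e1 e2 (hnn _ (hpa i hi)) (hnn _ (hpb i hi)) (hnode i hi)⟩, ?_⟩
    have h1 := hE _ (List.mem_cons_self)
    simp only [Hol, lhs_cons, lhs_nil, bval_one, bval_mone, bval_zer, hx] at h1
    have h2 : 0 ≤ ⟪x Fn, x Fn⟫_ℝ := real_inner_self_nonneg
    linarith
  · rintro ⟨X, hX, hX0⟩
    set T : ℝ := 2 ^ (2 ^ N) with hT
    obtain ⟨K, w, N', hK, hK0, hE, hKe, hw0, hwV, hwx, hN1, hN2, hNx⟩ :=
      sysX_complete (prg_values N) (gw ty pa pb X) (gz k T ty pa pb X) (fun _ => (0, 0))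
    have hG : GKer k T ty pa pb X K N := by
      refine ⟨?_, ?_, ?_, hK0, ?_, ?_⟩
      · intro a b ha hb
        rw [hKe, hNx a b ha hb, if_pos rfl, hwx a ha, hwx b hb]
      · intro a ha
        rw [hKe, hN1 _ _ (by simp [o0]), hw0, hwx a ha]
        ring
      · intro a ha
        rw [hKe, hN2 _ _ (by simp [o0]), hw0, hwx a ha]
        ring
      · rw [hKe, hN1 _ _ (by simp [o0]), hw0, hwV, pv1]
        ring
      · rw [hKe, hN1 _ _ (by simp [o0]), hw0, hwV, pv2]
        ring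
    refine net_complete hOk hK hK0 fun e he => ?_
    rcases List.mem_append.1 he with he | he
    · exact hE e he
    · rcases List.mem_cons.1 he with rfl | he
      · simp only [Hol, lhs_cons, lhs_nil, bval_one, bval_mone, bval_zer]
        rw [hK0, hG.k0 _ (by simp [Xn]), hG.kx _ _ (by simp [Fn]) (by simp [Fn])]
        have e1 : gw ty pa pb X (Xn 0) = X 0 := by simp [gw, Xn]
        have e2 : gw ty pa pb X Fn = 0 := by simp [gw, Fn]
        have e3 : gz k T ty pa pb X Fn = √(X 0 - 1) := by simp [gz, Fn]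
        rw [e1, e2, e3, Real.mul_self_sqrt (by linarith)]
        ring
      · obtain ⟨i, hi, he⟩ := List.mem_flatMap.1 he
        have hi' : i ≤ n := Nat.lt_succ_iff.1 (List.mem_range.1 hi)
        exact nq_complete hG (hX i hi').1 (hX _ (hpa i hi')).1 (hX _ (hpb i hi')).1 (hX i hi').2
          e he

end Pool.Agent.Helper7.SC
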