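import Pool.Agent.Helper7.SC.Alt

/-!
# The equations of the gates, and their soundness
-/

open scoped InnerProductSpace

namespace Pool.Agent.Helper7.SC

open Pool.Agent.Helper92.Theta Pool.Agent.Helper95.Slp

/-! ### Names -/

/-- the row of a value -/
def V (c : ℕ) : Na := (1, c, 0, 0)
/-- auxiliary row -/
def U (c : ℕ) : Na := (2, c, 0, 0)
/-- auxiliary row -/
def Aa (c : ℕ) : Na := (3, c, 0, 0)
/-- auxiliary row -/
def Bb (c : ℕ) : Na := (4, c, 0, 0)
/-- rows of the matrix of a semidefinite gate -/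
def Yn (K i : ℕ) : Na := (5, K, i, 0)
/-- rows of the matrix of the alternative -/
def Zn (K i : ℕ) : Na := (6, K, i, 0)
/-- entries of the matrix -/
def Rn (K i j : ℕ) : Na := (7, K, i, j)
/-- multipliers -/
def Mn (K l : ℕ) : Na := (8, K, l, 0)
/-- copies of the multipliers -/
def Mc (K l : ℕ) : Na := (9, K, l, 0)
/-- the multiplier of the trace -/
def Dn (K : ℕ) : Na := (10, K, 0, 0)

/-! ### Basic gates -/

/-- The equations of a basic gate with operands in the rows `I`, `J`, value in the row `T`. -/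
def bq (op : ℕ) (I J T U A B : Na) (z : BInt) : List Eqn :=
  if op = 0 then [([(one, o0, T)], z), ([(one, T, T), (bneg z, o0, T)], zer)]
  else if op = 1 then [([(one, o0, T), (mone, o0, I), (mone, J, o0)], zer),
    ([(one, T, T), (mone, I, T), (mone, T, J)], zer)]
  else if op = 2 then [([(one, o0, T), (mone, o0, I), (one, J, o0)], zer),
    ([(one, T, T), (mone, I, T), (one, T, J)], zer)]
  else if op = 3 then [([(one, o0, T), (mone, I, J)], zer), ([(one, o0, U), (mone, J, T)], zer),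
    ([(one, T, T), (mone, I, U)], zer)]
  else if op = 4 then [([(one, J, T), (mone, o0, I)], zer), ([(one, o0, U), (mone, T, T)], zer),
    ([(one, J, U), (mone, I, T)], zer), ([(one, A, B)], one), ([(one, B, B), (mone, J, J)], zer)]
  else if op = 5 then [([(one, o0, I), (mone, I, T)], zer), ([(one, T, T), (mone, o0, T)], zer),
    ([(one, B, B), (mone, I, I)], zer), ([(one, A, B), (mone, o0, T)], zer)]
  else [([(one, T, T), (mone, o0, I)], zer), ([(one, A, A), (mone, o0, T)], zer),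
    ([(one, A, B), (mone, o0, I)], zer), ([(one, B, B), (mone, I, T)], zer)]

/-- The equations of the basic gate number `K`. -/
def gq (K : ℕ) (g : Gate) : List Eqn :=
  bq g.1 (V (idx K g.2.1)) (V (idx K g.2.2.1)) (V (K + 1)) (U (K + 1)) (Aa (K + 1)) (Bb (K + 1))
    g.2.2.2

variable {H : Type} [NormedAddCommGroup H] [InnerProductSpace ℝ H]

lemma lock {e t : H} (he : ⟪e, e⟫_ℝ = 1) (h : ⟪t, t⟫_ℝ = ⟪e, t⟫_ℝ * ⟪e, t⟫_ℝ) :
    t = ⟪e, t⟫_ℝ • e := by
  have h1 : t - ⟪e, t⟫_ℝ • e = 0 := by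
    rw [← inner_self_eq_zero (𝕜 := ℝ), inner_sub_left, inner_sub_right, inner_sub_right,
      inner_smul_left, inner_smul_right, inner_smul_left, inner_smul_right, he, h,
      real_inner_comm e t]
    simp only [RCLike.conj_to_real]
    ring
  exact sub_eq_zero.1 h1

lemma bval_zer : (ival zer : ℝ) = 0 := by rw [ival_zer, Int.cast_zero]
lemma bval_one : (ival one : ℝ) = 1 := by rw [Helper95.Slp.ival_one, Int.cast_one]
lemma bval_mone : (ival mone : ℝ) = -1 := by rw [ival_mone, Int.cast_neg, Int.cast_one]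

theorem basic_sound {x : Na → H} (hx : ⟪x o0, x o0⟫_ℝ = 1) {op : ℕ} {z : BInt}
    {I J T U A B : Na} {vi vj : ℝ} (hI : x I = vi • x o0) (hJ : x J = vj • x o0)
    (h : ∀ a ∈ bq op I J T U A B z, Hol (fun a b => ⟪x a, x b⟫_ℝ) a) :
    Res op (ival z) vi vj ⟪x o0, x T⟫_ℝ ∧
      x T = ⟪x o0, x T⟫_ℝ • x o0 := by
  have iI : ∀ p, ⟪x I, p⟫_ℝ = vi * ⟪x o0, p⟫_ℝ := fun p => by
    rw [hI, inner_smul_left, RCLike.conj_to_real]
  have iJ : ∀ p, ⟪x J, p⟫_ℝ = vj * ⟪x o0, p⟫_ℝ := fun p => by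
    rw [hJ, inner_smul_left, RCLike.conj_to_real]
  have i0I : ⟪x o0, x I⟫_ℝ = vi := by rw [real_inner_comm, iI, hx, mul_one]
  have i0J : ⟪x o0, x J⟫_ℝ = vj := by rw [real_inner_comm, iJ, hx, mul_one]
  have iTJ : ⟪x T, x J⟫_ℝ = vj * ⟪x o0, x T⟫_ℝ := by rw [real_inner_comm, iJ]
  obtain ⟨t, ht⟩ : ∃ t, t = ⟪x o0, x T⟫_ℝ := ⟨_, rfl⟩
  rw [← ht]
  suffices hh : Res op (ival z) vi vj t ∧ ⟪x T, x T⟫_ℝ = t * t by
    refine ⟨hh.1, ?_⟩
    have := lock hx (t := x T) (by rw [← ht]; exact hh.2)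
    rwa [← ht] at this
  have csAB := real_inner_mul_inner_self_le (x A) (x B)
  have cs0T := real_inner_mul_inner_self_le (x o0) (x T)
  have nA : 0 ≤ ⟪x A, x A⟫_ℝ := real_inner_self_nonneg
  match op, h with
  | 0, h =>
    simp only [bq, if_true, List.forall_mem_cons, List.not_mem_nil, false_implies,
      implies_true, and_true, Hol, lhs, List.map_cons, List.map_nil, List.sum_cons, List.sum_nil,
      add_zero, bval_one, bval_zer, ival_bneg, one_mul, ← ht] at h
    obtain ⟨h1, h2⟩ := h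
    refine ⟨h1, ?_⟩
    push_cast at h2
    rw [← h1] at h2
    linarith
  | 1, h =>
    simp only [bq, one_ne_zero, if_true, if_false, List.forall_mem_cons, List.not_mem_nil,
      false_implies, implies_true, and_true, Hol, lhs, List.map_cons, List.map_nil, List.sum_cons,
      List.sum_nil, add_zero, bval_one, bval_mone, bval_zer, one_mul, iI, iJ, iTJ, i0I, hx, ← ht]
      at h
    obtain ⟨h1, h2⟩ := h
    have h3 : t = vi + vj := by linarith
    refine ⟨h3, ?_⟩
    rw [h3] at h2 ⊢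
    linarith
  | 2, h =>
    simp only [bq, OfNat.ofNat_ne_zero, OfNat.ofNat_ne_one, if_true, if_false,
      List.forall_mem_cons, List.not_mem_nil, false_implies, implies_true, and_true, Hol, lhs,
      List.map_cons, List.map_nil, List.sum_cons,
      List.sum_nil, add_zero, bval_one, bval_mone, bval_zer, one_mul, iI, iJ, iTJ, i0I, hx, ← ht]
      at h
    obtain ⟨h1, h2⟩ := h
    have h3 : t = vi - vj := by linarith
    refine ⟨h3, ?_⟩
    rw [h3] at h2 ⊢
    linarith
  | 3, h =>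
    simp only [bq, OfNat.ofNat_ne_zero, OfNat.ofNat_ne_one, if_true, if_false,
      List.forall_mem_cons, List.not_mem_nil, false_implies, implies_true, and_true,
      Nat.reduceEqDiff, Hol, lhs, List.map_cons, List.map_nil, List.sum_cons,
      List.sum_nil, add_zero, bval_one, bval_mone, bval_zer, one_mul, iI, iJ, i0J, ← ht] at h
    obtain ⟨h1, h2, h3⟩ := h
    have h4 : t = vi * vj := by linarith
    refine ⟨h4, ?_⟩
    have h5 : ⟪x o0, x U⟫_ℝ = vj * t := by linarith
    rw [h5] at h3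
    have h6 : ⟪x T, x T⟫_ℝ = vi * vj * t := by linarith
    rw [h6, ← h4]
  | 4, h =>
    simp only [bq, OfNat.ofNat_ne_zero, OfNat.ofNat_ne_one, if_true, if_false,
      List.forall_mem_cons, List.not_mem_nil, false_implies, implies_true, and_true,
      Nat.reduceEqDiff, Hol, lhs, List.map_cons, List.map_nil, List.sum_cons,
      List.sum_nil, add_zero, bval_one, bval_mone, bval_zer, one_mul, iI, iJ, i0I, i0J, ← ht] at h
    obtain ⟨h1, h2, h3, h4, h5⟩ := h
    have h7 : ⟪x B, x B⟫_ℝ = vj * vj := by linarith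
    rw [h4, h7] at csAB
    have h8 : vj ≠ 0 := by
      rintro rfl
      norm_num at csAB
    have h9 : vj * t = vi := by linarith
    have h10 : t = vi / vj := by
      rw [eq_div_iff h8]
      linarith
    refine ⟨⟨h8, h10⟩, ?_⟩
    have h11 : vj * ⟪x T, x T⟫_ℝ = vj * (t * t) := by
      have h12 : ⟪x o0, x U⟫_ℝ = ⟪x T, x T⟫_ℝ := by linarith
      rw [h12] at h3
      have h13 : vj * ⟪x T, x T⟫_ℝ = vi * t := by linarith
      rw [h13, ← h9]
      ring
    exact mul_left_cancel₀ h8 h11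
  | 5, h =>
    simp only [bq, OfNat.ofNat_ne_zero, OfNat.ofNat_ne_one, if_true, if_false,
      List.forall_mem_cons, List.not_mem_nil, false_implies, implies_true, and_true,
      Nat.reduceEqDiff, Hol, lhs, List.map_cons, List.map_nil, List.sum_cons,
      List.sum_nil, add_zero, bval_one, bval_mone, bval_zer, one_mul, iI, i0I, ← ht] at h
    obtain ⟨h1, h2, h3, h4⟩ := h
    have h6 : ⟪x A, x B⟫_ℝ = t := by linarith
    have h7 : ⟪x B, x B⟫_ℝ = vi * vi := by linarith
    have h8 : ⟪x T, x T⟫_ℝ = t := by linarith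
    rw [h6, h7] at csAB
    have h9 : vi = 0 → t = 0 := by
      rintro rfl
      have : t * t ≤ 0 := by linarith
      exact mul_self_eq_zero.1 (le_antisymm this (mul_self_nonneg _))
    have h10 : vi ≠ 0 → t = 1 := by
      intro hv
      have : vi * t = vi * 1 := by linarith
      exact mul_left_cancel₀ hv this
    refine ⟨⟨h9, h10⟩, ?_⟩
    rw [h8]
    by_cases hv : vi = 0
    · rw [h9 hv, mul_zero]
    · rw [h10 hv, mul_one]
  | n + 6, h =>
    have e0 : ¬ (n + 6 = 0) := by omega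
    have e1 : ¬ (n + 6 = 1) := by omega
    have e2 : ¬ (n + 6 = 2) := by omega
    have e3 : ¬ (n + 6 = 3) := by omega
    have e4 : ¬ (n + 6 = 4) := by omega
    have e5 : ¬ (n + 6 = 5) := by omega
    simp only [bq, e0, e1, e2, e3, e4, e5, if_false, List.forall_mem_cons, List.not_mem_nil,
      false_implies, implies_true, and_true, Hol, lhs, List.map_cons, List.map_nil, List.sum_cons,
      List.sum_nil, add_zero, bval_one, bval_mone, bval_zer, one_mul, iI, i0I, ← ht] at h
    obtain ⟨h1, h2, h3, h4⟩ := h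
    have k1 : ⟪x T, x T⟫_ℝ = vi := by linarith
    have k2 : ⟪x A, x A⟫_ℝ = t := by linarith
    have k3 : ⟪x A, x B⟫_ℝ = vi := by linarith
    have k4 : ⟪x B, x B⟫_ℝ = vi * t := by linarith
    rw [k2] at nA
    rw [k2, k3, k4] at csAB
    rw [hx, k1, ← ht] at cs0T
    have c4 : t * t = vi := sqrt_aux nA csAB cs0T
    exact ⟨⟨nA, c4⟩, by rw [k1, c4]⟩

/-! ### Semidefinite gates -/

/-- the position of the right side number `l` -/
def pB (n l : ℕ) : ℕ := 1 + l * (n * n + 1)

/-- the position of the entry `(i, j)` of the matrix number `l` -/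
def pA (n l i j : ℕ) : ℕ := 1 + l * (n * n + 1) + 1 + n * i + j

/-- The semidefinite system with the data `d` is feasible. -/
def feas (n m : ℕ) (d : ℕ → ℝ) : Prop :=
  ∃ Y : Matrix (Fin n) (Fin n) ℝ, Y.PosSemidef ∧ ∑ i, Y i i = d 0 ∧
    ∀ l < m, ∑ i : Fin n, ∑ j : Fin n, d (pA n l i j) * Y i j = d (pB n l)

/-- the number two -/
def mtwo : BInt := (false, [false, true])

lemma bval_two : (ival two : ℝ) = 2 := by rw [ival_two]; norm_num

lemma bval_mtwo : (ival mtwo : ℝ) = -2 := by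
  simp [mtwo, ival, bval]

/-- The equations of a semidefinite gate; `W u` is the row of the datum number `u`. -/
def sq (K : ℕ) (W : ℕ → Na) (n m : ℕ) : List Eqn :=
  [([(one, V (K + 1), V (K + 1)), (mone, o0, V (K + 1))], zer)] ++
  ((List.range n).flatMap fun i => (List.range n).map fun j =>
    ([(one, Yn K i, Yn K j), (mone, o0, Rn K i j)], zer)) ++
  [((mone, W 0, V (K + 1)) :: (List.range n).map fun i => (one, o0, Rn K i i), zer)] ++
  ((List.range m).map fun l => ((mone, W (pB n l), V (K + 1)) ::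
    (List.range n).flatMap fun i => (List.range n).map fun j =>
      (one, W (pA n l i j), Rn K i j), zer)) ++
  ((List.range n).flatMap fun i => (List.range n).map fun j =>
    ((two, Zn K i, Zn K j) :: (if i = j then mtwo else zer, o0, Dn K) ::
      (((List.range m).map fun l => (mone, W (pA n l i j), Mn K l)) ++
      (List.range m).map fun l => (mone, W (pA n l j i), Mc K l)), zer)) ++
  ((List.range m).map fun l => ([(one, o0, Mn K l), (mone, o0, Mc K l)], zer)) ++
  [((one, o0, o0) :: (mone, o0, V (K + 1)) :: (one, W 0, Dn K) ::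
    (List.range m).map fun l => (one, W (pB n l), Mn K l), zer)]

lemma sum_list_range (n : ℕ) (f : ℕ → ℝ) :
    ((List.range n).map f).sum = ∑ i : Fin n, f i := by
  rw [← Finset.sum_range]
  induction n with
  | zero => simp
  | succ n ih => rw [List.range_succ, List.map_append, List.sum_append, ih,
      Finset.sum_range_succ]; simp

lemma lhs_nil (y : Na → Na → ℝ) : lhs y [] = 0 := rfl

lemma lhs_cons (y : Na → Na → ℝ) (t : Te) (l : List Te) :
    lhs y (t :: l) = ival t.1 * y t.2.1 t.2.2 + lhs y l := by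
  simp [lhs]

lemma lhs_append (y : Na → Na → ℝ) (l l' : List Te) : lhs y (l ++ l') = lhs y l + lhs y l' := by
  simp [lhs]

lemma lhs_range (y : Na → Na → ℝ) (n : ℕ) (g : ℕ → Te) :
    lhs y ((List.range n).map g) = ∑ i : Fin n, (ival (g i).1 : ℝ) * y (g i).2.1 (g i).2.2 := by
  unfold lhs
  rw [List.map_map]
  exact sum_list_range n _

lemma lhs_range2 (y : Na → Na → ℝ) (n m : ℕ) (g : ℕ → ℕ → Te) :
    lhs y ((List.range n).flatMap fun i => (List.range m).map (g i)) =
      ∑ i : Fin n, ∑ j : Fin m, (ival (g i j).1 : ℝ) * y (g i j).2.1 (g i j).2.2 := by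
  rw [← Finset.sum_range (f := fun i => ∑ j : Fin m, (ival (g i j).1 : ℝ) *
    y (g i j).2.1 (g i j).2.2)]
  induction n with
  | zero => simp [lhs]
  | succ n ih => rw [List.range_succ, List.flatMap_append, lhs_append, ih,
      Finset.sum_range_succ]; simp [lhs_range]

/-- The meaning of the equations of a semidefinite gate. -/
structure Sem (y : Na → Na → ℝ) (K : ℕ) (W : ℕ → Na) (n m : ℕ) : Prop where
  h1 : y (V (K + 1)) (V (K + 1)) = y o0 (V (K + 1))
  h2 : ∀ i < n, ∀ j < n, y (Yn K i) (Yn K j) = y o0 (Rn K i j)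
  h3 : ∑ i : Fin n, y o0 (Rn K i i) = y (W 0) (V (K + 1))
  h4 : ∀ l < m, ∑ i : Fin n, ∑ j : Fin n, y (W (pA n l i j)) (Rn K i j) =
    y (W (pB n l)) (V (K + 1))
  h5 : ∀ i < n, ∀ j < n, 2 * y (Zn K i) (Zn K j) = (if i = j then 2 * y o0 (Dn K) else 0) +
    (∑ l : Fin m, y (W (pA n l i j)) (Mn K l) + ∑ l : Fin m, y (W (pA n l j i)) (Mc K l))
  h6 : ∀ l < m, y o0 (Mn K l) = y o0 (Mc K l)
  h7 : y (W 0) (Dn K) + ∑ l : Fin m, y (W (pB n l)) (Mn K l) = y o0 (V (K + 1)) - y o0 o0

lemma sem_iff (y : Na → Na → ℝ) (K : ℕ) (W : ℕ → Na) (n m : ℕ) :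
    (∀ e ∈ sq K W n m, Hol y e) ↔ Sem y K W n m := by
  unfold sq
  simp only [List.forall_mem_append, List.forall_mem_cons, List.not_mem_nil, false_implies,
    implies_true, and_true, List.mem_flatMap, List.mem_map, List.mem_range, forall_exists_index,
    and_imp, forall_apply_eq_imp_iff₂]
  constructor
  · rintro ⟨⟨⟨⟨⟨⟨h1, h2⟩, h3⟩, h4⟩, h5⟩, h6⟩, h7⟩
    refine ⟨?_, ?_, ?_, ?_, ?_, ?_, ?_⟩
    · simp only [Hol, lhs_cons, lhs_nil, bval_one, bval_mone, bval_zer] at h1
      linarith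
    · intro i hi j hj
      have h := h2 _ i hi j hj rfl
      simp only [Hol, lhs_cons, lhs_nil, bval_one, bval_mone, bval_zer] at h
      linarith
    · simp only [Hol, lhs_cons, lhs_range, bval_one, bval_mone, bval_zer, one_mul] at h3
      linarith
    · intro l hl
      have h := h4 l hl
      simp only [Hol, lhs_cons, lhs_range2, bval_one, bval_mone, bval_zer, one_mul] at h
      linarith
    · intro i hi j hj
      have h := h5 _ i hi j hj rfl
      simp only [Hol, lhs_cons, lhs_append, lhs_range, bval_two, bval_mone, bval_zer, neg_mul,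
        one_mul, Finset.sum_neg_distrib] at h
      by_cases hij : i = j
      · rw [if_pos hij, bval_mtwo] at h
        rw [if_pos hij]
        linarith
      · rw [if_neg hij, bval_zer] at h
        rw [if_neg hij]
        linarith
    · intro l hl
      have h := h6 l hl
      simp only [Hol, lhs_cons, lhs_nil, bval_one, bval_mone, bval_zer] at h
      linarith
    · simp only [Hol, lhs_cons, lhs_range, bval_one, bval_mone, bval_zer, one_mul] at h7
      linarith
  · rintro ⟨h1, h2, h3, h4, h5, h6, h7⟩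
    refine ⟨⟨⟨⟨⟨⟨?_, ?_⟩, ?_⟩, ?_⟩, ?_⟩, ?_⟩, ?_⟩
    · simp only [Hol, lhs_cons, lhs_nil, bval_one, bval_mone, bval_zer]
      linarith
    · rintro _ i hi j hj rfl
      have h := h2 i hi j hj
      simp only [Hol, lhs_cons, lhs_nil, bval_one, bval_mone, bval_zer]
      linarith
    · simp only [Hol, lhs_cons, lhs_range, bval_one, bval_mone, bval_zer, one_mul]
      linarith
    · intro l hl
      have h := h4 l hl
      simp only [Hol, lhs_cons, lhs_range2, bval_one, bval_mone, bval_zer, one_mul]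
      linarith
    · rintro _ i hi j hj rfl
      have h := h5 i hi j hj
      simp only [Hol, lhs_cons, lhs_append, lhs_range, bval_two, bval_mone, bval_zer, neg_mul,
        one_mul, Finset.sum_neg_distrib]
      by_cases hij : i = j
      · rw [if_pos hij] at h
        rw [if_pos hij, bval_mtwo]
        linarith
      · rw [if_neg hij] at h
        rw [if_neg hij, bval_zer]
        linarith
    · intro l hl
      have h := h6 l hl
      simp only [Hol, lhs_cons, lhs_nil, bval_one, bval_mone, bval_zer]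
      linarith
    · simp only [Hol, lhs_cons, lhs_range, bval_one, bval_mone, bval_zer, one_mul]
      linarith

lemma psd_mul_nonneg {n : ℕ} {P Q : Matrix (Fin n) (Fin n) ℝ} (hP : P.PosSemidef)
    (hQ : Q.PosSemidef) : 0 ≤ ∑ i, ∑ j, P i j * Q i j := by
  obtain ⟨m, y, hy⟩ := exists_vectors hQ
  have e1 : ∀ i j, P i j * Q i j = ∑ k : Fin m, y i k * P i j * y j k := by
    intro i j
    rw [← hy i j, PiLp.inner_apply, Finset.mul_sum]
    refine Finset.sum_congr rfl fun k _ => ?_
    simp only [RCLike.inner_apply, conj_trivial]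
    ring
  have h1 : ∑ i, ∑ j, P i j * Q i j = ∑ k : Fin m, ∑ i, ∑ j, y i k * P i j * y j k := by
    simp only [e1]
    calc ∑ i, ∑ j, ∑ k : Fin m, y i k * P i j * y j k =
        ∑ i, ∑ k : Fin m, ∑ j, y i k * P i j * y j k :=
          Finset.sum_congr rfl fun i _ => Finset.sum_comm
      _ = _ := Finset.sum_comm
  rw [h1]
  exact Finset.sum_nonneg fun k _ => (psd_iff.1 hP).2 fun i => y i k

theorem sdp_sound {x : Na → H} (hx : ⟪x o0, x o0⟫_ℝ = 1) {K n m : ℕ} {W : ℕ → Na} {d : ℕ → ℝ}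
    (hW : ∀ u, x (W u) = d u • x o0) (h : Sem (fun a b => ⟪x a, x b⟫_ℝ) K W n m) :
    ((feas n m d → ⟪x o0, x (V (K + 1))⟫_ℝ = 1) ∧
      (¬ feas n m d → ⟪x o0, x (V (K + 1))⟫_ℝ = 0)) ∧
      x (V (K + 1)) = ⟪x o0, x (V (K + 1))⟫_ℝ • x o0 := by
  have iW : ∀ u p, ⟪x (W u), p⟫_ℝ = d u * ⟪x o0, p⟫_ℝ := fun u p => by
    rw [hW, inner_smul_left, RCLike.conj_to_real]
  obtain ⟨h1, h2, h3, h4, h5, h6, h7⟩ := h
  obtain ⟨b, hb⟩ : ∃ b, b = ⟪x o0, x (V (K + 1))⟫_ℝ := ⟨_, rfl⟩
  simp only [iW, ← hb, hx] at h1 h3 h4 h5 h7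
  have hcs := real_inner_mul_inner_self_le (x o0) (x (V (K + 1)))
  rw [hx, h1, ← hb] at hcs
  have hb0 : 0 ≤ b := by
    rw [← h1]
    exact real_inner_self_nonneg
  have hb1 : b ≤ 1 := by
    by_contra hlt
    push Not at hlt
    nlinarith
  rw [← hb]
  have hfeas : feas n m d → b = 1 := by
    rintro ⟨Y, hY, hY1, hY2⟩
    set A : Fin m → Matrix (Fin n) (Fin n) ℝ := fun l => Matrix.of fun i j => d (pA n l i j)
      with hA
    have hZ : (Matrix.of fun i j : Fin n => ⟪x (Zn K i), x (Zn K j)⟫_ℝ :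
        Matrix (Fin n) (Fin n) ℝ) = ZZ A ⟪x o0, x (Dn K)⟫_ℝ (fun l => ⟪x o0, x (Mn K l)⟫_ℝ) := by
      ext i j
      have h8 := h5 i i.2 j j.2
      unfold ZZ
      rw [Matrix.of_apply, Matrix.of_apply]
      have h9 : ∑ l : Fin m, d (pA n l j i) * ⟪x o0, x (Mc K l)⟫_ℝ =
          ∑ l : Fin m, d (pA n l j i) * ⟪x o0, x (Mn K l)⟫_ℝ :=
        Finset.sum_congr rfl fun l _ => by rw [← h6 l l.2]
      rw [h9] at h8
      have h10 : ∑ l : Fin m, ⟪x o0, x (Mn K l)⟫_ℝ * ((A l i j + A l j i) / 2) =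
          (∑ l : Fin m, d (pA n l i j) * ⟪x o0, x (Mn K l)⟫_ℝ +
            ∑ l : Fin m, d (pA n l j i) * ⟪x o0, x (Mn K l)⟫_ℝ) / 2 := by
        rw [← Finset.sum_add_distrib, Finset.sum_div]
        refine Finset.sum_congr rfl fun l _ => ?_
        simp only [hA, Matrix.of_apply]
        ring
      rw [h10]
      by_cases hij : i = j
      · rw [if_pos hij]
        rw [if_pos (by rw [hij])] at h8
        linarith
      · rw [if_neg hij]
        rw [if_neg (fun h => hij (Fin.ext h))] at h8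
        linarith
    have hpsd : (Matrix.of fun i j : Fin n => ⟪x (Zn K i), x (Zn K j)⟫_ℝ :
        Matrix (Fin n) (Fin n) ℝ).PosSemidef := gram_posSemidef fun i : Fin n => x (Zn K i)
    have h11 := psd_mul_nonneg hpsd hY
    rw [hZ, zz_pair _ _ _ _ (psd_iff.1 hY).1, hY1] at h11
    have h12 : ∑ l : Fin m, ⟪x o0, x (Mn K l)⟫_ℝ * ∑ i, ∑ j, A l i j * Y i j =
        ∑ l : Fin m, d (pB n l) * ⟪x o0, x (Mn K l)⟫_ℝ := by
      refine Finset.sum_congr rfl fun l _ => ?_
      rw [← hY2 l l.2]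
      simp only [hA, Matrix.of_apply]
      ring
    rw [h12] at h11
    have h13 : ⟪x o0, x (Dn K)⟫_ℝ * d 0 = d 0 * ⟪x o0, x (Dn K)⟫_ℝ := by ring
    rw [h13] at h11
    linarith
  have hnot : ¬ feas n m d → b = 0 := by
    intro hf
    by_contra hne
    have hbp : 0 < b := lt_of_le_of_ne hb0 (Ne.symm hne)
    apply hf
    have hpsd : (Matrix.of fun i j : Fin n => ⟪x (Yn K i), x (Yn K j)⟫_ℝ :
        Matrix (Fin n) (Fin n) ℝ).PosSemidef := gram_posSemidef fun i : Fin n => x (Yn K i)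
    refine ⟨b⁻¹ • (Matrix.of fun i j : Fin n => ⟪x (Yn K i), x (Yn K j)⟫_ℝ),
      hpsd.smul (inv_pos.2 hbp).le, ?_, ?_⟩
    · have h8 : ∑ i : Fin n, (b⁻¹ • (Matrix.of fun i j : Fin n => ⟪x (Yn K i), x (Yn K j)⟫_ℝ)) i i =
          b⁻¹ * ∑ i : Fin n, ⟪x o0, x (Rn K i i)⟫_ℝ := by
        rw [Finset.mul_sum]
        refine Finset.sum_congr rfl fun i _ => ?_
        rw [Matrix.smul_apply, Matrix.of_apply, smul_eq_mul, ← h2 i i.2 i i.2]
      rw [h8, h3]
      field_simp
    · intro l hl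
      have h8 : ∑ i : Fin n, ∑ j : Fin n, d (pA n l i j) *
          (b⁻¹ • (Matrix.of fun i j : Fin n => ⟪x (Yn K i), x (Yn K j)⟫_ℝ)) i j =
          b⁻¹ * ∑ i : Fin n, ∑ j : Fin n, d (pA n l i j) * ⟪x o0, x (Rn K i j)⟫_ℝ := by
        rw [Finset.mul_sum]
        refine Finset.sum_congr rfl fun i _ => ?_
        rw [Finset.mul_sum]
        refine Finset.sum_congr rfl fun j _ => ?_
        rw [Matrix.smul_apply, Matrix.of_apply, smul_eq_mul, ← h2 i i.2 j j.2]
        ring
      rw [h8, h4 l hl]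
      field_simp
  refine ⟨⟨hfeas, hnot⟩, ?_⟩
  have hbb : ⟪x (V (K + 1)), x (V (K + 1))⟫_ℝ =
      ⟪x o0, x (V (K + 1))⟫_ℝ * ⟪x o0, x (V (K + 1))⟫_ℝ := by
    rw [h1, ← hb]
    by_cases hf : feas n m d
    · rw [hfeas hf, mul_one]
    · rw [hnot hf, mul_zero]
  have := lock hx hbb
  rwa [← hb] at this

end Pool.Agent.Helper7.SC
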