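import Pool.Agent.Helper7.SC.Compl

/-!
# Programs with semidefinite gates
-/

open scoped InnerProductSpace

namespace Pool.Agent.Helper7.SC

open Pool.Agent.Helper92.Theta Pool.Agent.Helper95.Slp

/-- A gate: `(false, g)` is a basic gate, `(true, n, p, m, _)` is a semidefinite gate with `n` rows
and `m` equations whose data are the values from number `p` on. -/
abbrev XGate : Type := Bool × Gate

/-- In programs the value number `c` of the circuit has the number `6 c`. -/
def rd (K q : ℕ) : ℕ := 6 * idx (K / 6) q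

lemma rd_le (K q : ℕ) : rd K q ≤ K := by
  unfold rd idx
  split_ifs <;> omega

/-- `v (K + 1)` is the value of the gate. -/
def XRes (K : ℕ) (v : ℕ → ℝ) (g : XGate) : Prop :=
  if g.1 = true then
    (feas g.2.1 g.2.2.2.1 (fun u => v (rd K (g.2.2.1 + u))) → v (K + 1) = 1) ∧
      (¬ feas g.2.1 g.2.2.2.1 (fun u => v (rd K (g.2.2.1 + u))) → v (K + 1) = 0)
  else Res g.2.1 (ival g.2.2.2.2) (v (idx K g.2.2.1)) (v (idx K g.2.2.2.1)) (v (K + 1))

/-- `v` is the sequence of the values of the program `P`. -/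
def XValues (P : List XGate) (v : ℕ → ℝ) : Prop :=
  v 0 = 1 ∧ ∀ K g, P[K]? = some g → XRes K v g

/-- The equations of the gate number `K`. -/
def xq (K : ℕ) (g : XGate) : List Eqn :=
  if g.1 = true then sq K (fun u => V (rd K (g.2.2.1 + u))) g.2.1 g.2.2.2.1 else gq K g.2

/-- a default gate -/
def xg0 : XGate := (false, g0)

/-- The equations of a program. -/
def sysX (P : List XGate) : List Eqn :=
  [([(one, o0, V 0)], one), ([(one, V 0, V 0)], one)] ++
    (List.range P.length).flatMap fun K => xq K ((P[K]?).getD xg0)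

lemma mem_sysX {P : List XGate} {K : ℕ} {g : XGate} (hg : P[K]? = some g) {e : Eqn}
    (he : e ∈ xq K g) : e ∈ sysX P := by
  have hK : K < P.length := (List.getElem?_eq_some_iff.1 hg).1
  exact List.mem_append_right _ (List.mem_flatMap.2 ⟨K, List.mem_range.2 hK, by
    rw [hg, Option.getD_some]; exact he⟩)

lemma idx_le' (k i : ℕ) : idx k i ≤ k := by unfold idx; split_ifs <;> omega

/-- **Soundness.** -/
theorem sysX_sound {P : List XGate} {E' : List Eqn} (hOk : ∀ e ∈ sysX P ++ E', Ok e)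
    (h : sdpOf (sysX P ++ E') ∈ SDPFeas) :
    ∃ (m : ℕ) (x : Na → EuclideanSpace ℝ (Fin m)) (v : ℕ → ℝ), ⟪x o0, x o0⟫_ℝ = 1 ∧
      XValues P v ∧ (∀ c ≤ P.length, x (V c) = v c • x o0) ∧
      ∀ e ∈ E', Hol (fun a b => ⟪x a, x b⟫_ℝ) e := by
  obtain ⟨m, x, hx, hE⟩ := net_sound hOk h
  set v : ℕ → ℝ := fun c => ⟪x o0, x (V c)⟫_ℝ with hv
  have hbase : v 0 = 1 ∧ x (V 0) = v 0 • x o0 := by
    have h1 := hE ([(one, o0, V 0)], one) (List.mem_append_left _ (List.mem_append_left _ (by simp)))
    have h2 := hE ([(one, V 0, V 0)], one) (List.mem_append_left _ (List.mem_append_left _ (by simp)))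
    simp only [Hol, lhs_cons, lhs_nil, bval_one, one_mul, add_zero] at h1 h2
    have h3 : v 0 = 1 := h1
    refine ⟨h3, lock hx ?_⟩
    rw [h2]
    change 1 = v 0 * v 0
    rw [h3, mul_one]
  have key : ∀ c, c ≤ P.length → x (V c) = v c • x o0 ∧
      ∀ K g, c = K + 1 → P[K]? = some g → XRes K v g := by
    intro c
    induction c using Nat.strong_induction_on with
    | _ c ih =>
      intro hc
      rcases c with _ | K
      · exact ⟨hbase.2, fun K g h => absurd h (by omega)⟩
      · have hK : K < P.length := by omega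
        have hg : P[K]? = some P[K] := List.getElem?_eq_getElem hK
        have hH : ∀ e ∈ xq K P[K], Hol (fun a b => ⟪x a, x b⟫_ℝ) e := fun e he =>
          hE e (List.mem_append_left _ (mem_sysX hg he))
        have hlock : ∀ c, c ≤ K → x (V c) = v c • x o0 := fun c hc' => (ih c (by omega) (by omega)).1
        suffices hh : XRes K v P[K] ∧ x (V (K + 1)) = v (K + 1) • x o0 by
          refine ⟨hh.2, fun K' g hK' hg' => ?_⟩
          obtain rfl : K = K' := by omega
          rw [hg, Option.some.injEq] at hg'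
          subst hg'
          exact hh.1
        unfold XRes
        unfold xq at hH
        by_cases hb : P[K].1 = true
        · rw [if_pos hb] at hH ⊢
          rw [sem_iff] at hH
          exact sdp_sound hx (d := fun u => v (rd K (P[K].2.2.1 + u)))
            (fun u => hlock _ (rd_le _ _)) hH
        · rw [if_neg hb] at hH ⊢
          exact basic_sound hx (hlock _ (idx_le' _ _)) (hlock _ (idx_le' _ _)) hH
  refine ⟨m, x, v, hx, ⟨hbase.1, fun K g hg => ?_⟩, fun c hc => (key c hc).1, fun e he =>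
    hE e (List.mem_append_right _ he)⟩
  have hK : K < P.length := (List.getElem?_eq_some_iff.1 hg).1
  exact (key (K + 1) (by omega)).2 K g rfl hg

lemma exists_data {P : List XGate} {v : ℕ → ℝ} (hv : XValues P v) :
    ∃ (su sa sb : ℕ → ℝ) (yy zz : ℕ → ℕ → ℕ → ℝ) (mu : ℕ → ℕ → ℝ) (dl : ℕ → ℝ),
      (∀ K (p : Na → ℕ), Psdk (fun a b => yy K (p a) (p b))) ∧
      (∀ K (p : Na → ℕ), Psdk (fun a b => zz K (p a) (p b))) ∧
      ∀ K g, P[K]? = some g →
        (g.1 = false → Aux g.2.1 (v (idx K g.2.2.1)) (v (idx K g.2.2.2.1)) (v (K + 1))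
          (su (K + 1)) (sa (K + 1)) (sb (K + 1))) ∧
        (g.1 = true → SAux g.2.1 g.2.2.2.1 (fun u => v (rd K (g.2.2.1 + u))) (v (K + 1))
          (yy K) (zz K) (mu K) (dl K)) := by
  have hex : ∀ K, ∃ t : ℝ × ℝ × ℝ, ∀ g, P[K]? = some g → g.1 = false →
      Aux g.2.1 (v (idx K g.2.2.1)) (v (idx K g.2.2.2.1)) (v (K + 1)) t.1 t.2.1 t.2.2 := by
    intro K
    rcases hK : P[K]? with _ | g
    · exact ⟨(0, 0, 0), fun g h => absurd h (by simp)⟩
    · by_cases hb : g.1 = false
      · have h1 := hv.2 K g hK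
        unfold XRes at h1
        rw [if_neg (by rw [hb]; simp)] at h1
        obtain ⟨a, b, c, habc⟩ := exists_aux _ _ _ _ _ h1
        refine ⟨(a, b, c), fun g' h' _ => ?_⟩
        rw [Option.some.injEq] at h'
        subst h'
        exact habc
      · refine ⟨(0, 0, 0), fun g' h' hb' => ?_⟩
        rw [Option.some.injEq] at h'
        subst h'
        exact absurd hb' hb
  have hex2 : ∀ K, ∃ t : (ℕ → ℕ → ℝ) × (ℕ → ℕ → ℝ) × (ℕ → ℝ) × ℝ,
      (∀ p : Na → ℕ, Psdk (fun a b => t.1 (p a) (p b))) ∧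
      (∀ p : Na → ℕ, Psdk (fun a b => t.2.1 (p a) (p b))) ∧
      ∀ g, P[K]? = some g → g.1 = true →
        SAux g.2.1 g.2.2.2.1 (fun u => v (rd K (g.2.2.1 + u))) (v (K + 1)) t.1 t.2.1 t.2.2.1
          t.2.2.2 := by
    intro K
    rcases hK : P[K]? with _ | g
    · exact ⟨(fun _ _ => 0, fun _ _ => 0, fun _ => 0, 0), fun _ => psdk_zero, fun _ => psdk_zero,
        fun g h => absurd h (by simp)⟩
    · by_cases hb : g.1 = true
      · have h1 := hv.2 K g hK
        unfold XRes at h1
        rw [if_pos hb] at h1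
        obtain ⟨Y, Z, μ, δ, hY, hZ, hA⟩ := exists_saux _ _ _ _ h1
        refine ⟨(extN Y, extN Z, μ, δ), fun p => psdk_extN hY p, fun p => psdk_extN hZ p,
          fun g' h' _ => ?_⟩
        rw [Option.some.injEq] at h'
        subst h'
        exact hA
      · refine ⟨(fun _ _ => 0, fun _ _ => 0, fun _ => 0, 0), fun _ => psdk_zero,
          fun _ => psdk_zero, fun g' h' hb' => ?_⟩
        rw [Option.some.injEq] at h'
        subst h'
        exact absurd hb' hb
  choose t ht using hex
  choose t2 ht2 using hex2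
  refine ⟨fun c => (t (c - 1)).1, fun c => (t (c - 1)).2.1, fun c => (t (c - 1)).2.2,
    fun K => (t2 K).1, fun K => (t2 K).2.1, fun K => (t2 K).2.2.1, fun K => (t2 K).2.2.2,
    fun K => (ht2 K).1, fun K => (ht2 K).2.1, fun K g hg => ⟨fun hb => ?_, fun hb => ?_⟩⟩
  · exact ht K g hg hb
  · exact (ht2 K).2.2 g hg hb

section Kernel

variable (v su sa sb : ℕ → ℝ) (yy zz : ℕ → ℕ → ℕ → ℝ) (mu : ℕ → ℕ → ℝ) (dl : ℕ → ℝ)
  (w' z' : Na → ℝ) (dir : Na → ℕ × ℕ)

/-- the components in the direction of `o0` -/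
noncomputable def kw (a : Na) : ℝ :=
  if a.1 = 0 then 1 else if a.1 = 1 then v a.2.1 else if a.1 = 2 then su a.2.1
  else if a.1 = 7 then yy a.2.1 a.2.2.1 a.2.2.2 else if a.1 = 8 then mu a.2.1 a.2.2.1
  else if a.1 = 9 then mu a.2.1 a.2.2.1 else if a.1 = 10 then dl a.2.1
  else if 11 ≤ a.1 then w' a else 0

/-- labels -/
def klab (a : Na) : ℕ × ℕ × ℕ :=
  if 11 ≤ a.1 then (11, dir a) else if a.1 = 4 then (3, a.2.1, 0) else (a.1, a.2.1, 0)

/-- the kernels of the labels -/
noncomputable def kyk (s : ℕ × ℕ × ℕ) (a b : Na) : ℝ :=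
  if s.1 = 11 then z' a * z' b
  else if s.1 = 3 then (if a.1 = 3 then sa a.2.1 else sb a.2.1) *
    (if b.1 = 3 then sa b.2.1 else sb b.2.1)
  else if s.1 = 5 then yy s.2.1 a.2.2.1 b.2.2.1
  else if s.1 = 6 then zz s.2.1 a.2.2.1 b.2.2.1
  else 0

/-- the rest -/
noncomputable def kN (a b : Na) : ℝ :=
  if klab dir a = klab dir b then kyk sa sb yy zz z' (klab dir a) a b else 0

/-- the kernel -/
noncomputable def kK (a b : Na) : ℝ :=
  kw v su yy mu dl w' a * kw v su yy mu dl w' b + kN sa sb yy zz z' dir a b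

lemma kK_psd (hy : ∀ K (p : Na → ℕ), Psdk (fun a b => yy K (p a) (p b)))
    (hz : ∀ K (p : Na → ℕ), Psdk (fun a b => zz K (p a) (p b))) :
    Psdk (kK v su sa sb yy zz mu dl w' z' dir) := by
  refine (psdk_one _).add (psdk_lab (klab dir) (kyk sa sb yy zz z') fun s => ?_)
  unfold kyk
  by_cases h11 : s.1 = 11
  · simp only [h11, if_true]
    exact psdk_one _
  by_cases h3 : s.1 = 3
  · simp only [h3, if_true, show ¬ (3 = 11) by omega, if_false]
    exact psdk_one _
  by_cases h5 : s.1 = 5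
  · simp only [h5, if_true, show ¬ (5 = 11) by omega, show ¬ (5 = 3) by omega, if_false]
    exact hy s.2.1 (fun a => a.2.2.1)
  by_cases h6 : s.1 = 6
  · simp only [h6, if_true, show ¬ (6 = 11) by omega, show ¬ (6 = 3) by omega,
      show ¬ (6 = 5) by omega, if_false]
    exact hz s.2.1 (fun a => a.2.2.1)
  simp only [h11, h3, h5, h6, if_false]
  exact psdk_zero

lemma kN_zero (a b : Na) (h : a.1 ≤ 2 ∨ (7 ≤ a.1 ∧ a.1 ≤ 10)) :
    kN sa sb yy zz z' dir a b = 0 := by
  unfold kN
  have h1 : klab dir a = (a.1, a.2.1, 0) := by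
    unfold klab
    rw [if_neg (by omega), if_neg (by omega)]
  rw [h1]
  split_ifs
  · unfold kyk
    simp only
    rw [if_neg (by omega), if_neg (by omega), if_neg (by omega), if_neg (by omega)]
  · rfl

lemma kN_zero' (a b : Na) (h : b.1 ≤ 2 ∨ (7 ≤ b.1 ∧ b.1 ≤ 10)) :
    kN sa sb yy zz z' dir a b = 0 := by
  unfold kN
  have h1 : klab dir b = (b.1, b.2.1, 0) := by
    unfold klab
    rw [if_neg (by omega), if_neg (by omega)]
  rw [h1]
  split_ifs with h2
  · rw [h2]
    unfold kyk
    simp only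
    rw [if_neg (by omega), if_neg (by omega), if_neg (by omega), if_neg (by omega)]
  · rfl

lemma kN_extra (a b : Na) (ha : 11 ≤ a.1) (hb : 11 ≤ b.1) :
    kN sa sb yy zz z' dir a b = if dir a = dir b then z' a * z' b else 0 := by
  unfold kN klab
  rw [if_pos ha, if_pos hb]
  by_cases h : dir a = dir b
  · rw [if_pos (by rw [h]), if_pos h]
    simp [kyk]
  · rw [if_neg (fun h' => h (Prod.mk.inj h').2), if_neg h]

lemma ker_kK : Ker (kK v su sa sb yy zz mu dl w' z' dir) (kw v su yy mu dl w')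
    (kN sa sb yy zz z' dir) v su sa sb yy zz mu dl where
  eqn _ _ := rfl
  n0 a b h := kN_zero sa sb yy zz z' dir a b h
  n0' a b h := kN_zero' sa sb yy zz z' dir a b h
  naa c := by simp [kN, klab, kyk, Aa]
  nab c := by simp [kN, klab, kyk, Aa, Bb]
  nbb c := by simp [kN, klab, kyk, Bb]
  ny k i j := by simp [kN, klab, kyk, Yn]
  nz k i j := by simp [kN, klab, kyk, Zn]
  w0 := by simp [kw, o0]
  wV c := by simp [kw, V]
  wU c := by simp [kw, U]
  wA c := by simp [kw, Aa]
  wB c := by simp [kw, Bb]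
  wY k i := by simp [kw, Yn]
  wZ k i := by simp [kw, Zn]
  wR k i j := by simp [kw, Rn]
  wM k l := by simp [kw, Mn]
  wM' k l := by simp [kw, Mc]
  wD k := by simp [kw, Dn]

end Kernel

/-- **Completeness.** Besides the rows of the program there may be further rows (of kind at least
`11`) with the components `w'` in the direction of `o0` and `z'` in the direction `dir`. -/
theorem sysX_complete {P : List XGate} {v : ℕ → ℝ} (hv : XValues P v) (w' z' : Na → ℝ)
    (dir : Na → ℕ × ℕ) :
    ∃ (K : Na → Na → ℝ) (w : Na → ℝ) (N : Na → Na → ℝ), Psdk K ∧ K o0 o0 = 1 ∧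
      (∀ e ∈ sysX P, Hol K e) ∧ (∀ a b, K a b = w a * w b + N a b) ∧ w o0 = 1 ∧
      (∀ c, w (V c) = v c) ∧ (∀ a, 11 ≤ a.1 → w a = w' a) ∧
      (∀ a b, a.1 ≤ 1 → N a b = 0) ∧ (∀ a b, b.1 ≤ 1 → N a b = 0) ∧
      ∀ a b, 11 ≤ a.1 → 11 ≤ b.1 → N a b = if dir a = dir b then z' a * z' b else 0 := by
  obtain ⟨su, sa, sb, yy, zz, mu, dl, hy, hz, hA⟩ := exists_data hv
  have hK := ker_kK v su sa sb yy zz mu dl w' z' dir
  refine ⟨kK v su sa sb yy zz mu dl w' z' dir, kw v su yy mu dl w', kN sa sb yy zz z' dir,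
    kK_psd v su sa sb yy zz mu dl w' z' dir hy hz, ?_, ?_, fun _ _ => rfl, hK.w0, hK.wV, ?_, ?_, ?_,
    fun a b ha hb => kN_extra sa sb yy zz z' dir a b ha hb⟩
  · rw [hK.eqn, hK.w0, hK.n0 _ _ (Or.inl (by simp [o0]))]
    ring
  · intro e he
    have k0V : kK v su sa sb yy zz mu dl w' z' dir o0 (V 0) = 1 := by
      rw [hK.eqn, hK.n0 _ _ (Or.inl (by simp [o0])), hK.w0, hK.wV, hv.1]; ring
    have kVV : kK v su sa sb yy zz mu dl w' z' dir (V 0) (V 0) = 1 := by
      rw [hK.eqn, hK.n0 _ _ (Or.inl (by simp [V])), hK.wV, hv.1]; ring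
    rcases List.mem_append.1 he with he | he
    · simp only [List.mem_cons, List.not_mem_nil, or_false] at he
      rcases he with rfl | rfl
      · simp only [Hol, lhs_cons, lhs_nil, bval_one, k0V]
        ring
      · simp only [Hol, lhs_cons, lhs_nil, bval_one, kVV]
        ring
    · obtain ⟨k, hk, he⟩ := List.mem_flatMap.1 he
      rw [List.mem_range] at hk
      have hg : P[k]? = some P[k] := List.getElem?_eq_getElem hk
      rw [hg, Option.getD_some] at he
      have hR := hv.2 k _ hg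
      have hA' := hA k _ hg
      unfold xq at he
      unfold XRes at hR
      by_cases hb : P[k].1 = true
      · rw [if_pos hb] at he hR
        exact sdp_complete hK (hA'.2 hb) e he
      · rw [if_neg hb] at he hR
        exact basic_complete hK _ hR (hA'.1 (by simpa using hb)) e he
  · intro a ha
    unfold kw
    rw [if_neg (by omega), if_neg (by omega), if_neg (by omega), if_neg (by omega),
      if_neg (by omega), if_neg (by omega), if_neg (by omega), if_pos ha]
  · intro a b ha
    exact hK.n0 a b (Or.inl (by omega))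
  · intro a b hb
    exact hK.n0' a b (Or.inl (by omega))

/-! ### The pairs in the equations are distinct -/

lemma ok_gq (K : ℕ) (g : Gate) : ∀ e ∈ gq K g, Ok e := by
  have h1 := idx_le' K g.2.1
  have h2 := idx_le' K g.2.2.1
  have n1 : ¬ (K + 1 = idx K g.2.1) := by omega
  have n2 : ¬ (K + 1 = idx K g.2.2.1) := by omega
  have n3 : ¬ (idx K g.2.1 = K + 1) := by omega
  have n4 : ¬ (idx K g.2.2.1 = K + 1) := by omega
  unfold gq bq
  split_ifs <;> simp [Ok, V, U, Aa, Bb, o0, n1, n2, n3, n4]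

lemma nodup_map_range {β : Type} (n : ℕ) (f : ℕ → β) (hf : ∀ i < n, ∀ j < n, f i = f j → i = j) :
    ((List.range n).map f).Nodup := by
  refine (List.nodup_map_iff_inj_on List.nodup_range).2 ?_
  intro i hi j hj h
  exact hf i (List.mem_range.1 hi) j (List.mem_range.1 hj) h

lemma ok_sq (K : ℕ) (r : ℕ → ℕ) (n m : ℕ) (hr : ∀ u, r u ≤ K) :
    ∀ e ∈ sq K (fun u => V (r u)) n m, Ok e := by
  unfold sq
  simp only [List.forall_mem_append, List.forall_mem_cons, List.not_mem_nil, false_implies,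
    implies_true, and_true, List.mem_flatMap, List.mem_map, List.mem_range, forall_exists_index,
    and_imp, forall_apply_eq_imp_iff₂]
  refine ⟨⟨⟨⟨⟨⟨?_, ?_⟩, ?_⟩, ?_⟩, ?_⟩, ?_⟩, ?_⟩
  · simp [Ok, V, o0]
  · rintro _ i hi j hj rfl
    simp [Ok, Yn, Rn, o0]
  · unfold Ok
    rw [List.map_cons, List.nodup_cons, List.map_map]
    refine ⟨?_, nodup_map_range _ _ ?_⟩
    · simp [V, Rn, o0]
    · intro i _ j _ h
      simp [Rn, o0] at h
      exact h
  · intro l hl
    unfold Ok
    rw [List.map_cons, List.nodup_cons, List.map_flatMap]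
    refine ⟨?_, ?_⟩
    · simp [V, Rn]
    · rw [List.nodup_flatMap]
      refine ⟨fun i _ => ?_, ?_⟩
      · rw [List.map_map]
        refine nodup_map_range _ _ fun j _ j' _ h => ?_
        simp [Rn] at h
        exact h.2
      · refine List.Nodup.pairwise_of_forall_ne List.nodup_range fun i _ i' _ hne => ?_
        simp only [Function.onFun, List.Disjoint, List.mem_map, List.mem_range]
        rintro a ⟨b, ⟨j, _, rfl⟩, rfl⟩ ⟨c, ⟨j', _, rfl⟩, h⟩
        simp [Rn] at h
        exact hne h.2.1.symm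
  · rintro _ i hi j hj rfl
    unfold Ok
    simp only [List.map_cons, List.map_append, List.map_map, List.nodup_cons, List.mem_cons,
      List.mem_append, List.mem_map, List.mem_range]
    refine ⟨?_, ?_, ?_⟩
    · simp [V, Zn, o0, Dn, Mn, Mc]
    · simp [V, o0, Dn, Mn, Mc]
    · rw [List.nodup_append]
      refine ⟨nodup_map_range _ _ ?_, nodup_map_range _ _ ?_, ?_⟩
      · intro l _ l' _ h
        simp [Mn] at h
        exact h.2
      · intro l _ l' _ h
        simp [Mc] at h
        exact h.2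
      · intro a ha b hb hab
        subst hab
        simp only [List.mem_map, List.mem_range, Function.comp] at ha hb
        obtain ⟨l, _, rfl⟩ := ha
        obtain ⟨l', _, h⟩ := hb
        simp [Mn, Mc] at h
  · intro l hl
    simp [Ok, o0, Mn, Mc]
  · unfold Ok
    simp only [List.map_cons, List.map_map, List.nodup_cons, List.mem_cons, List.mem_map,
      List.mem_range]
    refine ⟨?_, ?_, ?_, nodup_map_range _ _ ?_⟩
    · simp [V, o0, Mn, Dn]
    · simp [V, o0, Mn, Dn]
    · simp [V, Mn, Dn]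
    · intro l _ l' _ h
      simp [Mn] at h
      exact h.2

lemma ok_sysX (P : List XGate) : ∀ e ∈ sysX P, Ok e := by
  intro e he
  rcases List.mem_append.1 he with he | he
  · simp only [List.mem_cons, List.not_mem_nil, or_false] at he
    rcases he with rfl | rfl <;> simp [Ok]
  · obtain ⟨K, _, he⟩ := List.mem_flatMap.1 he
    unfold xq at he
    split_ifs at he
    · exact ok_sq K (fun u => rd K (((P[K]?).getD xg0).2.2.1 + u)) _ _ (fun u => rd_le _ _) e he
    · exact ok_gq K _ e he

end Pool.Agent.Helper7.SC
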