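import Pool.Agent.Helper7.SC.Sharp2
import Pool.Agent.Helper45.HD.Frames
import Pool.Agent.Helper57.U2.Clauses

set_option autoImplicit false

/-! Sharpness of the hidden digits theorem. -/

namespace Pool.Agent.Helper7.SC

open Finset
open Pool.Agent.Helper57.U2
open Pool.Agent.Helper45.HD (HiddenGuesses)

/-- total mass of the random hidden sets -/
lemma sum_hidden (K : ℕ) (t : ℝ) :
    ∑ R ∈ (range K).powerset, t ^ #R * (1 - t) ^ (K - #R) = 1 := by
  have h := Finset.sum_pow_mul_eq_add_pow t (1 - t) (range K)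
  rw [card_range] at h
  rw [h]
  simp

/-- the probability that nothing in `Q` is hidden -/
lemma sum_visible (K : ℕ) (t : ℝ) (Q : Finset ℕ) (hQ : Q ⊆ range K) :
    ∑ R ∈ (range K).powerset.filter (fun R => Disjoint Q R), t ^ #R * (1 - t) ^ (K - #R) =
      (1 - t) ^ #Q := by
  have e : (range K).powerset.filter (fun R => Disjoint Q R) = (range K \ Q).powerset := by
    ext R
    rw [mem_filter, mem_powerset, mem_powerset, subset_sdiff]
    exact and_congr_right fun _ => disjoint_comm
  rw [e]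
  have h := Finset.sum_pow_mul_eq_add_pow t (1 - t) (range K \ Q)
  have hc : #(range K \ Q) = K - #Q := by rw [card_sdiff_of_subset hQ, card_range]
  have hQK : #Q ≤ K := (card_le_card hQ).trans (card_range K).le
  have h1 : ∀ R ∈ (range K \ Q).powerset, t ^ #R * (1 - t) ^ (K - #R) =
      (1 - t) ^ #Q * (t ^ #R * (1 - t) ^ (#(range K \ Q) - #R)) := by
    intro R hR
    have h2 : #R ≤ K - #Q := (card_le_card (mem_powerset.1 hR)).trans hc.le
    have h3 : K - #R = #Q + (#(range K \ Q) - #R) := by rw [hc]; omega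
    rw [h3, pow_add]
    ring
  rw [sum_congr rfl h1, ← mul_sum, h]
  simp

/-- the most frequent digit -/
lemma exists_digit (b : ℕ) (hb : 2 ≤ b) (D : Finset ℕ) (g : ℕ → ℕ) (hg : ∀ n, g n < b) :
    ∃ a, (#D : ℝ) / b ≤ (#{n ∈ D | a = g n} : ℝ) := by
  have hb0 : (0 : ℝ) < b := by
    have : 0 < b := by omega
    exact_mod_cast this
  have h1 : ∑ a ∈ range b, #{n ∈ D | a = g n} = #D := by
    rw [card_eq_sum_card_fiberwise (f := g) (t := range b) fun n _ => mem_coe.2 (mem_range.2 (hg n))]
    refine sum_congr rfl fun a _ => ?_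
    congr 1
    exact filter_congr fun n _ => eq_comm
  by_contra hcon
  push_neg at hcon
  have h2 : ∑ a ∈ range b, (#{n ∈ D | a = g n} : ℝ) < ∑ a ∈ range b, (#D : ℝ) / b :=
    sum_lt_sum_of_nonempty (nonempty_range_iff.2 (by omega)) fun a _ => hcon a
  rw [sum_const, card_range, nsmul_eq_mul] at h2
  have h3 : (∑ a ∈ range b, (#{n ∈ D | a = g n} : ℝ)) = (#D : ℝ) := by exact_mod_cast h1
  rw [h3] at h2
  have h4 : (b : ℝ) * ((#D : ℝ) / b) = #D := by field_simp
  linarith

lemma upTo_sub (D : Set ℕ) (x : ℕ) : upTo D x ⊆ range x :=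
  Pool.Agent.Helper25.RC.below_subset_range D x

/-- a choice whose digits are functions of `v` digits is guessed when each digit is hidden with
probability `1 / (2 v)` -/
theorem hidden_of_few (b K v : ℕ) (hb : 2 ≤ b) (hv : 1 ≤ v) (f : ℕ → ℕ)
    (hf : ∀ i < K, FewDigits b v fun n => digit b i (f n)) :
    ∃ J : Finset ℕ → ℕ → ℕ → ℕ, HiddenGuesses b K (1 / (2 * v)) (1 / 4) {n | n < b ^ K} f J := by
  classical
  have hb0 : (0 : ℝ) < b := by
    have : 0 < b := by omega
    exact_mod_cast this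
  have hv1 : (1 : ℝ) ≤ v := by exact_mod_cast hv
  have hQ : ∀ i, ∃ Q : Finset ℕ, i < K → #Q ≤ v ∧
      ∀ m n, (∀ q ∈ Q, digit b q m = digit b q n) → digit b i (f m) = digit b i (f n) := by
    intro i
    by_cases hi : i < K
    · obtain ⟨Q, hQ1, hQ2⟩ := hf i hi
      exact ⟨Q, fun _ => ⟨hQ1, hQ2⟩⟩
    · exact ⟨∅, fun h' => absurd h' hi⟩
  choose Q hQ using hQ
  have hA : ∀ i, ∃ a, (#(upTo {n | n < b ^ K} (b ^ K)) : ℝ) / b ≤
      (#{n ∈ upTo {n | n < b ^ K} (b ^ K) | a = digit b i (f n)} : ℝ) := fun i =>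
    exists_digit b hb _ _ fun n => Nat.mod_lt _ (by omega)
  choose a ha using hA
  obtain ⟨D, hD⟩ : ∃ D : Finset ℕ, D = upTo {n | n < b ^ K} (b ^ K) := ⟨_, rfl⟩
  have hDlt : ∀ n ∈ D, n < b ^ K := by
    intro n hn
    rw [hD] at hn
    exact mem_range.1 (upTo_sub _ _ hn)
  obtain ⟨t, ht⟩ : ∃ t : ℝ, t = 1 / (2 * v) := ⟨_, rfl⟩
  have ht0 : 0 ≤ t := by rw [ht]; positivity
  have ht1 : t ≤ 1 / 2 := by
    rw [ht, div_le_div_iff₀ (by positivity) (by norm_num)]
    linarith
  refine ⟨fun R i n => if i < K ∧ Disjoint (Q i ∩ range K) R then digit b i (f (n % b ^ K))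
    else a i, ?_, ?_⟩
  · intro R i m n hmn
    by_cases h : i < K ∧ Disjoint (Q i ∩ range K) R
    · simp only [if_pos h]
      refine (hQ i h.1).2 _ _ fun q hq => ?_
      by_cases hqK : q < K
      · have h1 := hmn q hqK fun hqR =>
          (Finset.disjoint_left.1 h.2 (mem_inter.2 ⟨hq, mem_range.2 hqK⟩)) hqR
        have h2 : ∀ n, digit b q (n % b ^ K) = digit b q n := by
          intro n
          unfold digit
          have e : b ^ K = b ^ q * b ^ (K - q) := by
            rw [← pow_add]; congr 1; omega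
          have h3 : b ∣ b ^ (K - q) := dvd_pow_self b (by omega)
          rw [e, Nat.mod_mul_right_div_self, Nat.mod_mod_of_dvd _ h3]
        rw [h2, h2]
        exact h1
      · have h2 : ∀ n, digit b q (n % b ^ K) = 0 := by
          intro n
          unfold digit
          have h3 : n % b ^ K < b ^ q :=
            lt_of_lt_of_le (Nat.mod_lt _ (by positivity)) (Nat.pow_le_pow_right (by omega)
              (not_lt.1 hqK))
          rw [Nat.div_eq_of_lt h3, Nat.zero_mod]
        rw [h2, h2]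
    · simp only [if_neg h]
  · rw [← hD, ← ht]
    have h1 : ∀ R : Finset ℕ, ∑ n ∈ D, (#{i ∈ range K | (if i < K ∧ Disjoint (Q i ∩ range K) R then
        digit b i (f (n % b ^ K)) else a i) = digit b i (f n)} : ℝ) =
        ∑ i ∈ range K, if Disjoint (Q i ∩ range K) R then (#D : ℝ) else
          (#{n ∈ D | a i = digit b i (f n)} : ℝ) := by
      intro R
      have h2 : ∑ n ∈ D, (#{i ∈ range K | (if i < K ∧ Disjoint (Q i ∩ range K) R then
          digit b i (f (n % b ^ K)) else a i) = digit b i (f n)} : ℝ) =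
          ∑ i ∈ range K, (#{n ∈ D | (if i < K ∧ Disjoint (Q i ∩ range K) R then
            digit b i (f (n % b ^ K)) else a i) = digit b i (f n)} : ℝ) := by
        simp only [card_filter]
        push_cast
        exact sum_comm
      rw [h2]
      refine sum_congr rfl fun i hi => ?_
      have hiK := mem_range.1 hi
      by_cases h : Disjoint (Q i ∩ range K) R
      · rw [if_pos h]
        congr 1
        refine congrArg _ (filter_true_of_mem fun n hn => ?_)
        rw [if_pos ⟨hiK, h⟩, Nat.mod_eq_of_lt (hDlt n hn)]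
      · rw [if_neg h]
        congr 1
        refine congrArg _ (filter_congr fun n _ => ?_)
        rw [if_neg fun h' => h h'.2]
    have h2 : ∑ R ∈ (range K).powerset, t ^ #R * (1 - t) ^ (K - #R) *
        ∑ n ∈ D, (#{i ∈ range K | (if i < K ∧ Disjoint (Q i ∩ range K) R then
          digit b i (f (n % b ^ K)) else a i) = digit b i (f n)} : ℝ) =
        ∑ i ∈ range K, ∑ R ∈ (range K).powerset, t ^ #R * (1 - t) ^ (K - #R) *
          (if Disjoint (Q i ∩ range K) R then (#D : ℝ) else
            (#{n ∈ D | a i = digit b i (f n)} : ℝ)) := by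
      rw [sum_comm]
      refine sum_congr rfl fun R _ => ?_
      rw [h1, mul_sum]
    have h2' := h2
    refine le_trans ?_ (le_of_eq h2'.symm)
    have h3 : ∀ i ∈ range K, (1 / (b : ℝ) + 1 / 4) * #D ≤
        ∑ R ∈ (range K).powerset, t ^ #R * (1 - t) ^ (K - #R) *
          (if Disjoint (Q i ∩ range K) R then (#D : ℝ) else
            (#{n ∈ D | a i = digit b i (f n)} : ℝ)) := by
      intro i hi
      have hiK := mem_range.1 hi
      obtain ⟨y, hy⟩ : ∃ y : ℝ, y = (#{n ∈ D | a i = digit b i (f n)} : ℝ) := ⟨_, rfl⟩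
      obtain ⟨d, hd⟩ : ∃ d : ℝ, d = (#D : ℝ) := ⟨_, rfl⟩
      have hyd : d / b ≤ y := by rw [hy, hd, hD]; exact ha i
      have hyd2 : y ≤ d := by
        rw [hy, hd]
        exact_mod_cast card_filter_le _ _
      have hd0 : 0 ≤ d := by rw [hd]; exact Nat.cast_nonneg _
      rw [← hy, ← hd]
      have h4 : ∑ R ∈ (range K).powerset, t ^ #R * (1 - t) ^ (K - #R) *
          (if Disjoint (Q i ∩ range K) R then d else y) =
          y * ∑ R ∈ (range K).powerset, t ^ #R * (1 - t) ^ (K - #R) +
          (d - y) * ∑ R ∈ (range K).powerset.filter (fun R => Disjoint (Q i ∩ range K) R),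
            t ^ #R * (1 - t) ^ (K - #R) := by
        rw [sum_filter, mul_sum, mul_sum, ← sum_add_distrib]
        refine sum_congr rfl fun R _ => ?_
        by_cases h : Disjoint (Q i ∩ range K) R
        · rw [if_pos h, if_pos h]; ring
        · rw [if_neg h, if_neg h]; ring
      rw [h4, sum_hidden, sum_visible K t _ inter_subset_right]
      have h5 : 1 / 2 ≤ (1 - t) ^ #(Q i ∩ range K) := by
        have h6 : #(Q i ∩ range K) ≤ v := (card_le_card inter_subset_left).trans (hQ i hiK).1
        have h7 : (1 - t) ^ v ≤ (1 - t) ^ #(Q i ∩ range K) :=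
          pow_le_pow_of_le_one (by linarith) (by linarith) h6
        have h8 := one_add_mul_le_pow (show (-2 : ℝ) ≤ -t by linarith) v
        have h9 : (v : ℝ) * t = 1 / 2 := by rw [ht]; field_simp
        have h10 : 1 + (v : ℝ) * -t = 1 / 2 := by linarith
        have h11 : (1 + -t) ^ v = (1 - t) ^ v := by rw [← sub_eq_add_neg]
        rw [h10, h11] at h8
        linarith
      have hb2 : 1 / (b : ℝ) ≤ 1 / 2 := by
        have : (2 : ℝ) ≤ b := by exact_mod_cast hb
        exact one_div_le_one_div_of_le (by norm_num) this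
      have h6 : (d - y) * (1 / 2) ≤ (d - y) * (1 - t) ^ #(Q i ∩ range K) :=
        mul_le_mul_of_nonneg_left h5 (by linarith)
      have h7 : d / b = 1 / b * d := by ring
      rw [h7] at hyd
      have h8 : 1 / (b : ℝ) * d ≤ 1 / 2 * d := mul_le_mul_of_nonneg_right hb2 hd0
      linarith
    have h4 := sum_le_sum h3
    rw [sum_const, card_range, nsmul_eq_mul] at h4
    refine le_trans (le_of_eq ?_) h4
    ring

/-- Hidden digits: the bound is sharp for all `t = 1 / (2 v)`. -/
theorem sharp_hidden : ∃ C : ℝ, 0 < C ∧ ∀ b v m : ℕ, 2 ≤ b → 1 ≤ v →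
    ∃ (A : Set ℕ) (f : ℕ → ℕ) (J : Finset ℕ → ℕ → ℕ → ℕ),
      IsChoice A {n | n < b ^ (v * m)} f ∧
      (∀ i < v * m, FewDigits b v fun n => digit b i (f n)) ∧
      HiddenGuesses b (v * m) (1 / (2 * v)) (1 / 4) {n | n < b ^ (v * m)} f J ∧
      ∑ n ∈ range (2 * b ^ (v * m)), (rep A n : ℝ) ^ 2 ≤ (b : ℝ) ^ (v * m) * Real.exp (C * m) := by
  obtain ⟨C, hC, h⟩ := sharp
  refine ⟨C, hC, fun b v m hb hv => ?_⟩
  obtain ⟨A, f, h1, h2, h3⟩ := h b v m hb
  obtain ⟨J, hJ⟩ := hidden_of_few b (v * m) v hb hv f h2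
  exact ⟨A, f, J, h1, h2, hJ, h3⟩

end Pool.Agent.Helper7.SC
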