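import Pool.Agent.Helper7.SC.DP.SetForm
import Pool.Agent.Helper7.SC.SharpHidden
import Pool.Agent.Helper72.HD.Cor

set_option autoImplicit false

/-!
Hidden digits: the text.
-/

namespace Pool.Agent.Helper7.SC.Text

open Finset Filter
open Pool.Agent.Helper57.U2 (rep IsChoice upTo digit FewDigits)
open Pool.Agent.Helper72.Struct (Sums)
open Pool.Agent.Helper45.HD (HiddenGuesses StHD)
open Pool.Agent.Helper7.SC.DP (guessed)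

theorem result_of (hHD : StHD) :
    (∀ (b : ℕ) (ε C c : ℝ), 2 ≤ b → 0 < ε → 0 < C → 0 < c → ∃ T : ℝ, 0 < T ∧
      ∀ A : Set ℕ, (∀ n, (rep A n : ℝ) ≤ C) → (∀ᶠ x : ℕ in atTop, c * √x ≤ #(upTo A x)) →
      ∀ f : ℕ → ℕ, IsChoice A (Sums A) f → ∀ᶠ K : ℕ in atTop, ∀ t : ℝ, T / K ≤ t → t ≤ 1 →
        ∀ J : Finset ℕ → ℕ → ℕ → ℕ, ¬ HiddenGuesses b K t ε (Sums A) f J) ∧
    (∀ (b : ℕ) (ε δ : ℝ), 2 ≤ b → 0 < ε → 0 < δ → ∃ c : ℝ, 0 < c ∧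
      ∀ (A D : Set ℕ) (f : ℕ → ℕ), IsChoice A D f → ∀ K : ℕ,
      δ * (b : ℝ) ^ K ≤ #(upTo D (b ^ K)) → ∀ t : ℝ, 0 < t → t ≤ 1 →
      ∀ J : Finset ℕ → ℕ → ℕ → ℕ, HiddenGuesses b K t ε D f J →
        c * (b : ℝ) ^ K * Real.exp (c * t * K) ≤ ∑ n ∈ range (2 * b ^ K), (rep A n : ℝ) ^ 2) ∧
    (∀ (b : ℕ) (ε : ℝ), 2 ≤ b → 0 < ε → ∃ c : ℝ, 0 < c ∧
      ∀ (A : Set ℕ) (K v : ℕ) (J : ℕ → ℕ → ℕ), 1 ≤ v → (∀ i < K, FewDigits b v (J i)) →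
        c * (#(guessed b K ε A J) : ℝ) ^ 2 * Real.exp (c * K / v) ≤
          (b : ℝ) ^ K * ∑ n ∈ range (2 * b ^ K), (rep A n : ℝ) ^ 2) ∧
    (∃ C : ℝ, 0 < C ∧ ∀ b v m : ℕ, 2 ≤ b → 1 ≤ v →
      ∃ (A : Set ℕ) (f : ℕ → ℕ) (J : Finset ℕ → ℕ → ℕ → ℕ),
        IsChoice A {n | n < b ^ (v * m)} f ∧
        (∀ i < v * m, FewDigits b v fun n => digit b i (f n)) ∧
        HiddenGuesses b (v * m) (1 / (2 * v)) (1 / 4) {n | n < b ^ (v * m)} f J ∧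
        ∑ n ∈ range (2 * b ^ (v * m)), (rep A n : ℝ) ^ 2 ≤
          (b : ℝ) ^ (v * m) * Real.exp (C * m)) :=
  ⟨fun b ε C c hb hε hC hc => Pool.Agent.Helper72.HD.hidden_of hHD b hb C c ε hC hc hε,
    fun b ε δ hb hε hδ => hHD b hb ε δ hε hδ,
    fun b ε hb hε => Pool.Agent.Helper7.SC.DP.dpset b hb ε hε,
    Pool.Agent.Helper7.SC.sharp_hidden⟩

end Pool.Agent.Helper7.SC.Text
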