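import Pool.Agent.Helper45.HD.Glue
import Pool.Agent.Helper37.HD.Pi
import Pool.Agent.Helper43.HD.C2
import Pool.Agent.Helper72.HD.In
import Pool.Agent.Helper99.HD.StR
import Pool.Agent.Helper81.SC.StE
import Pool.Agent.Helper7.SC.Text
import Pool.Agent.Helper7.SC.Digit2

set_option autoImplicit false

/-!
Hidden digits: all pieces together.
-/

namespace Pool.Agent.Helper7.SC

open Pool.Agent.Helper45.HD (StHD)

theorem stHD : StHD :=
  Pool.Agent.Helper45.HD.stHD_of (Pool.Agent.Helper37.HD.stPi Pool.Agent.Helper72.HD.stIn)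
    (Pool.Agent.Helper99.HD.stR
      (Pool.Agent.Helper43.HD.stC2 Pool.Agent.Helper99.SC.stT Pool.Agent.Helper99.SC.stL
        Pool.Agent.Helper81.SC.stEn)
      Pool.Agent.Helper7.SC.stA1 Pool.Agent.Helper99.SC.stA2 Pool.Agent.Helper99.SC.stA3
      Pool.Agent.Helper7.SC.stA4)

end Pool.Agent.Helper7.SC
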