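import Pool.Agent.Helper7.SC.Block

set_option autoImplicit false

/-! The sum over the vectors `h` factorises up to a factor 2 for each nonzero coordinate. -/

namespace Pool.Agent.Helper7.SC

open Finset

lemma geom_leak {Q : ℝ} (hQ : 2 ≤ Q) (n : ℕ) :
    ∑ B ∈ range n, (1 / Q) ^ (n - B + 1) ≤ 2 / Q ^ 2 := by
  have hQ0 : 0 < Q := by linarith
  induction n with
  | zero =>
    simp only [range_zero, sum_empty]
    positivity
  | succ n ih =>
    rw [Finset.sum_range_succ]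
    have h1 : ∀ B ∈ range n, (1 / Q) ^ (n + 1 - B + 1) = (1 / Q) ^ (n - B + 1) * (1 / Q) := by
      intro B hB
      rw [mem_range] at hB
      rw [← pow_succ]
      congr 1
      omega
    rw [sum_congr rfl h1, ← Finset.sum_mul]
    have h2 : n + 1 - n + 1 = 2 := by omega
    rw [h2]
    have h3 : 1 / Q ≤ 1 / 2 := by
      apply one_div_le_one_div_of_le <;> linarith
    have h4 : (∑ B ∈ range n, (1 / Q) ^ (n - B + 1)) * (1 / Q) ≤ 2 / Q ^ 2 * (1 / 2) := by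
      refine mul_le_mul ih h3 (by positivity) (by positivity)
    have h5 : (1 / Q) ^ 2 = 1 / Q ^ 2 := by rw [div_pow, one_pow]
    have h6 : 2 / Q ^ 2 = 1 / Q ^ 2 + 1 / Q ^ 2 := by ring
    rw [h5]
    linarith

/-- `psi_h` -/
noncomputable def psi (b q r : ℕ) {m : ℕ} (h : Fin m → ℤ) : ℝ :=
  ∑ B : Fin m, (h B : ℝ) / (b : ℝ) ^ (r + ((B : ℕ) + 1) * q)

/-- the leakage into the block `B` -/
noncomputable def lk (b q : ℕ) {m : ℕ} (h : Fin m → ℤ) (B : Fin m) : ℝ :=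
  ∑ B' : Fin m, if B < B' then (h B' : ℝ) * (1 / (b : ℝ) ^ q) ^ ((B' : ℕ) - B + 1) else 0

lemma phase (b q r : ℕ) (hb : 2 ≤ b) {m : ℕ} (h : Fin m → ℤ) (B : Fin m) :
    ∃ n : ℤ, (b : ℝ) ^ (r + (B : ℕ) * q) * psi b q r h =
      (h B : ℝ) / (b : ℝ) ^ q + lk b q h B + n := by
  have hb0 : (b : ℝ) ≠ 0 := by
    have : b ≠ 0 := by omega
    exact_mod_cast this
  refine ⟨∑ B' : Fin m, if B' < B then h B' * (b : ℤ) ^ (((B : ℕ) - B' - 1) * q) else 0, ?_⟩
  unfold psi lk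
  rw [Finset.mul_sum]
  have h1 : ∀ B' : Fin m, (b : ℝ) ^ (r + (B : ℕ) * q) *
      ((h B' : ℝ) / (b : ℝ) ^ (r + ((B' : ℕ) + 1) * q)) =
      (if B' = B then (h B' : ℝ) / (b : ℝ) ^ q else 0) +
      (if B < B' then (h B' : ℝ) * (1 / (b : ℝ) ^ q) ^ ((B' : ℕ) - B + 1) else 0) +
      (if B' < B then (h B' : ℝ) * (b : ℝ) ^ (((B : ℕ) - B' - 1) * q) else 0) := by
    intro B'
    rcases lt_trichotomy B' B with h2 | h2 | h2
    · rw [if_neg h2.ne, if_neg h2.not_gt, if_pos h2, zero_add, zero_add]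
      rw [mul_div_assoc', div_eq_iff (pow_ne_zero _ hb0)]
      have h3 : (B' : ℕ) < B := h2
      have h4 : r + (B : ℕ) * q = ((B : ℕ) - B' - 1) * q + (r + ((B' : ℕ) + 1) * q) := by
        obtain ⟨d, hd⟩ := Nat.exists_eq_add_of_lt h3
        rw [hd]
        have : (B' : ℕ) + d + 1 - B' - 1 = d := by omega
        rw [this]
        ring
      rw [h4, pow_add]
      ring
    · subst h2
      rw [if_pos rfl, if_neg (lt_irrefl _), if_neg (lt_irrefl _), add_zero, add_zero]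
      have h4 : r + ((B' : ℕ) + 1) * q = (r + (B' : ℕ) * q) + q := by ring
      rw [h4]
      field_simp
      ring
    · rw [if_neg h2.ne', if_pos h2, if_neg h2.not_gt, zero_add, add_zero]
      have h3 : (B : ℕ) < B' := h2
      have h4 : r + ((B' : ℕ) + 1) * q = (r + (B : ℕ) * q) + q * ((B' : ℕ) - B + 1) := by
        obtain ⟨d, hd⟩ := Nat.exists_eq_add_of_lt h3
        rw [hd]
        have : (B : ℕ) + d + 1 - B + 1 = d + 2 := by omega
        rw [this]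
        ring
      rw [h4, one_div, inv_pow]
      field_simp
      ring
  rw [sum_congr rfl fun B' _ => h1 B', Finset.sum_add_distrib, Finset.sum_add_distrib,
    Finset.sum_ite_eq' univ B, if_pos (mem_univ _)]
  push_cast
  rfl

lemma sum_lk (b q : ℕ) (hb : 2 ≤ b) (hq : 1 ≤ q) {m : ℕ} (h : Fin m → ℤ) :
    ∑ B, |lk b q h B| ≤ ∑ B' : Fin m, |(h B' : ℝ)| * (2 / ((b : ℝ) ^ q) ^ 2) := by
  have hQ2 : (2 : ℝ) ≤ (b : ℝ) ^ q := by
    have h1 : (2 : ℝ) ≤ b := by exact_mod_cast hb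
    calc (2 : ℝ) ≤ b := h1
      _ = (b : ℝ) ^ 1 := (pow_one _).symm
      _ ≤ (b : ℝ) ^ q := pow_le_pow_right₀ (by linarith) hq
  have hQ0 : (0 : ℝ) < (b : ℝ) ^ q := by linarith
  have h1 : ∀ B : Fin m, |lk b q h B| ≤ ∑ B' : Fin m, if B < B' then
      |(h B' : ℝ)| * (1 / (b : ℝ) ^ q) ^ ((B' : ℕ) - B + 1) else 0 := by
    intro B
    unfold lk
    refine (Finset.abs_sum_le_sum_abs _ _).trans (sum_le_sum fun B' _ => ?_)
    split_ifs
    · rw [abs_mul, abs_of_nonneg (by positivity : (0 : ℝ) ≤ (1 / (b : ℝ) ^ q) ^ _)]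
    · simp
  refine (sum_le_sum fun B _ => h1 B).trans ?_
  rw [Finset.sum_comm]
  refine sum_le_sum fun B' _ => ?_
  have h2 : ∑ B : Fin m, (if B < B' then
      |(h B' : ℝ)| * (1 / (b : ℝ) ^ q) ^ ((B' : ℕ) - B + 1) else 0) =
      |(h B' : ℝ)| * ∑ B ∈ range (B' : ℕ), (1 / (b : ℝ) ^ q) ^ ((B' : ℕ) - B + 1) := by
    rw [Finset.mul_sum]
    have h3 : ∑ B : Fin m, (if B < B' then
        |(h B' : ℝ)| * (1 / (b : ℝ) ^ q) ^ ((B' : ℕ) - B + 1) else 0) =
        ∑ B : Fin m, (fun i : ℕ => if i < (B' : ℕ) then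
          |(h B' : ℝ)| * (1 / (b : ℝ) ^ q) ^ ((B' : ℕ) - i + 1) else 0) B := rfl
    rw [h3, Fin.sum_univ_eq_sum_range (fun i : ℕ => if i < (B' : ℕ) then
          |(h B' : ℝ)| * (1 / (b : ℝ) ^ q) ^ ((B' : ℕ) - i + 1) else 0) m, ← Finset.sum_filter]
    congr 1
    ext i
    rw [mem_filter, mem_range, mem_range]
    have := B'.isLt
    omega
  rw [h2]
  exact mul_le_mul_of_nonneg_left (geom_leak hQ2 _) (abs_nonneg _)

/-- factorisation -/
theorem leak (b q r H : ℕ) (hb : 2 ≤ b) (hq : 1 ≤ q) (hH : 1 ≤ H) {m : ℕ} (Δ L : ℝ) (hΔ : 0 ≤ Δ)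
    (hL0 : 0 ≤ L)
    (G : ℝ → ℝ) (hG0 : ∀ y, 0 ≤ G y) (hGp : ∀ y (k : ℤ), G (y + k) = G y)
    (hGL : ∀ y s, G (y + s) ≤ G y * Real.exp (L * |s|)) (θ : ℝ)
    (hL : Real.exp (2 * L * H / ((b : ℝ) ^ q) ^ 2) ≤ 2) :
    ∑ h ∈ Hs m H, rho H Δ h * ∏ B : Fin m, G ((b : ℝ) ^ (r + (B : ℕ) * q) * (θ + psi b q r h)) ≤
      ∏ B : Fin m, (G ((b : ℝ) ^ (r + (B : ℕ) * q) * θ) + 2 * (Δ / (2 * H)) *
        ∑ k ∈ Kz H, G ((b : ℝ) ^ (r + (B : ℕ) * q) * θ + k / (b : ℝ) ^ q)) := by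
  have hH0 : (0 : ℝ) < H := by exact_mod_cast hH
  have hb0 : (0 : ℝ) < b := by
    have : 0 < b := by omega
    exact_mod_cast this
  have h1 : ∀ h ∈ Hs m H, rho H Δ h *
      ∏ B : Fin m, G ((b : ℝ) ^ (r + (B : ℕ) * q) * (θ + psi b q r h)) ≤
      ∏ B : Fin m, ((if h B = 0 then 1 else 2 * (Δ / (2 * H))) *
        G ((b : ℝ) ^ (r + (B : ℕ) * q) * θ + h B / (b : ℝ) ^ q)) := by
    intro h hh
    have h2 : ∀ B : Fin m, G ((b : ℝ) ^ (r + (B : ℕ) * q) * (θ + psi b q r h)) ≤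
        G ((b : ℝ) ^ (r + (B : ℕ) * q) * θ + h B / (b : ℝ) ^ q) *
          Real.exp (L * |lk b q h B|) := by
      intro B
      obtain ⟨n, hn⟩ := phase b q r hb h B
      rw [mul_add, hn]
      have h3 : (b : ℝ) ^ (r + (B : ℕ) * q) * θ + ((h B : ℝ) / (b : ℝ) ^ q + lk b q h B + n) =
          ((b : ℝ) ^ (r + (B : ℕ) * q) * θ + (h B : ℝ) / (b : ℝ) ^ q + lk b q h B) + n := by ring
      rw [h3, hGp]
      exact hGL _ _
    have h4 : ∏ B : Fin m, G ((b : ℝ) ^ (r + (B : ℕ) * q) * (θ + psi b q r h)) ≤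
        (∏ B : Fin m, G ((b : ℝ) ^ (r + (B : ℕ) * q) * θ + h B / (b : ℝ) ^ q)) *
          ∏ B : Fin m, (if h B = 0 then 1 else 2) := by
      refine (Finset.prod_le_prod (fun B _ => hG0 _) fun B _ => h2 B).trans ?_
      rw [Finset.prod_mul_distrib]
      refine mul_le_mul_of_nonneg_left ?_ (prod_nonneg fun B _ => hG0 _)
      rw [← Real.exp_sum, ← Finset.mul_sum]
      have h5 : L * ∑ B, |lk b q h B| ≤
          ∑ B' : Fin m, L * (|(h B' : ℝ)| * (2 / ((b : ℝ) ^ q) ^ 2)) := by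
        rw [← Finset.mul_sum]
        exact mul_le_mul_of_nonneg_left (sum_lk b q hb hq h) hL0
      refine (Real.exp_le_exp.2 h5).trans ?_
      rw [Real.exp_sum]
      refine Finset.prod_le_prod (fun _ _ => (Real.exp_pos _).le) fun B _ => ?_
      split_ifs with h6
      · rw [h6]
        simp
      · refine le_trans (Real.exp_le_exp.2 ?_) hL
        have h7 : |(h B : ℝ)| ≤ H := by
          have h8 := Fintype.mem_piFinset.1 hh B
          rw [mem_Icc] at h8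
          rw [abs_le]
          constructor
          · exact_mod_cast h8.1
          · exact_mod_cast h8.2
        calc L * (|(h B : ℝ)| * (2 / ((b : ℝ) ^ q) ^ 2))
            ≤ L * (H * (2 / ((b : ℝ) ^ q) ^ 2)) := by gcongr
          _ = 2 * L * H / ((b : ℝ) ^ q) ^ 2 := by ring
    have h9 : 0 ≤ rho H Δ h := by
      unfold rho
      refine prod_nonneg fun B _ => ?_
      split_ifs
      · exact zero_le_one
      · positivity
    refine (mul_le_mul_of_nonneg_left h4 h9).trans (le_of_eq ?_)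
    unfold rho
    rw [mul_comm (∏ B : Fin m, G _), ← mul_assoc, ← Finset.prod_mul_distrib,
      ← Finset.prod_mul_distrib]
    refine prod_congr rfl fun B _ => ?_
    split_ifs
    · ring
    · ring
  refine (sum_le_sum h1).trans (le_of_eq ?_)
  unfold Hs
  rw [← Finset.prod_univ_sum (fun _ : Fin m => Icc (-(H : ℤ)) H) (fun (B : Fin m) (k : ℤ) =>
    (if k = 0 then 1 else 2 * (Δ / (2 * H))) *
        G ((b : ℝ) ^ (r + (B : ℕ) * q) * θ + k / (b : ℝ) ^ q))]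
  refine prod_congr rfl fun B _ => ?_
  rw [← Finset.add_sum_erase _ _ (zero_mem_Icc H), if_pos rfl, one_mul, Int.cast_zero, zero_div,
    add_zero, Finset.mul_sum]
  congr 1
  refine sum_congr rfl fun k hk => ?_
  rw [if_neg (Finset.ne_of_mem_erase hk)]

end Pool.Agent.Helper7.SC
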