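import Pool.Agent.Helper95.Slp.Circ3

/-!
# Semidefinite systems with named rows

Rows have names (quadruples of natural numbers); an equation is a list of terms
`(coefficient, row, row)` with a right side. The row `o0` has norm `1`.
-/

open scoped InnerProductSpace
open Pool.Agent.Helper91.PolyTime

namespace Pool.Agent.Helper7.SC

open Pool.Agent.Helper92.Theta Pool.Agent.Helper95.Slp

/-- names of rows -/
abbrev Na : Type := ℕ × ℕ × ℕ × ℕ

/-- the distinguished row -/
def o0 : Na := (0, 0, 0, 0)

/-- a term of an equation -/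
abbrev Te : Type := BInt × Na × Na

/-- an equation -/
abbrev Eqn : Type := List Te × BInt

/-- the pairs of rows in an equation are distinct -/
def Ok (e : Eqn) : Prop := (e.1.map Prod.snd).Nodup

/-- the left side -/
noncomputable def lhs (y : Na → Na → ℝ) (l : List Te) : ℝ :=
  (l.map fun t => (ival t.1 : ℝ) * y t.2.1 t.2.2).sum

/-- the equation holds -/
def Hol (y : Na → Na → ℝ) (e : Eqn) : Prop := lhs y e.1 = ival e.2

/-- all names -/
def nms (E : List Eqn) : List Na := o0 :: E.flatMap fun e => e.1.flatMap fun t => [t.2.1, t.2.2]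

/-- the index of a name -/
def ix (L : List Na) (a : Na) : ℕ :=
  (((List.range L.length).filter fun i => decide (L[i]? = some a)).head?).getD 0

/-- a default term -/
def te0 : Te := (zer, o0, o0)

/-- the coefficient at a position -/
def cf (L : List Na) (l : List Te) (i j : ℕ) : BInt :=
  (((l.filter fun t => decide (ix L t.2.1 = i ∧ ix L t.2.2 = j)).head?).getD te0).1

/-- the semidefinite system -/
def sdpOf (E : List Eqn) : SDP :=
  ((nms E).length, (tab (nms E).length (co1 0 0 one), one) ::
    E.map fun e => (tab (nms E).length (cf (nms E) e.1), e.2))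

lemma ix_spec {L : List Na} {a : Na} (h : a ∈ L) : ix L a < L.length ∧ L[ix L a]? = some a := by
  obtain ⟨i, hi, hia⟩ := List.mem_iff_getElem.1 h
  have h1 : i ∈ (List.range L.length).filter fun i => decide (L[i]? = some a) := by
    rw [List.mem_filter, List.mem_range]
    exact ⟨hi, decide_eq_true (by rw [List.getElem?_eq_getElem hi, hia])⟩
  have h2 : ix L a ∈ (List.range L.length).filter fun i => decide (L[i]? = some a) := by
    unfold ix
    generalize (List.range L.length).filter (fun i => decide (L[i]? = some a)) = M at h1 ⊢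
    cases M with
    | nil => simp at h1
    | cons x M => simp
  rw [List.mem_filter, List.mem_range] at h2
  exact ⟨h2.1, of_decide_eq_true h2.2⟩

lemma ix_inj {L : List Na} {a b : Na} (ha : a ∈ L) (hb : b ∈ L) (h : ix L a = ix L b) : a = b := by
  have h1 := (ix_spec ha).2
  have h2 := (ix_spec hb).2
  rw [h, h2, Option.some.injEq] at h1
  exact h1.symm

lemma ix_o0 (E : List Eqn) : ix (nms E) o0 = 0 := by
  unfold ix
  have h : (List.range (nms E).length) = 0 :: (List.range ((nms E).length - 1)).map Nat.succ := by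
    have h1 : (nms E).length = ((nms E).length - 1) + 1 := by
      have : 0 < (nms E).length := by simp [nms]
      omega
    rw [h1, List.range_succ_eq_map]
    simp
  rw [h, List.filter_cons_of_pos]
  · rfl
  · simp [nms]

lemma cf_nil (L : List Na) (i j : ℕ) : cf L [] i j = zer := rfl

lemma cf_cons (L : List Na) (t : Te) (l : List Te) (i j : ℕ) :
    cf L (t :: l) i j = if ix L t.2.1 = i ∧ ix L t.2.2 = j then t.1 else cf L l i j := by
  unfold cf
  by_cases h : ix L t.2.1 = i ∧ ix L t.2.2 = j
  · rw [if_pos h, List.filter_cons_of_pos (by simpa using h)]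
    rfl
  · rw [if_neg h, List.filter_cons_of_neg (by simpa using h)]

lemma cf_zer {L : List Na} {l : List Te} {a b : Na} (hl : ∀ t ∈ l, t.2.1 ∈ L ∧ t.2.2 ∈ L)
    (ha : a ∈ L) (hb : b ∈ L) (h : (a, b) ∉ l.map Prod.snd) :
    cf L l (ix L a) (ix L b) = zer := by
  induction l with
  | nil => rfl
  | cons t l ih =>
    rw [cf_cons, if_neg, ih (fun t ht => hl t (List.mem_cons_of_mem _ ht))]
    · intro h1
      exact h (List.mem_cons_of_mem _ h1)
    · rintro ⟨h1, h2⟩
      have h3 := ix_inj (hl t (by simp)).1 ha h1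
      have h4 := ix_inj (hl t (by simp)).2 hb h2
      apply h
      rw [List.map_cons, List.mem_cons]
      left
      rw [← h3, ← h4]

lemma sum_cf {L : List Na} {l : List Te} (hl : ∀ t ∈ l, t.2.1 ∈ L ∧ t.2.2 ∈ L)
    (hn : (l.map Prod.snd).Nodup) (y : ℕ → ℕ → ℝ) :
    ∑ i : Fin L.length, ∑ j : Fin L.length, (ival (cf L l i j) : ℝ) * y i j =
      (l.map fun t => (ival t.1 : ℝ) * y (ix L t.2.1) (ix L t.2.2)).sum := by
  induction l with
  | nil => simp [cf_nil, ival_zer]
  | cons t l ih =>
    rw [List.map_cons, List.nodup_cons] at hn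
    have ht := hl t (by simp)
    have hz := cf_zer (fun t ht => hl t (List.mem_cons_of_mem _ ht)) ht.1 ht.2 hn.1
    have h1 := (ix_spec ht.1).1
    have h2 := (ix_spec ht.2).1
    rw [List.map_cons, List.sum_cons, ← ih (fun t ht => hl t (List.mem_cons_of_mem _ ht)) hn.2,
      ← sum_co1 L.length (ix L t.2.1) (ix L t.2.2) t.1 h1 h2 y, ← Finset.sum_add_distrib]
    refine Finset.sum_congr rfl fun i _ => ?_
    rw [← Finset.sum_add_distrib]
    refine Finset.sum_congr rfl fun j _ => ?_
    rw [cf_cons, ← add_mul]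
    congr 1
    by_cases h : ix L t.2.1 = i ∧ ix L t.2.2 = j
    · rw [if_pos h, co1, if_pos ⟨h.1.symm, h.2.symm⟩, ← h.1, ← h.2, hz, ival_zer]
      simp
    · rw [if_neg h, co1, if_neg (fun h' => h ⟨h'.1.symm, h'.2.symm⟩)]
      have : ival ((true, []) : BInt) = 0 := ival_nil
      rw [this]
      simp

/-- a positive semidefinite kernel -/
def Psdk (K : Na → Na → ℝ) : Prop :=
  ∀ (n : ℕ) (f : Fin n → Na), (Matrix.of fun i j => K (f i) (f j) : Matrix (Fin n) (Fin n) ℝ).PosSemidef

lemma mem_nms {E : List Eqn} {e : Eqn} (he : e ∈ E) {t : Te} (ht : t ∈ e.1) :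
    t.2.1 ∈ nms E ∧ t.2.2 ∈ nms E := by
  constructor
  · exact List.mem_cons_of_mem _ (List.mem_flatMap.2 ⟨e, he, List.mem_flatMap.2 ⟨t, ht, by simp⟩⟩)
  · exact List.mem_cons_of_mem _ (List.mem_flatMap.2 ⟨e, he, List.mem_flatMap.2 ⟨t, ht, by simp⟩⟩)

lemma nms_pos (E : List Eqn) : 0 < (nms E).length := by simp [nms]

/-- **Soundness.** -/
theorem net_sound {E : List Eqn} (hE : ∀ e ∈ E, Ok e) (h : sdpOf E ∈ SDPFeas) :
    ∃ (m : ℕ) (x : Na → EuclideanSpace ℝ (Fin m)), ⟪x o0, x o0⟫_ℝ = 1 ∧
      ∀ e ∈ E, Hol (fun a b => ⟪x a, x b⟫_ℝ) e := by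
  obtain ⟨X, hX, hS⟩ := h
  obtain ⟨m, x, hx⟩ := exists_vectors hX
  change Fin (nms E).length → _ at x
  let xx : ℕ → EuclideanSpace ℝ (Fin m) := fun p => if h : p < (nms E).length then x ⟨p, h⟩ else 0
  have hxx : ∀ i j : Fin (nms E).length, ⟪xx i, xx j⟫_ℝ = X i j := by
    intro i j
    simp only [xx]
    rw [dif_pos i.2, dif_pos j.2]
    exact hx i j
  refine ⟨m, fun a => xx (ix (nms E) a), ?_, ?_⟩
  · have h1 := hS _ (List.mem_cons_self)
    simp only [entry_tab] at h1
    have h2 := sum_co1 (nms E).length 0 0 one (nms_pos E) (nms_pos E) (fun i j => ⟪xx i, xx j⟫_ℝ)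
    change ⟪xx (ix (nms E) o0), xx (ix (nms E) o0)⟫_ℝ = 1
    rw [ix_o0]
    simp only [hxx] at h2
    have h3 : (ival one : ℝ) * ⟪xx 0, xx 0⟫_ℝ = ival one := by
      rw [← h2]
      exact h1
    rw [Helper95.Slp.ival_one, Int.cast_one, one_mul] at h3
    exact h3
  · intro e he
    have h1 := hS _ (List.mem_cons_of_mem _ (List.mem_map.2 ⟨e, he, rfl⟩))
    simp only [entry_tab] at h1
    have h2 := sum_cf (L := nms E) (l := e.1) (fun t ht => mem_nms he ht) (hE e he)
      (fun i j => ⟪xx i, xx j⟫_ℝ)
    simp only [hxx] at h2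
    unfold Hol lhs
    rw [← h1]
    exact h2.symm

/-- **Completeness.** -/
theorem net_complete {E : List Eqn} (hE : ∀ e ∈ E, Ok e) {K : Na → Na → ℝ} (hK : Psdk K)
    (h0 : K o0 o0 = 1) (h : ∀ e ∈ E, Hol K e) : sdpOf E ∈ SDPFeas := by
  let nm : ℕ → Na := fun i => ((nms E)[i]?).getD o0
  have hnm : ∀ a ∈ nms E, nm (ix (nms E) a) = a := by
    intro a ha
    simp only [nm]
    rw [(ix_spec ha).2, Option.getD_some]
  refine ⟨(Matrix.of fun i j => K (nm i) (nm j) :
    Matrix (Fin (nms E).length) (Fin (nms E).length) ℝ), hK _ (fun i => nm i), ?_⟩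
  intro a ha
  rcases List.mem_cons.1 ha with rfl | ha
  · simp only [entry_tab]
    have h2 := sum_co1 (nms E).length 0 0 one (nms_pos E) (nms_pos E) (fun i j => K (nm i) (nm j))
    have h3 : nm 0 = o0 := by simp [nm, nms]
    rw [h3, h0, mul_one] at h2
    exact h2
  · obtain ⟨e, he, rfl⟩ := List.mem_map.1 ha
    simp only [entry_tab]
    have h2 := sum_cf (L := nms E) (l := e.1) (fun t ht => mem_nms he ht) (hE e he)
      (fun i j => K (nm i) (nm j))
    have h3 : (e.1.map fun t => (ival t.1 : ℝ) * K (nm (ix (nms E) t.2.1))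
        (nm (ix (nms E) t.2.2))).sum = lhs K e.1 := by
      unfold lhs
      congr 1
      refine List.map_congr_left fun t ht => ?_
      rw [hnm _ (mem_nms he ht).1, hnm _ (mem_nms he ht).2]
    rw [h3, h e he] at h2
    exact h2

/-! ### Kernels -/

lemma psdk_of_vec {H : Type} [NormedAddCommGroup H] [InnerProductSpace ℝ H] (X : Na → H) :
    Psdk (fun a b => ⟪X a, X b⟫_ℝ) := fun _ f => gram_posSemidef (fun i => X (f i))

lemma psdk_one (w : Na → ℝ) : Psdk (fun a b => w a * w b) := by
  have h := psdk_of_vec w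
  intro n f
  have h1 := h n f
  convert h1 using 1
  ext i j
  simp only [Matrix.of_apply, RCLike.inner_apply, conj_trivial]
  ring

lemma psdk_zero : Psdk (fun _ _ => 0) := by
  have h := psdk_one (fun _ => 0)
  simpa using h

lemma Psdk.add {K K' : Na → Na → ℝ} (h : Psdk K) (h' : Psdk K') :
    Psdk (fun a b => K a b + K' a b) := by
  intro n f
  exact (h n f).add (h' n f)

lemma psdk_sum (n : ℕ) (K : ℕ → Na → Na → ℝ) (h : ∀ k, Psdk (K k)) :
    Psdk (fun a b => ∑ k ∈ Finset.range n, K k a b) := by
  induction n with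
  | zero => simpa using psdk_zero
  | succ n ih =>
    simp only [Finset.sum_range_succ]
    exact ih.add (h n)

/-- the kernel of vectors in orthogonal directions with labels -/
lemma psdk_dir {D : Type} [DecidableEq D] (dir : Na → D) (z : Na → ℝ) :
    Psdk (fun a b => if dir a = dir b then z a * z b else 0) := by
  intro n f
  let S : Finset D := Finset.univ.image fun i => dir (f i)
  let X : Fin n → EuclideanSpace ℝ S := fun i => WithLp.toLp 2 fun s =>
    if dir (f i) = (s : D) then z (f i) else 0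
  have h := gram_posSemidef X
  convert h using 1
  ext i j
  simp only [Matrix.of_apply, X, PiLp.inner_apply, RCLike.inner_apply, conj_trivial]
  by_cases hij : dir (f i) = dir (f j)
  · rw [if_pos hij]
    have hm : dir (f i) ∈ S := Finset.mem_image_of_mem _ (Finset.mem_univ i)
    rw [Finset.sum_eq_single (⟨dir (f i), hm⟩ : S)]
    · rw [if_pos hij.symm, if_pos rfl, mul_comm]
    · intro s _ hs
      have h2 : ¬ dir (f i) = (s : D) := fun h1 => hs (Subtype.ext h1.symm)
      rw [if_neg h2, mul_zero]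
    · intro h1; exact absurd (Finset.mem_univ _) h1
  · rw [if_neg hij]
    symm
    refine Finset.sum_eq_zero fun s _ => ?_
    by_cases h1 : dir (f i) = (s : D)
    · rw [if_neg (fun h2 => hij (h1.trans h2.symm)), zero_mul]
    · rw [if_neg h1, mul_zero]

/-- a positive semidefinite matrix on some of the rows -/
lemma psdk_mat {n : ℕ} {Y : Matrix (Fin n) (Fin n) ℝ} (hY : Y.PosSemidef)
    (P : Na → Option (Fin n)) : Psdk (fun a b => match P a, P b with
      | some i, some j => Y i j
      | _, _ => 0) := by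
  obtain ⟨m, y, hy⟩ := exists_vectors hY
  have h := psdk_of_vec (fun a => match P a with
    | some i => y i
    | none => 0)
  intro N f
  have h1 := h N f
  convert h1 using 1
  ext i j
  simp only [Matrix.of_apply]
  rcases h1 : P (f i) with _ | p
  · simp
  · rcases h2 : P (f j) with _ | q
    · simp
    · simp [hy]

end Pool.Agent.Helper7.SC
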