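import Pool.Agent.Helper7.SC.Circ

/-!
# The translations are computable in polynomial time
-/

open Pool.Agent.Helper91.PolyTime

namespace Pool.Agent.Helper7.SC

open Pool.Agent.Helper92.Theta Pool.Agent.Helper95.Slp

variable {α : Type} [PEnc α]

theorem ptf_nms {E : α → List Eqn} (hE : PTF E) : PTF (fun x => nms (E x)) := by
  unfold nms
  refine PTF.cons (PTF.const _) (PTF.flatMap (f := fun _ (e : Eqn) =>
    e.1.flatMap fun t => [t.2.1, t.2.2]) hE ?_)
  refine PTF.flatMap (f := fun _ (t : Te) => [t.2.1, t.2.2]) PTF.id.snd.fst ?_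
  exact PTF.cons PTF.id.snd.snd.fst (PTF.cons PTF.id.snd.snd.snd (PTF.const []))

lemma ptf_ix {L : α → List Na} {a : α → Na} (hL : PTF L) (ha : PTF a) :
    PTF (fun x => ix (L x) (a x)) := by
  unfold ix
  refine ptf_getD (PTF.head? (PTF.filter (f := fun x i => decide ((L x)[i]? = some (a x)))
    (PTF.range (PTF.length hL)) ?_)) (PTF.const _)
  exact PTF.eq (PTF.getElem? PTF.id.snd (hL.comp PTF.id.fst)) (PTF.some (ha.comp PTF.id.fst))

lemma ptf_cf {L : α → List Na} {l : α → List Te} {i j : α → ℕ} (hL : PTF L) (hl : PTF l)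
    (hi : PTF i) (hj : PTF j) : PTF (fun x => cf (L x) (l x) (i x) (j x)) := by
  unfold cf
  refine (ptf_getD (PTF.head? (PTF.filter (f := fun x (t : Te) =>
    decide (ix (L x) t.2.1 = i x ∧ ix (L x) t.2.2 = j x)) hl ?_)) (PTF.const _)).fst
  have hL' : PTF (fun p : α × Te => L p.1) := hL.comp PTF.id.fst
  exact PTF.decide_and
    (PTF.eq (ptf_ix hL' PTF.id.snd.snd.fst) (hi.comp PTF.id.fst))
    (PTF.eq (ptf_ix hL' PTF.id.snd.snd.snd) (hj.comp PTF.id.fst))

theorem ptf_sdpOf {E : α → List Eqn} (hE : PTF E) : PTF (fun x => sdpOf (E x)) := by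
  unfold sdpOf
  have hn := ptf_nms hE
  have hN : PTF (fun x => (nms (E x)).length) := PTF.length hn
  refine PTF.pair hN (PTF.cons (PTF.pair (ptf_tab (c := fun _ => co1 0 0 one) hN ?_)
    (PTF.const _)) (PTF.map (f := fun x (e : Eqn) =>
      (tab (nms (E x)).length (cf (nms (E x)) e.1), e.2)) hE ?_))
  · exact ptf_co1 (PTF.const 0) (PTF.const 0) (PTF.const _) PTF.id.fst.snd PTF.id.snd
  · refine PTF.pair (ptf_tab (c := fun (p : α × Eqn) => cf (nms (E p.1)) p.2.1)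
      (hN.comp PTF.id.fst) ?_) PTF.id.snd.snd
    exact ptf_cf (hn.comp PTF.id.fst.fst.fst) PTF.id.fst.fst.snd.fst PTF.id.fst.snd PTF.id.snd

/-! ### Terms -/

lemma ptf_na (c : ℕ) {p q r : α → ℕ} (hp : PTF p) (hq : PTF q) (hr : PTF r) :
    PTF (fun x => ((c, p x, q x, r x) : Na)) :=
  PTF.pair (PTF.const c) (PTF.pair hp (PTF.pair hq hr))

lemma ptf_V {c : α → ℕ} (hc : PTF c) : PTF (fun x => V (c x)) :=
  ptf_na 1 hc (PTF.const 0) (PTF.const 0)

lemma ptf_te {z : α → BInt} {a b : α → Na} (hz : PTF z) (ha : PTF a) (hb : PTF b) :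
    PTF (fun x => ((z x, a x, b x) : Te)) :=
  PTF.pair hz (PTF.pair ha hb)

lemma ptf_tc (z : BInt) {a b : α → Na} (ha : PTF a) (hb : PTF b) :
    PTF (fun x => ((z, a x, b x) : Te)) :=
  PTF.pair (PTF.const z) (PTF.pair ha hb)

lemma ptf_e1 {t : α → Te} {z : α → BInt} (ht : PTF t) (hz : PTF z) :
    PTF (fun x => (([t x], z x) : Eqn)) :=
  PTF.pair (PTF.cons ht (PTF.const [])) hz

lemma ptf_e2 {t t' : α → Te} {z : α → BInt} (ht : PTF t) (ht' : PTF t') (hz : PTF z) :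
    PTF (fun x => (([t x, t' x], z x) : Eqn)) :=
  PTF.pair (PTF.cons ht (PTF.cons ht' (PTF.const []))) hz

lemma ptf_e3 {t t' t'' : α → Te} {z : α → BInt} (ht : PTF t) (ht' : PTF t') (ht'' : PTF t'')
    (hz : PTF z) : PTF (fun x => (([t x, t' x, t'' x], z x) : Eqn)) :=
  PTF.pair (PTF.cons ht (PTF.cons ht' (PTF.cons ht'' (PTF.const [])))) hz

lemma ptf_bq {op : α → ℕ} {i j t u a b : α → Na} {z : α → BInt} (hop : PTF op)
    (hi : PTF i) (hj : PTF j) (ht : PTF t) (hu : PTF u) (ha : PTF a) (hb : PTF b) (hz : PTF z) :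
    PTF (fun x => bq (op x) (i x) (j x) (t x) (u x) (a x) (b x) (z x)) := by
  unfold bq
  have h0 : PTF (fun _ : α => o0) := PTF.const _
  have hzer : PTF (fun _ : α => zer) := PTF.const _
  have hone : PTF (fun _ : α => one) := PTF.const _
  have nil : PTF (fun _ : α => ([] : List Eqn)) := PTF.const []
  refine PTF.ite (PTF.eq hop (PTF.const 0)) ?_ (PTF.ite (PTF.eq hop (PTF.const 1)) ?_
    (PTF.ite (PTF.eq hop (PTF.const 2)) ?_ (PTF.ite (PTF.eq hop (PTF.const 3)) ?_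
    (PTF.ite (PTF.eq hop (PTF.const 4)) ?_ (PTF.ite (PTF.eq hop (PTF.const 5)) ?_ ?_)))))
  · exact PTF.cons (ptf_e1 (ptf_tc one h0 ht) hz) (PTF.cons (ptf_e2 (ptf_tc one ht ht)
      (ptf_te (ptf_bneg' hz) h0 ht) hzer) nil)
  · exact PTF.cons (ptf_e3 (ptf_tc one h0 ht) (ptf_tc mone h0 hi) (ptf_tc mone hj h0) hzer)
      (PTF.cons (ptf_e3 (ptf_tc one ht ht) (ptf_tc mone hi ht) (ptf_tc mone ht hj) hzer) nil)
  · exact PTF.cons (ptf_e3 (ptf_tc one h0 ht) (ptf_tc mone h0 hi) (ptf_tc one hj h0) hzer)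
      (PTF.cons (ptf_e3 (ptf_tc one ht ht) (ptf_tc mone hi ht) (ptf_tc one ht hj) hzer) nil)
  · exact PTF.cons (ptf_e2 (ptf_tc one h0 ht) (ptf_tc mone hi hj) hzer)
      (PTF.cons (ptf_e2 (ptf_tc one h0 hu) (ptf_tc mone hj ht) hzer)
      (PTF.cons (ptf_e2 (ptf_tc one ht ht) (ptf_tc mone hi hu) hzer) nil))
  · exact PTF.cons (ptf_e2 (ptf_tc one hj ht) (ptf_tc mone h0 hi) hzer)
      (PTF.cons (ptf_e2 (ptf_tc one h0 hu) (ptf_tc mone ht ht) hzer)
      (PTF.cons (ptf_e2 (ptf_tc one hj hu) (ptf_tc mone hi ht) hzer)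
      (PTF.cons (ptf_e1 (ptf_tc one ha hb) hone)
      (PTF.cons (ptf_e2 (ptf_tc one hb hb) (ptf_tc mone hj hj) hzer) nil))))
  · exact PTF.cons (ptf_e2 (ptf_tc one h0 hi) (ptf_tc mone hi ht) hzer)
      (PTF.cons (ptf_e2 (ptf_tc one ht ht) (ptf_tc mone h0 ht) hzer)
      (PTF.cons (ptf_e2 (ptf_tc one hb hb) (ptf_tc mone hi hi) hzer)
      (PTF.cons (ptf_e2 (ptf_tc one ha hb) (ptf_tc mone h0 ht) hzer) nil)))
  · exact PTF.cons (ptf_e2 (ptf_tc one ht ht) (ptf_tc mone h0 hi) hzer)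
      (PTF.cons (ptf_e2 (ptf_tc one ha ha) (ptf_tc mone h0 ht) hzer)
      (PTF.cons (ptf_e2 (ptf_tc one ha hb) (ptf_tc mone h0 hi) hzer)
      (PTF.cons (ptf_e2 (ptf_tc one hb hb) (ptf_tc mone hi ht) hzer) nil)))

lemma ptf_gq {K : α → ℕ} {g : α → Gate} (hK : PTF K) (hg : PTF g) :
    PTF (fun x => gq (K x) (g x)) := by
  unfold gq
  have h0 : PTF (fun _ : α => 0) := PTF.const 0
  exact ptf_bq hg.fst (ptf_V (ptf_idx hK hg.snd.fst)) (ptf_V (ptf_idx hK hg.snd.snd.fst))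
    (ptf_V (PTF.succ hK)) (ptf_na 2 (PTF.succ hK) h0 h0) (ptf_na 3 (PTF.succ hK) h0 h0)
    (ptf_na 4 (PTF.succ hK) h0 h0) hg.snd.snd.snd

lemma ptf_div6 {K : α → ℕ} (hK : PTF K) : PTF (fun x => K x / 6) := by
  refine (PTF.length (PTF.filter (f := fun x i => decide (6 * i + 6 ≤ K x)) (PTF.range hK)
    (PTF.le (PTF.add (PTF.mul (PTF.const 6) PTF.id.snd) (PTF.const 6))
      (hK.comp PTF.id.fst)))).of_eq fun x => ?_
  have h : ∀ n k : ℕ, ((List.range n).filter fun i => decide (6 * i + 6 ≤ k)).length =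
      min n (k / 6) := by
    intro n k
    induction n with
    | zero => simp
    | succ n ih =>
      rw [List.range_succ, List.filter_append, List.length_append, ih]
      by_cases h1 : 6 * n + 6 ≤ k
      · rw [List.filter_cons_of_pos (by simpa using h1)]
        simp only [List.filter_nil, List.length_cons, List.length_nil]
        omega
      · rw [List.filter_cons_of_neg (by simpa using h1)]
        simp only [List.filter_nil, List.length_nil]
        omega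
  rw [h]
  omega

lemma ptf_rd {K q : α → ℕ} (hK : PTF K) (hq : PTF q) : PTF (fun x => rd (K x) (q x)) := by
  unfold rd
  exact PTF.mul (PTF.const 6) (ptf_idx (ptf_div6 hK) hq)

lemma ptf_pB {n l : α → ℕ} (hn : PTF n) (hl : PTF l) : PTF (fun x => pB (n x) (l x)) := by
  unfold pB
  exact PTF.add (PTF.const 1) (PTF.mul hl (PTF.add (PTF.mul hn hn) (PTF.const 1)))

lemma ptf_pA {n l i j : α → ℕ} (hn : PTF n) (hl : PTF l) (hi : PTF i) (hj : PTF j) :
    PTF (fun x => pA (n x) (l x) (i x) (j x)) := by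
  unfold pA
  exact PTF.add (PTF.add (PTF.add (ptf_pB hn hl) (PTF.const 1)) (PTF.mul hn hi)) hj

/-- the row of the datum number `u` -/
lemma ptf_W {K p u : α → ℕ} (hK : PTF K) (hp : PTF p) (hu : PTF u) :
    PTF (fun x => V (rd (K x) (p x + u x))) :=
  ptf_V (ptf_rd hK (PTF.add hp hu))

theorem ptf_sq {K p n m : α → ℕ} (hK : PTF K) (hp : PTF p) (hn : PTF n) (hm : PTF m) :
    PTF (fun x => sq (K x) (fun u => V (rd (K x) (p x + u))) (n x) (m x)) := by
  unfold sq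
  have h0 : ∀ {β : Type} [PEnc β], PTF (fun _ : β => o0) := fun {β} _ => PTF.const _
  have hzer : ∀ {β : Type} [PEnc β], PTF (fun _ : β => zer) := fun {β} _ => PTF.const _
  have z : ∀ {β : Type} [PEnc β], PTF (fun _ : β => 0) := fun {β} _ => PTF.const _
  have nil : PTF (fun _ : α => ([] : List Eqn)) := PTF.const []
  have hT : PTF (fun x => V (K x + 1)) := ptf_V (PTF.succ hK)
  have hrn : PTF (fun x => List.range (n x)) := PTF.range hn
  have hrm : PTF (fun x => List.range (m x)) := PTF.range hm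
  refine PTF.append (PTF.append (PTF.append (PTF.append (PTF.append (PTF.append ?_ ?_) ?_) ?_) ?_)
    ?_) ?_
  · exact PTF.cons (ptf_e2 (ptf_tc one hT hT) (ptf_tc mone h0 hT) hzer) nil
  · refine PTF.flatMap (f := fun x i => (List.range (n x)).map fun j =>
      (([(one, Yn (K x) i, Yn (K x) j), (mone, o0, Rn (K x) i j)], zer) : Eqn)) hrn ?_
    refine PTF.map (f := fun (q : α × ℕ) j =>
      (([(one, Yn (K q.1) q.2, Yn (K q.1) j), (mone, o0, Rn (K q.1) q.2 j)], zer) : Eqn))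
      (hrn.comp PTF.id.fst) ?_
    have hK' : PTF (fun q : (α × ℕ) × ℕ => K q.1.1) := hK.comp PTF.id.fst.fst
    exact ptf_e2 (ptf_tc one (ptf_na 5 hK' PTF.id.fst.snd z) (ptf_na 5 hK' PTF.id.snd z))
      (ptf_tc mone h0 (ptf_na 7 hK' PTF.id.fst.snd PTF.id.snd)) hzer
  · refine PTF.cons (PTF.pair (PTF.cons (ptf_tc mone (ptf_W hK hp (PTF.const 0)) hT)
      (PTF.map (f := fun x i => ((one, o0, Rn (K x) i i) : Te)) hrn ?_)) hzer) nil
    exact ptf_tc one h0 (ptf_na 7 (hK.comp PTF.id.fst) PTF.id.snd PTF.id.snd)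
  · refine PTF.map (f := fun x l => (((mone, V (rd (K x) (p x + pB (n x) l)), V (K x + 1)) ::
      (List.range (n x)).flatMap fun i => (List.range (n x)).map fun j =>
      (one, V (rd (K x) (p x + pA (n x) l i j)), Rn (K x) i j), zer) : Eqn)) hrm ?_
    have hK1 : PTF (fun q : α × ℕ => K q.1) := hK.comp PTF.id.fst
    have hp1 : PTF (fun q : α × ℕ => p q.1) := hp.comp PTF.id.fst
    have hn1 : PTF (fun q : α × ℕ => n q.1) := hn.comp PTF.id.fst
    refine PTF.pair (PTF.cons (ptf_tc mone (ptf_W hK1 hp1 (ptf_pB hn1 PTF.id.snd))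
      (hT.comp PTF.id.fst)) (PTF.flatMap (f := fun (q : α × ℕ) i =>
        (List.range (n q.1)).map fun j => ((one, V (rd (K q.1) (p q.1 + pA (n q.1) q.2 i j)),
          Rn (K q.1) i j) : Te)) (PTF.range hn1) ?_)) hzer
    refine PTF.map (f := fun (r : (α × ℕ) × ℕ) j => ((one, V (rd (K r.1.1) (p r.1.1 +
      pA (n r.1.1) r.1.2 r.2 j)), Rn (K r.1.1) r.2 j) : Te)) (PTF.range (hn1.comp PTF.id.fst)) ?_
    have hK3 : PTF (fun q : ((α × ℕ) × ℕ) × ℕ => K q.1.1.1) := hK.comp PTF.id.fst.fst.fst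
    have hp3 : PTF (fun q : ((α × ℕ) × ℕ) × ℕ => p q.1.1.1) := hp.comp PTF.id.fst.fst.fst
    have hn3 : PTF (fun q : ((α × ℕ) × ℕ) × ℕ => n q.1.1.1) := hn.comp PTF.id.fst.fst.fst
    exact ptf_tc one (ptf_W hK3 hp3 (ptf_pA hn3 PTF.id.fst.fst.snd PTF.id.fst.snd PTF.id.snd))
      (ptf_na 7 hK3 PTF.id.fst.snd PTF.id.snd)
  · refine PTF.flatMap (f := fun x i => (List.range (n x)).map fun j =>
      (((two, Zn (K x) i, Zn (K x) j) :: (if i = j then mtwo else zer, o0, Dn (K x)) ::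
      (((List.range (m x)).map fun l => (mone, V (rd (K x) (p x + pA (n x) l i j)), Mn (K x) l)) ++
      (List.range (m x)).map fun l => (mone, V (rd (K x) (p x + pA (n x) l j i)), Mc (K x) l)),
        zer) : Eqn)) hrn ?_
    refine PTF.map (f := fun (q : α × ℕ) j =>
      (((two, Zn (K q.1) q.2, Zn (K q.1) j) :: (if q.2 = j then mtwo else zer, o0, Dn (K q.1)) ::
      (((List.range (m q.1)).map fun l =>
        (mone, V (rd (K q.1) (p q.1 + pA (n q.1) l q.2 j)), Mn (K q.1) l)) ++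
      (List.range (m q.1)).map fun l =>
        (mone, V (rd (K q.1) (p q.1 + pA (n q.1) l j q.2)), Mc (K q.1) l)),
        zer) : Eqn)) (hrn.comp PTF.id.fst) ?_
    have hK2 : PTF (fun q : (α × ℕ) × ℕ => K q.1.1) := hK.comp PTF.id.fst.fst
    have hK3 : PTF (fun q : ((α × ℕ) × ℕ) × ℕ => K q.1.1.1) := hK.comp PTF.id.fst.fst.fst
    have hp3 : PTF (fun q : ((α × ℕ) × ℕ) × ℕ => p q.1.1.1) := hp.comp PTF.id.fst.fst.fst
    have hn3 : PTF (fun q : ((α × ℕ) × ℕ) × ℕ => n q.1.1.1) := hn.comp PTF.id.fst.fst.fst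
    refine PTF.pair (PTF.cons (ptf_tc two (ptf_na 6 hK2 PTF.id.fst.snd z)
      (ptf_na 6 hK2 PTF.id.snd z)) (PTF.cons (ptf_te (PTF.ite (PTF.eq PTF.id.fst.snd PTF.id.snd)
        (PTF.const _) (PTF.const _)) h0 (ptf_na 10 hK2 z z)) (PTF.append ?_ ?_))) hzer
    · refine PTF.map (f := fun (q : (α × ℕ) × ℕ) l =>
        ((mone, V (rd (K q.1.1) (p q.1.1 + pA (n q.1.1) l q.1.2 q.2)), Mn (K q.1.1) l) : Te))
        (hrm.comp PTF.id.fst.fst) ?_
      exact ptf_tc mone (ptf_W hK3 hp3 (ptf_pA hn3 PTF.id.snd PTF.id.fst.fst.snd PTF.id.fst.snd))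
        (ptf_na 8 hK3 PTF.id.snd z)
    · refine PTF.map (f := fun (q : (α × ℕ) × ℕ) l =>
        ((mone, V (rd (K q.1.1) (p q.1.1 + pA (n q.1.1) l q.2 q.1.2)), Mc (K q.1.1) l) : Te))
        (hrm.comp PTF.id.fst.fst) ?_
      exact ptf_tc mone (ptf_W hK3 hp3 (ptf_pA hn3 PTF.id.snd PTF.id.fst.snd PTF.id.fst.fst.snd))
        (ptf_na 9 hK3 PTF.id.snd z)
  · refine PTF.map (f := fun x l =>
      (([(one, o0, Mn (K x) l), (mone, o0, Mc (K x) l)], zer) : Eqn)) hrm ?_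
    have hK1 : PTF (fun q : α × ℕ => K q.1) := hK.comp PTF.id.fst
    exact ptf_e2 (ptf_tc one h0 (ptf_na 8 hK1 PTF.id.snd z))
      (ptf_tc mone h0 (ptf_na 9 hK1 PTF.id.snd z)) hzer
  · refine PTF.cons (PTF.pair (PTF.cons (ptf_tc one h0 h0) (PTF.cons (ptf_tc mone h0 hT)
      (PTF.cons (ptf_tc one (ptf_W hK hp (PTF.const 0)) (ptf_na 10 hK z z))
      (PTF.map (f := fun x l =>
        ((one, V (rd (K x) (p x + pB (n x) l)), Mn (K x) l) : Te)) hrm ?_)))) hzer) nil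
    have hK1 : PTF (fun q : α × ℕ => K q.1) := hK.comp PTF.id.fst
    have hp1 : PTF (fun q : α × ℕ => p q.1) := hp.comp PTF.id.fst
    have hn1 : PTF (fun q : α × ℕ => n q.1) := hn.comp PTF.id.fst
    exact ptf_tc one (ptf_W hK1 hp1 (ptf_pB hn1 PTF.id.snd)) (ptf_na 8 hK1 PTF.id.snd z)

lemma ptf_xq {K : α → ℕ} {g : α → XGate} (hK : PTF K) (hg : PTF g) :
    PTF (fun x => xq (K x) (g x)) := by
  unfold xq
  exact PTF.ite (PTF.eq hg.fst (PTF.const true)) (ptf_sq hK hg.snd.snd.fst hg.snd.fst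
    hg.snd.snd.snd.fst) (ptf_gq hK hg.snd)

theorem ptf_sysX {P : α → List XGate} (hP : PTF P) : PTF (fun x => sysX (P x)) := by
  unfold sysX
  refine PTF.append (PTF.const _) (PTF.flatMap (f := fun x K => xq K (((P x)[K]?).getD xg0))
    (PTF.range (PTF.length hP)) ?_)
  exact ptf_xq PTF.id.snd (ptf_getD (PTF.getElem? PTF.id.snd (hP.comp PTF.id.fst)) (PTF.const _))

/-! ### Circuits -/

lemma ptf_apX {P : α → List XGate} {op i j : α → ℕ} (hP : PTF P)
    (hop : PTF op) (hi : PTF i) (hj : PTF j) : PTF (fun x => apX (P x) (op x) (i x) (j x)) := by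
  unfold apX
  exact PTF.append hP (PTF.cons (PTF.pair (PTF.const false) (PTF.pair hop (PTF.pair hi
    (PTF.pair hj (PTF.const _))))) (PTF.const []))

theorem ptf_posX : PTF posX := by
  unfold posX
  exact ptf_apX (ptf_apX PTF.id (PTF.const 6) (PTF.length PTF.id) (PTF.const 0)) (PTF.const 2)
    (PTF.succ (PTF.length PTF.id)) (PTF.const 0)

theorem ptf_negX : PTF negX := by
  unfold negX
  exact ptf_apX (ptf_apX PTF.id (PTF.const 6) (PTF.length PTF.id) (PTF.const 0)) (PTF.const 2)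
    (PTF.const 0) (PTF.succ (PTF.length PTF.id))

lemma ptf_blkX {k : α → ℕ} {g : α → XGate} (hk : PTF k) (hg : PTF g) :
    PTF (fun x => blkX (k x) (g x)) := by
  unfold blkX
  have hf : PTF (fun _ : α => ((false, fil) : XGate)) := PTF.const _
  refine PTF.ite (PTF.eq hg.fst (PTF.const true)) ?_ ?_
  · exact PTF.cons hf (PTF.cons hf (PTF.cons hf (PTF.cons hf (PTF.cons hf
      (PTF.cons (PTF.pair (PTF.const true) hg.snd) (PTF.const []))))))
  · refine PTF.map (f := fun _ (g : Gate) => ((false, g) : XGate)) (ptf_blk hk hg.snd.fst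
      (PTF.mul (PTF.const 6) (ptf_idx hk hg.snd.snd.fst))
      (PTF.mul (PTF.const 6) (ptf_idx hk hg.snd.snd.snd.fst)) hg.snd.snd.snd.snd) ?_
    exact PTF.pair (PTF.const false) PTF.id.snd

theorem ptf_cmpX : PTF cmpX := by
  unfold cmpX
  refine PTF.flatMap (f := fun (P : List XGate) k => blkX k ((P[k]?).getD xg0))
      (PTF.range (PTF.length PTF.id)) ?_
  exact ptf_blkX PTF.id.snd (ptf_getD (PTF.getElem? PTF.id.snd PTF.id.fst) (PTF.const _))

theorem ptf_circX : PTF circX := by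
  unfold circX
  have h : PTF (fun P : List XGate => cmpX (posX P)) := ptf_cmpX.comp ptf_posX
  refine ptf_sdpOf (PTF.append (ptf_sysX h) (PTF.cons ?_ (PTF.const [])))
  exact ptf_e2 (PTF.const _) (ptf_tc mone (PTF.const _) (ptf_V (PTF.length h))) (PTF.const _)

theorem ptf_mapX : PTF (fun P : List Gate => P.map (Prod.mk false)) :=
  PTF.map (f := fun _ (g : Gate) => ((false, g) : XGate)) PTF.id
    (PTF.pair (PTF.const false) PTF.id.snd)

end Pool.Agent.Helper7.SC
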