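import Pool.Agent.Helper7.SC.Rnd

/-!
# The construction is computable in polynomial time
-/

open Pool.Agent.Helper91.PolyTime

namespace Pool.Agent.Helper7.SC

open Pool.Agent.Helper92.Theta Pool.Agent.Helper95.Slp

variable {α : Type} [PEnc α]

/-- Case distinction for sums. -/
lemma sumCase {β γ δ : Type} [PEnc β] [PEnc γ] [PEnc δ] {o : α → β ⊕ γ} {f : α → β → δ}
    {g : α → γ → δ} (ho : PTF o) (hf : PTF (fun p : α × β => f p.1 p.2))
    (hg : PTF (fun p : α × γ => g p.1 p.2)) :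
    PTF (fun a => Sum.elim (f a) (g a) (o a)) := by
  refine PT.casesOn ho ?_ ?_ ?_
  · have hα : IsEmpty {x : α // enc (o x) = []} := ⟨fun x => by
      have hl := x.2
      cases hx : o x with
      | inl b => rw [hx, enc_inl] at hl; simp at hl
      | inr b => rw [hx, enc_inr] at hl; simp at hl⟩
    exact ⟨fun _ _ _ => .skip, 0, 0, fun _ _ _ _ _ => trivial,
      fun _ _ _ _ _ _ x => (hα.false x).elim⟩
  · have hval : ∀ x : {x : α // ∃ l, enc (o x) = true :: l}, ∃ b, o x = Sum.inl b := by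
      intro x
      obtain ⟨l, hl⟩ := x.2
      cases hx : o x with
      | inl b => exact ⟨b, rfl⟩
      | inr b => rw [hx, enc_inr] at hl; simp at hl
    choose φ hφ using hval
    have h1 : PT (fun x : {x : α // ∃ l, enc (o x) = true :: l} => enc (x : α))
        (fun x => pr (enc (x : α)) (enc (o x)).tail) :=
      PT.pair (PT.refl _) (ho.reindex (fun x : {x : α // ∃ l, enc (o x) = true :: l} =>
        (x : α))).tail
    have h2 := hf.reindex (fun x : {x : α // ∃ l, enc (o x) = true :: l} => ((x : α), φ x))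
    have he : (fun x : {x : α // ∃ l, enc (o x) = true :: l} =>
        pr (enc (x : α)) (enc (o x)).tail) =
        fun x : {x : α // ∃ l, enc (o x) = true :: l} => enc ((x : α), φ x) := by
      funext x
      rw [hφ x, enc_inl, List.tail_cons, enc_prod]
    rw [he] at h1
    have he2 : (fun x : {x : α // ∃ l, enc (o x) = true :: l} => enc (Sum.elim (f x) (g x) (o x))) =
        fun x : {x : α // ∃ l, enc (o x) = true :: l} => enc (f x (φ x)) := by
      funext x; rw [hφ x]; rfl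
    rw [he2]; exact h1.trans h2
  · have hval : ∀ x : {x : α // ∃ l, enc (o x) = false :: l}, ∃ b, o x = Sum.inr b := by
      intro x
      obtain ⟨l, hl⟩ := x.2
      cases hx : o x with
      | inr b => exact ⟨b, rfl⟩
      | inl b => rw [hx, enc_inl] at hl; simp at hl
    choose φ hφ using hval
    have h1 : PT (fun x : {x : α // ∃ l, enc (o x) = false :: l} => enc (x : α))
        (fun x => pr (enc (x : α)) (enc (o x)).tail) :=
      PT.pair (PT.refl _) (ho.reindex (fun x : {x : α // ∃ l, enc (o x) = false :: l} =>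
        (x : α))).tail
    have h2 := hg.reindex (fun x : {x : α // ∃ l, enc (o x) = false :: l} => ((x : α), φ x))
    have he : (fun x : {x : α // ∃ l, enc (o x) = false :: l} =>
        pr (enc (x : α)) (enc (o x)).tail) =
        fun x : {x : α // ∃ l, enc (o x) = false :: l} => enc ((x : α), φ x) := by
      funext x
      rw [hφ x, enc_inr, List.tail_cons, enc_prod]
    rw [he] at h1
    have he2 : (fun x : {x : α // ∃ l, enc (o x) = false :: l} => enc (Sum.elim (f x) (g x) (o x))) =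
        fun x : {x : α // ∃ l, enc (o x) = false :: l} => enc (g x (φ x)) := by
      funext x; rw [hφ x]; rfl
    rw [he2]; exact h1.trans h2

lemma ptf_bg {op i j : α → ℕ} {z : α → BInt} (hop : PTF op) (hi : PTF i) (hj : PTF j) (hz : PTF z) :
    PTF (fun x => ((false, (op x, i x, j x, z x)) : XGate)) :=
  PTF.pair (PTF.const false) (PTF.pair hop (PTF.pair hi (PTF.pair hj hz)))

lemma ptf_cg' {z : α → BInt} (hz : PTF z) : PTF (fun x => cg (z x)) :=
  ptf_bg (PTF.const 0) (PTF.const 0) (PTF.const 0) hz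

lemma ptf_addc {n : α → ℕ} (hn : PTF n) (k : ℕ) : PTF (fun x => n x + k) :=
  PTF.add hn (PTF.const k)

lemma ptf_lkb {b e : α → ℕ} {p : α → BInt × BInt} (hb : PTF b) (he : PTF e) (hp : PTF p) :
    PTF (fun x => lkb (b x) (e x) (p x)) := by
  unfold lkb
  have hz : PTF (fun _ : α => zer) := PTF.const _
  exact PTF.cons (ptf_cg' hp.fst)
    (PTF.cons (ptf_bg (PTF.const 2) he (ptf_addc hb 1) hz)
    (PTF.cons (ptf_bg (PTF.const 4) (ptf_addc hb 2) (ptf_addc hb 2) hz)
    (PTF.cons (ptf_bg (PTF.const 2) (PTF.const 0) (ptf_addc hb 3) hz)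
    (PTF.cons (ptf_cg' hp.snd)
    (PTF.cons (ptf_bg (PTF.const 3) (ptf_addc hb 4) (ptf_addc hb 5) hz)
    (PTF.cons (ptf_bg (PTF.const 1) hb (ptf_addc hb 6) hz) (PTF.const [])))))))

lemma ptf_lku {s e : α → ℕ} {tb : α → List (BInt × BInt)} (hs : PTF s) (he : PTF e)
    (ht : PTF tb) : PTF (fun x => lku (s x) (e x) (tb x)) := by
  unfold lku
  refine PTF.cons (PTF.const _) (PTF.flatMap (f := fun x w =>
    lkb (s x + 1 + 7 * w) (e x) (((tb x)[w]?).getD (zer, zer))) (PTF.range (PTF.length ht)) ?_)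
  exact ptf_lkb (PTF.add (ptf_addc (hs.comp PTF.id.fst) 1) (PTF.mul (PTF.const 7) PTF.id.snd))
    (he.comp PTF.id.fst) (ptf_getD (PTF.getElem? PTF.id.snd (ht.comp PTF.id.fst)) (PTF.const _))

namespace Aut

variable (A : Aut)

lemma ptf_iniBlk {q : α → ℕ} {o : α → Option (Bool ⊕ ℕ)} (hq : PTF q) (ho : PTF o) :
    PTF (fun x => A.iniBlk (q x) (o x)) := by
  unfold iniBlk
  refine PTF.append (PTF.const _) ?_
  have h7 := ptf_addc hq 7
  have hs : PTF (fun p : α × (Bool ⊕ ℕ) => Sum.elim (fun b => lku (q p.1 + 7) 0 (A.tIni (some b)))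
      (fun c => lku (q p.1 + 7) c A.tVar) p.2) := by
    refine sumCase (o := fun p : α × (Bool ⊕ ℕ) => p.2) (f := fun p b =>
      lku (q p.1 + 7) 0 (A.tIni (some b))) (g := fun p c => lku (q p.1 + 7) c A.tVar) PTF.id.snd
      ?_ ?_
    · exact ptf_lku (h7.comp PTF.id.fst.fst) (PTF.const 0)
        (PTF.comp (g := fun b : Bool => A.tIni (some b)) (PTF.ofFinite _) PTF.id.snd)
    · exact ptf_lku (h7.comp PTF.id.fst.fst) PTF.id.snd (PTF.const _)
  refine (PTF.optCase (n := fun x => lku (q x + 7) 0 (A.tIni none))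
    (s := fun x (y : Bool ⊕ ℕ) => Sum.elim (fun b => lku (q x + 7) 0 (A.tIni (some b)))
      (fun c => lku (q x + 7) c A.tVar) y) ho
    (ptf_lku h7 (PTF.const 0) (PTF.const _)) hs).of_eq fun x => ?_
  rcases o x with _ | _ | _ <;> rfl

lemma ptf_nextBlk {q z l m r : α → ℕ} {b : α → Bool} (hq : PTF q) (hb : PTF b) (hz : PTF z)
    (hl : PTF l) (hm : PTF m) (hr : PTF r) :
    PTF (fun x => A.nextBlk (q x) (b x) (z x) (l x) (m x) (r x)) := by
  unfold nextBlk
  have hzer : PTF (fun _ : α => zer) := PTF.const _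
  refine PTF.append ?_ (ptf_lku (ptf_addc hq 7) (ptf_addc hq 7)
    (PTF.comp (g := fun b : Bool => A.tNext b) (PTF.ofFinite _) hb))
  exact PTF.cons (PTF.const _)
    (PTF.cons (ptf_bg (PTF.const 3) hr (ptf_addc hq 1) hzer)
    (PTF.cons (ptf_bg (PTF.const 1) (ptf_addc hq 2) hm hzer)
    (PTF.cons (ptf_bg (PTF.const 3) (ptf_addc hq 3) (ptf_addc hq 1) hzer)
    (PTF.cons (ptf_bg (PTF.const 1) (ptf_addc hq 4) hl hzer)
    (PTF.cons (ptf_bg (PTF.const 3) (ptf_addc hq 5) (ptf_addc hq 1) hzer)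
    (PTF.cons (ptf_bg (PTF.const 1) (ptf_addc hq 6) hz hzer) (PTF.const [])))))))

lemma ptf_cellB {s W t i : α → ℕ} {L : α → List (Bool ⊕ ℕ)} (hs : PTF s) (hW : PTF W)
    (hL : PTF L) (ht : PTF t) (hi : PTF i) :
    PTF (fun x => A.cellB (s x) (W x) (L x) (t x) (i x)) := by
  unfold cellB
  have hp : ∀ {t' i' : α → ℕ}, PTF t' → PTF i' →
      PTF (fun x => s x + A.ell * W x * t' x + A.ell * i' x) := fun ht' hi' =>
    PTF.add (PTF.add hs (PTF.mul (PTF.mul (PTF.const _) hW) ht')) (PTF.mul (PTF.const _) hi')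
  have hp' : ∀ {t' i' : α → ℕ}, PTF t' → PTF i' →
      PTF (fun x => s x + A.ell * W x * t' x + A.ell * i' x + A.ell) := fun ht' hi' =>
    ptf_addc (hp ht' hi') _
  have ht1 : PTF (fun x => t x - 1) := PTF.pred ht
  refine PTF.ite (PTF.isZero ht) (A.ptf_iniBlk (hp ht hi) (PTF.getElem? hi hL))
    (A.ptf_nextBlk (hp ht hi) (PTF.isZero hi) (hp' ht1 (PTF.const 0)) (hp' ht1 (PTF.pred hi))
      (hp' ht1 hi) (hp' ht1 (PTF.succ hi)))

lemma ptf_tabC {s W T : α → ℕ} {L : α → List (Bool ⊕ ℕ)} (hs : PTF s) (hW : PTF W) (hT : PTF T)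
    (hL : PTF L) : PTF (fun x => A.tabC (s x) (W x) (T x) (L x)) := by
  unfold tabC
  refine PTF.flatMap (f := fun x t => (List.range (W x)).flatMap fun i =>
    A.cellB (s x) (W x) (L x) t i) (PTF.range (PTF.succ hT)) ?_
  refine PTF.flatMap (f := fun (p : α × ℕ) i => A.cellB (s p.1) (W p.1) (L p.1) p.2 i)
    (PTF.range (hW.comp PTF.id.fst)) ?_
  exact A.ptf_cellB (hs.comp PTF.id.fst.fst) (hW.comp PTF.id.fst.fst) (hL.comp PTF.id.fst.fst)
    PTF.id.fst.snd PTF.id.snd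

lemma ptf_outB {q e : α → ℕ} (hq : PTF q) (he : PTF e) : PTF (fun x => A.outB (q x) (e x)) := by
  unfold outB
  exact ptf_lku hq he (PTF.const _)

lemma ptf_wd {T B : α → ℕ} (hT : PTF T) (hB : PTF B) : PTF (fun x => wd (T x) (B x)) := by
  unfold wd
  exact PTF.add hT (ptf_addc (PTF.add (PTF.mul (PTF.mul (PTF.const 12) hB) hB)
    (PTF.mul (PTF.const 3) hB)) 2)

lemma ptf_bitsC {T B s : α → ℕ} (hT : PTF T) (hB : PTF B) (hs : PTF s) :
    PTF (fun x => A.bitsC (T x) (B x) (s x)) := by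
  unfold bitsC
  have hw : PTF (fun x => A.ell * wd (T x) (B x)) := PTF.mul (PTF.const _) (ptf_wd hT hB)
  refine PTF.flatMap (f := fun x i => (List.range (B x)).flatMap fun j =>
    A.outB (s x + A.ell * wd (T x) (B x) * (T x + 1) + A.lam * B x * i + A.lam * j)
      (s x + A.ell * wd (T x) (B x) * T x + A.ell * (3 * pi2 i j + 1) + A.ell))
    (PTF.range hB) ?_
  refine PTF.flatMap (f := fun (p : α × ℕ) j =>
    A.outB (s p.1 + A.ell * wd (T p.1) (B p.1) * (T p.1 + 1) + A.lam * B p.1 * p.2 + A.lam * j)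
      (s p.1 + A.ell * wd (T p.1) (B p.1) * T p.1 + A.ell * (3 * pi2 p.2 j + 1) + A.ell))
    (PTF.range (hB.comp PTF.id.fst)) ?_
  have hs' : PTF (fun p : (α × ℕ) × ℕ => s p.1.1) := hs.comp PTF.id.fst.fst
  have hT' : PTF (fun p : (α × ℕ) × ℕ => T p.1.1) := hT.comp PTF.id.fst.fst
  have hB' : PTF (fun p : (α × ℕ) × ℕ => B p.1.1) := hB.comp PTF.id.fst.fst
  have hw' : PTF (fun p : (α × ℕ) × ℕ => A.ell * wd (T p.1.1) (B p.1.1)) :=
    hw.comp PTF.id.fst.fst
  exact A.ptf_outB (PTF.add (PTF.add (PTF.add hs' (PTF.mul hw' (PTF.succ hT')))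
      (PTF.mul (PTF.mul (PTF.const _) hB') PTF.id.fst.snd)) (PTF.mul (PTF.const _) PTF.id.snd))
    (ptf_addc (PTF.add (PTF.add hs' (PTF.mul hw' hT')) (PTF.mul (PTF.const _)
      (ptf_addc (PTF.mul (PTF.const 3) (ptf_pi2 PTF.id.fst.snd PTF.id.snd)) 1))) _)

end Aut

/-! ### Theta bodies -/

lemma ptf_twop {n : α → ℕ} (hn : PTF n) : PTF (fun x => twop (n x)) := by
  unfold twop
  exact PTF.pair (PTF.const true) (PTF.append (PTF.map (f := fun _ _ => false) (PTF.range hn)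
    (PTF.const false)) (PTF.const [true]))

/-- a circuit for a theta body, with the positions of the edges given by a list of parameters -/
lemma ptf_thG {s B : α → ℕ} {pos : α → ℕ → ℕ → ℕ} (hs : PTF s) (hB : PTF B)
    (hpos : PTF (fun p : α × ℕ × ℕ => pos p.1 p.2.1 p.2.2)) :
    PTF (fun x => thG (s x) (B x) (pos x)) := by
  unfold thG
  have hB1 : PTF (fun x => B x + 1) := PTF.succ hB
  have hB2 : PTF (fun x => B x + 2) := ptf_addc hB 2
  refine PTF.cons (ptf_cg' (ptf_twop (ptf_addc hB 4))) (PTF.append ?_ (PTF.cons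
    (PTF.pair (PTF.const true) (PTF.pair hB2 (PTF.pair (PTF.succ hs)
      (PTF.pair (PTF.mul hB1 hB1) (PTF.const _))))) (PTF.const [])))
  refine PTF.flatMap (f := fun x i => (List.range (B x + 1)).flatMap fun j =>
    dG (B x) (pos x) i j) (PTF.range hB1) ?_
  refine PTF.flatMap (f := fun (p : α × ℕ) j => dG (B p.1) (pos p.1) p.2 j)
    (PTF.range (hB1.comp PTF.id.fst)) ?_
  unfold dG
  -- the parameters are `((x, i), j)`
  have hi : PTF (fun p : (α × ℕ) × ℕ => p.1.2) := PTF.id.fst.snd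
  have hj : PTF (fun p : (α × ℕ) × ℕ => p.2) := PTF.id.snd
  refine PTF.cons (ptf_cg' ?_) ?_
  · unfold bG
    exact PTF.ite (PTF.isZero hi) (PTF.ite (PTF.isZero hj) (PTF.const _) (PTF.const _))
      (PTF.ite (PTF.eq hi hj) (PTF.const _) (PTF.const _))
  · refine PTF.flatMap (f := fun (p : (α × ℕ) × ℕ) i' => (List.range (B p.1.1 + 2)).map fun j' =>
      if i' = p.1.2 ∧ j' = p.2 then cG (pos p.1.1) p.1.2 p.2 else cg zer)
      (PTF.range (hB2.comp PTF.id.fst.fst)) ?_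
    refine PTF.map (f := fun (p : ((α × ℕ) × ℕ) × ℕ) j' =>
      if p.2 = p.1.1.2 ∧ j' = p.1.2 then cG (pos p.1.1.1) p.1.1.2 p.1.2 else cg zer)
      (PTF.range (hB2.comp PTF.id.fst.fst.fst)) ?_
    have hi2 : PTF (fun p : (((α × ℕ) × ℕ) × ℕ) × ℕ => p.1.1.1.2) := PTF.id.fst.fst.fst.snd
    have hj2 : PTF (fun p : (((α × ℕ) × ℕ) × ℕ) × ℕ => p.1.1.2) := PTF.id.fst.fst.snd
    refine PTF.ite (PTF.decide_and (PTF.eq PTF.id.fst.snd hi2) (PTF.eq PTF.id.snd hj2)) ?_
      (PTF.const _)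
    unfold cG
    refine PTF.ite (PTF.isZero hi2) (PTF.const _) (PTF.ite (PTF.isZero hj2) (PTF.const _)
      (PTF.ite (PTF.eq hi2 hj2) (PTF.const _) (ptf_bg (PTF.const 3) ?_ (PTF.const 0)
        (PTF.const _))))
    exact hpos.comp (PTF.pair PTF.id.fst.fst.fst.fst (PTF.pair (PTF.pred hi2) (PTF.pred hj2)))

namespace Aut

variable (A : Aut)

lemma ptf_rnd {T B s : α → ℕ} {L : α → List (Bool ⊕ ℕ)} (hT : PTF T) (hB : PTF B) (hs : PTF s)
    (hL : PTF L) : PTF (fun x => A.rnd (T x) (B x) (s x) (L x)) := by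
  unfold rnd
  have hw : PTF (fun x => A.ell * wd (T x) (B x)) := PTF.mul (PTF.const _) (ptf_wd hT hB)
  have hb : PTF (fun x => A.lam * B x) := PTF.mul (PTF.const _) hB
  have h1 : PTF (fun x => s x + A.ell * wd (T x) (B x) * (T x + 1)) :=
    PTF.add hs (PTF.mul hw (PTF.succ hT))
  refine PTF.append (A.ptf_tabC hs (ptf_wd hT hB) hT hL) (PTF.append (A.ptf_bitsC hT hB hs)
    (ptf_thG (PTF.add h1 (PTF.mul hb hB)) hB ?_))
  unfold posB
  have hf : PTF (fun p : α × ℕ × ℕ => p.1) := PTF.id.fst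
  exact ptf_addc (PTF.add (PTF.add (h1.comp hf) (PTF.mul (hb.comp hf) PTF.id.snd.fst))
    (PTF.mul (PTF.const _) PTF.id.snd.snd)) _

lemma ptf_rl {T B : α → ℕ} (hT : PTF T) (hB : PTF B) : PTF (fun x => A.rl (T x) (B x)) := by
  unfold rl nT nD
  have hB1 : PTF (fun x => B x + 1) := PTF.succ hB
  have hB2 : PTF (fun x => B x + 2) := ptf_addc hB 2
  exact PTF.add (PTF.add (PTF.mul (PTF.mul (PTF.const _) (ptf_wd hT hB)) (PTF.succ hT))
    (PTF.mul (PTF.mul (PTF.const _) hB) hB)) (PTF.add (PTF.const 2)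
    (PTF.mul (PTF.mul (PTF.succ (PTF.mul hB2 hB2)) hB1) hB1))

end Aut

lemma ptf_sym {c : α → List Bool} {Λ m : α → ℕ} (hc : PTF c) (hΛ : PTF Λ) (hm : PTF m) :
    PTF (fun x => sym (c x) (Λ x) (m x)) := by
  unfold sym
  refine PTF.append (PTF.flatMap (f := fun _ b => [Sum.inl true, (Sum.inl b : Bool ⊕ ℕ)]) hc
    (PTF.cons (PTF.const _) (PTF.cons (PTF.inl PTF.id.snd) (PTF.const []))))
    (PTF.cons (PTF.const _) (PTF.flatMap (f := fun x j =>
      [Sum.inl true, (Sum.inr (Λ x * (j + 1)) : Bool ⊕ ℕ), Sum.inl false]) (PTF.range hm)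
      (PTF.cons (PTF.const _) (PTF.cons (PTF.inr (PTF.mul (hΛ.comp PTF.id.fst)
        (PTF.succ PTF.id.snd))) (PTF.cons (PTF.const _) (PTF.const []))))))

theorem ptf_big (A D : Aut) {T B R T' : α → ℕ} {c : α → List Bool} (hT : PTF T) (hB : PTF B)
    (hR : PTF R) (hT' : PTF T') (hc : PTF c) :
    PTF (fun x => big A D (T x) (B x) (R x) (T' x) (c x)) := by
  unfold big
  have hl : PTF (fun x => A.rl (T x) (B x)) := A.ptf_rl hT hB
  have hlR : PTF (fun x => A.rl (T x) (B x) * R x) := PTF.mul hl hR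
  have hd : PTF (fun x => D.ell * (T' x + 1)) := PTF.mul (PTF.const _) (PTF.succ hT')
  refine PTF.append (PTF.flatMap (f := fun x m => A.rnd (T x) (B x) (A.rl (T x) (B x) * m)
    (sym (c x) (A.rl (T x) (B x)) m)) (PTF.range hR) ?_) (PTF.append
    (D.ptf_tabC hlR (PTF.succ hT') hT' (ptf_sym hc hl hR))
    (D.ptf_outB (PTF.add hlR (PTF.mul hd (PTF.succ hT')))
      (ptf_addc (PTF.add (PTF.add hlR (PTF.mul hd hT')) (PTF.mul (PTF.const _) (PTF.const 0))) _)))
  have hf : PTF (fun p : α × ℕ => p.1) := PTF.id.fst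
  exact A.ptf_rnd (hT.comp hf) (hB.comp hf) (PTF.mul (hl.comp hf) PTF.id.snd)
    (ptf_sym (hc.comp hf) (hl.comp hf) PTF.id.snd)

end Pool.Agent.Helper7.SC
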