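import Pool.Agent.Helper7.SC.Adj

/-!
# Rounds of questions
-/

open Pool.Agent.Helper91.PolyTime

namespace Pool.Agent.Helper7.SC

open Pool.Agent.Helper92.Theta Pool.Agent.Helper95.Slp

/-- the number of columns of a table -/
def wd (T B : ℕ) : ℕ := T + (12 * B * B + 3 * B + 2)

namespace Aut

variable (A : Aut)

/-- the blocks that read the bits of the graph -/
noncomputable def bitsC (T B s : ℕ) : List XGate :=
  (List.range B).flatMap fun i => (List.range B).flatMap fun j =>
    A.outB (s + A.ell * wd T B * (T + 1) + A.lam * B * i + A.lam * j)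
      (s + A.ell * wd T B * T + A.ell * (3 * pi2 i j + 1) + A.ell)

/-- the value number of a bit of the graph -/
def posB (T B s i j : ℕ) : ℕ :=
  s + A.ell * wd T B * (T + 1) + A.lam * B * i + A.lam * j + A.lam

/-- a round: the question, the bits of its graph, the answer -/
noncomputable def rnd (T B s : ℕ) (L : List (Bool ⊕ ℕ)) : List XGate :=
  A.tabC s (wd T B) T L ++ (A.bitsC T B s ++
    thG (s + A.ell * wd T B * (T + 1) + A.lam * B * B) B (A.posB T B s))

/-- the number of gates of a round -/
def rl (T B : ℕ) : ℕ := A.ell * wd T B * (T + 1) + A.lam * B * B + nT B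

lemma bitsC_length (T B s : ℕ) : (A.bitsC T B s).length = A.lam * B * B := by
  unfold bitsC
  exact len_flatMap (fun i => len_flatMap (fun j => A.outB_length _ _) B) B

lemma rnd_length (T B s : ℕ) (L : List (Bool ⊕ ℕ)) : (A.rnd T B s L).length = A.rl T B := by
  unfold rnd rl
  rw [List.length_append, List.length_append, tabC_length, bitsC_length, thG_length]
  ring

theorem rnd_val {C : List XGate} {T B s : ℕ} {L : List (Bool ⊕ ℕ)} (h : At C s (A.rnd T B s L))
    (hL : ∀ p, Sum.inr p ∈ L → p ≤ s ∧ (evX C p = 0 ∨ evX C p = 1)) {I : ℕ × List (ℕ × ℕ)}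
    (ho : ∀ i, A.out (A.tab (fun i => (L[i]?).map (res C)) T i) = (enc (adj I))[i]?)
    (hI : I.1 ≤ B) :
    (I ∈ Theta8 → evX C (s + A.rl T B) = 1) ∧ (I ∉ Theta8 → evX C (s + A.rl T B) = 0) := by
  unfold rnd at h
  have h1 := h.left
  have h2 := h.right
  rw [tabC_length] at h2
  have h3 := h2.left
  have h4 := h2.right
  rw [bitsC_length] at h4
  -- the bits
  have hbit : ∀ i < B, ∀ j < B, evX C (A.posB T B s i j) =
      if (adj I)[pi2 i j]? = some true then 1 else 0 := by
    intro i hi j hj
    have hlt : 3 * pi2 i j + 1 + T < wd T B := by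
      have h5 := pi2_lt hi hj
      have h6 : 3 * (4 * B * B + B) = 12 * B * B + 3 * B := by ring
      unfold wd
      omega
    have h5 := A.tab_val h1 hL T (le_refl _) (3 * pi2 i j + 1) hlt
    have h6 : At C (s + A.ell * wd T B * (T + 1) + A.lam * B * i + A.lam * j)
        (A.outB (s + A.ell * wd T B * (T + 1) + A.lam * B * i + A.lam * j)
          (s + A.ell * wd T B * T + A.ell * (3 * pi2 i j + 1) + A.ell)) := by
      have h7 := At.flatMap (f := fun i => (List.range B).flatMap fun j =>
        A.outB (s + A.ell * wd T B * (T + 1) + A.lam * B * i + A.lam * j)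
          (s + A.ell * wd T B * T + A.ell * (3 * pi2 i j + 1) + A.ell))
        (fun i => len_flatMap (fun j => A.outB_length _ _) B) h3 hi
      exact At.flatMap (f := fun j =>
        A.outB (s + A.ell * wd T B * (T + 1) + A.lam * B * i + A.lam * j)
          (s + A.ell * wd T B * T + A.ell * (3 * pi2 i j + 1) + A.ell))
        (fun j => A.outB_length _ _) h7 hj
    have hle : s + A.ell * wd T B * T + A.ell * (3 * pi2 i j + 1) + A.ell ≤
        s + A.ell * wd T B * (T + 1) + A.lam * B * i + A.lam * j := by
      have h7 : A.ell * (3 * pi2 i j + 1 + 1) ≤ A.ell * wd T B := Nat.mul_le_mul_left _ (by omega)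
      have h8 : A.ell * (3 * pi2 i j + 1 + 1) = A.ell * (3 * pi2 i j + 1) + A.ell := by ring
      have h9 : A.ell * wd T B * (T + 1) = A.ell * wd T B * T + A.ell * wd T B := by ring
      omega
    have h7 := A.outB_val h6 hle h5 (A.tab_lt _ _ _)
    have h8 : A.out (A.tab (fun i => (L[i]?).map (res C)) T (3 * pi2 i j + 1)) =
        (adj I)[pi2 i j]? := by
      rw [ho]
      have hk : ∀ (l : List Bool) (k : ℕ), (enc l)[3 * k + 1]? = l[k]? := by
        intro l
        induction l with
        | nil => intro k; simp [enc_nil]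
        | cons b l ih =>
          intro k
          have e1 : enc (b :: l) = true :: b :: false :: enc l := rfl
          rw [e1]
          rcases k with _ | k
          · rfl
          · rw [show 3 * (k + 1) + 1 = 3 * k + 1 + 1 + 1 + 1 by ring, List.getElem?_cons_succ,
              List.getElem?_cons_succ, List.getElem?_cons_succ, ih, List.getElem?_cons_succ]
      exact hk _ _
    rw [h8] at h7
    exact h7
  have hposle : ∀ i < B, ∀ j < B,
      A.posB T B s i j ≤ s + A.ell * wd T B * (T + 1) + A.lam * B * B := by
    intro i hi j hj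
    unfold posB
    have h5 : A.lam * B * (i + 1) ≤ A.lam * B * B := Nat.mul_le_mul_left _ hi
    have h6 : A.lam * B * (i + 1) = A.lam * B * i + A.lam * B := by ring
    have h7 : A.lam * (j + 1) ≤ A.lam * B := Nat.mul_le_mul_left _ hj
    have h8 : A.lam * (j + 1) = A.lam * j + A.lam := by ring
    omega
  have h5 := thG_val h4 fun i hi j hj => ⟨hposle i hi j hj, by
    rw [hbit i hi j hj]
    split_ifs
    · exact Or.inr rfl
    · exact Or.inl rfl⟩
  have h6 : (fun _ => 1 / 8) ∈ TH (gEd B fun i j => evX C (A.posB T B s i j)) ↔ I ∈ Theta8 := by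
    refine pad_th hI I.2 fun i hi j hj => ?_
    rw [hbit i hi j hj, ← adj_iff]
    split_ifs with hc
    · simp [hc]
    · simp [hc]
  have e1 : s + A.rl T B = s + A.ell * wd T B * (T + 1) + A.lam * B * B + nT B := by
    unfold rl; ring
  rw [h6] at h5
  rw [e1]
  exact h5

end Aut

/-! ### The circuit -/

/-- the code of the input and the first `m` answers, which are the values with the numbers
`Λ, 2 Λ, …` -/
def sym (c : List Bool) (Λ m : ℕ) : List (Bool ⊕ ℕ) :=
  c.flatMap (fun b => [Sum.inl true, Sum.inl b]) ++ Sum.inl false ::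
    (List.range m).flatMap fun j => [Sum.inl true, Sum.inr (Λ * (j + 1)), Sum.inl false]

/-- the circuit -/
noncomputable def big (A D : Aut) (T B R T' : ℕ) (c : List Bool) : List XGate :=
  ((List.range R).flatMap fun m => A.rnd T B (A.rl T B * m) (sym c (A.rl T B) m)) ++
    (D.tabC (A.rl T B * R) (T' + 1) T' (sym c (A.rl T B) R) ++
      D.outB (A.rl T B * R + D.ell * (T' + 1) * (T' + 1))
        (A.rl T B * R + D.ell * (T' + 1) * T' + D.ell * 0 + D.ell))

/-- the answers to the questions `Q` -/
noncomputable def ans (Q : List Bool → ℕ × List (ℕ × ℕ)) : ℕ → List Bool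
  | 0 => []
  | m + 1 => ans Q m ++ [open Classical in decide (Q (ans Q m) ∈ Theta8)]

lemma sym_map {C : List XGate} {Λ : ℕ} {a : List Bool} {m : ℕ}
    (ha : a = (List.range m).map fun j => decide (evX C (Λ * (j + 1)) = 1)) (c : List Bool) :
    (sym c Λ m).map (Aut.res C) = pr c (enc a) := by
  have h1 : (c.flatMap fun b => [Sum.inl true, (Sum.inl b : Bool ⊕ ℕ)]).map (Aut.res C) =
      c.flatMap fun b => [true, b] := by
    rw [List.map_flatMap]
    rfl
  have h2 : ∀ n : ℕ, ((List.range n).flatMap fun j =>
      [Sum.inl true, (Sum.inr (Λ * (j + 1)) : Bool ⊕ ℕ), Sum.inl false]).map (Aut.res C) =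
      enc ((List.range n).map fun j => decide (evX C (Λ * (j + 1)) = 1)) := by
    intro n
    induction n with
    | zero => rfl
    | succ n ih =>
      rw [List.range_succ, List.flatMap_append, List.map_append, ih, List.map_append, enc_append]
      rfl
  unfold sym pr
  rw [List.map_append, h1, List.map_cons, h2, ← ha]
  rfl

theorem big_iff {A D : Aut} {T B R T' : ℕ} {c : List Bool} {Q : List Bool → ℕ × List (ℕ × ℕ)}
    {d : List Bool → Bool}
    (hA : ∀ a : List Bool, a.length ≤ R → (∀ i, A.out (A.tab (fun i => (pr c (enc a))[i]?) T i) =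
      (enc (adj (Q a)))[i]?) ∧ (Q a).1 ≤ B)
    (hD : ∀ a : List Bool, a.length ≤ R → D.out (D.tab (fun i => (pr c (enc a))[i]?) T' 0) =
      some (d a)) :
    0 < evX (big A D T B R T' c) (big A D T B R T' c).length ↔ d (ans Q R) = true := by
  classical
  set C := big A D T B R T' c with hC
  set Λ := A.rl T B with hΛ
  have h0 : At C 0 C := At.self C
  have hb : At C 0 (big A D T B R T' c) := h0
  unfold big at hb
  have h1 := hb.left
  have h2 := hb.right
  rw [len_flatMap (m := Λ) (fun m => A.rnd_length _ _ _ _), Nat.zero_add] at h2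
  have h3 := h2.left
  have h4 := h2.right
  rw [Aut.tabC_length] at h4
  -- the answers
  have key : ∀ m ≤ R, (∀ j < m, evX C (Λ * (j + 1)) = 0 ∨ evX C (Λ * (j + 1)) = 1) ∧
      ans Q m = (List.range m).map fun j => decide (evX C (Λ * (j + 1)) = 1) := by
    intro m
    induction m with
    | zero => exact fun _ => ⟨fun j hj => absurd hj (Nat.not_lt_zero j), rfl⟩
    | succ m ih =>
      intro hm
      obtain ⟨k1, k2⟩ := ih (by omega)
      have hlen : (ans Q m).length = m := by rw [k2, List.length_map, List.length_range]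
      have h5 := At.flatMap (f := fun m => A.rnd T B (A.rl T B * m) (sym c (A.rl T B) m))
        (fun m => A.rnd_length _ _ _ _) h1 (by omega : m < R)
      rw [Nat.zero_add] at h5
      have h6 := hA (ans Q m) (by omega)
      have h7 := A.rnd_val h5 (I := Q (ans Q m)) ?_ ?_ h6.2
      · have e1 : A.rl T B * m + A.rl T B = Λ * (m + 1) := by rw [hΛ]; ring
        rw [e1] at h7
        constructor
        · intro j hj
          rcases Nat.lt_succ_iff_lt_or_eq.1 hj with h8 | h8
          · exact k1 j h8
          · subst h8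
            by_cases h9 : Q (ans Q j) ∈ Theta8
            · exact Or.inr (h7.1 h9)
            · exact Or.inl (h7.2 h9)
        · rw [ans, List.range_succ, List.map_append, ← k2, List.map_cons, List.map_nil]
          congr 2
          by_cases h9 : Q (ans Q m) ∈ Theta8
          · rw [h7.1 h9]
            simp [h9]
          · rw [h7.2 h9]
            simp [h9]
      · intro p hp
        unfold sym at hp
        rw [List.mem_append, List.mem_cons, List.mem_flatMap, List.mem_flatMap] at hp
        rcases hp with ⟨b, -, hb⟩ | hp | ⟨j, hj, hb⟩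
        · simp at hb
        · simp at hp
        · rw [List.mem_range] at hj
          simp only [List.mem_cons, List.not_mem_nil, or_false, reduceCtorEq, false_or,
            Sum.inr.injEq] at hb
          subst hb
          refine ⟨Nat.mul_le_mul_left _ hj, k1 j hj⟩
      · have h8 := sym_map k2 c
        intro i
        rw [← h6.1 i]
        congr 2
        funext i
        rw [← h8, List.getElem?_map]
  obtain ⟨k1, k2⟩ := key R (le_refl _)
  have hlen : (ans Q R).length = R := by rw [k2, List.length_map, List.length_range]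
  -- the last table
  have hL : ∀ p, Sum.inr p ∈ sym c Λ R → p ≤ Λ * R ∧ (evX C p = 0 ∨ evX C p = 1) := by
    intro p hp
    unfold sym at hp
    rw [List.mem_append, List.mem_cons, List.mem_flatMap, List.mem_flatMap] at hp
    rcases hp with ⟨b, -, hb⟩ | hp | ⟨j, hj, hb⟩
    · simp at hb
    · simp at hp
    · rw [List.mem_range] at hj
      simp only [List.mem_cons, List.not_mem_nil, or_false, reduceCtorEq, false_or,
        Sum.inr.injEq] at hb
      subst hb
      refine ⟨Nat.mul_le_mul_left _ hj, k1 j hj⟩
  have h5 := D.tab_val h3 hL T' (le_refl _) 0 (by omega)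
  have hle : Λ * R + D.ell * (T' + 1) * T' + D.ell * 0 + D.ell ≤
      Λ * R + D.ell * (T' + 1) * (T' + 1) := by
    have e1 : D.ell * (T' + 1) * (T' + 1) = D.ell * (T' + 1) * T' + D.ell * (T' + 1) := by ring
    have e2 : D.ell * (T' + 1) = D.ell * T' + D.ell := by ring
    have e3 : 0 ≤ D.ell * T' := Nat.zero_le _
    omega
  have h6 := D.outB_val h4 hle h5 (D.tab_lt _ _ _)
  have h7 : D.out (D.tab (fun i => ((sym c Λ R)[i]?).map (Aut.res C)) T' 0) = some (d (ans Q R)) := by
    have h8 := sym_map k2 c
    rw [← hD (ans Q R) (by omega)]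
    congr 2
    funext i
    rw [← h8, List.getElem?_map]
  have hCl : C.length = Λ * R + D.ell * (T' + 1) * (T' + 1) + D.lam := by
    rw [hC]
    unfold big
    rw [List.length_append, List.length_append, len_flatMap (m := Λ)
      (fun m => A.rnd_length _ _ _ _), Aut.tabC_length, Aut.outB_length]
    ring
  rw [hCl, h6, h7]
  cases hd : d (ans Q R)
  · simp
  · simp

end Pool.Agent.Helper7.SC
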