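import Pool.Agent.Helper57.UC.Defs

set_option autoImplicit false

/-! Products of blocks: the trade-off between the number of digits read and the number of
representations is sharp. -/

namespace Pool.Agent.Helper7.SC

open Finset
open Pool.Agent.Helper57.UC (rep digit FewDigits)

/-- representations in a finite set -/
def rF (S : Finset ℕ) (n : ℕ) : ℕ := #{a ∈ S ×ˢ S | a.1 + a.2 = n}

lemma sum_mod_div (L K : ℕ) (F G : ℕ → ℝ) :
    ∑ n ∈ range (L * K), F (n % L) * G (n / L) =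
      (∑ ρ ∈ range L, F ρ) * ∑ k ∈ range K, G k := by
  rcases Nat.eq_zero_or_pos L with hL | hL
  · subst hL
    simp
  induction K with
  | zero => simp
  | succ K ih =>
    rw [Nat.mul_succ, Finset.sum_range_add, ih, Finset.sum_range_succ, mul_add]
    congr 1
    rw [Finset.sum_mul]
    refine sum_congr rfl fun ρ hρ => ?_
    rw [mem_range] at hρ
    rw [Nat.mul_add_mod, Nat.mod_eq_of_lt hρ, Nat.mul_add_div hL, Nat.div_eq_of_lt hρ, add_zero]

/-- the set of all `a + L c` -/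
def comb (L : ℕ) (S T : Finset ℕ) : Finset ℕ := (S ×ˢ T).image fun a => a.1 + L * a.2

lemma rF_comb (L : ℕ) (hL : 0 < L) (S T : Finset ℕ) (hS : S ⊆ range L) (n : ℕ) :
    rF (comb L S T) n ≤ rF S (n % L) * rF T (n / L) +
      rF S (n % L + L) * (if 1 ≤ n / L then rF T (n / L - 1) else 0) := by
  have hmod : ∀ a ∈ comb L S T, a % L ∈ S ∧ a / L ∈ T := by
    intro a ha
    obtain ⟨⟨s, t⟩, hst, rfl⟩ := mem_image.1 ha
    rw [mem_product] at hst
    have h1 := mem_range.1 (hS hst.1)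
    simp only
    rw [add_comm, Nat.mul_add_mod, Nat.mod_eq_of_lt h1, Nat.mul_add_div hL, Nat.div_eq_of_lt h1,
      add_zero]
    exact hst
  set W0 := ({a ∈ S ×ˢ S | a.1 + a.2 = n % L} ×ˢ {a ∈ T ×ˢ T | a.1 + a.2 = n / L}) with hW0
  set W1 := ({a ∈ S ×ˢ S | a.1 + a.2 = n % L + L} ×ˢ
    (if 1 ≤ n / L then {a ∈ T ×ˢ T | a.1 + a.2 = n / L - 1} else ∅)) with hW1
  have hc : #(W0 ∪ W1) ≤ rF S (n % L) * rF T (n / L) +
      rF S (n % L + L) * (if 1 ≤ n / L then rF T (n / L - 1) else 0) := by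
    refine (card_union_le _ _).trans (le_of_eq ?_)
    rw [hW0, hW1, card_product, card_product]
    congr 2
    split_ifs
    · rfl
    · simp
  refine le_trans ?_ hc
  unfold rF
  refine Finset.card_le_card_of_injOn
    (fun p => ((p.1 % L, p.2 % L), (p.1 / L, p.2 / L))) ?_ ?_
  · intro p hp
    rw [mem_coe, mem_filter, mem_product] at hp
    obtain ⟨⟨hp1, hp2⟩, hp3⟩ := hp
    obtain ⟨h1, h2⟩ := hmod _ hp1
    obtain ⟨h3, h4⟩ := hmod _ hp2
    have h5 := Nat.mod_lt p.1 hL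
    have h6 := Nat.mod_lt p.2 hL
    have h7 := Nat.mod_add_div p.1 L
    have h8 := Nat.mod_add_div p.2 L
    have h9 : (p.1 % L + p.2 % L) + L * (p.1 / L + p.2 / L) = n := by
      rw [← hp3]
      nlinarith
    rw [mem_coe, mem_union]
    rcases lt_or_ge (p.1 % L + p.2 % L) L with h10 | h10
    · left
      have h11 : n % L = p.1 % L + p.2 % L := by
        rw [← h9, Nat.add_mul_mod_self_left, Nat.mod_eq_of_lt h10]
      have h12 : n / L = p.1 / L + p.2 / L := by
        rw [← h9, Nat.add_mul_div_left _ _ hL, Nat.div_eq_of_lt h10, zero_add]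
      rw [hW0, mem_product, mem_filter, mem_filter, mem_product, mem_product]
      exact ⟨⟨⟨h1, h3⟩, h11.symm⟩, ⟨⟨h2, h4⟩, h12.symm⟩⟩
    · right
      have h13 : (p.1 % L + p.2 % L - L) + L * (p.1 / L + p.2 / L + 1) = n := by
        have e1 : L * (p.1 / L + p.2 / L + 1) = L * (p.1 / L + p.2 / L) + L := by ring
        rw [e1]
        omega
      have h14 : p.1 % L + p.2 % L - L < L := by omega
      have h11 : n % L = p.1 % L + p.2 % L - L := by
        rw [← h13, Nat.add_mul_mod_self_left, Nat.mod_eq_of_lt h14]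
      have h12 : n / L = p.1 / L + p.2 / L + 1 := by
        rw [← h13, Nat.add_mul_div_left _ _ hL, Nat.div_eq_of_lt h14, zero_add]
      have h15 : 1 ≤ n / L := by
        rw [h12]
        exact Nat.le_add_left _ _
      rw [hW1, if_pos h15, mem_product, mem_filter, mem_filter, mem_product, mem_product]
      refine ⟨⟨⟨h1, h3⟩, ?_⟩, ⟨⟨h2, h4⟩, ?_⟩⟩
      · show p.1 % L + p.2 % L = n % L + L
        rw [h11]
        exact (Nat.sub_add_cancel h10).symm
      · show p.1 / L + p.2 / L = n / L - 1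
        rw [h12]
        exact (Nat.add_sub_cancel _ 1).symm
  · intro p _ p' _ h
    simp only [Prod.mk.injEq] at h
    obtain ⟨⟨h1, h2⟩, ⟨h3, h4⟩⟩ := h
    have e1 := Nat.mod_add_div p.1 L
    have e2 := Nat.mod_add_div p'.1 L
    have e3 := Nat.mod_add_div p.2 L
    have e4 := Nat.mod_add_div p'.2 L
    refine Prod.ext ?_ ?_
    · rw [← e1, ← e2, h1, h3]
    · rw [← e3, ← e4, h2, h4]

lemma sum_comb (L M : ℕ) (hL : 0 < L) (S T : Finset ℕ) (hS : S ⊆ range L) :
    ∑ n ∈ range (2 * (L * M)), (rF (comb L S T) n : ℝ) ^ 2 ≤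
      2 * ((∑ n ∈ range (2 * L), (rF S n : ℝ) ^ 2) * ∑ n ∈ range (2 * M), (rF T n : ℝ) ^ 2) := by
  set g : ℕ → ℝ := fun k => (((if 1 ≤ k then rF T (k - 1) else 0 : ℕ)) : ℝ) ^ 2 with hg
  have h1 : ∀ n, (rF (comb L S T) n : ℝ) ^ 2 ≤
      2 * ((rF S (n % L) : ℝ) ^ 2 * (rF T (n / L) : ℝ) ^ 2) +
      2 * ((rF S (n % L + L) : ℝ) ^ 2 * g (n / L)) := by
    intro n
    have h2 : (rF (comb L S T) n : ℝ) ≤ rF S (n % L) * rF T (n / L) +
        rF S (n % L + L) * ((if 1 ≤ n / L then rF T (n / L - 1) else 0 : ℕ) : ℝ) := by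
      exact_mod_cast rF_comb L hL S T hS n
    have h3 : (rF (comb L S T) n : ℝ) ^ 2 ≤ (rF S (n % L) * rF T (n / L) +
        rF S (n % L + L) * ((if 1 ≤ n / L then rF T (n / L - 1) else 0 : ℕ) : ℝ)) ^ 2 :=
      pow_le_pow_left₀ (Nat.cast_nonneg _) h2 2
    refine h3.trans ?_
    simp only [hg]
    set u : ℝ := rF S (n % L) * rF T (n / L)
    set v : ℝ := rF S (n % L + L) * ((if 1 ≤ n / L then rF T (n / L - 1) else 0 : ℕ) : ℝ)
    have h4 : 2 * ((rF S (n % L) : ℝ) ^ 2 * (rF T (n / L) : ℝ) ^ 2) = 2 * u ^ 2 := by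
      simp only [u]
      ring
    have h5 : 2 * ((rF S (n % L + L) : ℝ) ^ 2 *
        ((if 1 ≤ n / L then rF T (n / L - 1) else 0 : ℕ) : ℝ) ^ 2) = 2 * v ^ 2 := by
      simp only [v]
      ring
    rw [h4, h5]
    nlinarith [sq_nonneg (u - v)]
  refine (sum_le_sum fun n _ => h1 n).trans ?_
  rw [Finset.sum_add_distrib, ← Finset.mul_sum, ← Finset.mul_sum]
  have e : 2 * (L * M) = L * (2 * M) := by ring
  have h12 : ∑ n ∈ range (L * (2 * M)), (rF S (n % L) : ℝ) ^ 2 * (rF T (n / L) : ℝ) ^ 2 =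
      (∑ ρ ∈ range L, (rF S ρ : ℝ) ^ 2) * ∑ k ∈ range (2 * M), (rF T k : ℝ) ^ 2 :=
    sum_mod_div L (2 * M) (fun ρ => (rF S ρ : ℝ) ^ 2) (fun k => (rF T k : ℝ) ^ 2)
  have h13 : ∑ n ∈ range (L * (2 * M)), (rF S (n % L + L) : ℝ) ^ 2 * g (n / L) =
      (∑ ρ ∈ range L, (rF S (ρ + L) : ℝ) ^ 2) * ∑ k ∈ range (2 * M), g k :=
    sum_mod_div L (2 * M) (fun ρ => (rF S (ρ + L) : ℝ) ^ 2) g
  rw [e, h12, h13]
  have h6 : ∑ k ∈ range (2 * M), g k ≤ ∑ k ∈ range (2 * M), (rF T k : ℝ) ^ 2 := by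
    rcases Nat.eq_zero_or_pos (2 * M) with h0 | h0
    · rw [h0]
      simp
    · obtain ⟨N, hN⟩ := Nat.exists_eq_succ_of_ne_zero h0.ne'
      rw [hN, Nat.succ_eq_add_one, Finset.sum_range_succ', Finset.sum_range_succ]
      have h7 : g 0 = 0 := by
        simp [hg]
      have h8 : ∀ k ∈ range N, g (k + 1) = (rF T k : ℝ) ^ 2 := by
        intro k _
        simp [hg]
      rw [h7, sum_congr rfl h8]
      have : 0 ≤ (rF T N : ℝ) ^ 2 := by positivity
      linarith
  have h9 : ∑ n ∈ range (2 * L), (rF S n : ℝ) ^ 2 = ∑ ρ ∈ range L, (rF S ρ : ℝ) ^ 2 +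
      ∑ ρ ∈ range L, (rF S (ρ + L) : ℝ) ^ 2 := by
    rw [two_mul, Finset.sum_range_add]
    congr 1
    refine sum_congr rfl fun ρ _ => ?_
    rw [add_comm L ρ]
  have h10 : 0 ≤ ∑ ρ ∈ range L, (rF S (ρ + L) : ℝ) ^ 2 := sum_nonneg fun _ _ => by positivity
  have h11 := mul_le_mul_of_nonneg_left h6 h10
  rw [h9]
  nlinarith

/-- blocks -/
def blk (M : ℕ) (P : Finset ℕ) : ℕ → Finset ℕ
  | 0 => {0}
  | m + 1 => comb (M ^ m) (blk M P m) P

lemma blk_lt (M : ℕ) (P : Finset ℕ) (hP : P ⊆ range M) (m : ℕ) : blk M P m ⊆ range (M ^ m) := by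
  induction m with
  | zero => simp [blk]
  | succ m ih =>
    intro a ha
    obtain ⟨⟨s, t⟩, hst, rfl⟩ := mem_image.1 ha
    rw [mem_product] at hst
    have h1 := mem_range.1 (ih hst.1)
    have h2 := mem_range.1 (hP hst.2)
    rw [mem_range, pow_succ]
    simp only at h1 h2 ⊢
    have h3 : M ^ m * (t + 1) ≤ M ^ m * M := Nat.mul_le_mul_left _ h2
    rw [mul_add, mul_one] at h3
    omega

lemma blk_energy (M : ℕ) (P : Finset ℕ) (hM : 0 < M) (hP : P ⊆ range M) (m : ℕ) :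
    ∑ n ∈ range (2 * M ^ m), (rF (blk M P m) n : ℝ) ^ 2 ≤
      (2 * ∑ n ∈ range (2 * M), (rF P n : ℝ) ^ 2) ^ m := by
  induction m with
  | zero =>
    simp only [pow_zero, mul_one]
    have h1 : rF (blk M P 0) 0 = 1 := by
      show rF {0} 0 = 1
      decide
    have h2 : rF (blk M P 0) 1 = 0 := by
      show rF {0} 1 = 0
      decide
    rw [Finset.sum_range_succ, Finset.sum_range_succ, Finset.sum_range_zero, h1, h2]
    norm_num
  | succ m ih =>
    have h1 := sum_comb (M ^ m) M (pow_pos hM m) (blk M P m) P (blk_lt M P hP m)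
    rw [pow_succ, pow_succ]
    refine h1.trans ?_
    have h2 : 0 ≤ ∑ n ∈ range (2 * M), (rF P n : ℝ) ^ 2 := sum_nonneg fun _ _ => by positivity
    have h3 := mul_le_mul_of_nonneg_right ih h2
    nlinarith

/-- the choice in blocks -/
def fb (M : ℕ) (g : ℕ → ℕ) (m n : ℕ) : ℕ := ∑ B ∈ range m, g (n / M ^ B % M) * M ^ B

lemma fb_mem (M : ℕ) (hM : 0 < M) (P : Finset ℕ) (g : ℕ → ℕ) (hg : ∀ v < M, g v ∈ P) (m n : ℕ) :
    fb M g m n ∈ blk M P m := by
  induction m with
  | zero => simp [fb, blk]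
  | succ m ih =>
    unfold fb
    rw [Finset.sum_range_succ]
    unfold blk comb
    rw [mem_image]
    refine ⟨(fb M g m n, g (n / M ^ m % M)), ?_, ?_⟩
    · rw [mem_product]
      exact ⟨ih, hg _ (Nat.mod_lt _ hM)⟩
    · simp only [fb]
      ring

lemma sum_digits (M : ℕ) (m n : ℕ) :
    ∑ B ∈ range m, (n / M ^ B % M) * M ^ B = n % M ^ m := by
  induction m with
  | zero => simp [Nat.mod_one]
  | succ m ih =>
    rw [Finset.sum_range_succ, ih, Nat.mod_pow_succ]
    ring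

lemma fb_sub (M : ℕ) (g : ℕ → ℕ) (hg : ∀ v, g v ≤ v) {m n : ℕ} (hn : n < M ^ m) :
    fb M g m n ≤ n ∧ n - fb M g m n = fb M (fun v => v - g v) m n := by
  have h1 := sum_digits M m n
  rw [Nat.mod_eq_of_lt hn] at h1
  have h2 : fb M g m n + fb M (fun v => v - g v) m n = n := by
    unfold fb
    rw [← Finset.sum_add_distrib]
    conv_rhs => rw [← h1]
    refine sum_congr rfl fun B _ => ?_
    rw [← add_mul]
    congr 1
    exact Nat.add_sub_of_le (hg (n / M ^ B % M))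
  omega

lemma fb_lt (M : ℕ) (hM : 0 < M) (g : ℕ → ℕ) (hg : ∀ v < M, g v < M) (m n : ℕ) :
    fb M g m n < M ^ m := by
  induction m with
  | zero => simp [fb]
  | succ m ih =>
    have e : fb M g (m + 1) n = fb M g m n + g (n / M ^ m % M) * M ^ m := by
      unfold fb
      rw [Finset.sum_range_succ]
    rw [e, pow_succ]
    have h1 : (g (n / M ^ m % M) + 1) * M ^ m ≤ M * M ^ m :=
      Nat.mul_le_mul_right _ (hg _ (Nat.mod_lt _ hM))
    rw [add_mul, one_mul] at h1
    have h2 : M ^ m * M = M * M ^ m := by ring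
    omega

lemma fb_digit (M : ℕ) (hM : 0 < M) (g : ℕ → ℕ) (hg : ∀ v < M, g v < M) {m B : ℕ} (hB : B < m)
    (n : ℕ) : fb M g m n / M ^ B % M = g (n / M ^ B % M) := by
  induction m with
  | zero => omega
  | succ m ih =>
    have e : fb M g (m + 1) n = fb M g m n + g (n / M ^ m % M) * M ^ m := by
      unfold fb
      rw [Finset.sum_range_succ]
    rw [e]
    rcases Nat.lt_succ_iff_lt_or_eq.1 hB with h | h
    · obtain ⟨d, hd⟩ := Nat.exists_eq_add_of_lt h
      have h1 : g (n / M ^ m % M) * M ^ m = M ^ B * (M * (g (n / M ^ m % M) * M ^ d)) := by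
        rw [hd, pow_add, pow_add]
        ring
      rw [h1, Nat.add_mul_div_left _ _ (pow_pos hM B), Nat.add_mul_mod_self_left, ih h]
    · subst h
      have h2 := fb_lt M hM g hg B n
      rw [add_comm, mul_comm (g _), Nat.mul_add_div (pow_pos hM B), Nat.div_eq_of_lt h2, add_zero,
        Nat.mod_eq_of_lt (hg _ (Nat.mod_lt _ hM))]

lemma digits_det (b : ℕ) (s w m n : ℕ) (h : ∀ q ∈ Finset.Ico s (s + w), digit b q m = digit b q n) :
    m / b ^ s % b ^ w = n / b ^ s % b ^ w := by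
  induction w with
  | zero => simp [Nat.mod_one]
  | succ w ih =>
    rw [Nat.mod_pow_succ, Nat.mod_pow_succ, ih (fun q hq => h q (by
      rw [mem_Ico] at hq ⊢
      omega))]
    have h1 := h (s + w) (by
      rw [mem_Ico]
      omega)
    unfold digit at h1
    rw [Nat.div_div_eq_div_mul, Nat.div_div_eq_div_mul, ← pow_add, h1]

lemma rep_eq_rF (A : Set ℕ) (S : Finset ℕ) (h : ∀ a, a ∈ A ↔ a ∈ S) (n : ℕ) :
    rep A n = rF S n := by
  classical
  unfold rep rF
  refine congrArg Finset.card (Finset.ext fun p => ?_)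
  rw [mem_filter, mem_filter, mem_product, HasAntidiagonal.mem_antidiagonal, h, h]
  tauto

lemma rep_mono (A B : Set ℕ) (h : ∀ a, a ∈ A → a ∈ B) (n : ℕ) : rep A n ≤ rep B n := by
  classical
  unfold rep
  refine card_le_card fun p hp => ?_
  rw [mem_filter] at hp ⊢
  exact ⟨hp.1, h _ hp.2.1, h _ hp.2.2⟩

lemma digit_block (b : ℕ) {w l : ℕ} (hl : l < w) (Y : ℕ) : Y % b ^ w / b ^ l % b = Y / b ^ l % b := by
  obtain ⟨d, hd⟩ := Nat.exists_eq_add_of_lt hl
  have h1 : b ^ w = b ^ l * b ^ (d + 1) := by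
    rw [hd, ← pow_add]
    rfl
  rw [h1, Nat.mod_mul_right_div_self, Nat.mod_mod_of_dvd _ (dvd_pow_self b (by omega))]

/-- For every block length `w`: thin sets with a choice of representations each of whose digits
depends on `w` digits. -/
theorem sharp_of (A₀ : Set ℕ) (C : ℝ) (hA : ∀ n : ℕ, ∃ a ∈ A₀, ∃ c ∈ A₀, a + c = n)
    (hC : ∀ N : ℕ, ∑ n ∈ range N, (rep A₀ n : ℝ) ^ 2 ≤ C * N) (b : ℕ) (hb : 2 ≤ b) (w m : ℕ) :
    ∃ (A : Set ℕ) (f : ℕ → ℕ), (∀ n < b ^ (w * m), f n ≤ n ∧ f n ∈ A ∧ n - f n ∈ A) ∧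
      (∀ i < w * m, FewDigits b w (fun n => digit b i (f n))) ∧
      ∑ n ∈ range (2 * b ^ (w * m)), (rep A n : ℝ) ^ 2 ≤ (4 * C) ^ m * (b : ℝ) ^ (w * m) := by
  classical
  set M := b ^ w with hMdef
  have hM : 0 < M := pow_pos (by omega) w
  have hMm : b ^ (w * m) = M ^ m := by rw [hMdef, pow_mul]
  choose g0 hg0 using hA
  set P : Finset ℕ := {a ∈ range M | a ∈ A₀} with hP
  have hPM : P ⊆ range M := filter_subset _ _
  have hgle : ∀ v, g0 v ≤ v := by
    intro v
    obtain ⟨_, c, _, hc⟩ := hg0 v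
    omega
  have hgP : ∀ v < M, g0 v ∈ P := by
    intro v hv
    rw [hP, mem_filter, mem_range]
    exact ⟨lt_of_le_of_lt (hgle v) hv, (hg0 v).1⟩
  have hgP' : ∀ v < M, v - g0 v ∈ P := by
    intro v hv
    rw [hP, mem_filter, mem_range]
    refine ⟨by omega, ?_⟩
    obtain ⟨_, c, hc1, hc2⟩ := hg0 v
    have : v - g0 v = c := by omega
    rw [this]
    exact hc1
  refine ⟨{a | a ∈ blk M P m}, fb M g0 m, ?_, ?_, ?_⟩
  · intro n hn
    rw [hMm] at hn
    obtain ⟨h1, h2⟩ := fb_sub M g0 hgle hn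
    refine ⟨h1, ?_, ?_⟩
    · exact fb_mem M hM P g0 hgP m n
    · rw [h2]
      exact fb_mem M hM P (fun v => v - g0 v) hgP' m n
  · intro i hi
    have hw : 0 < w := by
      rcases Nat.eq_zero_or_pos w with h | h
      · subst h
        simp at hi
      · exact h
    set B := i / w with hB
    have hBm : B < m := by
      rw [hB, Nat.div_lt_iff_lt_mul hw, mul_comm]
      exact hi
    have hib : i = w * B + i % w := (Nat.div_add_mod i w).symm
    have hlw : i % w < w := Nat.mod_lt _ hw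
    refine ⟨Finset.Ico (w * B) (w * B + w), by simp, ?_⟩
    intro k n hkn
    have h1 := digits_det b (w * B) w k n hkn
    have h2 : ∀ n, digit b i (fb M g0 m n) = g0 (n / M ^ B % M) / b ^ (i % w) % b := by
      intro n
      have h3 := fb_digit M hM g0 (fun v hv => lt_of_le_of_lt (hgle v) hv) hBm n
      have h4 : digit b i (fb M g0 m n) = (fb M g0 m n / M ^ B % M) / b ^ (i % w) % b := by
        unfold digit
        rw [hMdef, digit_block b hlw, ← pow_mul, Nat.div_div_eq_div_mul, ← pow_add, ← hib]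
      rw [h4, h3]
    simp only
    rw [h2, h2, hMdef, ← pow_mul, h1]
  · rw [hMm]
    have h1 := blk_energy M P hM hPM m
    have h2 : ∀ n, (rep {a | a ∈ blk M P m} n : ℝ) = rF (blk M P m) n := fun n => by
      rw [rep_eq_rF {a | a ∈ blk M P m} (blk M P m) (fun a => Iff.rfl)]
    simp_rw [h2]
    refine h1.trans ?_
    have h3 : ∑ n ∈ range (2 * M), (rF P n : ℝ) ^ 2 ≤ C * (2 * M : ℕ) := by
      refine le_trans (sum_le_sum fun n _ => ?_) (hC (2 * M))
      have h4 : rF P n ≤ rep A₀ n := by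
        rw [← rep_eq_rF {a | a ∈ P} P (fun a => Iff.rfl)]
        refine rep_mono _ _ (fun a ha => ?_) n
        rw [Set.mem_setOf_eq, hP, mem_filter] at ha
        exact ha.2
      have h5 : (rF P n : ℝ) ≤ rep A₀ n := by exact_mod_cast h4
      exact pow_le_pow_left₀ (Nat.cast_nonneg _) h5 2
    have h6 : 0 ≤ ∑ n ∈ range (2 * M), (rF P n : ℝ) ^ 2 := sum_nonneg fun _ _ => by positivity
    calc (2 * ∑ n ∈ range (2 * M), (rF P n : ℝ) ^ 2) ^ m
        ≤ (4 * C * M) ^ m := by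
          refine pow_le_pow_left₀ (by positivity) ?_ m
          push_cast at h3
          linarith
      _ = (4 * C) ^ m * (b : ℝ) ^ (w * m) := by
          rw [mul_pow, hMdef]
          push_cast
          rw [← pow_mul]

end Pool.Agent.Helper7.SC
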