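import Pool.Agent.Helper7.SC.SharpSet
import Pool.Agent.Helper7.SC.DP.SetForm

set_option autoImplicit false

/-! Sharpness of the few digits theorem and of the hidden digits theorem, by one set. -/

namespace Pool.Agent.Helper7.SC

open Finset
open Pool.Agent.Helper57.U2
open Pool.Agent.Helper45.HD (IsRule hits guessedSet)
open Pool.Agent.Helper7.SC.DP (guessed)

lemma guessed_of_few (b K : ℕ) (hb : 2 ≤ b) (A : Set ℕ) (f : ℕ → ℕ)
    (hA : IsChoice A {n | n < b ^ K} f) :
    guessed b K (1 / 2) A (fun i n => digit b i (f n)) = range (b ^ K) := by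
  classical
  unfold guessed
  refine filter_true_of_mem fun n hn => ?_
  obtain ⟨h1, h2, h3⟩ := hA n (mem_range.1 hn)
  refine ⟨f n, h2, n - f n, h3, by omega, ?_⟩
  have h4 : ((range K).filter fun i => digit b i (f n) = digit b i (f n)) = range K :=
    filter_true_of_mem fun _ _ => rfl
  have h5 : (#{i ∈ range K | (fun i n => digit b i (f n)) i n = digit b i (f n)} : ℝ) = K := by
    have : #((range K).filter fun i => digit b i (f n) = digit b i (f n)) = K := by
      rw [h4, card_range]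
    exact_mod_cast this
  rw [h5]
  have hb2 : 1 / (b : ℝ) ≤ 1 / 2 := by
    have : (2 : ℝ) ≤ b := by exact_mod_cast hb
    exact one_div_le_one_div_of_le (by norm_num) this
  have hK : (0 : ℝ) ≤ K := Nat.cast_nonneg _
  have h6 : (1 / (b : ℝ) + 1 / 2) * K ≤ 1 * K := mul_le_mul_of_nonneg_right (by linarith) hK
  linarith

/-- Both bounds are sharp. -/
theorem sharp_both : ∃ C : ℝ, 0 < C ∧ ∀ b v m : ℕ, 2 ≤ b → 1 ≤ v →
    ∃ (A : Set ℕ) (I : ℕ → ℕ → ℕ) (J : Finset ℕ → ℕ → ℕ → ℕ),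
      (∀ i < v * m, FewDigits b v (I i)) ∧
      guessed b (v * m) (1 / 2) A I = range (b ^ (v * m)) ∧
      IsRule b (v * m) J ∧
      guessedSet b (v * m) (1 / (4 * v)) (1 / 4) A J = range (b ^ (v * m)) ∧
      ∑ n ∈ range (2 * b ^ (v * m)), (rep A n : ℝ) ^ 2 ≤ (b : ℝ) ^ (v * m) * Real.exp (C * m) := by
  obtain ⟨C, hC, h⟩ := sharp
  refine ⟨C, hC, fun b v m hb hv => ?_⟩
  obtain ⟨A, f, h1, h2, h3⟩ := h b v m hb
  have hA : IsChoice A {n | n < b ^ (v * m)} f := fun n hn => h1 n hn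
  obtain ⟨J, hJ, hJ2⟩ := rule_of_few b (v * m) v hb hv A f hA h2
  exact ⟨A, fun i n => digit b i (f n), J, h2, guessed_of_few b (v * m) hb A f hA, hJ, hJ2, h3⟩

end Pool.Agent.Helper7.SC
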