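import Pool.Agent.Helper7.SC.SharpHidden

set_option autoImplicit false

/-! Sharpness of the noisy reading theorem (NR). -/

namespace Pool.Agent.Helper7.SC

open Finset
open Pool.Agent.Helper57.U2

open Classical in
/-- The `n` below `b ^ K` with a representation `n = a + a'`, `a` and `a'` in `A`, such that
`J (n + z) i` is the digit of `a` at position `i` for at least `(1 / b + ε) K` of the `i < K`. -/
noncomputable def readSet (b K : ℕ) (ε : ℝ) (A : Set ℕ) (J : ℕ → ℕ → ℕ) (z : ℕ) : Finset ℕ :=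
  {n ∈ range (b ^ K) | ∃ a ∈ A, ∃ a' ∈ A, a + a' = n ∧
    (1 / b + ε) * K ≤ (#{i ∈ range K | J (n + z) i = digit b i a} : ℝ)}

/-- weight of a set of positions -/
noncomputable def wS (K : ℕ) (p : ℝ) (T : Finset ℕ) : ℝ := p ^ #T * (1 - p) ^ (K - #T)

lemma sum_wS (K : ℕ) (p : ℝ) : ∑ T ∈ (range K).powerset, wS K p T = 1 := sum_hidden K p

lemma sum_mem (K : ℕ) (p : ℝ) (i : ℕ) (hi : i < K) :
    ∑ T ∈ (range K).powerset, wS K p T * (if i ∈ T then 1 else 0) = p := by
  have h1 := sum_visible K p {i} (singleton_subset_iff.2 (mem_range.2 hi))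
  rw [card_singleton, pow_one, sum_filter] at h1
  have h2 := sum_hidden K p
  have h3 : ∑ T ∈ (range K).powerset, wS K p T * (if i ∈ T then 1 else 0) =
      ∑ T ∈ (range K).powerset, p ^ #T * (1 - p) ^ (K - #T) -
      ∑ T ∈ (range K).powerset, (if Disjoint {i} T then p ^ #T * (1 - p) ^ (K - #T) else 0) := by
    rw [← sum_sub_distrib]
    refine sum_congr rfl fun T _ => ?_
    unfold wS
    by_cases h : i ∈ T
    · rw [if_pos h, if_neg (by rw [disjoint_singleton_left]; exact fun h' => h' h)]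
      ring
    · rw [if_neg h, if_pos (by rw [disjoint_singleton_left]; exact h)]
      ring
  rw [h3, h1, h2]
  ring

/-- no carry, no change -/
lemma digit_add (b q T_low T_high n : ℕ) (hb : 2 ≤ b) (hhigh : b ^ (q + 1) ∣ T_high)
    (hlow : n % b ^ q + T_low < b ^ q) : digit b q (n + (T_low + T_high)) = digit b q n := by
  unfold digit
  obtain ⟨k, rfl⟩ := hhigh
  have h1 : n + (T_low + b ^ (q + 1) * k) = (n % b ^ q + T_low) + b ^ q * (n / b ^ q + b * k) := by
    have := Nat.mod_add_div n (b ^ q)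
    calc n + (T_low + b ^ (q + 1) * k) = (n % b ^ q + b ^ q * (n / b ^ q)) + (T_low + b ^ (q + 1) * k) := by
          rw [this]
      _ = _ := by rw [pow_succ]; ring
  rw [h1, Nat.add_mul_div_left _ _ (by positivity), Nat.div_eq_of_lt hlow, zero_add,
    Nat.add_mul_mod_self_left]

/-- the number of carries into `q` -/
lemma count_carry (b K q z : ℕ) (hb : 2 ≤ b) (hq : q ≤ K) (hz : z ≤ b ^ q) :
    (#{n ∈ range (b ^ K) | b ^ q ≤ n % b ^ q + z} : ℝ) = (b : ℝ) ^ K / (b : ℝ) ^ q * z := by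
  have hb0 : (b : ℝ) ≠ 0 := by
    have : b ≠ 0 := by omega
    exact_mod_cast this
  have h1 := sum_mod_div (b ^ q) (b ^ (K - q)) (fun ρ => if b ^ q ≤ ρ + z then (1 : ℝ) else 0)
    (fun _ => 1)
  have h2 : b ^ q * b ^ (K - q) = b ^ K := by rw [← pow_add]; congr 1; omega
  simp only [mul_one] at h1
  rw [h2] at h1
  rw [card_filter]
  push_cast
  rw [h1, sum_const, card_range, nsmul_eq_mul, mul_one]
  have h3 : ∑ ρ ∈ range (b ^ q), (if b ^ q ≤ ρ + z then (1 : ℝ) else 0) = z := by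
    rw [← sum_filter, sum_const, nsmul_eq_mul, mul_one]
    have h4 : (range (b ^ q)).filter (fun ρ => b ^ q ≤ ρ + z) = Ico (b ^ q - z) (b ^ q) := by
      ext ρ
      rw [mem_filter, mem_range, mem_Ico]
      omega
    rw [h4, Nat.card_Ico]
    have : b ^ q - (b ^ q - z) = z := by omega
    rw [this]
  rw [h3]
  have h5 : (b : ℝ) ^ K = (b : ℝ) ^ q * (b : ℝ) ^ (K - q) := by
    rw [← pow_add]; congr 1; omega
  rw [h5]
  push_cast
  field_simp

lemma geom_le (b q : ℕ) (hb : 2 ≤ b) : ∑ i ∈ range q, b ^ i < b ^ q := by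
  induction q with
  | zero => simp
  | succ q ih =>
    rw [sum_range_succ, pow_succ]
    have : b ^ q * 2 ≤ b ^ q * b := Nat.mul_le_mul_left _ hb
    omega

lemma noise_split (b q : ℕ) (hb : 2 ≤ b) (T : Finset ℕ) (hq : q ∉ T) :
    ∃ k, ∑ i ∈ T, b ^ i = ∑ i ∈ T.filter (fun i => i < q), b ^ i + b ^ (q + 1) * k ∧
      ∑ i ∈ T.filter (fun i => i < q), b ^ i < b ^ q := by
  have h1 : b ^ (q + 1) ∣ ∑ i ∈ T.filter (fun i => ¬ i < q), b ^ i := by
    refine dvd_sum fun i hi => ?_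
    obtain ⟨h2, h3⟩ := mem_filter.1 hi
    have h4 : i ≠ q := fun h => hq (h ▸ h2)
    exact pow_dvd_pow b (by omega)
  obtain ⟨k, hk⟩ := h1
  refine ⟨k, ?_, ?_⟩
  · rw [← hk, sum_filter_add_sum_filter_not]
  · refine lt_of_le_of_lt ?_ (geom_le b q hb)
    refine sum_le_sum_of_subset fun i hi => ?_
    exact mem_range.2 (mem_filter.1 hi).2

/-- the noise changes the digit at `q` with probability at most `2 p` -/
lemma change_le (b K q : ℕ) (p : ℝ) (hb : 2 ≤ b) (hq : q < K) (hp0 : 0 ≤ p) (hp1 : p ≤ 1) :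
    ∑ T ∈ (range K).powerset, wS K p T *
      (#{n ∈ range (b ^ K) | digit b q (n + ∑ i ∈ T, b ^ i) ≠ digit b q n} : ℝ) ≤
      2 * p * (b : ℝ) ^ K := by
  have hb0 : (0 : ℝ) < b := by
    have : 0 < b := by omega
    exact_mod_cast this
  have hx : (0 : ℝ) < (b : ℝ) ^ K := by positivity
  have hw : ∀ T, 0 ≤ wS K p T := fun T => mul_nonneg (pow_nonneg hp0 _)
    (pow_nonneg (by linarith) _)
  have h1 : ∀ T ∈ (range K).powerset, wS K p T *
      (#{n ∈ range (b ^ K) | digit b q (n + ∑ i ∈ T, b ^ i) ≠ digit b q n} : ℝ) ≤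
      (b : ℝ) ^ K * (wS K p T * (if q ∈ T then 1 else 0)) +
      ∑ i ∈ range q, (b : ℝ) ^ K / (b : ℝ) ^ q * (b : ℝ) ^ i *
        (wS K p T * (if i ∈ T then 1 else 0)) := by
    intro T _
    have h2 : (#{n ∈ range (b ^ K) | digit b q (n + ∑ i ∈ T, b ^ i) ≠ digit b q n} : ℝ) ≤
        (b : ℝ) ^ K * (if q ∈ T then 1 else 0) +
        ∑ i ∈ range q, (b : ℝ) ^ K / (b : ℝ) ^ q * (b : ℝ) ^ i * (if i ∈ T then 1 else 0) := by
      have hs : (0 : ℝ) ≤ ∑ i ∈ range q, (b : ℝ) ^ K / (b : ℝ) ^ q * (b : ℝ) ^ i *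
          (if i ∈ T then 1 else 0) := by
        refine sum_nonneg fun i _ => ?_
        split_ifs <;> positivity
      by_cases hqT : q ∈ T
      · rw [if_pos hqT]
        have h3 : #{n ∈ range (b ^ K) | digit b q (n + ∑ i ∈ T, b ^ i) ≠ digit b q n} ≤ b ^ K :=
          (card_filter_le _ _).trans (card_range _).le
        have h4 : (#{n ∈ range (b ^ K) | digit b q (n + ∑ i ∈ T, b ^ i) ≠ digit b q n} : ℝ) ≤
            (b : ℝ) ^ K := by exact_mod_cast h3
        linarith
      · rw [if_neg hqT, mul_zero, zero_add]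
        obtain ⟨k, hk1, hk2⟩ := noise_split b q hb T hqT
        obtain ⟨z, hz⟩ : ∃ z : ℕ, z = ∑ i ∈ T.filter (fun i => i < q), b ^ i := ⟨_, rfl⟩
        rw [← hz] at hk1 hk2
        have h3 : #{n ∈ range (b ^ K) | digit b q (n + ∑ i ∈ T, b ^ i) ≠ digit b q n} ≤
            #{n ∈ range (b ^ K) | b ^ q ≤ n % b ^ q + z} := by
          refine card_le_card fun n hn => ?_
          obtain ⟨h4, h5⟩ := mem_filter.1 hn
          refine mem_filter.2 ⟨h4, ?_⟩
          by_contra hcon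
          rw [hk1] at h5
          exact h5 (digit_add b q z (b ^ (q + 1) * k) n hb (dvd_mul_right _ _) (not_le.1 hcon))
        have h4 : (#{n ∈ range (b ^ K) | digit b q (n + ∑ i ∈ T, b ^ i) ≠ digit b q n} : ℝ) ≤
            (#{n ∈ range (b ^ K) | b ^ q ≤ n % b ^ q + z} : ℝ) := by exact_mod_cast h3
        refine h4.trans ?_
        rw [count_carry b K q z hb hq.le hk2.le, hz]
        push_cast
        rw [mul_sum, sum_filter, ← sum_filter]
        have h5 : ∑ i ∈ range q, (b : ℝ) ^ K / (b : ℝ) ^ q * (b : ℝ) ^ i *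
            (if i ∈ T then 1 else 0) =
            ∑ i ∈ (range q).filter (fun i => i ∈ T), (b : ℝ) ^ K / (b : ℝ) ^ q * (b : ℝ) ^ i := by
          rw [sum_filter]
          refine sum_congr rfl fun i _ => ?_
          split_ifs <;> simp
        rw [h5]
        refine le_of_eq (sum_congr ?_ fun _ _ => rfl)
        ext i
        rw [mem_filter, mem_filter, mem_range]
        exact and_comm
    calc _ ≤ wS K p T * ((b : ℝ) ^ K * (if q ∈ T then 1 else 0) +
        ∑ i ∈ range q, (b : ℝ) ^ K / (b : ℝ) ^ q * (b : ℝ) ^ i * (if i ∈ T then 1 else 0)) :=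
          mul_le_mul_of_nonneg_left h2 (hw T)
      _ = _ := by
          rw [mul_add, mul_sum]
          congr 1
          · ring
          · exact sum_congr rfl fun i _ => by ring
  refine (sum_le_sum h1).trans ?_
  rw [sum_add_distrib, ← mul_sum, sum_mem K p q hq, sum_comm]
  have h2 : ∀ i ∈ range q, ∑ T ∈ (range K).powerset, (b : ℝ) ^ K / (b : ℝ) ^ q * (b : ℝ) ^ i *
      (wS K p T * (if i ∈ T then 1 else 0)) = (b : ℝ) ^ K / (b : ℝ) ^ q * (b : ℝ) ^ i * p := by
    intro i hi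
    rw [← mul_sum, sum_mem K p i ((mem_range.1 hi).trans hq)]
  rw [sum_congr rfl h2, ← sum_mul, ← mul_sum]
  have h3 : ∑ i ∈ range q, (b : ℝ) ^ i ≤ (b : ℝ) ^ q := by
    have := (geom_le b q hb).le
    exact_mod_cast this
  have h4 : (b : ℝ) ^ K / (b : ℝ) ^ q * ∑ i ∈ range q, (b : ℝ) ^ i ≤ (b : ℝ) ^ K := by
    calc _ ≤ (b : ℝ) ^ K / (b : ℝ) ^ q * (b : ℝ) ^ q :=
          mul_le_mul_of_nonneg_left h3 (by positivity)
      _ = _ := by field_simp
  have h5 := mul_le_mul_of_nonneg_right h4 hp0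
  linarith

/-- Sharpness of the noisy reading theorem. -/
theorem sharp_noise : ∃ C : ℝ, 0 < C ∧ ∀ b v m : ℕ, 2 ≤ b → 1 ≤ v →
    ∃ (A : Set ℕ) (J : ℕ → ℕ → ℕ),
      (b : ℝ) ^ (v * m) / 2 ≤ ∑ T ∈ (range (v * m)).powerset,
        (1 / (16 * v) : ℝ) ^ #T * (1 - 1 / (16 * v)) ^ (v * m - #T) *
          #(readSet b (v * m) (1 / 4) A J (∑ i ∈ T, b ^ i)) ∧
      ∑ n ∈ range (2 * b ^ (v * m)), (rep A n : ℝ) ^ 2 ≤ (b : ℝ) ^ (v * m) * Real.exp (C * m) := by
  classical
  obtain ⟨C, hC, h⟩ := sharp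
  refine ⟨C, hC, fun b v m hb hv => ?_⟩
  obtain ⟨A, f, hA, hf, hE⟩ := h b v m hb
  obtain ⟨K, hK⟩ : ∃ K : ℕ, K = v * m := ⟨_, rfl⟩
  rw [← hK] at hA hf hE ⊢
  refine ⟨A, fun y i => digit b i (f (y % b ^ K)), ?_, hE⟩
  have hb0 : (0 : ℝ) < b := by
    have : 0 < b := by omega
    exact_mod_cast this
  have hv1 : (1 : ℝ) ≤ v := by exact_mod_cast hv
  obtain ⟨p, hp⟩ : ∃ p : ℝ, p = 1 / (16 * v) := ⟨_, rfl⟩
  rw [← hp]
  have hp0 : 0 ≤ p := by rw [hp]; positivity
  have hpv : p * v = 1 / 16 := by rw [hp]; field_simp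
  have hp1 : p ≤ 1 := by nlinarith
  have hw : ∀ T, 0 ≤ wS K p T := fun T => mul_nonneg (pow_nonneg hp0 _)
    (pow_nonneg (by linarith) _)
  have hx : (0 : ℝ) < (b : ℝ) ^ K := by positivity
  have hQ : ∀ i, ∃ Q : Finset ℕ, i < K → #Q ≤ v ∧
      ∀ m n, (∀ q ∈ Q, digit b q m = digit b q n) → digit b i (f m) = digit b i (f n) := by
    intro i
    by_cases hi : i < K
    · obtain ⟨Q, hQ1, hQ2⟩ := hf i hi
      exact ⟨Q, fun _ => ⟨hQ1, hQ2⟩⟩
    · exact ⟨∅, fun h' => absurd h' hi⟩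
  choose Q hQ using hQ
  -- the number of wrong digits
  obtain ⟨wr, hwr⟩ : ∃ wr : Finset ℕ → ℕ → ℕ, ∀ T n, wr T n = #{i ∈ range K |
    digit b i (f ((n + ∑ i ∈ T, b ^ i) % b ^ K)) ≠ digit b i (f n)} := ⟨_, fun _ _ => rfl⟩
  have h1 : ∀ T, ∀ n ∈ range (b ^ K), (wr T n : ℝ) ≤ ∑ i ∈ range K, ∑ q ∈ Q i ∩ range K,
      (if digit b q (n + ∑ i ∈ T, b ^ i) ≠ digit b q n then (1 : ℝ) else 0) := by
    intro T n hn
    have hn' := mem_range.1 hn
    rw [hwr, card_filter]
    push_cast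
    refine sum_le_sum fun i hi => ?_
    have hiK := mem_range.1 hi
    by_cases hne : digit b i (f ((n + ∑ i ∈ T, b ^ i) % b ^ K)) ≠ digit b i (f n)
    · rw [if_pos hne]
      have h2 : ∃ q ∈ Q i ∩ range K, digit b q (n + ∑ i ∈ T, b ^ i) ≠ digit b q n := by
        by_contra hcon
        push_neg at hcon
        refine hne ((hQ i hiK).2 _ _ fun q hq => ?_)
        by_cases hqK : q < K
        · have h3 : digit b q ((n + ∑ i ∈ T, b ^ i) % b ^ K) = digit b q (n + ∑ i ∈ T, b ^ i) := by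
            unfold digit
            have e : b ^ K = b ^ q * b ^ (K - q) := by
              rw [← pow_add]; congr 1; omega
            have h3 : b ∣ b ^ (K - q) := dvd_pow_self b (by omega)
            rw [e, Nat.mod_mul_right_div_self, Nat.mod_mod_of_dvd _ h3]
          rw [h3]
          exact hcon q (mem_inter.2 ⟨hq, mem_range.2 hqK⟩)
        · have h3 : ∀ n < b ^ K, digit b q n = 0 := by
            intro n hn
            unfold digit
            have h4 : n < b ^ q := lt_of_lt_of_le hn (Nat.pow_le_pow_right (by omega)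
              (not_lt.1 hqK))
            rw [Nat.div_eq_of_lt h4, Nat.zero_mod]
          rw [h3 _ (Nat.mod_lt _ (by positivity)), h3 n hn']
      obtain ⟨q, hq, hqn⟩ := h2
      refine le_trans (le_of_eq ?_) (single_le_sum (f := fun q =>
        (if digit b q (n + ∑ i ∈ T, b ^ i) ≠ digit b q n then (1 : ℝ) else 0))
        (fun q _ => by split_ifs <;> norm_num) hq)
      exact (if_pos hqn).symm
    · rw [if_neg hne]
      exact sum_nonneg fun q _ => by split_ifs <;> norm_num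
  have h2 : ∑ T ∈ (range K).powerset, wS K p T * ∑ n ∈ range (b ^ K), (wr T n : ℝ) ≤
      K / 8 * (b : ℝ) ^ K := by
    have h3 : ∀ T ∈ (range K).powerset, wS K p T * ∑ n ∈ range (b ^ K), (wr T n : ℝ) ≤
        ∑ i ∈ range K, ∑ q ∈ Q i ∩ range K, wS K p T *
          (#{n ∈ range (b ^ K) | digit b q (n + ∑ i ∈ T, b ^ i) ≠ digit b q n} : ℝ) := by
      intro T _
      refine (mul_le_mul_of_nonneg_left (sum_le_sum (h1 T)) (hw T)).trans (le_of_eq ?_)
      rw [sum_comm, mul_sum]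
      refine sum_congr rfl fun i _ => ?_
      rw [sum_comm, mul_sum]
      refine sum_congr rfl fun q _ => ?_
      rw [card_filter]
      push_cast
      rfl
    refine (sum_le_sum h3).trans ?_
    rw [sum_comm]
    have h4 : ∀ i ∈ range K, ∑ T ∈ (range K).powerset, ∑ q ∈ Q i ∩ range K, wS K p T *
        (#{n ∈ range (b ^ K) | digit b q (n + ∑ i ∈ T, b ^ i) ≠ digit b q n} : ℝ) ≤
        v * (2 * p * (b : ℝ) ^ K) := by
      intro i hi
      rw [sum_comm]
      have h5 : ∀ q ∈ Q i ∩ range K, ∑ T ∈ (range K).powerset, wS K p T *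
          (#{n ∈ range (b ^ K) | digit b q (n + ∑ i ∈ T, b ^ i) ≠ digit b q n} : ℝ) ≤
          2 * p * (b : ℝ) ^ K := fun q hq =>
        change_le b K q p hb (mem_range.1 (mem_inter.1 hq).2) hp0 hp1
      refine (sum_le_sum h5).trans ?_
      rw [sum_const, nsmul_eq_mul]
      refine mul_le_mul_of_nonneg_right ?_ (by positivity)
      have h6 : #(Q i ∩ range K) ≤ v :=
        (card_le_card inter_subset_left).trans (hQ i (mem_range.1 hi)).1
      exact_mod_cast h6
    refine (sum_le_sum h4).trans (le_of_eq ?_)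
    rw [sum_const, card_range, nsmul_eq_mul]
    have : (K : ℝ) * (v * (2 * p * (b : ℝ) ^ K)) = K * 2 * (p * v) * (b : ℝ) ^ K := by ring
    rw [this, hpv]
    ring
  -- Markov
  have h3 : ∀ T, (b : ℝ) ^ K - #(readSet b K (1 / 4) A
      (fun y i => digit b i (f (y % b ^ K))) (∑ i ∈ T, b ^ i)) ≤
      (#{n ∈ range (b ^ K) | (K : ℝ) / 4 < wr T n} : ℝ) := by
    intro T
    have h4 : (range (b ^ K)).filter (fun n => ¬ (K : ℝ) / 4 < wr T n) ⊆
        readSet b K (1 / 4) A (fun y i => digit b i (f (y % b ^ K))) (∑ i ∈ T, b ^ i) := by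
      intro n hn
      obtain ⟨h5, h6⟩ := mem_filter.1 hn
      have hn' := mem_range.1 h5
      obtain ⟨h7, h8, h9⟩ := hA n hn'
      unfold readSet
      refine mem_filter.2 ⟨h5, f n, h8, n - f n, h9, by omega, ?_⟩
      have h10 : (#{i ∈ range K | digit b i (f ((n + ∑ i ∈ T, b ^ i) % b ^ K)) =
          digit b i (f n)} : ℝ) + wr T n = K := by
        have h11 := card_filter_add_card_filter_not (s := range K)
          (fun i => digit b i (f ((n + ∑ i ∈ T, b ^ i) % b ^ K)) = digit b i (f n))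
        rw [card_range] at h11
        rw [hwr]
        exact_mod_cast h11
      have hb2 : 1 / (b : ℝ) ≤ 1 / 2 := by
        have : (2 : ℝ) ≤ b := by exact_mod_cast hb
        exact one_div_le_one_div_of_le (by norm_num) this
      have hK0 : (0 : ℝ) ≤ K := Nat.cast_nonneg _
      have h12 : (1 / (b : ℝ) + 1 / 4) * K ≤ 3 / 4 * K :=
        mul_le_mul_of_nonneg_right (by linarith) hK0
      have h13 := not_lt.1 h6
      linarith
    have h5 := card_le_card h4
    have h6 := card_filter_add_card_filter_not (s := range (b ^ K))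
      (fun n => (K : ℝ) / 4 < wr T n)
    rw [card_range] at h6
    have h7 : (#{n ∈ range (b ^ K) | (K : ℝ) / 4 < wr T n} : ℝ) +
        (#((range (b ^ K)).filter (fun n => ¬ (K : ℝ) / 4 < wr T n)) : ℝ) = (b : ℝ) ^ K := by
      exact_mod_cast h6
    have h8 : (#((range (b ^ K)).filter (fun n => ¬ (K : ℝ) / 4 < wr T n)) : ℝ) ≤
        #(readSet b K (1 / 4) A (fun y i => digit b i (f (y % b ^ K))) (∑ i ∈ T, b ^ i)) := by
      exact_mod_cast h5
    linarith
  have h4 : ∑ T ∈ (range K).powerset, wS K p T *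
      (#{n ∈ range (b ^ K) | (K : ℝ) / 4 < wr T n} : ℝ) ≤ (b : ℝ) ^ K / 2 := by
    rcases Nat.eq_zero_or_pos K with hK0 | hK0
    · have h5 : ∀ T ∈ (range K).powerset, wS K p T *
          (#{n ∈ range (b ^ K) | (K : ℝ) / 4 < wr T n} : ℝ) = 0 := by
        intro T _
        have h6 : (range (b ^ K)).filter (fun n => (K : ℝ) / 4 < wr T n) = ∅ := by
          refine filter_false_of_mem fun n _ => ?_
          rw [hwr, hK0]
          simp
        rw [h6, card_empty]
        simp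
      rw [sum_congr rfl h5, sum_const_zero]
      positivity
    · have hKr : (0 : ℝ) < K := by exact_mod_cast hK0
      have h5 : ∀ T ∈ (range K).powerset, wS K p T *
          (#{n ∈ range (b ^ K) | (K : ℝ) / 4 < wr T n} : ℝ) ≤
          4 / K * (wS K p T * ∑ n ∈ range (b ^ K), (wr T n : ℝ)) := by
        intro T _
        have h6 : (#{n ∈ range (b ^ K) | (K : ℝ) / 4 < wr T n} : ℝ) * (K / 4) ≤
            ∑ n ∈ range (b ^ K), (wr T n : ℝ) := by
          rw [← nsmul_eq_mul, ← sum_const]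
          refine (sum_le_sum fun n hn => (mem_filter.1 hn).2.le).trans ?_
          exact sum_le_sum_of_subset_of_nonneg (filter_subset _ _) fun _ _ _ => Nat.cast_nonneg _
        have h7 : (#{n ∈ range (b ^ K) | (K : ℝ) / 4 < wr T n} : ℝ) ≤
            4 / K * ∑ n ∈ range (b ^ K), (wr T n : ℝ) := by
          have h8 := mul_le_mul_of_nonneg_left h6 (show (0 : ℝ) ≤ 4 / K by positivity)
          have h9 : 4 / (K : ℝ) * ((#{n ∈ range (b ^ K) | (K : ℝ) / 4 < wr T n} : ℝ) * (K / 4)) =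
              (#{n ∈ range (b ^ K) | (K : ℝ) / 4 < wr T n} : ℝ) := by
            field_simp
          rw [h9] at h8
          exact h8
        have h10 := mul_le_mul_of_nonneg_left h7 (hw T)
        refine h10.trans (le_of_eq ?_)
        ring
      refine (sum_le_sum h5).trans ?_
      rw [← mul_sum]
      refine (mul_le_mul_of_nonneg_left h2 (by positivity)).trans (le_of_eq ?_)
      field_simp
      ring
  have h5 : (b : ℝ) ^ K = ∑ T ∈ (range K).powerset, wS K p T * (b : ℝ) ^ K := by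
    rw [← sum_mul, sum_wS, one_mul]
  have h6 : (b : ℝ) ^ K - ∑ T ∈ (range K).powerset, wS K p T *
      #(readSet b K (1 / 4) A (fun y i => digit b i (f (y % b ^ K))) (∑ i ∈ T, b ^ i)) ≤
      ∑ T ∈ (range K).powerset, wS K p T *
        (#{n ∈ range (b ^ K) | (K : ℝ) / 4 < wr T n} : ℝ) := by
    conv_lhs => rw [h5]
    rw [← sum_sub_distrib]
    refine sum_le_sum fun T _ => ?_
    rw [← mul_sub]
    exact mul_le_mul_of_nonneg_left (h3 T) (hw T)
  have h7 : ∑ T ∈ (range K).powerset, wS K p T *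
      #(readSet b K (1 / 4) A (fun y i => digit b i (f (y % b ^ K))) (∑ i ∈ T, b ^ i)) =
      ∑ T ∈ (range K).powerset, p ^ #T * (1 - p) ^ (K - #T) *
      #(readSet b K (1 / 4) A (fun y i => digit b i (f (y % b ^ K))) (∑ i ∈ T, b ^ i)) := rfl
  rw [← h7]
  linarith

end Pool.Agent.Helper7.SC
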