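import Pool.Agent.Helper7.SC.Aut
import Pool.Agent.Helper7.SC.Gen

/-!
# Circuits that simulate automata
-/

namespace Pool.Agent.Helper7.SC

open Pool.Agent.Helper92.Theta Pool.Agent.Helper95.Slp

/-! ### Occurrences of lists -/

/-- the list `L` occurs in `C` from the position `s` on -/
def At {γ : Type} (C : List γ) (s : ℕ) (L : List γ) : Prop :=
  ∀ r, r < L.length → C[s + r]? = L[r]?

lemma At.get {γ : Type} {C : List γ} {s : ℕ} {L : List γ} (h : At C s L) {r : ℕ} {g : γ}
    (hr : L[r]? = some g) : C[s + r]? = some g := by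
  rw [h r (List.getElem?_eq_some_iff.1 hr).1, hr]

lemma At.left {γ : Type} {C : List γ} {s : ℕ} {L L' : List γ} (h : At C s (L ++ L')) :
    At C s L := by
  intro r hr
  rw [h r (by rw [List.length_append]; omega), List.getElem?_append_left hr]

lemma At.right {γ : Type} {C : List γ} {s : ℕ} {L L' : List γ} (h : At C s (L ++ L')) :
    At C (s + L.length) L' := by
  intro r hr
  rw [Nat.add_assoc, h _ (by rw [List.length_append]; omega),
    List.getElem?_append_right (by omega), Nat.add_sub_cancel_left]

lemma At.tail {γ : Type} {C : List γ} {s : ℕ} {g : γ} {L : List γ} (h : At C s (g :: L)) :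
    At C (s + 1) L := by
  have h1 : g :: L = [g] ++ L := rfl
  rw [h1] at h
  exact h.right

lemma len_flatMap {γ : Type} {m : ℕ} {f : ℕ → List γ} (hf : ∀ k, (f k).length = m) (n : ℕ) :
    ((List.range n).flatMap f).length = m * n := by
  rw [List.length_flatMap]
  simp [hf, mul_comm]

lemma At.flatMap {γ : Type} {C : List γ} {s m n : ℕ} {f : ℕ → List γ}
    (hf : ∀ k, (f k).length = m) (h : At C s ((List.range n).flatMap f)) {k : ℕ} (hk : k < n) :
    At C (s + m * k) (f k) := by
  intro r hr
  have hr' : r < m := by rw [← hf k]; exact hr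
  have hlen := len_flatMap hf n
  have hlt : m * k + r < m * n := by
    have h1 : m * (k + 1) ≤ m * n := Nat.mul_le_mul_left m hk
    have h2 : m * (k + 1) = m * k + m := by ring
    omega
  rw [Nat.add_assoc, h _ (by rw [hlen]; exact hlt), getElem?_flatMap_range m f hf n k r hk hr']

lemma At.self {γ : Type} (C : List γ) : At C 0 C := by
  intro r _
  rw [Nat.zero_add]

/-! ### Values of gates -/

lemma ev_basic {C : List XGate} {k op i j : ℕ} {z : BInt}
    (h : C[k]? = some (false, (op, i, j, z))) (hi : i ≤ k) (hj : j ≤ k) :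
    evX C (k + 1) = opR op (ival z) (evX C i) (evX C j) := by
  rw [evX_succ h]
  unfold gv
  rw [if_neg (by simp)]
  simp only
  rw [idx_eq hi, idx_eq hj]

lemma exists_bval (n : ℕ) : ∃ l, bval l = n := by
  induction n using Nat.strong_induction_on with
  | _ n ih =>
    rcases Nat.eq_zero_or_pos n with rfl | h
    · exact ⟨[], rfl⟩
    · obtain ⟨l, hl⟩ := ih (n / 2) (by omega)
      rcases Nat.even_or_odd n with h1 | h1
      · refine ⟨false :: l, ?_⟩
        rw [bval, hl, cond_false]
        obtain ⟨m, rfl⟩ := h1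
        omega
      · refine ⟨true :: l, ?_⟩
        rw [bval, hl, cond_true]
        obtain ⟨m, rfl⟩ := h1
        omega

/-- a representation of a natural number -/
noncomputable def nb (n : ℕ) : BInt := (true, Classical.choose (exists_bval n))

lemma ival_nb (n : ℕ) : ival (nb n) = n := by
  unfold nb
  have := Classical.choose_spec (exists_bval n)
  change ((bval _ : ℕ) : ℤ) = n
  rw [this]

/-! ### Looking up a value in a list -/

/-- the gates for one entry -/
def lkb (b e : ℕ) (p : BInt × BInt) : List XGate :=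
  [cg p.1, (false, (2, e, b + 1, zer)), (false, (4, b + 2, b + 2, zer)),
    (false, (2, 0, b + 3, zer)), cg p.2, (false, (3, b + 4, b + 5, zer)),
    (false, (1, b, b + 6, zer))]

/-- the entry with the key equal to the value number `e` -/
def lku (s e : ℕ) (tb : List (BInt × BInt)) : List XGate :=
  cg zer :: (List.range tb.length).flatMap fun w =>
    lkb (s + 1 + 7 * w) e ((tb[w]?).getD (zer, zer))

lemma lku_length (s e : ℕ) (tb : List (BInt × BInt)) : (lku s e tb).length = 1 + 7 * tb.length := by
  unfold lku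
  rw [List.length_cons, List.length_flatMap]
  simp [lkb]
  ring

/-- the result -/
noncomputable def lkS (tb : List (BInt × BInt)) (x : ℝ) : ℝ :=
  (tb.map fun p => if x = (ival p.1 : ℝ) then (ival p.2 : ℝ) else 0).sum

lemma lkS_append (tb tb' : List (BInt × BInt)) (x : ℝ) :
    lkS (tb ++ tb') x = lkS tb x + lkS tb' x := by
  simp [lkS]

lemma lkb_val {C : List XGate} {b e : ℕ} {p : BInt × BInt} (h : At C b (lkb b e p)) (he : e ≤ b) :
    evX C (b + 7) = evX C b + if evX C e = (ival p.1 : ℝ) then (ival p.2 : ℝ) else 0 := by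
  have g0 : C[b + 0]? = some (cg p.1) := h.get rfl
  have g1 : C[b + 1]? = some (false, (2, e, b + 1, zer)) := h.get rfl
  have g2 : C[b + 2]? = some (false, (4, b + 2, b + 2, zer)) := h.get rfl
  have g3 : C[b + 3]? = some (false, (2, 0, b + 3, zer)) := h.get rfl
  have g4 : C[b + 4]? = some (cg p.2) := h.get rfl
  have g5 : C[b + 5]? = some (false, (3, b + 4, b + 5, zer)) := h.get rfl
  have g6 : C[b + 6]? = some (false, (1, b, b + 6, zer)) := h.get rfl
  have v1 : evX C (b + 1) = ival p.1 := evX_cg g0
  have v2 : evX C (b + 2) = evX C e - evX C (b + 1) := ev_basic g1 (by omega) (by omega)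
  have v3 : evX C (b + 3) = evX C (b + 2) / evX C (b + 2) := ev_basic g2 (by omega) (by omega)
  have v4 : evX C (b + 4) = evX C 0 - evX C (b + 3) := ev_basic g3 (by omega) (by omega)
  have v5 : evX C (b + 5) = ival p.2 := evX_cg g4
  have v6 : evX C (b + 6) = evX C (b + 4) * evX C (b + 5) := ev_basic g5 (by omega) (by omega)
  have v7 : evX C (b + 7) = evX C b + evX C (b + 6) := ev_basic g6 (by omega) (by omega)
  rw [v7, v6, v5, v4, v3, v2, v1, evX_zero]
  split_ifs with h1
  · rw [h1]
    simp
  · rw [div_self (sub_ne_zero.2 h1)]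
    ring

lemma lku_val {C : List XGate} {s e : ℕ} {tb : List (BInt × BInt)} (h : At C s (lku s e tb))
    (he : e ≤ s) : evX C (s + (1 + 7 * tb.length)) = lkS tb (evX C e) := by
  have key : ∀ w ≤ tb.length, evX C (s + (1 + 7 * w)) = lkS (tb.take w) (evX C e) := by
    intro w
    induction w with
    | zero =>
      intro _
      have g : C[s + 0]? = some (cg zer) := h.get rfl
      rw [Nat.mul_zero, Nat.add_zero]
      have h1 : evX C (s + 1) = ival zer := evX_cg g
      rw [h1, ival_zer]
      simp [lkS]
    | succ w ih =>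
      intro hw
      have hw' : w < tb.length := by omega
      have h1 : At C (s + 1 + 7 * w) (lkb (s + 1 + 7 * w) e ((tb[w]?).getD (zer, zer))) :=
        (At.tail h).flatMap (m := 7) (f := fun w => lkb (s + 1 + 7 * w) e ((tb[w]?).getD (zer, zer)))
          (fun _ => rfl) hw'
      rw [List.getElem?_eq_getElem hw', Option.getD_some] at h1
      have h2 := lkb_val h1 (by omega)
      have e1 : s + 1 + 7 * w + 7 = s + (1 + 7 * (w + 1)) := by ring
      have e2 : s + 1 + 7 * w = s + (1 + 7 * w) := by ring
      rw [e1, e2, ih (by omega)] at h2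
      rw [h2, List.take_succ_eq_append_getElem hw', lkS_append]
      simp [lkS]
  have h1 := key _ (le_refl _)
  rwa [List.take_length] at h1

lemma lkS_replicate (n : ℕ) (x : ℝ) : lkS (List.replicate n (zer, zer)) x = 0 := by
  simp [lkS, ival_zer]

lemma lkS_range (n : ℕ) (F : ℕ → BInt) (k : ℕ) (hk : k < n) :
    lkS ((List.range n).map fun k => (nb k, F k)) k = (ival (F k) : ℝ) := by
  induction n with
  | zero => omega
  | succ n ih =>
    have hz : ∀ m ≤ n, lkS ((List.range m).map fun k => (nb k, F k)) (n : ℝ) = 0 := by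
      intro m hm
      induction m with
      | zero => simp [lkS]
      | succ m ih' =>
        rw [List.range_succ, List.map_append, lkS_append, ih' (by omega)]
        have : (n : ℝ) ≠ (m : ℝ) := by
          have : n ≠ m := by omega
          exact_mod_cast this
        simp [lkS, ival_nb, this]
    rw [List.range_succ, List.map_append, lkS_append]
    rcases Nat.lt_succ_iff_lt_or_eq.1 hk with h | h
    · rw [ih h]
      have : (k : ℝ) ≠ (n : ℝ) := by
        have : k ≠ n := by omega
        exact_mod_cast this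
      simp [lkS, ival_nb, this]
    · subst h
      rw [hz _ (le_refl _)]
      simp [lkS, ival_nb]

/-- filling up a list -/
def pad (S : ℕ) (tb : List (BInt × BInt)) : List (BInt × BInt) :=
  tb ++ List.replicate (S - tb.length) (zer, zer)

lemma pad_length {S : ℕ} {tb : List (BInt × BInt)} (h : tb.length ≤ S) :
    (pad S tb).length = S := by
  simp [pad, h]

lemma lkS_pad (S : ℕ) (tb : List (BInt × BInt)) (x : ℝ) : lkS (pad S tb) x = lkS tb x := by
  unfold pad
  rw [lkS_append, lkS_replicate, add_zero]

/-! ### The blocks of an automaton -/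

namespace Aut

variable (A : Aut)

/-- the length of the lists -/
def S : ℕ := A.s ^ 4 + A.s + 2

/-- the local rule -/
noncomputable def tNext (b : Bool) : List (BInt × BInt) :=
  pad A.S ((List.range (A.s ^ 4)).map fun k => (nb k, nb (A.nxt b (k % A.s) (k / A.s % A.s)
    (k / A.s ^ 2 % A.s) (k / A.s ^ 3))))

/-- a constant initial cell -/
noncomputable def tIni (o : Option Bool) : List (BInt × BInt) := pad A.S [(one, nb (A.ini o))]

/-- an initial cell with a variable symbol -/
noncomputable def tVar : List (BInt × BInt) :=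
  pad A.S [(zer, nb (A.ini (some false))), (one, nb (A.ini (some true)))]

/-- the output -/
noncomputable def tOut : List (BInt × BInt) :=
  pad A.S ((List.range A.s).map fun k => (nb k, if A.out k = some true then one else zer))

lemma tNext_length (b : Bool) : (A.tNext b).length = A.S :=
  pad_length (by rw [List.length_map, List.length_range]; unfold S; omega)

lemma tIni_length (o : Option Bool) : (A.tIni o).length = A.S :=
  pad_length (by simp only [List.length_cons, List.length_nil]; unfold S; omega)

lemma tVar_length : A.tVar.length = A.S :=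
  pad_length (by simp only [List.length_cons, List.length_nil]; unfold S; omega)

lemma tOut_length : A.tOut.length = A.S :=
  pad_length (by rw [List.length_map, List.length_range]; unfold S; omega)

/-- the length of a block -/
def ell : ℕ := 8 + 7 * A.S

/-- a cell of the first row -/
noncomputable def iniBlk (q : ℕ) (o : Option (Bool ⊕ ℕ)) : List XGate :=
  [(false, fil), (false, fil), (false, fil), (false, fil), (false, fil), (false, fil),
    (false, fil)] ++
  match o with
  | none => lku (q + 7) 0 (A.tIni none)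
  | some (Sum.inl b) => lku (q + 7) 0 (A.tIni (some b))
  | some (Sum.inr p) => lku (q + 7) p A.tVar

/-- another cell -/
noncomputable def nextBlk (q : ℕ) (b : Bool) (z l m r : ℕ) : List XGate :=
  [cg (nb A.s), (false, (3, r, q + 1, zer)), (false, (1, q + 2, m, zer)),
    (false, (3, q + 3, q + 1, zer)), (false, (1, q + 4, l, zer)),
    (false, (3, q + 5, q + 1, zer)), (false, (1, q + 6, z, zer))] ++
  lku (q + 7) (q + 7) (A.tNext b)

lemma iniBlk_length (q : ℕ) (o : Option (Bool ⊕ ℕ)) : (A.iniBlk q o).length = A.ell := by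
  unfold iniBlk ell
  rcases o with _ | b | p <;>
    simp only [List.length_append, List.length_cons, List.length_nil, lku_length, tIni_length,
      tVar_length] <;> omega

lemma nextBlk_length (q : ℕ) (b : Bool) (z l m r : ℕ) :
    (A.nextBlk q b z l m r).length = A.ell := by
  unfold nextBlk ell
  simp only [List.length_append, List.length_cons, List.length_nil, lku_length, tNext_length]
  omega

lemma digits (z l m r : ℕ) (hz : z < A.s) (hl : l < A.s) (hm : m < A.s) (hr : r < A.s) :
    z + A.s * l + A.s ^ 2 * m + A.s ^ 3 * r < A.s ^ 4 ∧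
    (z + A.s * l + A.s ^ 2 * m + A.s ^ 3 * r) % A.s = z ∧
    (z + A.s * l + A.s ^ 2 * m + A.s ^ 3 * r) / A.s % A.s = l ∧
    (z + A.s * l + A.s ^ 2 * m + A.s ^ 3 * r) / A.s ^ 2 % A.s = m ∧
    (z + A.s * l + A.s ^ 2 * m + A.s ^ 3 * r) / A.s ^ 3 = r := by
  have hs : 0 < A.s := by omega
  set s := A.s with hs'
  have e1 : (z + s * l + s ^ 2 * m + s ^ 3 * r) / s = l + s * m + s ^ 2 * r := by
    have : z + s * l + s ^ 2 * m + s ^ 3 * r = z + s * (l + s * m + s ^ 2 * r) := by ring
    rw [this, Nat.add_mul_div_left _ _ hs, Nat.div_eq_of_lt hz, Nat.zero_add]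
  have e2 : (z + s * l + s ^ 2 * m + s ^ 3 * r) / s ^ 2 = m + s * r := by
    rw [pow_two, ← Nat.div_div_eq_div_mul, ← pow_two, e1]
    have : l + s * m + s ^ 2 * r = l + s * (m + s * r) := by ring
    rw [this, Nat.add_mul_div_left _ _ hs, Nat.div_eq_of_lt hl, Nat.zero_add]
  have e3 : (z + s * l + s ^ 2 * m + s ^ 3 * r) / s ^ 3 = r := by
    rw [pow_succ s 2, ← Nat.div_div_eq_div_mul]
    rw [show z + s * l + s ^ 2 * m + s ^ 2 * s * r = z + s * l + s ^ 2 * m + s ^ 3 * r by ring]
    rw [e2, Nat.add_mul_div_left _ _ hs, Nat.div_eq_of_lt hm, Nat.zero_add]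
  refine ⟨?_, ?_, ?_, ?_, e3⟩
  · have h1 : z + s * l < s ^ 2 := by
      have : s * (l + 1) ≤ s * s := Nat.mul_le_mul_left s hl
      nlinarith
    have h2 : z + s * l + s ^ 2 * m < s ^ 3 := by
      have : s ^ 2 * (m + 1) ≤ s ^ 2 * s := Nat.mul_le_mul_left _ hm
      nlinarith
    have : s ^ 3 * (r + 1) ≤ s ^ 3 * s := Nat.mul_le_mul_left _ hr
    nlinarith
  · have : z + s * l + s ^ 2 * m + s ^ 3 * r = z + s * (l + s * m + s ^ 2 * r) := by ring
    rw [this, Nat.add_mul_mod_self_left, Nat.mod_eq_of_lt hz]
  · rw [e1]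
    have : l + s * m + s ^ 2 * r = l + s * (m + s * r) := by ring
    rw [this, Nat.add_mul_mod_self_left, Nat.mod_eq_of_lt hl]
  · rw [e2, Nat.add_mul_mod_self_left, Nat.mod_eq_of_lt hm]

/-- the value of an entry of the first row -/
noncomputable def res (C : List XGate) : Bool ⊕ ℕ → Bool
  | Sum.inl b => b
  | Sum.inr p => decide (evX C p = 1)

lemma iniBlk_val {C : List XGate} {q : ℕ} {o : Option (Bool ⊕ ℕ)} (h : At C q (A.iniBlk q o))
    (ho : ∀ p, o = some (Sum.inr p) → p ≤ q ∧ (evX C p = 0 ∨ evX C p = 1)) :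
    evX C (q + A.ell) = A.ini (o.map (res C)) := by
  unfold iniBlk at h
  have h1 := h.right
  simp only [List.length_cons, List.length_nil, Nat.zero_add, Nat.reduceAdd] at h1
  have e1 : q + A.ell = q + 7 + (1 + 7 * A.S) := by unfold ell; omega
  have hone : ∀ o : Option Bool, lkS (A.tIni o) 1 = A.ini o := by
    intro o
    unfold tIni
    rw [lkS_pad]
    simp [lkS, Helper95.Slp.ival_one, ival_nb]
  rw [e1]
  rcases o with _ | b | p
  · have h2 := lku_val h1 (Nat.zero_le _)
    rw [tIni_length, evX_zero, hone] at h2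
    exact h2
  · have h2 := lku_val h1 (Nat.zero_le _)
    rw [tIni_length, evX_zero, hone] at h2
    exact h2
  · obtain ⟨hp, hv⟩ := ho p rfl
    have h2 := lku_val h1 (by omega)
    rw [tVar_length] at h2
    rw [h2]
    unfold tVar
    rw [lkS_pad]
    have hdec : res C (Sum.inr p) = decide (evX C p = 1) := rfl
    rcases hv with hv | hv
    · have : decide (evX C p = 1) = false := by rw [hv]; simp
      rw [Option.map_some, hdec, this, hv]
      simp [lkS, Helper95.Slp.ival_one, ival_zer, ival_nb]
    · have : decide (evX C p = 1) = true := by rw [hv]; simp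
      rw [Option.map_some, hdec, this, hv]
      simp [lkS, Helper95.Slp.ival_one, ival_zer, ival_nb]

lemma nextBlk_val {C : List XGate} {q : ℕ} {b : Bool} {pz pl pm pr z l m r : ℕ}
    (h : At C q (A.nextBlk q b pz pl pm pr)) (hz : pz ≤ q) (hl : pl ≤ q) (hm : pm ≤ q)
    (hr : pr ≤ q) (vz : evX C pz = z) (vl : evX C pl = l) (vm : evX C pm = m)
    (vr : evX C pr = r) (iz : z < A.s) (il : l < A.s) (im : m < A.s) (ir : r < A.s) :
    evX C (q + A.ell) = A.nxt b z l m r := by
  unfold nextBlk at h
  have h0 := h.left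
  have h1 := h.right
  simp only [List.length_cons, List.length_nil, Nat.zero_add, Nat.reduceAdd] at h1
  have g0 : C[q + 0]? = some (cg (nb A.s)) := h0.get rfl
  have g1 : C[q + 1]? = some (false, (3, pr, q + 1, zer)) := h0.get rfl
  have g2 : C[q + 2]? = some (false, (1, q + 2, pm, zer)) := h0.get rfl
  have g3 : C[q + 3]? = some (false, (3, q + 3, q + 1, zer)) := h0.get rfl
  have g4 : C[q + 4]? = some (false, (1, q + 4, pl, zer)) := h0.get rfl
  have g5 : C[q + 5]? = some (false, (3, q + 5, q + 1, zer)) := h0.get rfl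
  have g6 : C[q + 6]? = some (false, (1, q + 6, pz, zer)) := h0.get rfl
  have v1 : evX C (q + 1) = ival (nb A.s) := evX_cg g0
  have v2 : evX C (q + 2) = evX C pr * evX C (q + 1) := ev_basic g1 (by omega) (by omega)
  have v3 : evX C (q + 3) = evX C (q + 2) + evX C pm := ev_basic g2 (by omega) (by omega)
  have v4 : evX C (q + 4) = evX C (q + 3) * evX C (q + 1) := ev_basic g3 (by omega) (by omega)
  have v5 : evX C (q + 5) = evX C (q + 4) + evX C pl := ev_basic g4 (by omega) (by omega)
  have v6 : evX C (q + 6) = evX C (q + 5) * evX C (q + 1) := ev_basic g5 (by omega) (by omega)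
  have v7 : evX C (q + 7) = evX C (q + 6) + evX C pz := ev_basic g6 (by omega) (by omega)
  have v8 : evX C (q + 7) = ((z + A.s * l + A.s ^ 2 * m + A.s ^ 3 * r : ℕ) : ℝ) := by
    rw [v7, v6, v5, v4, v3, v2, v1, vz, vl, vm, vr, ival_nb]
    push_cast
    ring
  obtain ⟨d0, d1, d2, d3, d4⟩ := A.digits z l m r iz il im ir
  have h2 := lku_val h1 (le_refl _)
  rw [tNext_length, v8] at h2
  have e1 : q + A.ell = q + 7 + (1 + 7 * A.S) := by unfold ell; omega
  rw [e1, h2]
  unfold tNext
  rw [lkS_pad]
  have h3 := lkS_range (A.s ^ 4) (fun k => nb (A.nxt b (k % A.s) (k / A.s % A.s)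
    (k / A.s ^ 2 % A.s) (k / A.s ^ 3))) _ d0
  rw [h3, d1, d2, d3, d4, ival_nb]
  simp

/-! ### The table -/

/-- the block of a cell -/
noncomputable def cellB (s0 W : ℕ) (L : List (Bool ⊕ ℕ)) (t i : ℕ) : List XGate :=
  if t = 0 then A.iniBlk (s0 + A.ell * W * t + A.ell * i) (L[i]?)
  else A.nextBlk (s0 + A.ell * W * t + A.ell * i) (decide (i = 0))
    (s0 + A.ell * W * (t - 1) + A.ell * 0 + A.ell)
    (s0 + A.ell * W * (t - 1) + A.ell * (i - 1) + A.ell)
    (s0 + A.ell * W * (t - 1) + A.ell * i + A.ell)
    (s0 + A.ell * W * (t - 1) + A.ell * (i + 1) + A.ell)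

/-- the circuit for a table with rows `0, …, T` and `W` columns -/
noncomputable def tabC (s0 W T : ℕ) (L : List (Bool ⊕ ℕ)) : List XGate :=
  (List.range (T + 1)).flatMap fun t => (List.range W).flatMap fun i => A.cellB s0 W L t i

lemma cellB_length (s0 W : ℕ) (L : List (Bool ⊕ ℕ)) (t i : ℕ) :
    (A.cellB s0 W L t i).length = A.ell := by
  unfold cellB
  split_ifs
  · exact A.iniBlk_length _ _
  · exact A.nextBlk_length _ _ _ _ _ _

lemma rowC_length (s0 W : ℕ) (L : List (Bool ⊕ ℕ)) (t : ℕ) :
    ((List.range W).flatMap fun i => A.cellB s0 W L t i).length = A.ell * W := by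
  rw [List.length_flatMap]
  simp [cellB_length, mul_comm]

lemma tabC_length (s0 W T : ℕ) (L : List (Bool ⊕ ℕ)) :
    (A.tabC s0 W T L).length = A.ell * W * (T + 1) := by
  unfold tabC
  exact len_flatMap (fun t => A.rowC_length s0 W L t) (T + 1)

theorem tab_val {C : List XGate} {s0 W T : ℕ} {L : List (Bool ⊕ ℕ)}
    (h : At C s0 (A.tabC s0 W T L))
    (hL : ∀ p, Sum.inr p ∈ L → p ≤ s0 ∧ (evX C p = 0 ∨ evX C p = 1)) :
    ∀ t ≤ T, ∀ i, i + t < W → evX C (s0 + A.ell * W * t + A.ell * i + A.ell) =
      A.tab (fun i => (L[i]?).map (res C)) t i := by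
  have hcell : ∀ t ≤ T, ∀ i < W, At C (s0 + A.ell * W * t + A.ell * i) (A.cellB s0 W L t i) := by
    intro t ht i hi
    have h1 := At.flatMap (f := fun t => (List.range W).flatMap fun i => A.cellB s0 W L t i)
      (fun t => A.rowC_length s0 W L t) h (Nat.lt_succ_of_le ht)
    exact At.flatMap (f := fun i => A.cellB s0 W L t i) (fun i => A.cellB_length s0 W L t i) h1 hi
  intro t
  induction t with
  | zero =>
    intro ht i hi
    have h1 := hcell 0 ht i (by omega)
    unfold cellB at h1
    rw [if_pos rfl] at h1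
    refine A.iniBlk_val h1 fun p hp => ?_
    have h2 := hL p (List.mem_of_getElem? hp)
    exact ⟨h2.1.trans (by omega), h2.2⟩
  | succ t ih =>
    intro ht i hi
    have h1 := hcell (t + 1) ht i (by omega)
    unfold cellB at h1
    rw [if_neg (by omega), Nat.add_sub_cancel] at h1
    have hW : A.ell * W * (t + 1) = A.ell * W * t + A.ell * W := by ring
    have hle : ∀ j, j + 1 ≤ W → s0 + A.ell * W * t + A.ell * j + A.ell ≤
        s0 + A.ell * W * (t + 1) + A.ell * i := by
      intro j hj
      have h2 : A.ell * (j + 1) ≤ A.ell * W := Nat.mul_le_mul_left _ hj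
      have h3 : A.ell * (j + 1) = A.ell * j + A.ell := by ring
      omega
    exact A.nextBlk_val h1 (hle _ (by omega)) (hle _ (by omega)) (hle _ (by omega))
      (hle _ (by omega)) (ih (by omega) _ (by omega)) (ih (by omega) _ (by omega))
      (ih (by omega) _ (by omega)) (ih (by omega) _ (by omega)) (A.tab_lt _ _ _) (A.tab_lt _ _ _)
      (A.tab_lt _ _ _) (A.tab_lt _ _ _)

/-- the output block -/
noncomputable def outB (q e : ℕ) : List XGate := lku q e A.tOut

/-- the length of the output block -/
def lam : ℕ := 1 + 7 * A.S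

lemma outB_length (q e : ℕ) : (A.outB q e).length = A.lam := by
  unfold outB lam
  rw [lku_length, tOut_length]

lemma outB_val {C : List XGate} {q e x : ℕ} (h : At C q (A.outB q e)) (he : e ≤ q)
    (hx : evX C e = x) (hs : x < A.s) :
    evX C (q + A.lam) = if A.out x = some true then 1 else 0 := by
  have h2 := lku_val h he
  rw [tOut_length] at h2
  unfold lam
  rw [h2, hx]
  unfold tOut
  rw [lkS_pad, lkS_range _ _ _ hs]
  split_ifs
  · rw [Helper95.Slp.ival_one, Int.cast_one]
  · rw [ival_zer, Int.cast_zero]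

end Aut

end Pool.Agent.Helper7.SC
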