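import Pool.Agent.Helper57.CH.TextC

set_option autoImplicit false

/-!
Every set of integers with bounded representation function is exponentially sensitive to noise:
the representations of a random `n` look independent of those of a noisy copy of `n`, and no
function of the noisy copy predicts the digits of a summand of `n` better than chance.
-/

namespace Pool.Agent.Helper7.SC.TextD

open Finset

open Classical in
/-- `r_A(n)`, the number of ordered pairs of elements of `A` with sum `n`. -/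
noncomputable def rep (A : Set ℕ) (n : ℕ) : ℕ := #{p ∈ antidiagonal n | p.1 ∈ A ∧ p.2 ∈ A}

/-- The values `-1`, `0`, `1` of the coefficients `ξ_i`, `i < K`. -/
def states (K : ℕ) : Finset (Fin K → ℤ) := Fintype.piFinset fun _ => {-1, 0, 1}

/-- The probability of `ξ`: the `ξ_i` are independent, `1` and `-1` with probability `s / 2` each,
and `0` otherwise. -/
noncomputable def prob {K : ℕ} (s : ℝ) (ξ : Fin K → ℤ) : ℝ :=
  ∏ i, if ξ i = 0 then 1 - s else s / 2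

/-- The noise `z = sum_i ξ_i b ^ i`. -/
def noise (b : ℕ) {K : ℕ} (ξ : Fin K → ℤ) : ℤ := ∑ i, ξ i * (b : ℤ) ^ (i : ℕ)

open Classical in
/-- The probability of `P n z` for `n` uniform in `0, ..., b ^ K - 1` and the noise `z`,
independent of `n`. -/
noncomputable def Pr (b K : ℕ) (s : ℝ) (P : ℕ → ℤ → Prop) : ℝ :=
  ∑ ξ ∈ states K, prob s ξ * (#{n ∈ range (b ^ K) | P n (noise b ξ)} / (b : ℝ) ^ K)

/-- Joint normality: each triple `u, v, w < b ^ l` of blocks of `l` base `b` digits occurs in `a`,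
`a'`, `d` at the same position `i < K` with frequency `1 / b ^ (3 l)` up to `ε`. -/
def Joint (b l K : ℕ) (ε : ℝ) (a a' d : ℕ) : Prop :=
  ∀ u v w : ℕ, u < b ^ l → v < b ^ l → w < b ^ l →
    |(#{i ∈ range K | a / b ^ i % b ^ l = u ∧ a' / b ^ i % b ^ l = v ∧
      d / b ^ i % b ^ l = w} : ℝ) - K / ((b : ℝ) ^ l) ^ 3| ≤ ε * K

/-- The digit of `n` at position `i` in base `b`. -/
def digit (b i n : ℕ) : ℕ := n / b ^ i % b

theorem result (b l g : ℕ) (ε : ℝ) (hb : 2 ≤ b) (hl : 1 ≤ l) (hε : 0 < ε) :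
    ∃ c C : ℝ, 0 < c ∧ 0 < C ∧ ∀ A : Set ℕ, (∀ n, rep A n ≤ g) →
      ∀ (K : ℕ) (s : ℝ), 0 < s → s ≤ 1 / 2 →
        Pr b K s (fun n z => ∃ a ∈ A, ∃ a' ∈ A, ∃ d ∈ A, ∃ d' ∈ A, d < b ^ K ∧ d' < b ^ K ∧
          a + a' = n ∧ (d : ℤ) + d' = n + z ∧ ¬ Joint b l K ε a a' d) ≤
            C * Real.exp (-(c * s * K)) ∧
        ∀ J : ℤ → ℕ → ℕ, Pr b K s (fun n z => ∃ a ∈ A, ∃ a' ∈ A, a + a' = n ∧
          (1 / b + ε) * K ≤ (#{i ∈ range K | J (n + z) i = digit b i a} : ℝ)) ≤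
            C * Real.exp (-(c * s * K)) := by
  classical
  obtain ⟨c, C, hc, hC, h⟩ := Pool.Agent.Helper57.CH.DoC.result.1 b l ε hb hl hε
  refine ⟨c / 2, 2 * g ^ 2 * C + √(2 * g ^ 2 * C) + 1, by positivity, by positivity,
    fun A hA K s hs hs2 => ?_⟩
  obtain ⟨h1, h2⟩ := h A K s hs hs2
  have hx : (0 : ℝ) < (b : ℝ) ^ K := by
    have : 0 < b := by omega
    positivity
  have hw : ∀ ξ : Fin K → ℤ, 0 ≤ prob s ξ := fun ξ => prod_nonneg fun i _ => by
    split_ifs <;> linarith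
  have hE : Pool.Agent.Helper57.CH.DoC.energy A b K ≤ 2 * g ^ 2 * (b : ℝ) ^ K := by
    unfold Pool.Agent.Helper57.CH.DoC.energy
    have h3 : ∀ n ∈ range (2 * b ^ K), (Pool.Agent.Helper57.CH.DoC.rep A n : ℝ) ^ 2 ≤
        (g : ℝ) ^ 2 := by
      intro n _
      have h4 : (Pool.Agent.Helper57.CH.DoC.rep A n : ℝ) ≤ g := by exact_mod_cast hA n
      exact pow_le_pow_left₀ (Nat.cast_nonneg _) h4 2
    refine (sum_le_sum h3).trans (le_of_eq ?_)
    rw [sum_const, card_range, nsmul_eq_mul]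
    push_cast
    ring
  obtain ⟨r, hr⟩ : ∃ r : ℝ, r = Real.exp (-(c / 2 * s * K)) := ⟨_, rfl⟩
  have hr0 : 0 < r := by rw [hr]; exact Real.exp_pos _
  have hr1 : r ≤ 1 := by
    rw [hr]
    refine Real.exp_le_one_iff.2 ?_
    have : 0 ≤ c / 2 * s * K := by positivity
    linarith
  have hrr : Real.exp (-(c * s * K)) = r ^ 2 := by
    rw [hr, sq, ← Real.exp_add]
    congr 1
    ring
  rw [hrr] at h1 h2
  rw [← hr]
  have hg0 : (0 : ℝ) ≤ 2 * g ^ 2 * C := by positivity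
  have hsq0 : (0 : ℝ) ≤ √(2 * g ^ 2 * C) := Real.sqrt_nonneg _
  have hPr : ∀ P : ℕ → ℤ → Prop, Pr b K s P * (b : ℝ) ^ K =
      ∑ ξ ∈ states K, prob s ξ * (#{n ∈ range (b ^ K) | P n (noise b ξ)} : ℝ) := by
    intro P
    unfold Pr
    rw [sum_mul]
    refine sum_congr rfl fun ξ _ => ?_
    field_simp
  refine ⟨?_, fun J => ?_⟩
  · obtain ⟨P, hP⟩ : ∃ P : ℕ → ℤ → Prop, P = fun n z => ∃ a ∈ A, ∃ a' ∈ A, ∃ d ∈ A, ∃ d' ∈ A,
        d < b ^ K ∧ d' < b ^ K ∧ a + a' = n ∧ (d : ℤ) + d' = n + z ∧ ¬ Joint b l K ε a a' d :=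
      ⟨_, rfl⟩
    rw [← hP]
    have h3 : ∀ z : ℤ, #{n ∈ range (b ^ K) | P n z} ≤ Pool.Agent.Helper57.CH.DoC.bad b l K ε
        (Pool.Agent.Helper57.CH.DoC.upTo A (b ^ K)) z := by
      intro z
      unfold Pool.Agent.Helper57.CH.DoC.bad
      have h4 : (range (b ^ K)).filter (fun n => P n z) ⊆
          (({t ∈ (Pool.Agent.Helper57.CH.DoC.upTo A (b ^ K) ×ˢ
            Pool.Agent.Helper57.CH.DoC.upTo A (b ^ K)) ×ˢ
            (Pool.Agent.Helper57.CH.DoC.upTo A (b ^ K) ×ˢ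
            Pool.Agent.Helper57.CH.DoC.upTo A (b ^ K)) | (t.1.1 : ℤ) + t.1.2 + z = t.2.1 + t.2.2 ∧
            ¬ Pool.Agent.Helper57.CH.DoC.Joint b l K ε t.1.1 t.1.2 t.2.1} :
            Finset ((ℕ × ℕ) × (ℕ × ℕ))).image (fun t => t.1.1 + t.1.2)) := by
        intro n hn
        obtain ⟨hn1, hn2⟩ := mem_filter.1 hn
        rw [hP] at hn2
        obtain ⟨a, ha, a', ha', d, hd, d', hd', hdx, hdx', e1, e2, hJ⟩ := hn2
        have hnx := mem_range.1 hn1
        refine mem_image.2 ⟨((a, a'), (d, d')), mem_filter.2 ⟨?_, ?_, hJ⟩, e1⟩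
        · unfold Pool.Agent.Helper57.CH.DoC.upTo
          refine mem_product.2 ⟨mem_product.2 ⟨mem_filter.2 ⟨mem_range.2 ?_, ha⟩,
            mem_filter.2 ⟨mem_range.2 ?_, ha'⟩⟩, mem_product.2 ⟨mem_filter.2 ⟨mem_range.2 hdx, hd⟩,
            mem_filter.2 ⟨mem_range.2 hdx', hd'⟩⟩⟩
          · show a < b ^ K
            omega
          · show a' < b ^ K
            omega
        · show (a : ℤ) + a' + z = d + d'
          rw [e2, ← e1]
          push_cast
          ring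
      exact (card_le_card h4).trans card_image_le
    have h4 : Pr b K s P * (b : ℝ) ^ K ≤ C * r ^ 2 * (2 * g ^ 2 * (b : ℝ) ^ K) := by
      rw [hPr]
      refine le_trans ?_ (h1.trans (mul_le_mul_of_nonneg_left hE (by positivity)))
      refine sum_le_sum fun ξ _ => ?_
      refine mul_le_mul_of_nonneg_left ?_ (hw ξ)
      exact_mod_cast h3 (noise b ξ)
    have h5 : Pr b K s P ≤ C * r ^ 2 * (2 * g ^ 2) := by
      have h6 : Pr b K s P * (b : ℝ) ^ K ≤ C * r ^ 2 * (2 * g ^ 2) * (b : ℝ) ^ K := by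
        linarith
      exact le_of_mul_le_mul_right h6 hx
    have h6 : C * r ^ 2 * (2 * g ^ 2) ≤ 2 * g ^ 2 * C * r := by
      have h7 : r ^ 2 ≤ r := by nlinarith
      have h8 := mul_le_mul_of_nonneg_left h7 hg0
      linarith
    nlinarith
  · obtain ⟨P, hP⟩ : ∃ P : ℕ → ℤ → Prop, P = fun n z => ∃ a ∈ A, ∃ a' ∈ A, a + a' = n ∧
        (1 / b + ε) * K ≤ (#{i ∈ range K | J (n + z) i = digit b i a} : ℝ) := ⟨_, rfl⟩
    rw [← hP]
    have h3 := h2 J
    have h4 : (Pr b K s P * (b : ℝ) ^ K) ^ 2 ≤ C * r ^ 2 * (b : ℝ) ^ K *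
        (2 * g ^ 2 * (b : ℝ) ^ K) := by
      rw [hPr, hP]
      exact h3.trans (mul_le_mul_of_nonneg_left hE (by positivity))
    have h5 : (Pr b K s P) ^ 2 ≤ 2 * g ^ 2 * C * r ^ 2 := by
      have h6 : (Pr b K s P) ^ 2 * ((b : ℝ) ^ K) ^ 2 ≤ 2 * g ^ 2 * C * r ^ 2 * ((b : ℝ) ^ K) ^ 2 := by
        nlinarith
      exact le_of_mul_le_mul_right h6 (by positivity)
    have h6 : Pr b K s P ≤ √(2 * g ^ 2 * C) * r := by
      refine Real.le_sqrt_of_sq_le h5 |>.trans (le_of_eq ?_)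
      rw [Real.sqrt_mul hg0, Real.sqrt_sq hr0.le]
    nlinarith

end Pool.Agent.Helper7.SC.TextD
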