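import Pool.Agent.Helper57.CH.TextC
import Pool.Agent.Helper57.CH.All

set_option autoImplicit false

/-!
Every set of integers with bounded representation function is exponentially sensitive to noise:
the representations of a random `n` look independent of those of a noisy copy of `n`, and no
function of the noisy copy predicts the digits of a summand of `n` better than chance.
-/

namespace Pool.Agent.Helper7.SC.TextE

open Finset

open Classical in
/-- `r_A(n)`, the number of ordered pairs of elements of `A` with sum `n`. -/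
noncomputable def rep (A : Set ℕ) (n : ℕ) : ℕ := #{p ∈ antidiagonal n | p.1 ∈ A ∧ p.2 ∈ A}

open Classical in
/-- The probability of `P n z` for `n` uniform in `0, ..., b ^ K - 1` and the noise
`z = ∑ i < K, ξ i * b ^ i`, where `n` and the `ξ i` are independent and `ξ i` is `1` and `-1` with
probability `s / 2` each, and `0` otherwise. -/
noncomputable def Pr (b K : ℕ) (s : ℝ) (P : ℕ → ℤ → Prop) : ℝ :=
  (∑ ξ : Fin K → SignType, (∏ i, if ξ i = 0 then 1 - s else s / 2) *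
    #{n ∈ range (b ^ K) | P n (∑ i, (ξ i : ℤ) * (b : ℤ) ^ (i : ℕ))}) / (b : ℝ) ^ K

/-- Joint normality: each triple `u, v, w` of base `b` digits occurs in `a`, `a'`, `d` at the same
position `i < K` with frequency `1 / b ^ 3` up to `ε`. -/
def Joint (b K : ℕ) (ε : ℝ) (a a' d : ℕ) : Prop :=
  ∀ u < b, ∀ v < b, ∀ w < b,
    |(#{i ∈ range K | a / b ^ i % b = u ∧ a' / b ^ i % b = v ∧ d / b ^ i % b = w} : ℝ) -
      K / (b : ℝ) ^ 3| ≤ ε * K

lemma sum_sign (K : ℕ) (F : (Fin K → ℤ) → ℝ) :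
    ∑ ξ : Fin K → SignType, F (fun i => (ξ i : ℤ)) =
      ∑ ξ ∈ Pool.Agent.Helper57.CH.states K, F ξ := by
  refine Finset.sum_nbij' (fun ξ i => (ξ i : ℤ)) (fun η i => SignType.sign (η i)) ?_ ?_ ?_ ?_ ?_
  · intro ξ _
    refine Fintype.mem_piFinset.2 fun i => ?_
    rcases h : ξ i with _ | _ | _ <;> simp
  · intro η _
    exact mem_univ _
  · intro ξ _
    funext i
    show SignType.sign ((ξ i : SignType) : ℤ) = ξ i
    generalize ξ i = t
    revert t
    decide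
  · intro η hη
    funext i
    have h := Fintype.mem_piFinset.1 hη i
    simp only [mem_insert, mem_singleton] at h
    rcases h with h | h | h <;> simp [h]
  · intro ξ _
    rfl

open Classical in
lemma Pr_mul (b K : ℕ) (hb : 2 ≤ b) (s : ℝ) (P : ℕ → ℤ → Prop) :
    Pr b K s P * (b : ℝ) ^ K =
      ∑ ξ ∈ Pool.Agent.Helper57.CH.states K, Pool.Agent.Helper57.CH.prob s ξ *
        (#{n ∈ range (b ^ K) | P n (Pool.Agent.Helper57.CH.zz b ξ)} : ℝ) := by
  have hx : (0 : ℝ) < (b : ℝ) ^ K := by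
    have : 0 < b := by omega
    positivity
  rw [← sum_sign K (fun ξ => Pool.Agent.Helper57.CH.prob s ξ *
        (#{n ∈ range (b ^ K) | P n (Pool.Agent.Helper57.CH.zz b ξ)} : ℝ))]
  unfold Pr
  rw [div_mul_cancel₀ _ hx.ne']
  refine sum_congr rfl fun ξ _ => ?_
  have h1 : Pool.Agent.Helper57.CH.prob s (fun i => (ξ i : ℤ)) =
      ∏ i, if ξ i = 0 then 1 - s else s / 2 := by
    unfold Pool.Agent.Helper57.CH.prob
    refine prod_congr rfl fun i _ => ?_
    have h2 : ((ξ i : ℤ) = 0) ↔ ξ i = 0 := by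
      generalize ξ i = t
      revert t
      decide
    by_cases h3 : ξ i = 0
    · rw [if_pos h3, if_pos (h2.2 h3)]
    · rw [if_neg h3, if_neg fun h4 => h3 (h2.1 h4)]
  rw [h1]
  rfl

theorem result (g b : ℕ) (ε : ℝ) (hb : 2 ≤ b) (hε : 0 < ε) :
    ∃ c C : ℝ, 0 < c ∧ 0 < C ∧ ∀ A : Set ℕ, (∀ n, rep A n ≤ g) →
      ∀ (K : ℕ) (s : ℝ), 0 < s → s ≤ 1 / 2 →
        Pr b K s (fun n z => ∃ a ∈ A, ∃ a' ∈ A, ∃ d ∈ A, ∃ d' ∈ A,
          a + a' = n ∧ (d : ℤ) + d' = n + z ∧ ¬ Joint b K ε a a' d) ≤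
            C * Real.exp (-(c * s * K)) ∧
        ∀ J : ℤ → ℕ → ℕ, Pr b K s (fun n z => ∃ a ∈ A, ∃ a' ∈ A, a + a' = n ∧
          (1 / b + ε) * K ≤ (#{i ∈ range K | J (n + z) i = a / b ^ i % b} : ℝ)) ≤
            C * Real.exp (-(c * s * K)) := by
  classical
  have hCH : Pool.Agent.Helper57.CH.StCH3 := Pool.Agent.Helper57.CH.stCH3
    Pool.Agent.Helper63.CH.stMu Pool.Agent.Helper8.CH.stG4 Pool.Agent.Helper66.CH.stD3
    Pool.Agent.Helper43.CH.stM3
  obtain ⟨c₁, C₁, hc₁, hC₁, h₁⟩ := Pool.Agent.Helper57.CH.all_reps hCH b g ε hb hε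
  obtain ⟨c₂, C₂, hc₂, hC₂, h₂⟩ := Pool.Agent.Helper57.CH.DoC.result.1 b 1 ε hb le_rfl hε
  obtain ⟨c, hc⟩ : ∃ c : ℝ, c = min c₁ (c₂ / 2) := ⟨_, rfl⟩
  have hc0 : 0 < c := by rw [hc]; exact lt_min hc₁ (by positivity)
  have hcc₁ : c ≤ c₁ := by rw [hc]; exact min_le_left _ _
  have hcc₂ : c ≤ c₂ / 2 := by rw [hc]; exact min_le_right _ _
  refine ⟨c, C₁ + √(2 * g ^ 2 * C₂), hc0, by positivity, fun A hA K s hs hs2 => ?_⟩
  have hx : (0 : ℝ) < (b : ℝ) ^ K := by
    have : 0 < b := by omega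
    positivity
  obtain ⟨r, hr⟩ : ∃ r : ℝ, r = Real.exp (-(c * s * K)) := ⟨_, rfl⟩
  have hr0 : 0 < r := by rw [hr]; exact Real.exp_pos _
  have hsq0 : (0 : ℝ) ≤ √(2 * g ^ 2 * C₂) := Real.sqrt_nonneg _
  have hexp : ∀ c' : ℝ, c ≤ c' → Real.exp (-(c' * s * K)) ≤ r := by
    intro c' hcc'
    rw [hr]
    refine Real.exp_le_exp.2 ?_
    have h5 : c * s * K ≤ c' * s * K := by
      have h6 : c * s ≤ c' * s := mul_le_mul_of_nonneg_right hcc' hs.le
      exact mul_le_mul_of_nonneg_right h6 (Nat.cast_nonneg _)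
    linarith
  rw [← hr]
  refine ⟨?_, fun J => ?_⟩
  · obtain ⟨P, hP⟩ : ∃ P : ℕ → ℤ → Prop, P = fun n z => ∃ a ∈ A, ∃ a' ∈ A, ∃ d ∈ A, ∃ d' ∈ A,
        a + a' = n ∧ (d : ℤ) + d' = n + z ∧ ¬ Joint b K ε a a' d := ⟨_, rfl⟩
    rw [← hP]
    have hJ : ∀ a a' d, Joint b K ε a a' d ↔ Pool.Agent.Helper57.CH.Joint b 1 K ε a a' d := by
      intro a a' d
      unfold Joint Pool.Agent.Helper57.CH.Joint
      rw [pow_one, pow_one]
      exact ⟨fun h u v w hu hv hw => h u hu v hv w hw,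
        fun h u hu v hv w hw => h u v w hu hv hw⟩
    have h3 : ∀ z : ℤ, #{n ∈ range (b ^ K) | P n z} ≤
        #(Pool.Agent.Helper57.CH.allBad b K ε A z) := by
      intro z
      unfold Pool.Agent.Helper57.CH.allBad
      refine card_le_card fun n hn => ?_
      obtain ⟨hn1, hn2⟩ := mem_filter.1 hn
      rw [hP] at hn2
      obtain ⟨a, ha, a', ha', d, hd, d', hd', e1, e2, hJ'⟩ := hn2
      exact mem_filter.2 ⟨hn1, a, ha, a', ha', d, hd, d', hd', e1, e2,
        fun h => hJ' ((hJ a a' d).2 h)⟩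
    have hw : ∀ ξ : Fin K → ℤ, 0 ≤ Pool.Agent.Helper57.CH.prob s ξ := fun ξ =>
      prod_nonneg fun i _ => by split_ifs <;> linarith
    have h4 : Pr b K s P * (b : ℝ) ^ K ≤ C₁ * r * (b : ℝ) ^ K := by
      rw [Pr_mul b K hb]
      refine le_trans ?_ ((h₁ A hA K s hs hs2).trans ?_)
      · refine sum_le_sum fun ξ _ => mul_le_mul_of_nonneg_left ?_ (hw ξ)
        exact_mod_cast h3 _
      · exact mul_le_mul_of_nonneg_right (mul_le_mul_of_nonneg_left (hexp c₁ hcc₁) hC₁.le) hx.le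
    have h5 := le_of_mul_le_mul_right h4 hx
    nlinarith
  · obtain ⟨P, hP⟩ : ∃ P : ℕ → ℤ → Prop, P = fun n z => ∃ a ∈ A, ∃ a' ∈ A, a + a' = n ∧
        (1 / b + ε) * K ≤ (#{i ∈ range K | J (n + z) i = a / b ^ i % b} : ℝ) := ⟨_, rfl⟩
    rw [← hP]
    have hE : Pool.Agent.Helper57.CH.DoC.energy A b K ≤ 2 * g ^ 2 * (b : ℝ) ^ K := by
      unfold Pool.Agent.Helper57.CH.DoC.energy
      have h3 : ∀ n ∈ range (2 * b ^ K), (Pool.Agent.Helper57.CH.DoC.rep A n : ℝ) ^ 2 ≤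
          (g : ℝ) ^ 2 := by
        intro n _
        have h4 : (Pool.Agent.Helper57.CH.DoC.rep A n : ℝ) ≤ g := by exact_mod_cast hA n
        exact pow_le_pow_left₀ (Nat.cast_nonneg _) h4 2
      refine (sum_le_sum h3).trans (le_of_eq ?_)
      rw [sum_const, card_range, nsmul_eq_mul]
      push_cast
      ring
    have hrr : Real.exp (-(c₂ * s * K)) ≤ r ^ 2 := by
      have h6 : Real.exp (-(c₂ * s * K)) = Real.exp (-(c₂ / 2 * s * K)) ^ 2 := by
        rw [sq, ← Real.exp_add]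
        congr 1
        ring
      rw [h6]
      exact pow_le_pow_left₀ (Real.exp_pos _).le (hexp _ hcc₂) 2
    have h3 := (h₂ A K s hs hs2).2 J
    have h4 : (Pr b K s P * (b : ℝ) ^ K) ^ 2 ≤ C₂ * r ^ 2 * (b : ℝ) ^ K *
        (2 * g ^ 2 * (b : ℝ) ^ K) := by
      rw [Pr_mul b K hb, hP]
      refine h3.trans ?_
      refine mul_le_mul ?_ hE ?_ (by positivity)
      · exact mul_le_mul_of_nonneg_right (mul_le_mul_of_nonneg_left hrr hC₂.le) hx.le
      · unfold Pool.Agent.Helper57.CH.DoC.energy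
        exact sum_nonneg fun _ _ => by positivity
    have h5 : (Pr b K s P) ^ 2 ≤ 2 * g ^ 2 * C₂ * r ^ 2 := by
      have h6 : (Pr b K s P) ^ 2 * ((b : ℝ) ^ K) ^ 2 ≤
          2 * g ^ 2 * C₂ * r ^ 2 * ((b : ℝ) ^ K) ^ 2 := by
        nlinarith
      exact le_of_mul_le_mul_right h6 (by positivity)
    have h6 : Pr b K s P ≤ √(2 * g ^ 2 * C₂) * r := by
      refine Real.le_sqrt_of_sq_le h5 |>.trans (le_of_eq ?_)
      rw [Real.sqrt_mul (by positivity), Real.sqrt_sq hr0.le]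
    nlinarith

end Pool.Agent.Helper7.SC.TextE
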