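import Pool.Agent.Helper7.SC.DP.SetForm
import Pool.Agent.Helper7.SC.SharpSet
import Pool.Agent.Helper45.HD.Main

set_option autoImplicit false

/-!
In a set with bounded representation function the digits of the summands of `n` cannot be guessed
from the digits of `n` once a bounded number of random digits of `n` is hidden. The definitions
are in `Pool/Agent/Helper57/U2/Defs` (`rep`, `digit`, `FewDigits`), `Pool/Agent/Helper45/HD/SetForm`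
(`IsRule`, `hits`, `guessedSet`) and `Pool/Agent/Helper7/SC/DP/SetForm` (`guessed`).
-/

namespace Pool.Agent.Helper7.SC.TextSet

open Finset
open Pool.Agent.Helper57.U2 (rep FewDigits)
open Pool.Agent.Helper45.HD (IsRule guessedSet)
open Pool.Agent.Helper7.SC.DP (guessed)

theorem result :
    (∀ (b C : ℕ) (ε δ : ℝ), 2 ≤ b → 0 < ε → 0 < δ → ∃ T : ℝ, 0 < T ∧
      ∀ A : Set ℕ, (∀ n, rep A n ≤ C) → ∀ (K : ℕ) (t : ℝ), T ≤ t * K → t ≤ 1 →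
      ∀ J : Finset ℕ → ℕ → ℕ → ℕ, IsRule b K J →
        (#(guessedSet b K t ε A J) : ℝ) < δ * (b : ℝ) ^ K) ∧
    (∀ (b : ℕ) (ε δ : ℝ), 2 ≤ b → 0 < ε → 0 < δ → ∃ c : ℝ, 0 < c ∧
      ∀ (A : Set ℕ) (K : ℕ) (t : ℝ), 0 < t → t ≤ 1 →
      ∀ J : Finset ℕ → ℕ → ℕ → ℕ, IsRule b K J → δ * (b : ℝ) ^ K ≤ #(guessedSet b K t ε A J) →
        c * (b : ℝ) ^ K * Real.exp (c * t * K) ≤ ∑ n ∈ range (2 * b ^ K), (rep A n : ℝ) ^ 2) ∧
    (∃ C : ℝ, 0 < C ∧ ∀ b v m : ℕ, 2 ≤ b → 1 ≤ v →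
      ∃ (A : Set ℕ) (J : Finset ℕ → ℕ → ℕ → ℕ), IsRule b (v * m) J ∧
        guessedSet b (v * m) (1 / (4 * v)) (1 / 4) A J = range (b ^ (v * m)) ∧
        ∑ n ∈ range (2 * b ^ (v * m)), (rep A n : ℝ) ^ 2 ≤
          (b : ℝ) ^ (v * m) * Real.exp (C * m)) ∧
    (∀ (b : ℕ) (ε : ℝ), 2 ≤ b → 0 < ε → ∃ c : ℝ, 0 < c ∧
      ∀ (A : Set ℕ) (K v : ℕ) (J : ℕ → ℕ → ℕ), 1 ≤ v → (∀ i < K, FewDigits b v (J i)) →
        c * (#(guessed b K ε A J) : ℝ) ^ 2 * Real.exp (c * K / v) ≤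
          (b : ℝ) ^ K * ∑ n ∈ range (2 * b ^ K), (rep A n : ℝ) ^ 2) := by
  refine ⟨fun b C ε δ hb hε hδ =>
      Pool.Agent.Helper45.HD.hdset_bounded Pool.Agent.Helper45.HD.stHD b hb C ε δ hε hδ,
    fun b ε δ hb hε hδ => Pool.Agent.Helper45.HD.hdset Pool.Agent.Helper45.HD.stHD b hb ε δ hε hδ,
    Pool.Agent.Helper7.SC.sharp_set,
    fun b ε hb hε => Pool.Agent.Helper7.SC.DP.dpset b hb ε hε⟩

end Pool.Agent.Helper7.SC.TextSet
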