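import Pool.Agent.Helper7.SC.Sim

/-!
# Theta bodies of graphs given by the values of a circuit
-/

open scoped InnerProductSpace

namespace Pool.Agent.Helper7.SC

open Pool.Agent.Helper92.Theta Pool.Agent.Helper95.Slp

/-- the graph on `Fin B` whose edges are given by numbers -/
def gEd (B : ℕ) (e : ℕ → ℕ → ℝ) : SimpleGraph (Fin B) where
  Adj i j := i ≠ j ∧ (e i j = 1 ∨ e j i = 1)
  symm := ⟨fun _ _ h => ⟨h.1.symm, h.2.symm⟩⟩
  loopless := ⟨fun _ h => h.1 rfl⟩

/-- coefficients of the equations -/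
noncomputable def cc (e : ℕ → ℕ → ℝ) (i j : ℕ) : ℝ :=
  if i = 0 then 1 else if j = 0 then 0 else if i = j then 1 else e (i - 1) (j - 1)

/-- right sides of the equations -/
noncomputable def bb (i j : ℕ) : ℝ :=
  if i = 0 then (if j = 0 then 8 else 1) else if i = j then 1 else 0

lemma two_pow_ge (B : ℕ) : (8 : ℝ) + B ≤ 2 ^ (B + 4) := by
  have h1 : B + 8 ≤ 2 ^ (B + 4) := by
    induction B with
    | zero => norm_num
    | succ B ih =>
      have : 2 ^ (B + 1 + 4) = 2 ^ (B + 4) + 2 ^ (B + 4) := by ring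
      omega
  have h2 : ((B + 8 : ℕ) : ℝ) ≤ ((2 ^ (B + 4) : ℕ) : ℝ) := by exact_mod_cast h1
  push_cast at h2
  linarith

lemma sum_pair (n : ℕ) {i j : ℕ} (hi : i < n) (hj : j < n) (c : ℝ) (y : ℕ → ℕ → ℝ) :
    ∑ i' : Fin n, ∑ j' : Fin n, (if (i' : ℕ) = i ∧ (j' : ℕ) = j then c else 0) * y i' j' =
      c * y i j := by
  rw [Finset.sum_eq_single ⟨i, hi⟩]
  · rw [Finset.sum_eq_single ⟨j, hj⟩]
    · simp
    · intro j' _ hj'
      rw [if_neg, zero_mul]
      rintro ⟨-, h⟩
      exact hj' (Fin.ext h)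
    · intro h; exact absurd (Finset.mem_univ _) h
  · intro i' _ hi'
    refine Finset.sum_eq_zero fun j' _ => ?_
    rw [if_neg, zero_mul]
    rintro ⟨h, -⟩
    exact hi' (Fin.ext h)
  · intro h; exact absurd (Finset.mem_univ _) h

theorem feas_th {B : ℕ} {e : ℕ → ℕ → ℝ} {d : ℕ → ℝ} (he : ∀ i j, e i j = 0 ∨ e i j = 1)
    (h0 : d 0 = 2 ^ (B + 4))
    (hB : ∀ i ≤ B, ∀ j ≤ B, d (pB (B + 2) ((B + 1) * i + j)) = bb i j)
    (hA : ∀ i ≤ B, ∀ j ≤ B, ∀ i' < B + 2, ∀ j' < B + 2,
      d (pA (B + 2) ((B + 1) * i + j) i' j') = if i' = i ∧ j' = j then cc e i j else 0) :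
    feas (B + 2) ((B + 1) * (B + 1)) d ↔ (fun _ => 1 / 8) ∈ TH (gEd B e) := by
  -- the meaning of the equations
  have key : ∀ Y : Matrix (Fin (B + 2)) (Fin (B + 2)) ℝ, ∀ y : ℕ → ℕ → ℝ,
      (∀ i j : Fin (B + 2), y i j = Y i j) →
      ((∀ l < (B + 1) * (B + 1), ∑ i : Fin (B + 2), ∑ j : Fin (B + 2),
        d (pA (B + 2) l i j) * Y i j = d (pB (B + 2) l)) ↔
      ∀ i ≤ B, ∀ j ≤ B, cc e i j * y i j = bb i j) := by
    intro Y y hy
    have hone : ∀ i ≤ B, ∀ j ≤ B, ∑ i' : Fin (B + 2), ∑ j' : Fin (B + 2),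
        d (pA (B + 2) ((B + 1) * i + j) i' j') * Y i' j' = cc e i j * y i j := by
      intro i hi j hj
      rw [← sum_pair (B + 2) (by omega : i < B + 2) (by omega : j < B + 2) (cc e i j) y]
      refine Finset.sum_congr rfl fun i' _ => Finset.sum_congr rfl fun j' _ => ?_
      rw [hA i hi j hj i' i'.2 j' j'.2, hy]
    constructor
    · intro h i hi j hj
      have hl : (B + 1) * i + j < (B + 1) * (B + 1) := by
        have h1 : (B + 1) * (i + 1) ≤ (B + 1) * (B + 1) := Nat.mul_le_mul_left _ (by omega)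
        have h2 : (B + 1) * (i + 1) = (B + 1) * i + (B + 1) := by ring
        omega
      rw [← hone i hi j hj, h _ hl, hB i hi j hj]
    · intro h l hl
      have h1 : l / (B + 1) < B + 1 := Nat.div_lt_of_lt_mul hl
      have h2 : l % (B + 1) < B + 1 := Nat.mod_lt _ (by omega)
      have h3 : l = (B + 1) * (l / (B + 1)) + l % (B + 1) := (Nat.div_add_mod l (B + 1)).symm
      have h4 := hone (l / (B + 1)) (by omega) (l % (B + 1)) (by omega)
      have h5 := hB (l / (B + 1)) (by omega) (l % (B + 1)) (by omega)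
      rw [← h3] at h4 h5
      rw [h4, h5]
      exact h _ (by omega) _ (by omega)
  have s8 : √(8 : ℝ) * √8 = 8 := Real.mul_self_sqrt (by norm_num)
  have s8' : (√(8 : ℝ))⁻¹ * (√8)⁻¹ = 1 / 8 := by rw [← mul_inv, s8]; norm_num
  rw [th_iff]
  constructor
  · rintro ⟨Y, hY, htr, hE⟩
    let y : ℕ → ℕ → ℝ := fun i j => if h : i < B + 2 ∧ j < B + 2 then Y ⟨i, h.1⟩ ⟨j, h.2⟩ else 0
    have hy : ∀ i j : Fin (B + 2), y i j = Y i j := by
      intro i j
      simp only [y]
      rw [dif_pos ⟨i.2, j.2⟩]
    have hq := (key Y y hy).1 hE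
    obtain ⟨m, x, hx⟩ := exists_vectors hY
    let xx : ℕ → EuclideanSpace ℝ (Fin m) := fun i => if h : i < B + 2 then x ⟨i, h⟩ else 0
    have hxx : ∀ i j, i < B + 2 → j < B + 2 → ⟪xx i, xx j⟫_ℝ = y i j := by
      intro i j hi hj
      simp only [xx, y]
      rw [dif_pos hi, dif_pos hj, dif_pos ⟨hi, hj⟩, hx]
    have hsc : ∀ i j, i < B + 2 → j < B + 2 →
        ⟪(√8 : ℝ)⁻¹ • xx i, (√8 : ℝ)⁻¹ • xx j⟫_ℝ = 1 / 8 * y i j := by
      intro i j hi hj
      rw [inner_smul_left, inner_smul_right, RCLike.conj_to_real, hxx i j hi hj, ← mul_assoc, s8']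
    refine ⟨EuclideanSpace ℝ (Fin m), inferInstance, inferInstance, (√8 : ℝ)⁻¹ • xx 0,
      fun i => (√8 : ℝ)⁻¹ • xx ((i : ℕ) + 1), ?_, fun i => ⟨?_, ?_⟩, fun i j hij => ?_⟩
    · rw [hsc _ _ (by omega) (by omega)]
      have h1 := hq 0 (by omega) 0 (by omega)
      simp only [cc, bb, if_true, one_mul] at h1
      rw [h1]
      norm_num
    · have hi := i.2
      rw [hsc _ _ (by omega) (by omega)]
      have h1 := hq 0 (by omega) (i + 1) (by omega)
      simp only [cc, bb, if_true, one_mul, Nat.succ_ne_zero, if_false] at h1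
      rw [h1]
      norm_num
    · have hi := i.2
      rw [hsc _ _ (by omega) (by omega)]
      have h1 := hq (i + 1) (by omega) (i + 1) (by omega)
      simp only [cc, bb, if_true, one_mul, Nat.succ_ne_zero, if_false] at h1
      rw [h1]
      norm_num
    · have hi := i.2
      have hj := j.2
      have hne : ¬ ((i : ℕ) + 1 = (j : ℕ) + 1) := fun h => hij.1 (Fin.ext (by omega))
      have hne' : ¬ ((j : ℕ) + 1 = (i : ℕ) + 1) := fun h => hne h.symm
      rcases hij.2 with h2 | h2
      · rw [hsc _ _ (by omega) (by omega)]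
        have h1 := hq (i + 1) (by omega) (j + 1) (by omega)
        simp only [cc, bb, Nat.succ_ne_zero, if_false, hne, Nat.add_sub_cancel, h2, one_mul] at h1
        rw [h1]
        norm_num
      · rw [real_inner_comm, hsc _ _ (by omega) (by omega)]
        have h1 := hq (j + 1) (by omega) (i + 1) (by omega)
        simp only [cc, bb, Nat.succ_ne_zero, if_false, hne', Nat.add_sub_cancel, h2, one_mul] at h1
        rw [h1]
        norm_num
  · rintro ⟨H, _, _, z₀, z, hz0, hz1, hz2⟩
    -- the vectors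
    let zz : ℕ → H := fun i => if i = 0 then z₀ else if h : i - 1 < B then z ⟨i - 1, h⟩ else 0
    have zz0 : zz 0 = z₀ := rfl
    have zzs : ∀ i : ℕ, (h : i < B) → zz (i + 1) = z ⟨i, h⟩ := by
      intro i h
      simp only [zz, Nat.succ_ne_zero, if_false, Nat.add_sub_cancel]
      rw [dif_pos h]
    have zzl : zz (B + 1) = 0 := by
      simp only [zz, Nat.succ_ne_zero, if_false, Nat.add_sub_cancel]
      rw [dif_neg (lt_irrefl _)]
    let s : ℕ → ℝ := fun i => if i = B + 1 then √(2 ^ (B + 4) - 8 - B) else 0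
    let y : ℕ → ℕ → ℝ := fun i j => ⟪√8 • zz i, √8 • zz j⟫_ℝ + ⟪s i, s j⟫_ℝ
    have hyz : ∀ i j, y i j = 8 * ⟪zz i, zz j⟫_ℝ + s i * s j := by
      intro i j
      simp only [y]
      rw [inner_smul_left, inner_smul_right, RCLike.conj_to_real, ← mul_assoc, s8]
      simp only [RCLike.inner_apply, conj_trivial]
      ring
    refine ⟨Matrix.of fun i j : Fin (B + 2) => y i j,
      (gram_posSemidef fun i : Fin (B + 2) => √8 • zz i).add
        (gram_posSemidef fun i : Fin (B + 2) => s i), ?_, ?_⟩
    · rw [h0]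
      simp only [Matrix.of_apply]
      rw [Fin.sum_univ_castSucc, Fin.sum_univ_succ]
      simp only [Fin.val_castSucc, Fin.val_zero, Fin.val_succ, Fin.val_last]
      have e0 : y 0 0 = 8 := by
        rw [hyz, zz0, hz0]
        simp [s]
      have el : y (B + 1) (B + 1) = 2 ^ (B + 4) - 8 - B := by
        rw [hyz, zzl]
        simp only [s, if_true, inner_zero_left]
        rw [Real.mul_self_sqrt (by linarith [two_pow_ge B])]
        ring
      have es : ∀ i : Fin B, y ((i : ℕ) + 1) ((i : ℕ) + 1) = 1 := by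
        intro i
        rw [hyz, zzs i i.2, (hz1 _).2]
        have h1 : ¬ ((i : ℕ) + 1 = B + 1) := by have := i.2; omega
        simp only [s, h1, if_false]
        norm_num
      rw [e0, el, Finset.sum_congr rfl fun i _ => es i]
      simp
    · refine (key (Matrix.of fun i j : Fin (B + 2) => y i j) y (fun i j => rfl)).2 ?_
      intro i hi j hj
      have si : s i = 0 := by
        simp only [s]
        rw [if_neg (by omega)]
      rw [hyz, si, zero_mul, add_zero]
      unfold cc bb
      rcases Nat.eq_zero_or_pos i with rfl | hi0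
      · rw [if_pos rfl, if_pos rfl, zz0]
        rcases Nat.eq_zero_or_pos j with rfl | hj0
        · rw [if_pos rfl, zz0, hz0]
          norm_num
        · obtain ⟨j, rfl⟩ : ∃ j', j = j' + 1 := ⟨j - 1, by omega⟩
          rw [if_neg (by omega), zzs j (by omega), (hz1 _).1]
          norm_num
      · obtain ⟨i, rfl⟩ : ∃ i', i = i' + 1 := ⟨i - 1, by omega⟩
        rw [if_neg (by omega : ¬ (i + 1 = 0)), if_neg (by omega : ¬ (i + 1 = 0)), zzs i (by omega)]
        rcases Nat.eq_zero_or_pos j with rfl | hj0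
        · rw [if_pos rfl, if_neg (by omega), zero_mul]
        · obtain ⟨j, rfl⟩ : ∃ j', j = j' + 1 := ⟨j - 1, by omega⟩
          rw [if_neg (by omega : ¬ (j + 1 = 0)), zzs j (by omega), Nat.add_sub_cancel,
            Nat.add_sub_cancel]
          by_cases hij : i = j
          · subst hij
            rw [if_pos rfl, if_pos rfl, (hz1 _).2]
            norm_num
          · rw [if_neg (by omega : ¬ (i + 1 = j + 1)), if_neg (by omega : ¬ (i + 1 = j + 1))]
            rcases he i j with h1 | h1
            · rw [h1, zero_mul]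
            · rw [hz2 ⟨i, by omega⟩ ⟨j, by omega⟩ ⟨fun h => hij (by simpa using h), Or.inl h1⟩]
              ring

/-! ### The gates -/

/-- the number eight -/
def eight : BInt := (true, [false, false, false, true])

/-- a power of two -/
def twop (n : ℕ) : BInt := (true, (List.range n).map (fun _ => false) ++ [true])

lemma ival_eight : ival eight = 8 := by simp [eight, ival, bval]

lemma ival_twop (n : ℕ) : ival (twop n) = 2 ^ n := by
  have h : ∀ n : ℕ, ∀ l : List ℕ, l.length = n → bval (l.map (fun _ => false) ++ [true]) = 2 ^ n := by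
    intro n
    induction n with
    | zero =>
      intro l hl
      rw [List.length_eq_zero_iff.1 hl]
      rfl
    | succ n ih =>
      intro l hl
      obtain ⟨a, l, rfl⟩ := List.exists_cons_of_length_eq_add_one hl
      rw [List.map_cons, List.cons_append, bval, ih l (by simpa using hl), cond_false, pow_succ]
      ring
  have h1 := h n (List.range n) (by simp)
  unfold twop
  change ((bval _ : ℕ) : ℤ) = _
  rw [h1]
  push_cast
  rfl

/-- the gate with a coefficient -/
def cG (pos : ℕ → ℕ → ℕ) (i j : ℕ) : XGate :=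
  if i = 0 then cg one else if j = 0 then cg zer else if i = j then cg one
  else (false, (3, pos (i - 1) (j - 1), 0, zer))

/-- a right side -/
def bG (i j : ℕ) : BInt :=
  if i = 0 then (if j = 0 then eight else one) else if i = j then one else zer

/-- the data of an equation -/
def dG (B : ℕ) (pos : ℕ → ℕ → ℕ) (i j : ℕ) : List XGate :=
  cg (bG i j) :: (List.range (B + 2)).flatMap fun i' => (List.range (B + 2)).map fun j' =>
    if i' = i ∧ j' = j then cG pos i j else cg zer

/-- the gates for a theta body; the edge `(i, j)` is given by the value number `pos i j` -/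
def thG (s B : ℕ) (pos : ℕ → ℕ → ℕ) : List XGate :=
  cg (twop (B + 4)) :: (((List.range (B + 1)).flatMap fun i => (List.range (B + 1)).flatMap fun j =>
    dG B pos i j) ++ [(true, (B + 2, s + 1, (B + 1) * (B + 1), zer))])

/-- the number of gates for an equation -/
def nD (B : ℕ) : ℕ := (B + 2) * (B + 2) + 1

lemma dG_length (B : ℕ) (pos : ℕ → ℕ → ℕ) (i j : ℕ) : (dG B pos i j).length = nD B := by
  unfold dG nD
  rw [List.length_cons, len_flatMap (m := B + 2) (fun _ => by simp)]

/-- the number of gates for a theta body -/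
def nT (B : ℕ) : ℕ := 2 + nD B * (B + 1) * (B + 1)

lemma thG_length (s B : ℕ) (pos : ℕ → ℕ → ℕ) : (thG s B pos).length = nT B := by
  unfold thG nT
  rw [List.length_cons, List.length_append, len_flatMap (m := nD B * (B + 1))
    (fun i => len_flatMap (fun j => dG_length B pos i j) _)]
  simp only [List.length_cons, List.length_nil]
  omega

theorem thG_val {C : List XGate} {s B : ℕ} {pos : ℕ → ℕ → ℕ} (h : At C s (thG s B pos))
    (hpos : ∀ i < B, ∀ j < B, pos i j ≤ s ∧ (evX C (pos i j) = 0 ∨ evX C (pos i j) = 1)) :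
    ((fun _ => 1 / 8) ∈ TH (gEd B fun i j => evX C (pos i j)) → evX C (s + nT B) = 1) ∧
    ((fun _ => 1 / 8) ∉ TH (gEd B fun i j => evX C (pos i j)) → evX C (s + nT B) = 0) := by
  classical
  -- bits
  let e : ℕ → ℕ → ℝ := fun i j => if i < B ∧ j < B then evX C (pos i j) else 0
  have he : ∀ i j, e i j = 0 ∨ e i j = 1 := by
    intro i j
    simp only [e]
    split_ifs with h1
    · exact (hpos i h1.1 j h1.2).2
    · exact Or.inl rfl
  have hgE : gEd B (fun i j => evX C (pos i j)) = gEd B e := by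
    ext i j
    have h1 : e i j = evX C (pos i j) := if_pos ⟨i.2, j.2⟩
    have h2 : e j i = evX C (pos j i) := if_pos ⟨j.2, i.2⟩
    change (i ≠ j ∧ (evX C (pos i j) = 1 ∨ evX C (pos j i) = 1)) ↔ (i ≠ j ∧ (e i j = 1 ∨ e j i = 1))
    rw [h1, h2]
  rw [hgE]
  unfold thG at h
  have h1 := h.tail
  have h2 := h1.left
  have h3 := h1.right
  rw [len_flatMap (m := nD B * (B + 1)) (fun i => len_flatMap (fun j => dG_length B pos i j) _)]
    at h3
  set K := s + 1 + nD B * (B + 1) * (B + 1) with hK
  have hg : C[K + 0]? = some (true, (B + 2, s + 1, (B + 1) * (B + 1), zer)) := h3.get rfl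
  set d : ℕ → ℝ := fun u => evX C (idx K (s + 1 + u)) with hd
  have hval : evX C (s + nT B) = if feas (B + 2) ((B + 1) * (B + 1)) d then 1 else 0 := by
    have e1 : s + nT B = K + 1 := by unfold nT; omega
    rw [e1, evX_succ (by simpa using hg)]
    unfold gv
    rw [if_pos rfl]
  have hdat : ∀ i ≤ B, ∀ j ≤ B, At C (s + 1 + nD B * ((B + 1) * i + j)) (dG B pos i j) := by
    intro i hi j hj
    have a1 := At.flatMap (f := fun i => (List.range (B + 1)).flatMap fun j => dG B pos i j)
      (fun i => len_flatMap (fun j => dG_length B pos i j) _) h2 (Nat.lt_succ_of_le hi)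
    have a2 := At.flatMap (f := fun j => dG B pos i j) (fun j => dG_length B pos i j) a1
      (Nat.lt_succ_of_le hj)
    have e1 : s + 1 + nD B * ((B + 1) * i + j) = s + 1 + nD B * (B + 1) * i + nD B * j := by ring
    rw [e1]
    exact a2
  have hll : ∀ i ≤ B, ∀ j ≤ B, nD B * ((B + 1) * i + j) + nD B ≤ nD B * (B + 1) * (B + 1) := by
    intro i hi j hj
    have b1 : (B + 1) * i + j + 1 ≤ (B + 1) * (B + 1) := by
      have h1 : (B + 1) * (i + 1) ≤ (B + 1) * (B + 1) := Nat.mul_le_mul_left _ (by omega)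
      have h2 : (B + 1) * (i + 1) = (B + 1) * i + (B + 1) := by ring
      omega
    have b2 := Nat.mul_le_mul_left (nD B) b1
    have b3 : nD B * ((B + 1) * i + j + 1) = nD B * ((B + 1) * i + j) + nD B := by ring
    have b4 : nD B * ((B + 1) * (B + 1)) = nD B * (B + 1) * (B + 1) := by ring
    omega
  have hpBl : ∀ i j, pB (B + 2) ((B + 1) * i + j) = 1 + nD B * ((B + 1) * i + j) := by
    intro i j
    unfold pB nD
    ring
  have hpAl : ∀ i j i' j', pA (B + 2) ((B + 1) * i + j) i' j' =
      1 + nD B * ((B + 1) * i + j) + 1 + ((B + 2) * i' + j') := by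
    intro i j i' j'
    unfold pA nD
    ring
  have hfe := feas_th (B := B) (e := e) (d := d) he ?_ ?_ ?_
  · rw [← hfe, hval]
    exact ⟨fun h => if_pos h, fun h => if_neg h⟩
  · have g0 : C[s + 0]? = some (cg (twop (B + 4))) := h.get rfl
    have v0 : evX C (s + 1) = ival (twop (B + 4)) := evX_cg g0
    simp only [hd, Nat.add_zero]
    rw [idx_eq (by omega), v0, ival_twop]
    push_cast
    rfl
  · intro i hi j hj
    have g0 : C[s + 1 + nD B * ((B + 1) * i + j) + 0]? = some (cg (bG i j)) :=
      (hdat i hi j hj).get rfl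
    have v0 : evX C (s + 1 + nD B * ((B + 1) * i + j) + 1) = ival (bG i j) := evX_cg g0
    have hl := hll i hi j hj
    have hn : 1 ≤ nD B := by unfold nD; omega
    simp only [hd]
    rw [hpBl, idx_eq (by omega), show s + 1 + (1 + nD B * ((B + 1) * i + j)) =
      s + 1 + nD B * ((B + 1) * i + j) + 1 by ring, v0]
    unfold bG bb
    split_ifs
    · rw [ival_eight]; norm_num
    · rw [Helper95.Slp.ival_one, Int.cast_one]
    · rw [Helper95.Slp.ival_one, Int.cast_one]
    · rw [ival_zer, Int.cast_zero]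
  · intro i hi j hj i' hi' j' hj'
    have hr : (B + 2) * i' + j' < (B + 2) * (B + 2) := by
      have h1 : (B + 2) * (i' + 1) ≤ (B + 2) * (B + 2) := Nat.mul_le_mul_left _ (by omega)
      have h2 : (B + 2) * (i' + 1) = (B + 2) * i' + (B + 2) := by ring
      omega
    have hget : (dG B pos i j)[(B + 2) * i' + j' + 1]? =
        some (if i' = i ∧ j' = j then cG pos i j else cg zer) := by
      unfold dG
      rw [List.getElem?_cons_succ, getElem?_flatMap_range (B + 2) _ (fun _ => by simp) _ _ _ hi' hj']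
      simp [hj']
    have g0 := (hdat i hi j hj).get hget
    have hl := hll i hi j hj
    have hn : nD B = (B + 2) * (B + 2) + 1 := rfl
    have e1 : s + 1 + (1 + nD B * ((B + 1) * i + j) + 1 + ((B + 2) * i' + j')) =
      s + 1 + nD B * ((B + 1) * i + j) + ((B + 2) * i' + j' + 1) + 1 := by ring
    simp only [hd]
    rw [hpAl, idx_eq (by omega), e1]
    split_ifs at g0 ⊢ with hc
    · unfold cG at g0
      unfold cc
      split_ifs at g0 ⊢ with c1 c2 c3
      · rw [evX_cg g0, Helper95.Slp.ival_one, Int.cast_one]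
      · rw [evX_cg g0, ival_zer, Int.cast_zero]
      · rw [evX_cg g0, Helper95.Slp.ival_one, Int.cast_one]
      · have hp := (hpos (i - 1) (by omega) (j - 1) (by omega)).1
        have v0 := ev_basic g0 (by omega) (Nat.zero_le _)
        rw [v0, evX_zero]
        simp only [opR, mul_one, e]
        rw [if_pos ⟨by omega, by omega⟩]
    · rw [evX_cg g0, ival_zer, Int.cast_zero]

end Pool.Agent.Helper7.SC
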