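import Pool.Agent.Helper7.SC.DigitClause
import Pool.Agent.Helper7.SC.Sharp2
import Pool.Agent.Helper72.AC.Adv

set_option autoImplicit false

/-!
A choice of representations `n = f(n) + (n - f(n))` with both summands in a set `A` with few
representations on average cannot be guessed, not even with a small advantage, by functions of
small average sensitivity: functions of few digits of `n` (where the bound is sharp), circuits of
constant depth, and functions of small total influence in general. The definitions are in the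
file `Defs` of `Pool/Agent/Helper57/U2`, with `digitSensitivity` in `Pool/Agent/Helper7/SC`.
-/

namespace Pool.Agent.Helper7.SC.V2

open Finset Filter Pool.Agent.Helper57.U2
open Pool.Agent.Helper72.AC (Circ)
open Pool.Agent.Helper7.SC (digitSensitivity)

theorem result :
    (∀ (b w : ℕ) (ε δ : ℝ), 2 ≤ b → 0 < ε → 0 < δ → ∃ c : ℝ, 0 < c ∧
      ∀ (A D : Set ℕ) (f : ℕ → ℕ), IsChoice A D f → ∀ K : ℕ,
      δ * (b : ℝ) ^ K ≤ #(upTo D (b ^ K)) → ∀ J : ℕ → ℕ → ℕ, Guesses b K ε D f J →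
        (∀ s : ℝ, 1 ≤ s → sensitivity b K J ≤ s →
          c * (b : ℝ) ^ K * Real.exp (c * K / s) ≤ ∑ n ∈ range (2 * b ^ K), (rep A n : ℝ) ^ 2) ∧
        (∀ s : ℝ, 1 ≤ s → digitSensitivity b K J ≤ s →
          c * (b : ℝ) ^ K * Real.exp (c * K / (s * Real.log (K + 2))) ≤
            ∑ n ∈ range (2 * b ^ K), (rep A n : ℝ) ^ 2) ∧
        (∀ v : ℕ, 1 ≤ v → (∀ i < K, FewDigits b v (J i)) →
          c * (b : ℝ) ^ K * Real.exp (c * K / v) ≤ ∑ n ∈ range (2 * b ^ K), (rep A n : ℝ) ^ 2) ∧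
        ((∀ i < K, MemoryAndFewDigits b w i (J i)) →
          c * (b : ℝ) ^ K * √K ≤ ∑ n ∈ range (2 * b ^ K), (rep A n : ℝ) ^ 2)) ∧
    (∃ C : ℝ, 0 < C ∧ ∀ b v m : ℕ, 2 ≤ b → ∃ (A : Set ℕ) (f : ℕ → ℕ),
      IsChoice A {n | n < b ^ (v * m)} f ∧
      (∀ i < v * m, FewDigits b v fun n => digit b i (f n)) ∧
      ∑ n ∈ range (2 * b ^ (v * m)), (rep A n : ℝ) ^ 2 ≤ (b : ℝ) ^ (v * m) * Real.exp (C * m)) ∧
    (∀ (d k : ℕ) (ε δ τ : ℝ), 0 < ε → 0 < δ → 0 < τ → ∀ᶠ K : ℕ in atTop,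
      ∀ (A D : Set ℕ) (f : ℕ → ℕ), IsChoice A D f → δ * 2 ^ K ≤ #(upTo D (2 ^ K)) →
      ∀ J : ℕ → ℕ → ℕ, Guesses 2 K ε D f J →
      (∀ i < K, Circ K (K ^ k) d fun x => (J i (Nat.ofBits x)).testBit 0) →
        2 ^ K * Real.exp ((K : ℝ) ^ (1 - τ)) ≤ ∑ n ∈ range (2 * 2 ^ K), (rep A n : ℝ) ^ 2) := by
  refine ⟨fun b w ε δ hb hε hδ => ?_, ?_, fun d k ε δ τ hε hδ hτ =>
    Pool.Agent.Helper72.Adv.advantage d k τ δ ε hτ hδ hε⟩
  · obtain ⟨c, hc, h⟩ := main b w hb ε δ hε hδ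
    have hb0 : (0 : ℝ) < b := by
      have : 0 < b := by omega
      exact_mod_cast this
    have hle : ∀ (K : ℕ) (t : ℝ), 0 < t → c / 4 * (b : ℝ) ^ K * Real.exp (c / 4 * K / t) ≤
        c * (b : ℝ) ^ K * Real.exp (c * K / t) := by
      intro K t ht
      have hK : (0 : ℝ) ≤ K := Nat.cast_nonneg _
      have h1 : c / 4 * (b : ℝ) ^ K ≤ c * (b : ℝ) ^ K :=
        mul_le_mul_of_nonneg_right (by linarith) (by positivity)
      have h2 : c / 4 * K / t ≤ c * K / t := by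
        refine (div_le_div_iff_of_pos_right ht).2 ?_
        exact mul_le_mul_of_nonneg_right (by linarith) hK
      exact mul_le_mul h1 (Real.exp_le_exp.2 h2) (Real.exp_pos _).le (by positivity)
    refine ⟨c / 4, by positivity, fun A D f hf K hD J hJ => ?_⟩
    obtain ⟨h1, h2, h3⟩ := (h A D f hf).1 K hD J hJ
    refine ⟨fun s hs hsens => (hle K s (by linarith)).trans (h1 s hs hsens),
      fun s hs hsens => Pool.Agent.Helper7.SC.digit_of hb hc hs h1 hsens,
      fun v hv hJv => (hle K v (by exact_mod_cast hv)).trans (h2 v hv hJv),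
      fun hJm => le_trans ?_ (h3 hJm)⟩
    refine mul_le_mul_of_nonneg_right ?_ (Real.sqrt_nonneg _)
    exact mul_le_mul_of_nonneg_right (by linarith) (by positivity)
  · obtain ⟨C, hC, h⟩ := Pool.Agent.Helper7.SC.sharp
    refine ⟨C, hC, fun b v m hb => ?_⟩
    obtain ⟨A, f, h1, h2, h3⟩ := h b v m hb
    exact ⟨A, f, h1, h2, h3⟩

end Pool.Agent.Helper7.SC.V2
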