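import Pool.Agent.Helper7.SC.DP.Clause
import Pool.Agent.Helper7.SC.DigitClause
import Pool.Agent.Helper7.SC.Sharp2
import Pool.Agent.Helper72.AC.Tot
import Pool.Agent.Helper72.AC.Struct
import Pool.Agent.Helper45.SE.Una

set_option autoImplicit false

/-!
A choice of representations `n = f(n) + (n - f(n))` with both summands in a set `A` with few
representations on average cannot be guessed, not even with a small advantage and not even on a
sparse set of integers `n`, by functions of few digits of `n`, and this is sharp; nor by functions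
of small average sensitivity, unate functions and small formulas among them; nor from all lower
digits and a few more. The definitions are in the file `Defs` of `Pool/Agent/Helper57/U2`, with
`digitSensitivity` in `Pool/Agent/Helper7/SC`, `OfUnate` and `Formula` in
`Pool/Agent/Helper45/SE`, `Sums` in `Pool/Agent/Helper72/AC`.
-/

namespace Pool.Agent.Helper7.SC.V3

open Finset Filter Pool.Agent.Helper57.U2
open Pool.Agent.Helper7.SC (digitSensitivity)
open Pool.Agent.Helper45.SE (OfUnate Formula)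
open Pool.Agent.Helper72.Struct (Sums)

theorem result :
    (∀ (b : ℕ) (ε : ℝ), 2 ≤ b → 0 < ε → ∃ c : ℝ, 0 < c ∧
      ∀ (A D : Set ℕ) (f : ℕ → ℕ), IsChoice A D f → ∀ (K : ℕ) (J : ℕ → ℕ → ℕ),
      Guesses b K ε D f J → ∀ v : ℕ, 1 ≤ v → (∀ i < K, FewDigits b v (J i)) →
        c * (#(upTo D (b ^ K)) : ℝ) ^ 2 / (b : ℝ) ^ K * Real.exp (c * K / v) ≤
          ∑ n ∈ range (2 * b ^ K), (rep A n : ℝ) ^ 2) ∧
    (∃ C : ℝ, 0 < C ∧ ∀ b v m : ℕ, 2 ≤ b → ∃ (A : Set ℕ) (f : ℕ → ℕ),
      IsChoice A {n | n < b ^ (v * m)} f ∧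
      (∀ i < v * m, FewDigits b v fun n => digit b i (f n)) ∧
      ∑ n ∈ range (2 * b ^ (v * m)), (rep A n : ℝ) ^ 2 ≤ (b : ℝ) ^ (v * m) * Real.exp (C * m)) ∧
    (∀ (b w : ℕ) (ε δ : ℝ), 2 ≤ b → 0 < ε → 0 < δ → ∃ c : ℝ, 0 < c ∧
      ∀ (A D : Set ℕ) (f : ℕ → ℕ), IsChoice A D f → ∀ K : ℕ,
      δ * (b : ℝ) ^ K ≤ #(upTo D (b ^ K)) → ∀ J : ℕ → ℕ → ℕ, Guesses b K ε D f J →
        (∀ s : ℝ, 1 ≤ s → sensitivity b K J ≤ s →
          c * (b : ℝ) ^ K * Real.exp (c * K / s) ≤ ∑ n ∈ range (2 * b ^ K), (rep A n : ℝ) ^ 2) ∧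
        (∀ s : ℝ, 1 ≤ s → digitSensitivity b K J ≤ s →
          c * (b : ℝ) ^ K * Real.exp (c * K / (s * Real.log (K + 2))) ≤
            ∑ n ∈ range (2 * b ^ K), (rep A n : ℝ) ^ 2) ∧
        (b = 2 → ∀ k : ℕ, 1 ≤ k →
          (∀ i < K, OfUnate k fun x : Fin K → Bool => (J i (Nat.ofBits x)).testBit 0) →
          c * (b : ℝ) ^ K * Real.exp (c * √K / (k * Real.log (K + 2))) ≤
            ∑ n ∈ range (2 * b ^ K), (rep A n : ℝ) ^ 2) ∧
        (b = 2 → ∀ L : ℕ, 1 ≤ L →
          (∀ i < K, ∃ M ≤ L, Formula M fun x : Fin K → Bool => (J i (Nat.ofBits x)).testBit 0) →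
          c * (b : ℝ) ^ K * Real.exp (c * K / (√L * Real.log (K + 2))) ≤
            ∑ n ∈ range (2 * b ^ K), (rep A n : ℝ) ^ 2) ∧
        ((∀ i < K, MemoryAndFewDigits b w i (J i)) →
          c * (b : ℝ) ^ K * √K ≤ ∑ n ∈ range (2 * b ^ K), (rep A n : ℝ) ^ 2)) ∧
    (∀ (b : ℕ) (C c : ℝ), 2 ≤ b → 0 < C → 0 < c → ∃ c' : ℝ, 0 < c' ∧
      ∀ A : Set ℕ, (∀ n, (rep A n : ℝ) ≤ C) → (∀ᶠ x : ℕ in atTop, c * √x ≤ #(upTo A x)) →
      ∀ f : ℕ → ℕ, IsChoice A (Sums A) f → ∀ᶠ K : ℕ in atTop,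
        c' * ((K : ℝ) ^ 2 * (b : ℝ) ^ K) ≤ ∑ i ∈ range K, ∑ j ∈ range K,
          (#{n ∈ range (b ^ K) | digit b i (f n) ≠ digit b i (f ((n + b ^ j) % b ^ K))} : ℝ)) := by
  refine ⟨fun b ε hb hε => Pool.Agent.Helper7.SC.DP.sparse_clause b hb ε hε, ?_,
    fun b w ε δ hb hε hδ => ?_, fun b C c hb hC hc =>
      Pool.Agent.Helper72.Struct.sensitive b hb C c hC hc⟩
  · obtain ⟨C, hC, h⟩ := Pool.Agent.Helper7.SC.sharp
    refine ⟨C, hC, fun b v m hb => ?_⟩
    obtain ⟨A, f, h1, h2, h3⟩ := h b v m hb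
    exact ⟨A, f, h1, h2, h3⟩
  · obtain ⟨c₁, hc₁, h⟩ := main b w hb ε δ hε hδ
    obtain ⟨c₂, hc₂, ht⟩ := Pool.Agent.Helper72.Infl.tot_clause ε δ hε hδ
    have hb0 : (0 : ℝ) < b := by
      have : 0 < b := by omega
      exact_mod_cast this
    have hle : ∀ (c c' y E : ℝ) (K : ℕ), 0 < c → c ≤ c' → 0 ≤ y →
        c' * (b : ℝ) ^ K * Real.exp (c' * y) ≤ E → c * (b : ℝ) ^ K * Real.exp (c * y) ≤ E := by
      intro c c' y E K hc hcc hy hE
      refine le_trans ?_ hE
      have h1 : c * (b : ℝ) ^ K ≤ c' * (b : ℝ) ^ K :=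
        mul_le_mul_of_nonneg_right hcc (by positivity)
      have h2 : c * y ≤ c' * y := mul_le_mul_of_nonneg_right hcc hy
      have h3 : 0 ≤ c' := hc.le.trans hcc
      exact mul_le_mul h1 (Real.exp_le_exp.2 h2) (Real.exp_pos _).le (by positivity)
    obtain ⟨c, hc⟩ : ∃ c : ℝ, c = min (c₁ / 4) (min c₂ δ) := ⟨_, rfl⟩
    have hc0 : 0 < c := by rw [hc]; exact lt_min (by positivity) (lt_min hc₂ hδ)
    have hcc₁ : c ≤ c₁ / 4 := by rw [hc]; exact min_le_left _ _
    have hcc₂ : c ≤ c₂ := by rw [hc]; exact (min_le_right _ _).trans (min_le_left _ _)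
    have hcδ : c ≤ δ := by rw [hc]; exact (min_le_right _ _).trans (min_le_right _ _)
    refine ⟨c, hc0, fun A D f hf K hD J hJ => ?_⟩
    obtain ⟨h1, h2, h3⟩ := (h A D f hf).1 K hD J hJ
    have hlog : ∀ K : ℕ, 0 ≤ Real.log ((K : ℝ) + 2) := fun K =>
      Real.log_nonneg (by have : (0 : ℝ) ≤ K := Nat.cast_nonneg _
                          linarith)
    refine ⟨fun s hs hsens => ?_, fun s hs hsens => ?_, ?_, ?_, fun hJm => ?_⟩
    · have h4 := h1 s hs hsens
      rw [mul_div_assoc] at h4 ⊢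
      exact hle c c₁ _ _ K hc0 (by linarith) (by positivity) h4
    · have h4 := Pool.Agent.Helper7.SC.digit_of hb hc₁ hs h1 hsens
      have hl := hlog K
      rw [mul_div_assoc] at h4 ⊢
      exact hle c (c₁ / 4) _ _ K hc0 hcc₁ (by positivity) h4
    · intro hb2 k hk hU
      subst hb2
      rcases Nat.eq_zero_or_pos K with hK | hK
      · subst hK
        refine trivial_bound hf (le_trans ?_ hD)
        simp only [pow_zero, Nat.cast_zero, Real.sqrt_zero, mul_zero, zero_div, Real.exp_zero,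
          mul_one]
        exact hcδ
      have hk1 : (1 : ℝ) ≤ k := by exact_mod_cast hk
      have hK1 : (1 : ℝ) ≤ K := by exact_mod_cast hK
      have hs1 : 1 ≤ √(K : ℝ) := Real.one_le_sqrt.2 hK1
      have h4 := ht A D f hf K hK (by simpa using hD) J hJ (k * √K) (by nlinarith)
        (fun i hi => Pool.Agent.Helper45.SE.ofUnate_tot (hU i hi))
      have hl := hlog K
      have e1 : c₂ * (K : ℝ) / (k * √K * Real.log (K + 2)) =
          c₂ * (√K / (k * Real.log (K + 2))) := by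
        have h5 : (K : ℝ) = √K * √K := (Real.mul_self_sqrt (by linarith)).symm
        have h6 : √(K : ℝ) ≠ 0 := by positivity
        have h7 : c₂ * (√(K : ℝ) * √K) / (k * √K * Real.log (K + 2)) =
            c₂ * (√K / (k * Real.log (K + 2))) := by
          rw [mul_div_assoc]
          congr 1
          rw [mul_comm (k : ℝ) (√K), mul_assoc (√(K : ℝ)) (k : ℝ), mul_div_mul_left _ _ h6]
        rw [← h5] at h7
        exact h7
      rw [e1] at h4
      rw [mul_div_assoc]
      refine hle c c₂ _ _ K hc0 hcc₂ (by positivity) ?_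
      push_cast
      exact h4
    · intro hb2 L hL hF
      subst hb2
      rcases Nat.eq_zero_or_pos K with hK | hK
      · subst hK
        refine trivial_bound hf (le_trans ?_ hD)
        simp only [pow_zero, Nat.cast_zero, mul_zero, zero_div, Real.exp_zero, mul_one]
        exact hcδ
      have hL1 : (1 : ℝ) ≤ L := by exact_mod_cast hL
      have hs1 : 1 ≤ √(L : ℝ) := Real.one_le_sqrt.2 hL1
      have h4 := ht A D f hf K hK (by simpa using hD) J hJ (√L) hs1
        (fun i hi => by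
          obtain ⟨M, hM, hF1⟩ := hF i hi
          refine (Pool.Agent.Helper45.SE.formula_tot hF1).trans ?_
          refine mul_le_mul_of_nonneg_right (Real.sqrt_le_sqrt ?_) (by positivity)
          exact_mod_cast hM)
      have hl := hlog K
      rw [mul_div_assoc] at h4 ⊢
      refine hle c c₂ _ _ K hc0 hcc₂ (by positivity) ?_
      push_cast
      exact h4
    · refine le_trans ?_ (h3 hJm)
      refine mul_le_mul_of_nonneg_right ?_ (Real.sqrt_nonneg _)
      exact mul_le_mul_of_nonneg_right (by linarith) (by positivity)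

end Pool.Agent.Helper7.SC.V3
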